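import Mathlib

/-! MP_10e784_ag: quadratic twists of split hyperelliptic curves.  Basic definitions. -/

namespace QT

open Finset

/-- squarefree-supported multiplicative extension of a function given on primes:
`pf w n = ∏_{p ∣ n} w p` (used only for squarefree `n`). -/
noncomputable def pf (w : ℕ → ℝ) (n : ℕ) : ℝ := ∏ p ∈ n.primeFactors, w p

/-- the character `n ↦ (b/n)` for odd `n`, and `0` for even `n` -/
noncomputable def chi (b : ℤ) (n : ℕ) : ℝ := if Odd n then (jacobiSym b n : ℝ) else 0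

/-- a completely multiplicative real function with values in `[-1,1]` whose Dirichlet series
is at most `B` on `(1,∞)` -/
structure CharB (χ : ℕ → ℝ) (B : ℝ) : Prop where
  zero : χ 0 = 0
  one : χ 1 = 1
  mul : ∀ m n, χ (m * n) = χ m * χ n
  le : ∀ n, |χ n| ≤ 1
  hB : 1 ≤ B
  bound : ∀ σ : ℝ, 1 < σ → ∑' n : ℕ, χ n * (n : ℝ) ^ (-σ) ≤ B

/-- the local conditions: for every prime `p ∣ e i` all the numbers `θ i j * e j` (`j ≠ i`) lie in the
same class of units modulo squares mod `p` -/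
def Loc {ι : Type} (θ : ι → ι → ℤ) (e : ι → ℕ) : Prop :=
  ∀ i, ∀ p : ℕ, p.Prime → p ∣ e i → ∀ j, j ≠ i → ∀ k, k ≠ i →
    jacobiSym ((θ i j * e j) * (θ i k * e k)) p = 1

/-- the good vectors: for some `i ∈ A` all the products are squares -/
def Good {ι : Type} (θ : ι → ι → ℤ) (A : Finset ι) (e : ι → ℕ) : Prop :=
  ∃ i ∈ A, ∀ j, j ≠ i → ∀ k, k ≠ i → IsSquare ((θ i j * e j) * (θ i k * e k))

/-- a label system: labels `ℓ` with an index `idx ℓ ∈ I` and a set `St ℓ ⊆ I` not containing it -/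
structure Sys (κ L : Type) where
  idx : L → κ
  St : L → Finset κ
  I : Finset κ
  idx_mem : ∀ ℓ, idx ℓ ∈ I
  St_sub : ∀ ℓ, St ℓ ⊆ I
  not_mem : ∀ ℓ, idx ℓ ∉ St ℓ
  inj : ∀ ℓ ℓ', idx ℓ = idx ℓ' → St ℓ = St ℓ' → ℓ = ℓ'

/-- the product of the variables belonging to the index `i` -/
def eOf {κ L : Type} [Fintype L] [DecidableEq κ] (s : Sys κ L) (d : L → ℕ) (i : κ) : ℕ :=
  ∏ ℓ with s.idx ℓ = i, d ℓ

/-- the summand after expansion -/
noncomputable def FF {κ L : Type} [Fintype κ] [Fintype L] [DecidableEq κ] (s : Sys κ L)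
    (u : L → ℕ → ℝ) (k : κ → ℕ → ℝ) (d : L → ℕ) : ℝ :=
  (∏ i, k i (eOf s d i)) * ∏ ℓ, (pf (u ℓ) (d ℓ) * ∏ j ∈ s.St ℓ, (jacobiSym (eOf s d j) (d ℓ) : ℝ))

/-- two labels are linked (in this order) -/
def Linked {κ L : Type} (s : Sys κ L) (ℓ0 ℓ1 : L) : Prop :=
  s.idx ℓ0 ≠ s.idx ℓ1 ∧ s.idx ℓ0 ∈ s.St ℓ1 ∧ s.idx ℓ1 ∉ s.St ℓ0

/-- vectors with entries in `[1,X]`, squarefree product at most `X` -/
noncomputable def Box (L : Type) [Fintype L] [DecidableEq L] (X : ℕ) : Finset (L → ℕ) :=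
  (Fintype.piFinset fun _ : L => Icc 1 X).filter fun d => ∏ ℓ, d ℓ ≤ X ∧ Squarefree (∏ ℓ, d ℓ)

end QT
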