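import Pool.Agent.Lib.MP_10e784_ag.QDefs

/-! JOB QChooseV.  Elementary analysis: the choice `V = exp((log N)^(1/(M(K+1))))`, `τ = V^K`, with `1/M ≤ 1/4 - η`. -/

namespace QT

/-- the estimates in terms of `L = log N` -/
private theorem QChooseV_aux (M : ℕ) (hM : 8 ≤ M) (K : ℕ) (L : ℝ) (hL : 1 ≤ L) (hLK : (K : ℝ) ^ 4 ≤ L) :
    (K : ℝ) * K * L ^ (1 / ((M : ℝ) * ((K : ℝ) + 1))) ≤ L ∧
    (1 + (K : ℝ) * L ^ (1 / ((M : ℝ) * ((K : ℝ) + 1)))) ^ K ≤ (1 + (K : ℝ)) ^ K * L ^ (1 / (M : ℝ)) ∧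
    (1 + L) ^ K * Real.exp (-(L ^ (1 / ((M : ℝ) * ((K : ℝ) + 1))) / 16)) ≤
      2 ^ K * (16 ^ (M * (K + 1) ^ 2) * ((M * (K + 1) ^ 2).factorial : ℝ)) *
        L ^ (-(1 / 4) : ℝ) := by
  have hL0 : 0 < L := by linarith
  have hM8 : (8 : ℝ) ≤ (M : ℝ) := by exact_mod_cast hM
  have hM0 : (0 : ℝ) < (M : ℝ) := by linarith
  have hK : (0 : ℝ) ≤ (K : ℝ) := Nat.cast_nonneg K
  have hK1 : (0 : ℝ) < (K : ℝ) + 1 := by linarith
  obtain ⟨δ, hδ⟩ : ∃ δ : ℝ, δ = 1 / ((M : ℝ) * ((K : ℝ) + 1)) := ⟨_, rfl⟩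
  rw [← hδ]
  have hδ0 : 0 < δ := by rw [hδ]; positivity
  have hδ1 : δ ≤ 1 / 8 := by
    rw [hδ]
    refine one_div_le_one_div_of_le (by norm_num) ?_
    nlinarith
  have hu1 : 1 ≤ L ^ δ := Real.one_le_rpow hL hδ0.le
  refine ⟨?_, ?_, ?_⟩
  · have h1 : L ^ δ ≤ L ^ (1 / 2 : ℝ) := Real.rpow_le_rpow_of_exponent_le hL (by linarith)
    have h2 : (K : ℝ) * K ≤ L ^ (1 / 2 : ℝ) := by
      rw [← Real.sqrt_eq_rpow]
      refine Real.le_sqrt_of_sq_le ?_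
      calc ((K : ℝ) * K) ^ 2 = (K : ℝ) ^ 4 := by ring
        _ ≤ L := hLK
    calc (K : ℝ) * K * L ^ δ ≤ L ^ (1 / 2 : ℝ) * L ^ (1 / 2 : ℝ) :=
          mul_le_mul h2 h1 (by positivity) (by positivity)
      _ = L := by
          rw [← Real.rpow_add hL0]
          norm_num
  · have h1 : 1 + (K : ℝ) * L ^ δ ≤ (1 + (K : ℝ)) * L ^ δ := by nlinarith
    calc (1 + (K : ℝ) * L ^ δ) ^ K ≤ ((1 + (K : ℝ)) * L ^ δ) ^ K :=
          pow_le_pow_left₀ (by positivity) h1 K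
      _ = (1 + (K : ℝ)) ^ K * (L ^ δ) ^ K := mul_pow _ _ _
      _ ≤ (1 + (K : ℝ)) ^ K * L ^ (1 / (M : ℝ)) := by
          refine mul_le_mul_of_nonneg_left ?_ (by positivity)
          rw [← Real.rpow_mul_natCast hL0.le]
          refine Real.rpow_le_rpow_of_exponent_le hL ?_
          rw [hδ]
          rw [div_mul_eq_mul_div, one_mul, div_le_div_iff₀ (by positivity) (by positivity)]
          nlinarith
  · have hm : (0 : ℝ) < ((M * (K + 1) ^ 2).factorial : ℝ) := by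
      exact_mod_cast Nat.factorial_pos _
    have h1 : (L ^ δ / 16) ^ (M * (K + 1) ^ 2) / ((M * (K + 1) ^ 2).factorial : ℝ) ≤
        Real.exp (L ^ δ / 16) := Real.pow_div_factorial_le_exp (L ^ δ / 16) (by positivity) _
    have h2 : (L ^ δ) ^ (M * (K + 1) ^ 2) = L ^ (K + 1) := by
      rw [← Real.rpow_mul_natCast hL0.le, ← Real.rpow_natCast L (K + 1)]
      congr 1
      rw [hδ]
      push_cast
      field_simp
    rw [div_pow, h2, div_div, div_le_iff₀ (by positivity)] at h1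
    have h3 : (1 + L) ^ K ≤ 2 ^ K * L ^ K := by
      rw [← mul_pow]
      exact pow_le_pow_left₀ (by linarith) (by linarith) K
    have h4 : L ^ K ≤ L ^ (K + 1) * L ^ (-(1 / 4) : ℝ) := by
      rw [pow_succ, mul_assoc]
      refine le_mul_of_one_le_right (by positivity) ?_
      rw [← Real.rpow_one_add' hL0.le (by norm_num)]
      exact Real.one_le_rpow hL (by norm_num)
    have hE : 0 < Real.exp (L ^ δ / 16) := Real.exp_pos _
    have h5 : Real.exp (-(L ^ δ / 16)) = (Real.exp (L ^ δ / 16))⁻¹ := Real.exp_neg _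
    rw [h5, ← div_eq_mul_inv, div_le_iff₀ hE]
    have hL4 : 0 < L ^ (-(1 / 4) : ℝ) := Real.rpow_pos_of_pos hL0 _
    calc (1 + L) ^ K ≤ 2 ^ K * L ^ K := h3
      _ ≤ 2 ^ K * (L ^ (K + 1) * L ^ (-(1 / 4) : ℝ)) :=
          mul_le_mul_of_nonneg_left h4 (by positivity)
      _ ≤ 2 ^ K * ((Real.exp (L ^ δ / 16) *
            (16 ^ (M * (K + 1) ^ 2) * ((M * (K + 1) ^ 2).factorial : ℝ))) *
            L ^ (-(1 / 4) : ℝ)) := by
          refine mul_le_mul_of_nonneg_left ?_ (by positivity)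
          exact mul_le_mul_of_nonneg_right h1 hL4.le
      _ = _ := by ring

theorem chooseV (η : ℝ) (hη : η < 1 / 4) (K : ℕ) :
    ∃ (C : ℝ) (N0 : ℕ), 0 < C ∧ ∀ N : ℕ, N0 ≤ N → ∃ V : ℝ, 1 ≤ V ∧ (V ^ K) ^ K ≤ N ∧
    (1 + Real.log N) ^ K * V ^ (-(1 / 16) : ℝ) * (1 + Real.log (V ^ K)) ^ K ≤ C * Real.log N ^ (-η) ∧
    Real.log N ^ (-(1 / 4) : ℝ) * (1 + Real.log (V ^ K)) ^ K ≤ C * Real.log N ^ (-η) := by
  obtain ⟨M0, hM0⟩ := exists_nat_ge (1 / (1 / 4 - η))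
  obtain ⟨M, hMdef⟩ : ∃ M : ℕ, M = max M0 8 := ⟨_, rfl⟩
  have hM : 8 ≤ M := by rw [hMdef]; exact le_max_right _ _
  have hMM : (1 / (1 / 4 - η)) ≤ (M : ℝ) := by
    refine hM0.trans ?_
    rw [hMdef]
    exact_mod_cast le_max_left _ _
  have hpos : 0 < 1 / 4 - η := by linarith
  have hMp : (0 : ℝ) < (M : ℝ) := by
    have : (8 : ℝ) ≤ (M : ℝ) := by exact_mod_cast hM
    linarith
  have hexp : -(1 / 4) + 1 / (M : ℝ) ≤ -η := by
    have : 1 / (M : ℝ) ≤ 1 / 4 - η := by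
      rw [div_le_iff₀ hpos] at hMM
      rw [div_le_iff₀ hMp]
      linarith
    linarith
  have hm : (1 : ℝ) ≤ ((M * (K + 1) ^ 2).factorial : ℝ) := by
    exact_mod_cast Nat.factorial_pos _
  obtain ⟨C1, hC1⟩ : ∃ C1 : ℝ, C1 =
    2 ^ K * (16 ^ (M * (K + 1) ^ 2) * ((M * (K + 1) ^ 2).factorial : ℝ)) := ⟨_, rfl⟩
  have hC11 : 1 ≤ C1 := by
    rw [hC1]
    refine one_le_mul_of_one_le_of_one_le (one_le_pow₀ (by norm_num)) ?_
    exact one_le_mul_of_one_le_of_one_le (one_le_pow₀ (by norm_num)) hm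
  refine ⟨C1 * (1 + (K : ℝ)) ^ K, ⌈Real.exp (1 + (K : ℝ) ^ 4)⌉₊, by positivity, ?_⟩
  intro N hN
  have hN1 : Real.exp (1 + (K : ℝ) ^ 4) ≤ (N : ℝ) := (Nat.le_ceil _).trans (by exact_mod_cast hN)
  have hN0 : (0 : ℝ) < N := (Real.exp_pos _).trans_le hN1
  have hL : 1 + (K : ℝ) ^ 4 ≤ Real.log N := (Real.le_log_iff_exp_le hN0).2 hN1
  have hK4 : (0 : ℝ) ≤ (K : ℝ) ^ 4 := by positivity
  obtain ⟨L, hLdef⟩ : ∃ L : ℝ, L = Real.log N := ⟨_, rfl⟩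
  rw [← hLdef] at hL ⊢
  have hL1 : 1 ≤ L := by linarith
  have hL0 : 0 < L := by linarith
  obtain ⟨a1, a2, a3⟩ := QChooseV_aux M hM K L hL1 (by linarith)
  obtain ⟨u, hu⟩ : ∃ u : ℝ, u = L ^ (1 / ((M : ℝ) * ((K : ℝ) + 1))) := ⟨_, rfl⟩
  rw [← hu] at a1 a2 a3
  rw [← hC1] at a3
  have hu0 : 0 < u := by rw [hu]; exact Real.rpow_pos_of_pos hL0 _
  have hlog : Real.log (Real.exp u ^ K) = K * u := by
    rw [Real.log_pow, Real.log_exp]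
  have hV : (Real.exp u) ^ (-(1 / 16) : ℝ) = Real.exp (-(u / 16)) := by
    rw [← Real.exp_mul]
    congr 1
    ring
  have h8 : L ^ (-(1 / 4) : ℝ) * L ^ (1 / (M : ℝ)) ≤ L ^ (-η) := by
    rw [← Real.rpow_add hL0]
    exact Real.rpow_le_rpow_of_exponent_le hL1 hexp
  refine ⟨Real.exp u, Real.one_le_exp hu0.le, ?_, ?_, ?_⟩
  · rw [← pow_mul, ← Real.exp_nat_mul]
    calc Real.exp (((K * K : ℕ) : ℝ) * u) ≤ Real.exp L := by
          refine Real.exp_le_exp.2 ?_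
          push_cast
          exact a1
      _ = N := by rw [hLdef, Real.exp_log hN0]
  · rw [hlog, hV]
    have h4 : 0 < L ^ (-(1 / 4) : ℝ) := Real.rpow_pos_of_pos hL0 _
    calc (1 + L) ^ K * Real.exp (-(u / 16)) * (1 + K * u) ^ K
        ≤ (C1 * L ^ (-(1 / 4) : ℝ)) * ((1 + (K : ℝ)) ^ K * L ^ (1 / (M : ℝ))) :=
          mul_le_mul a3 a2 (by positivity) (by positivity)
      _ = C1 * (1 + (K : ℝ)) ^ K * (L ^ (-(1 / 4) : ℝ) * L ^ (1 / (M : ℝ))) := by ring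
      _ ≤ C1 * (1 + (K : ℝ)) ^ K * L ^ (-η) := mul_le_mul_of_nonneg_left h8 (by positivity)
  · rw [hlog]
    have h4 : 0 < L ^ (-(1 / 4) : ℝ) := Real.rpow_pos_of_pos hL0 _
    have h9 : 0 < L ^ (-η) := Real.rpow_pos_of_pos hL0 _
    calc L ^ (-(1 / 4) : ℝ) * (1 + K * u) ^ K
        ≤ L ^ (-(1 / 4) : ℝ) * ((1 + (K : ℝ)) ^ K * L ^ (1 / (M : ℝ))) :=
          mul_le_mul_of_nonneg_left a2 h4.le
      _ = (1 + (K : ℝ)) ^ K * (L ^ (-(1 / 4) : ℝ) * L ^ (1 / (M : ℝ))) := by ring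
      _ ≤ (1 + (K : ℝ)) ^ K * L ^ (-η) := mul_le_mul_of_nonneg_left h8 (by positivity)
      _ = 1 * ((1 + (K : ℝ)) ^ K * L ^ (-η)) := by rw [one_mul]
      _ ≤ C1 * ((1 + (K : ℝ)) ^ K * L ^ (-η)) :=
          mul_le_mul_of_nonneg_right hC11 (by positivity)
      _ = _ := by ring

end QT
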