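import Pool.Agent.Lib.MP_10e784_ag.QPL

/-! JOB QLinked.  A pattern `Z` containing a linked pair contributes little.

Proof.  Let `i0 = idx ℓ0`, `i1 = idx ℓ1`; `i0 ≠ i1`, `i0 ∈ St ℓ1`, `i1 ∉ St ℓ0` (`Linked`), both labels in `Z`.
Let `F d = if Squarefree (∏ d) ∧ (∀ ℓ, ℓ ∈ Z ↔ V < d ℓ) ... then FF s u k d else 0` (pattern conditions for `ℓ ≠ ℓ0, ℓ1` only; those
for `ℓ0, ℓ1` are the conditions `V < d ℓ0`, `V < d ℓ1` of `pl`).  With `b = base ℓ0 ℓ1 d`, `m = d ℓ0`, `n = d ℓ1`, `e_j = eOf s`: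
* `e_j(d) = e_j(b)` for `j ≠ i0, i1`, `e_{i0}(d) = m e_{i0}(b)`, `e_{i1}(d) = n e_{i1}(b)`;
* the factor of `ℓ0`: all `j ∈ St ℓ0` are `≠ i0` (`not_mem`) and `≠ i1`, so it is `pf (u ℓ0) m ∏ (e_j(b)/m)`, a function of `b, m`;
* the factor of `ℓ1`: `j = i0` gives `(m e_{i0}(b)/n) = (m/n)(e_{i0}(b)/n)`, the other `j` give `(e_j(b)/n)`: this is `(m/n)` times a
  function of `b, n`;
* the factor of another `ℓ`: `(e_j(b)/b_ℓ)`, times `(m/b_ℓ)` if `j = i0`, times `(n/b_ℓ)` if `j = i1`;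
* `Squarefree (∏ d)` together with `(m/n) ≠ 0` is equivalent to: `Squarefree (m ∏ b)`, `Squarefree (n ∏ b)` and `(m/n) ≠ 0`
  (coprimality of `m, n` is forced by `(m/n) ≠ 0`; note `n ≠ 0`).
So `F d = α(b,m) β(b,n) (m/n)`, `|α|,|β| ≤ 1`, supports odd (because `u ℓ 2 = 0`) and squarefree.  Apply `pl`. -/

namespace QT

open Finset

section

set_option linter.unusedSectionVars false

variable {κ L : Type} [Fintype κ] [DecidableEq κ] [Fintype L] [DecidableEq L]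

private lemma base_apply (ℓ0 ℓ1 : L) (d : L → ℕ) (ℓ : L) :
    base ℓ0 ℓ1 d ℓ = if ℓ = ℓ1 then 1 else if ℓ = ℓ0 then 1 else d ℓ := by
  unfold base
  rw [Function.update_apply, Function.update_apply]

private lemma pt_base {ℓ0 ℓ1 : L} (h : ℓ0 ≠ ℓ1) (d : L → ℕ) (ℓ : L) :
    d ℓ = (if ℓ = ℓ0 then d ℓ0 else 1) * (if ℓ = ℓ1 then d ℓ1 else 1) * base ℓ0 ℓ1 d ℓ := by
  rw [base_apply]
  by_cases h0 : ℓ = ℓ0
  · subst h0
    simp [h]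
  · by_cases h1 : ℓ = ℓ1
    · subst h1
      simp [h0]
    · simp [h0, h1]

private lemma prod_base {ℓ0 ℓ1 : L} (h : ℓ0 ≠ ℓ1) (d : L → ℕ) (S : Finset L) :
    ∏ ℓ ∈ S, d ℓ = (if ℓ0 ∈ S then d ℓ0 else 1) * (if ℓ1 ∈ S then d ℓ1 else 1) *
      ∏ ℓ ∈ S, base ℓ0 ℓ1 d ℓ := by
  conv_lhs =>
    rw [Finset.prod_congr rfl (fun ℓ _ => pt_base h d ℓ)]
  rw [Finset.prod_mul_distrib, Finset.prod_mul_distrib]
  simp [Finset.prod_ite_eq']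

private lemma prod_base_univ {ℓ0 ℓ1 : L} (h : ℓ0 ≠ ℓ1) (d : L → ℕ) :
    ∏ ℓ, d ℓ = d ℓ0 * d ℓ1 * ∏ ℓ, base ℓ0 ℓ1 d ℓ := by
  have := prod_base h d univ
  simpa using this

private lemma eOf_base (s : Sys κ L) {ℓ0 ℓ1 : L} (h : ℓ0 ≠ ℓ1) (d : L → ℕ) (j : κ) :
    eOf s d j = (if s.idx ℓ0 = j then d ℓ0 else 1) * (if s.idx ℓ1 = j then d ℓ1 else 1) *
      eOf s (base ℓ0 ℓ1 d) j := by
  unfold eOf
  rw [prod_base h d]
  simp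

private lemma pf_abs_le (w : ℕ → ℝ) (hw : ∀ p, |w p| ≤ 1) (n : ℕ) : |pf w n| ≤ 1 := by
  unfold pf
  rw [Finset.abs_prod]
  exact Finset.prod_le_one (fun _ _ => abs_nonneg _) (fun p _ => hw p)

private lemma pf_even (w : ℕ → ℝ) (hw : w 2 = 0) (n : ℕ) (hn : n ≠ 0) (he : ¬ Odd n) : pf w n = 0 := by
  unfold pf
  apply Finset.prod_eq_zero (i := 2)
  · rw [Nat.mem_primeFactors]
    refine ⟨Nat.prime_two, ?_, hn⟩
    rw [Nat.not_odd_iff_even] at he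
    exact he.two_dvd
  · exact hw

private lemma jac_abs_le (a : ℤ) (n : ℕ) : |(jacobiSym a n : ℝ)| ≤ 1 := by
  rcases jacobiSym.trichotomy a n with h | h | h <;> rw [h] <;> simp

private lemma prod_jac_abs_le {ι : Type} (S : Finset ι) (a : ι → ℤ) (n : ℕ) :
    |∏ j ∈ S, (jacobiSym (a j) n : ℝ)| ≤ 1 := by
  rw [Finset.abs_prod]
  exact Finset.prod_le_one (fun _ _ => abs_nonneg _) (fun p _ => jac_abs_le _ _)

open Classical in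
private noncomputable def al (s : Sys κ L) (u : L → ℕ → ℝ) (k : κ → ℕ → ℝ) (V : ℝ) (Z : Finset L)
    (ℓ0 ℓ1 : L) (b : L → ℕ) (m : ℕ) : ℝ :=
  if Squarefree (m * ∏ ℓ, b ℓ) ∧ Odd m ∧ (∀ ℓ, ℓ ≠ ℓ0 → ℓ ≠ ℓ1 → (ℓ ∈ Z ↔ V < b ℓ)) then
    (∏ i ∈ univ.erase (s.idx ℓ1), k i ((if s.idx ℓ0 = i then m else 1) * eOf s b i)) *
    ((pf (u ℓ0) m * ∏ j ∈ s.St ℓ0, (jacobiSym (eOf s b j) m : ℝ)) *
    ∏ ℓ ∈ (univ.erase ℓ0).erase ℓ1, (pf (u ℓ) (b ℓ) *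
      ∏ j ∈ s.St ℓ, (jacobiSym (((if s.idx ℓ0 = j then m else 1) * eOf s b j : ℕ) : ℤ) (b ℓ) : ℝ)))
  else 0

open Classical in
private noncomputable def be (s : Sys κ L) (u : L → ℕ → ℝ) (k : κ → ℕ → ℝ)
    (ℓ0 ℓ1 : L) (b : L → ℕ) (n : ℕ) : ℝ :=
  if Squarefree (n * ∏ ℓ, b ℓ) ∧ Odd n then
    k (s.idx ℓ1) (n * eOf s b (s.idx ℓ1)) *
    ((pf (u ℓ1) n * ∏ j ∈ s.St ℓ1, (jacobiSym (eOf s b j) n : ℝ)) *
    ∏ ℓ ∈ (univ.erase ℓ0).erase ℓ1,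
      ∏ j ∈ s.St ℓ, (jacobiSym (((if s.idx ℓ1 = j then n else 1) : ℕ) : ℤ) (b ℓ) : ℝ))
  else 0

private lemma al_abs (s : Sys κ L) (u : L → ℕ → ℝ) (k : κ → ℕ → ℝ) (V : ℝ) (Z : Finset L)
    (ℓ0 ℓ1 : L) (b : L → ℕ) (m : ℕ) (hu : ∀ ℓ p, |u ℓ p| ≤ 1) (hk : ∀ i n, |k i n| ≤ 1) :
    |al s u k V Z ℓ0 ℓ1 b m| ≤ 1 := by
  unfold al
  split_ifs with h
  · rw [abs_mul, abs_mul, abs_mul]
    refine mul_le_one₀ ?_ (by positivity) (mul_le_one₀ (mul_le_one₀ (pf_abs_le _ (hu _) _)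
      (abs_nonneg _) (prod_jac_abs_le _ _ _)) (abs_nonneg _) ?_)
    · rw [Finset.abs_prod]
      exact Finset.prod_le_one (fun _ _ => abs_nonneg _) (fun i _ => hk _ _)
    · rw [Finset.abs_prod]
      refine Finset.prod_le_one (fun _ _ => abs_nonneg _) (fun i _ => ?_)
      rw [abs_mul]
      exact mul_le_one₀ (pf_abs_le _ (hu _) _) (abs_nonneg _) (prod_jac_abs_le _ _ _)
  · simp

private lemma be_abs (s : Sys κ L) (u : L → ℕ → ℝ) (k : κ → ℕ → ℝ)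
    (ℓ0 ℓ1 : L) (b : L → ℕ) (n : ℕ) (hu : ∀ ℓ p, |u ℓ p| ≤ 1) (hk : ∀ i n, |k i n| ≤ 1) :
    |be s u k ℓ0 ℓ1 b n| ≤ 1 := by
  unfold be
  split_ifs with h
  · rw [abs_mul, abs_mul, abs_mul]
    refine mul_le_one₀ (hk _ _) (by positivity) (mul_le_one₀ (mul_le_one₀ (pf_abs_le _ (hu _) _)
      (abs_nonneg _) (prod_jac_abs_le _ _ _)) (abs_nonneg _) ?_)
    rw [Finset.abs_prod]
    exact Finset.prod_le_one (fun _ _ => abs_nonneg _) (fun i _ => prod_jac_abs_le _ _ _)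
  · simp

private lemma sf_of_parts {m n P : ℕ} (hm : Squarefree (m * P)) (hn : Squarefree (n * P))
    (h : Nat.Coprime m n) : Squarefree (m * n * P) := by
  have h1 : Nat.Coprime m P := Nat.coprime_of_squarefree_mul hm
  have h2 : Nat.Coprime n P := Nat.coprime_of_squarefree_mul hn
  have h3 : Squarefree m := hm.of_mul_left
  rw [mul_assoc, Nat.squarefree_mul (Nat.Coprime.mul_right h h1)]
  exact ⟨h3, hn⟩

private lemma main_id (s : Sys κ L) (u : L → ℕ → ℝ) (k : κ → ℕ → ℝ) (V : ℝ) (Z : Finset L)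
    (ℓ0 ℓ1 : L) (hu2 : ∀ ℓ, u ℓ 2 = 0) (hlin : Linked s ℓ0 ℓ1) (hne : ℓ0 ≠ ℓ1) (d : L → ℕ)
    (h0 : d ℓ0 ≠ 0) (h1 : d ℓ1 ≠ 0) (hcond : Squarefree (∏ ℓ, d ℓ)) 
    (hpat : ∀ ℓ, ℓ ≠ ℓ0 → ℓ ≠ ℓ1 → (ℓ ∈ Z ↔ V < d ℓ)) :
    al s u k V Z ℓ0 ℓ1 (base ℓ0 ℓ1 d) (d ℓ0) * be s u k ℓ0 ℓ1 (base ℓ0 ℓ1 d) (d ℓ1) *
      (jacobiSym (d ℓ0) (d ℓ1) : ℝ) = FF s u k d := by
  obtain ⟨hl1, hl2, hl3⟩ := hlin
  set b := base ℓ0 ℓ1 d with hb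
  set m := d ℓ0 with hm
  set n := d ℓ1 with hn
  have hP : ∏ ℓ, d ℓ = m * n * ∏ ℓ, b ℓ := prod_base_univ hne d
  have hbd : ∀ ℓ, ℓ ≠ ℓ0 → ℓ ≠ ℓ1 → b ℓ = d ℓ := by
    intro ℓ h2 h3
    rw [hb, base_apply, if_neg h3, if_neg h2]
  have he : ∀ j, eOf s d j = (if s.idx ℓ0 = j then m else 1) * (if s.idx ℓ1 = j then n else 1) *
      eOf s b j := fun j => eOf_base s hne d j
  -- the FF factorisation
  have hFF : FF s u k d = (k (s.idx ℓ1) (eOf s d (s.idx ℓ1)) *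
      ∏ i ∈ univ.erase (s.idx ℓ1), k i (eOf s d i)) *
      ((pf (u ℓ0) m * ∏ j ∈ s.St ℓ0, (jacobiSym (eOf s d j) m : ℝ)) *
      ((pf (u ℓ1) n * ∏ j ∈ s.St ℓ1, (jacobiSym (eOf s d j) n : ℝ)) *
      ∏ ℓ ∈ (univ.erase ℓ0).erase ℓ1, (pf (u ℓ) (d ℓ) * ∏ j ∈ s.St ℓ, (jacobiSym (eOf s d j) (d ℓ) : ℝ)))) := by
    unfold FF
    rw [← Finset.mul_prod_erase univ (fun i => k i (eOf s d i)) (mem_univ (s.idx ℓ1)),
      ← Finset.mul_prod_erase univ (fun ℓ => (pf (u ℓ) (d ℓ) *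
        ∏ j ∈ s.St ℓ, (jacobiSym (eOf s d j) (d ℓ) : ℝ))) (mem_univ ℓ0),
      ← Finset.mul_prod_erase (univ.erase ℓ0) (fun ℓ => (pf (u ℓ) (d ℓ) *
        ∏ j ∈ s.St ℓ, (jacobiSym (eOf s d j) (d ℓ) : ℝ))) (a := ℓ1) (by simp [hne.symm])]
  by_cases hom : Odd m
  swap
  · -- both sides vanish
    rw [hFF, pf_even _ (hu2 _) m h0 hom]
    have : al s u k V Z ℓ0 ℓ1 b m = 0 := by
      unfold al
      rw [if_neg]
      rintro ⟨_, h, _⟩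
      exact hom h
    rw [this]
    ring
  by_cases hon : Odd n
  swap
  · rw [hFF, pf_even _ (hu2 _) n h1 hon]
    have : be s u k ℓ0 ℓ1 b n = 0 := by
      unfold be
      rw [if_neg]
      rintro ⟨_, h⟩
      exact hon h
    rw [this]
    ring
  have hsm : Squarefree (m * ∏ ℓ, b ℓ) := by
    rw [hP] at hcond
    refine hcond.squarefree_of_dvd ⟨n, by ring⟩
  have hsn : Squarefree (n * ∏ ℓ, b ℓ) := by
    rw [hP] at hcond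
    refine hcond.squarefree_of_dvd ⟨m, by ring⟩
  have hpat' : ∀ ℓ, ℓ ≠ ℓ0 → ℓ ≠ ℓ1 → (ℓ ∈ Z ↔ V < b ℓ) := by
    intro ℓ h2 h3
    rw [hbd ℓ h2 h3]
    exact hpat ℓ h2 h3
  unfold al be
  rw [if_pos ⟨hsm, hom, hpat'⟩, if_pos ⟨hsn, hon⟩, hFF]
  -- rewrite the factors
  have e1 : eOf s d (s.idx ℓ1) = n * eOf s b (s.idx ℓ1) := by
    rw [he, if_neg hl1, if_pos rfl, one_mul]
  have e2 : ∏ i ∈ univ.erase (s.idx ℓ1), k i (eOf s d i) =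
      ∏ i ∈ univ.erase (s.idx ℓ1), k i ((if s.idx ℓ0 = i then m else 1) * eOf s b i) := by
    refine Finset.prod_congr rfl fun i hi => ?_
    have q2 : s.idx ℓ1 ≠ i := fun h => (Finset.ne_of_mem_erase hi) h.symm
    rw [he, if_neg q2, mul_one]
  have e3 : ∏ j ∈ s.St ℓ0, (jacobiSym (eOf s d j) m : ℝ) =
      ∏ j ∈ s.St ℓ0, (jacobiSym (eOf s b j) m : ℝ) := by
    refine Finset.prod_congr rfl fun j hj => ?_
    have q1 : s.idx ℓ0 ≠ j := fun h => s.not_mem ℓ0 (h ▸ hj)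
    have q2 : s.idx ℓ1 ≠ j := fun h => hl3 (h ▸ hj)
    rw [he, if_neg q1, if_neg q2, one_mul, one_mul]
  have e4 : ∏ j ∈ s.St ℓ1, (jacobiSym (eOf s d j) n : ℝ) =
      (jacobiSym m n : ℝ) * ∏ j ∈ s.St ℓ1, (jacobiSym (eOf s b j) n : ℝ) := by
    have q0 : ∏ j ∈ s.St ℓ1, (jacobiSym (eOf s d j) n : ℝ) =
        ∏ j ∈ s.St ℓ1, ((if s.idx ℓ0 = j then (jacobiSym m n : ℝ) else 1) * (jacobiSym (eOf s b j) n : ℝ)) := by
      refine Finset.prod_congr rfl fun j hj => ?_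
      have q2 : s.idx ℓ1 ≠ j := fun h => s.not_mem ℓ1 (h ▸ hj)
      rw [he, if_neg q2, mul_one]
      split_ifs with q3
      · rw [Nat.cast_mul, jacobiSym.mul_left, Int.cast_mul]
      · rw [one_mul, one_mul]
    rw [q0, Finset.prod_mul_distrib, Finset.prod_ite_eq, if_pos hl2]
  have e5 : ∏ ℓ ∈ (univ.erase ℓ0).erase ℓ1, (pf (u ℓ) (d ℓ) * ∏ j ∈ s.St ℓ, (jacobiSym (eOf s d j) (d ℓ) : ℝ)) =
      (∏ ℓ ∈ (univ.erase ℓ0).erase ℓ1, (pf (u ℓ) (b ℓ) *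
      ∏ j ∈ s.St ℓ, (jacobiSym (((if s.idx ℓ0 = j then m else 1) * eOf s b j : ℕ) : ℤ) (b ℓ) : ℝ))) *
      ∏ ℓ ∈ (univ.erase ℓ0).erase ℓ1,
      ∏ j ∈ s.St ℓ, (jacobiSym (((if s.idx ℓ1 = j then n else 1) : ℕ) : ℤ) (b ℓ) : ℝ) := by
    rw [← Finset.prod_mul_distrib]
    refine Finset.prod_congr rfl fun ℓ hl => ?_
    have r1 : ℓ ≠ ℓ1 := Finset.ne_of_mem_erase hl
    have r0 : ℓ ≠ ℓ0 := Finset.ne_of_mem_erase (Finset.mem_of_mem_erase hl)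
    rw [← hbd ℓ r0 r1, mul_assoc, ← Finset.prod_mul_distrib]
    congr 1
    refine Finset.prod_congr rfl fun j hj => ?_
    rw [he, ← Int.cast_mul, ← jacobiSym.mul_left]
    congr 2
    push_cast
    ring
  rw [e1, e2, e3, e4, e5]
  ring

end

theorem linked_bound {κ L : Type} [Fintype κ] [DecidableEq κ] [Fintype L] [DecidableEq L] (s : Sys κ L) :
    ∃ C : ℝ, 0 < C ∧ ∀ (u : L → ℕ → ℝ) (k : κ → ℕ → ℝ) (V : ℝ) (X : ℕ) (Z : Finset L) (ℓ0 ℓ1 : L),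
    (∀ ℓ p, |u ℓ p| ≤ 1) → (∀ ℓ, u ℓ 2 = 0) → (∀ i n, |k i n| ≤ 1) → 1 ≤ V → 2 ≤ X →
    ℓ0 ∈ Z → ℓ1 ∈ Z → Linked s ℓ0 ℓ1 →
    |∑ d ∈ (Box L X) with (∀ ℓ, ℓ ∈ Z ↔ V < d ℓ), FF s u k d| ≤
      C * X * (1 + Real.log X) ^ (10 + Fintype.card L) * V ^ (-(1 / 16) : ℝ) := by
  obtain ⟨C, hC, hpl⟩ := pl (L := L)
  refine ⟨C, hC, ?_⟩
  intro u k V X Z ℓ0 ℓ1 hu hu2 hk hV hX hz0 hz1 hlin
  have hne : ℓ0 ≠ ℓ1 := fun h => hlin.1 (by rw [h])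
  have key := hpl ℓ0 ℓ1 (fun d => al s u k V Z ℓ0 ℓ1 (base ℓ0 ℓ1 d) (d ℓ0) *
    be s u k ℓ0 ℓ1 (base ℓ0 ℓ1 d) (d ℓ1) * (jacobiSym (d ℓ0) (d ℓ1) : ℝ))
    (al s u k V Z ℓ0 ℓ1) (be s u k ℓ0 ℓ1) V X hne hV hX
    (fun b m => al_abs s u k V Z ℓ0 ℓ1 b m hu hk) (fun b n => be_abs s u k ℓ0 ℓ1 b n hu hk) ?_ ?_
    (fun d => rfl)
  · refine (le_of_eq (congrArg abs ?_)).trans key
    classical
    rw [Box, Finset.filter_filter]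
    -- compare the sums
    rw [Finset.sum_filter, Finset.sum_filter]
    refine Finset.sum_congr rfl fun d hd => ?_
    rw [Fintype.mem_piFinset] at hd
    have hpos : ∀ ℓ, d ℓ ≠ 0 := fun ℓ => by
      have := (Finset.mem_Icc.1 (hd ℓ)).1
      omega
    by_cases hc : (∏ ℓ, d ℓ ≤ X ∧ V < d ℓ0 ∧ V < d ℓ1)
    · rw [if_pos hc]
      by_cases hs : Squarefree (∏ ℓ, d ℓ) ∧ ∀ ℓ, ℓ ≠ ℓ0 → ℓ ≠ ℓ1 → (ℓ ∈ Z ↔ V < d ℓ)
      · rw [if_pos, main_id s u k V Z ℓ0 ℓ1 hu2 hlin hne d (hpos _) (hpos _) hs.1 hs.2]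
        refine ⟨⟨hc.1, hs.1⟩, fun ℓ => ?_⟩
        by_cases h0 : ℓ = ℓ0
        · subst h0
          exact ⟨fun _ => hc.2.1, fun _ => hz0⟩
        · by_cases h1 : ℓ = ℓ1
          · subst h1
            exact ⟨fun _ => hc.2.2, fun _ => hz1⟩
          · exact hs.2 ℓ h0 h1
      · rw [if_neg]
        · -- the right side vanishes
          symm
          by_contra hnz
          apply hs
          have n1 : al s u k V Z ℓ0 ℓ1 (base ℓ0 ℓ1 d) (d ℓ0) ≠ 0 := fun h => hnz (by rw [h]; ring)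
          have n2 : be s u k ℓ0 ℓ1 (base ℓ0 ℓ1 d) (d ℓ1) ≠ 0 := fun h => hnz (by rw [h]; ring)
          have n3 : (jacobiSym (d ℓ0) (d ℓ1) : ℝ) ≠ 0 := fun h => hnz (by rw [h]; ring)
          unfold al at n1
          unfold be at n2
          have c1 := by_contra fun h => n1 (if_neg h)
          have c2 := by_contra fun h => n2 (if_neg h)
          have c3 : Nat.Coprime (d ℓ0) (d ℓ1) := by
            have : jacobiSym (d ℓ0) (d ℓ1) ≠ 0 := by exact_mod_cast n3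
            by_contra hcop
            apply this
            have hnz : NeZero (d ℓ1) := ⟨hpos ℓ1⟩
            rw [jacobiSym.eq_zero_iff_not_coprime]
            simpa using hcop
          refine ⟨?_, ?_⟩
          · rw [prod_base_univ hne d]
            exact sf_of_parts c1.1 c2.1 c3
          · intro ℓ h0 h1
            have := c1.2.2 ℓ h0 h1
            rwa [base_apply, if_neg h1, if_neg h0] at this
        · rintro ⟨⟨_, h1⟩, h2⟩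
          exact hs ⟨h1, fun ℓ _ _ => h2 ℓ⟩
    · rw [if_neg hc, if_neg]
      rintro ⟨⟨h1, _⟩, h2⟩
      exact hc ⟨h1, (h2 ℓ0).1 hz0, (h2 ℓ1).1 hz1⟩
  · intro b m h
    unfold al at h
    have c1 := by_contra fun h' => h (if_neg h')
    exact ⟨c1.2.1, c1.1.of_mul_left⟩
  · intro b m h
    unfold be at h
    have c1 := by_contra fun h' => h (if_neg h')
    exact ⟨c1.2, c1.1.of_mul_left⟩

end QT
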