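import Pool.Agent.Lib.MP_10e784_ag.QDefs

/-! JOB QExpand1.  `∏_{p ∣ n} ∑_ℓ g ℓ p = ∑_{n = ∏ d_ℓ} ∏_ℓ pf (g ℓ) (d ℓ)` for squarefree `n`.

Proof.  `Finset.prod_univ_sum` turns the left side into a sum over maps `φ : n.primeFactors → L`; the bijection with vectors `d` is
`d ℓ = ∏_{p : φ p = ℓ} p` (cf. `Nat.primeFactorsPiBij` in Mathlib for `L = Fin d`).  Alternative: induction on the number of prime
factors: for a prime `p ∤ n`, the vectors with product `p n` are obtained from those with product `n` by multiplying exactly one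
coordinate by `p`. -/

namespace QT

open Finset

/-- the set of primes sent to `ℓ` -/
private noncomputable def QExpand1A {L : Type} [DecidableEq L] {s : Finset ℕ} (φ : s → L) (ℓ : L) : Finset ℕ :=
  ((univ : Finset s).filter fun p => φ p = ℓ).map (Function.Embedding.subtype _)

private theorem QExpand1_mem {L : Type} [DecidableEq L] {s : Finset ℕ} (φ : s → L) (ℓ : L) (p : ℕ) :
    p ∈ QExpand1A φ ℓ ↔ ∃ h : p ∈ s, φ ⟨p, h⟩ = ℓ := by
  unfold QExpand1A
  simp only [mem_map, mem_filter, mem_univ, true_and, Function.Embedding.subtype_apply,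
    Subtype.exists]
  constructor
  · rintro ⟨a, ha, h1, rfl⟩
    exact ⟨ha, h1⟩
  · rintro ⟨h, h1⟩
    exact ⟨p, h, h1, rfl⟩

private theorem QExpand1_prod {L : Type} [DecidableEq L] {s : Finset ℕ} (φ : s → L) (ℓ : L)
    {M : Type} [CommMonoid M] (F : ℕ → M) :
    ∏ p ∈ QExpand1A φ ℓ, F p = ∏ p ∈ (univ : Finset s).filter (fun p => φ p = ℓ), F p := by
  unfold QExpand1A
  rw [prod_map]
  rfl

private theorem QExpand1_pf {L : Type} [DecidableEq L] {n : ℕ} (φ : n.primeFactors → L) (ℓ : L) :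
    (∏ p ∈ QExpand1A φ ℓ, p).primeFactors = QExpand1A φ ℓ := by
  apply Nat.primeFactors_prod
  intro p hp
  obtain ⟨h, -⟩ := (QExpand1_mem φ ℓ p).1 hp
  exact Nat.prime_of_mem_primeFactors h

theorem prod_sum_eq {L : Type} [Fintype L] [DecidableEq L] (g : L → ℕ → ℝ) (n X : ℕ)
    (hn : Squarefree n) (hX : n ≤ X) :
    ∏ p ∈ n.primeFactors, ∑ ℓ, g ℓ p =
      ∑ d ∈ (Fintype.piFinset fun _ : L => Icc 1 X) with (∏ ℓ, d ℓ = n), ∏ ℓ, pf (g ℓ) (d ℓ) := by
  have hn0 : n ≠ 0 := hn.ne_zero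
  have hprodAll : ∀ φ : n.primeFactors → L, ∏ ℓ, ∏ p ∈ QExpand1A φ ℓ, p = n := by
    intro φ
    simp_rw [QExpand1_prod]
    rw [Finset.prod_fiberwise (univ : Finset n.primeFactors) φ (fun p => (p : ℕ))]
    rw [Finset.prod_coe_sort n.primeFactors (fun p => p)]
    exact Nat.prod_primeFactors_of_squarefree hn
  rw [← Finset.prod_coe_sort n.primeFactors (fun p => ∑ ℓ, g ℓ p)]
  rw [Finset.prod_univ_sum]
  refine Finset.sum_bij (fun φ _ => fun ℓ => ∏ p ∈ QExpand1A φ ℓ, p) ?_ ?_ ?_ ?_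
  · intro φ _
    rw [mem_filter, Fintype.mem_piFinset]
    refine ⟨fun ℓ => ?_, hprodAll φ⟩
    have hd : (∏ p ∈ QExpand1A φ ℓ, p) ∣ n := by
      conv_rhs => rw [← hprodAll φ]
      exact Finset.dvd_prod_of_mem (fun ℓ => ∏ p ∈ QExpand1A φ ℓ, p) (mem_univ ℓ)
    rw [mem_Icc]
    exact ⟨Nat.pos_of_dvd_of_pos hd (Nat.pos_of_ne_zero hn0),
      (Nat.le_of_dvd (Nat.pos_of_ne_zero hn0) hd).trans hX⟩
  · intro φ _ ψ _ h
    funext p
    have h1 : QExpand1A φ (φ p) = QExpand1A ψ (φ p) := by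
      rw [← QExpand1_pf φ (φ p), ← QExpand1_pf ψ (φ p)]
      congr 1
      exact congrFun h (φ p)
    have h2 : (p : ℕ) ∈ QExpand1A φ (φ p) := (QExpand1_mem φ (φ p) p).2 ⟨p.2, rfl⟩
    rw [h1] at h2
    obtain ⟨h3, h4⟩ := (QExpand1_mem ψ (φ p) p).1 h2
    exact h4.symm
  · intro d hd
    rw [mem_filter, Fintype.mem_piFinset] at hd
    obtain ⟨-, hd⟩ := hd
    have hex : ∀ p : n.primeFactors, ∃ ℓ, (p : ℕ) ∣ d ℓ := by
      intro p
      have hp := Nat.prime_of_mem_primeFactors p.2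
      have h1 : (p : ℕ) ∣ ∏ ℓ, d ℓ := by
        rw [hd]; exact Nat.dvd_of_mem_primeFactors p.2
      obtain ⟨ℓ, -, hℓ⟩ := (hp.prime.dvd_finset_prod_iff _).1 h1
      exact ⟨ℓ, hℓ⟩
    choose φ hφ using hex
    refine ⟨φ, by simp, ?_⟩
    funext ℓ
    have hdl : d ℓ ∣ n := by
      rw [← hd]; exact Finset.dvd_prod_of_mem d (mem_univ ℓ)
    have huniq : ∀ p : n.primeFactors, ∀ ℓ', (p : ℕ) ∣ d ℓ' → φ p = ℓ' := by
      intro p ℓ' h
      by_contra hne
      have hp := Nat.prime_of_mem_primeFactors p.2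
      have h1 : (p : ℕ) * p ∣ n := by
        refine (mul_dvd_mul (hφ p) h).trans ?_
        refine dvd_trans ?_ (dvd_of_eq hd)
        rw [← Finset.prod_pair hne]
        exact Finset.prod_dvd_prod_of_subset _ _ d (subset_univ _)
      have h2 := hn p h1
      exact hp.one_lt.ne' (Nat.isUnit_iff.1 h2)
    have hset : QExpand1A φ ℓ = (d ℓ).primeFactors := by
      ext p
      rw [QExpand1_mem]
      constructor
      · rintro ⟨h1, h2⟩
        rw [Nat.mem_primeFactors_of_ne_zero (ne_zero_of_dvd_ne_zero hn0 hdl)]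
        refine ⟨Nat.prime_of_mem_primeFactors h1, ?_⟩
        rw [← h2]
        exact hφ ⟨p, h1⟩
      · intro h
        have h1 : p ∈ n.primeFactors := Nat.primeFactors_mono hdl hn0 h
        exact ⟨h1, huniq ⟨p, h1⟩ ℓ (Nat.dvd_of_mem_primeFactors h)⟩
    show ∏ p ∈ QExpand1A φ ℓ, p = d ℓ
    rw [hset]
    exact Nat.prod_primeFactors_of_squarefree (hn.squarefree_of_dvd hdl)
  · intro φ _
    have : ∀ ℓ, pf (g ℓ) (∏ p ∈ QExpand1A φ ℓ, p) =
        ∏ p ∈ (univ : Finset n.primeFactors).filter (fun p => φ p = ℓ), g (φ p) p := by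
      intro ℓ
      unfold pf
      rw [QExpand1_pf, QExpand1_prod]
      apply Finset.prod_congr rfl
      intro p hp
      rw [(mem_filter.1 hp).2]
    simp_rw [this]
    rw [Finset.prod_fiberwise (univ : Finset n.primeFactors) φ (fun p => g (φ p) p)]

end QT
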