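import Pool.Agent.Lib.MP_10e784_ag.QDefs

/-! JOB QAP4.  Four squares in arithmetic progression are equal (Fermat, Euler).

Complete proof.  Key lemma `no_sol`: there are no coprime integers `X, Y` with `Y ≠ 0`, `X² - Y² = u²`, `X² - 9Y² = v²`.
Infinite descent on `|Y|`.
(a) `Y` is even: `X² = u² + Y²` is a primitive Pythagorean triple so `X` is odd.  If `Y` were odd, `u` is even and `u² = X² - Y² ≡ 0 mod 8` forces
`u² ≡ 0 mod 16`; likewise `v² = X² - 9Y² ≡ 0 mod 8` forces `v² ≡ 0 mod 16`; subtracting, `8Y² ≡ 0 mod 16`, contradiction.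
(b) `3 ∤ X`: if `3 ∣ X`, `u² + Y² ≡ 0 mod 3` gives `3 ∣ Y`, contradiction with coprimality.
(c) WLOG `X > 0`.  By `PythagoreanTriple` classification (primitive, `Y` even): `X = p² + q²`, `Y = 2pq`, `gcd(p,q) = 1`, `p, q` of opposite parity (`p q ≠ 0`);
and `X = r² + s²`, `3Y = 2rs`, `gcd(r,s) = 1` (primitive since `gcd(X,3Y)=1`; `3Y` even).  Hence `p²+q² = r²+s²`, `3pq = rs`.
By symmetry `3 ∣ r`, `r = 3r'`, `pq = r's`.  Put `p₁ = gcd(p,r')`, `p = p₁p₂`, `r' = p₁q₁`, `gcd(p₂,q₁) = 1`; then `p₂ q = q₁ s`, so `q = q₁q₂`, `s = p₂q₂`.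
`p₁²p₂² + q₁²q₂² = 9p₁²q₁² + p₂²q₂²`, i.e. `p₂²(p₁² - q₂²) = q₁²(9p₁² - q₂²)`.  As `gcd(p₂,q₁)=1`: `p₁² - q₂² = k q₁²`, `9p₁² - q₂² = k p₂²`
for an integer `k`.  `k ≠ 0` (else `8 p₁² = 0`).  `k` divides `8p₁²` and `8q₂²`, (`8p₁² = k(p₂²-q₁²)`, `8 q₂² = k(p₂² - 9q₁²)`),
and `gcd(p₁,q₂)=1`, so `k ∣ 8`.
Mod 3: `-q₂² ≡ k p₂²`; `3 ∣ p₂` iff `3 ∣ q₂`, impossible for both (`gcd(p,q)=1`), so `p₂² ≡ q₂² ≡ 1` and `k ≡ -1 mod 3`: `k ∈ {-1, 2, -4, 8}`.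
`k = 2` or `k = -4`: `p₁² - q₂² = k q₁²` even so `p₁, q₂` have equal parity, both odd (coprime), so `p₁²-q₂² ≡ 0`, `9p₁²-q₂² ≡ 0 mod 8`,
whence `q₁` and `p₂` are even (for `k=2`: `q₁² ≡ 0 mod 4`; for `k=-4`: `q₁² ≡ 0 mod 2`), contradiction with `gcd(p₂,q₁)=1`.
`k = -1`: `q₂² - p₁² = q₁²`, `q₂² - 9p₁² = p₂²`: a solution `(X,Y) := (q₂,p₁)`, coprime, `p₁ ≠ 0`, `|p₁| ≤ |p| < 2|pq| = |Y|`.
`k = 8`: `p₁² = p₂² - q₁²` and `q₂² = p₁² - 8q₁² = p₂² - 9q₁²`: a solution `(p₂,q₁)`, `|q₁| ≤ |q| < |Y|`.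
Descent.  (If one prefers: strong induction on `Y.natAbs`.)

`ap4_int`: let `D = b²-a² = c²-b² = d²-c²`, suppose `D ≠ 0`.  `X = b²+c² = a²+d²`, `Y = D`: `X²-Y² = (2bc)²`, `X²-9Y² = (2ad)²` (`d²-a² = 3D`).
Divide `X, Y` by their gcd (`Int.sq` divisibility: `g² ∣ u²` implies `g ∣ u`) and use `no_sol`.
`ap4_rat`: clear denominators (multiply by a common denominator). -/

namespace QT

private theorem qap4_sq16 (t : ℤ) :
    t ^ 2 % 16 = 0 ∨ t ^ 2 % 16 = 1 ∨ t ^ 2 % 16 = 4 ∨ t ^ 2 % 16 = 9 := by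
  have h : t % 16 = 0 ∨ t % 16 = 1 ∨ t % 16 = 2 ∨ t % 16 = 3 ∨ t % 16 = 4 ∨ t % 16 = 5 ∨
      t % 16 = 6 ∨ t % 16 = 7 ∨ t % 16 = 8 ∨ t % 16 = 9 ∨ t % 16 = 10 ∨ t % 16 = 11 ∨
      t % 16 = 12 ∨ t % 16 = 13 ∨ t % 16 = 14 ∨ t % 16 = 15 := by omega
  rcases h with h | h | h | h | h | h | h | h | h | h | h | h | h | h | h | h <;>
    simp [pow_two, Int.mul_emod, h]

private theorem qap4_sq16_odd (t : ℤ) (ht : t % 2 = 1) :
    t ^ 2 % 16 = 1 ∨ t ^ 2 % 16 = 9 := by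
  have h : t % 16 = 1 ∨ t % 16 = 3 ∨ t % 16 = 5 ∨ t % 16 = 7 ∨ t % 16 = 9 ∨ t % 16 = 11 ∨
      t % 16 = 13 ∨ t % 16 = 15 := by omega
  rcases h with h | h | h | h | h | h | h | h <;>
    simp [pow_two, Int.mul_emod, h]

private theorem qap4_sq16_even (t : ℤ) (ht : t % 2 = 0) :
    t ^ 2 % 16 = 0 ∨ t ^ 2 % 16 = 4 := by
  have h : t % 16 = 0 ∨ t % 16 = 2 ∨ t % 16 = 4 ∨ t % 16 = 6 ∨ t % 16 = 8 ∨ t % 16 = 10 ∨
      t % 16 = 12 ∨ t % 16 = 14 := by omega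
  rcases h with h | h | h | h | h | h | h | h <;>
    simp [pow_two, Int.mul_emod, h]

private theorem qap4_sq3 (t : ℤ) : (t ^ 2 % 3 = 0 ∧ t % 3 = 0) ∨ (t ^ 2 % 3 = 1 ∧ t % 3 ≠ 0) := by
  have h : t % 3 = 0 ∨ t % 3 = 1 ∨ t % 3 = 2 := by omega
  rcases h with h | h | h <;>
    simp [pow_two, Int.mul_emod, h]

private theorem qap4_not_both {a b m : ℤ} (h : IsCoprime a b) (hm : 2 ≤ m) (ha : a % m = 0)
    (hb : b % m = 0) : False := by
  have h1 : m ∣ a := Int.dvd_of_emod_eq_zero ha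
  have h2 : m ∣ b := Int.dvd_of_emod_eq_zero hb
  have h3 := h.isUnit_of_dvd' h1 h2
  rw [Int.isUnit_iff] at h3
  omega

private theorem qap4_even {X Y u v : ℤ} (h1 : X ^ 2 - Y ^ 2 = u ^ 2)
    (h2 : X ^ 2 - 9 * Y ^ 2 = v ^ 2) : Y % 2 = 0 := by
  by_contra hY
  have hY' : Y % 2 = 1 := by omega
  have a1 := qap4_sq16 X
  have a2 := qap4_sq16_odd Y hY'
  have a3 := qap4_sq16 u
  have a4 := qap4_sq16 v
  generalize X ^ 2 = A at *
  generalize Y ^ 2 = B at *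
  generalize u ^ 2 = U at *
  generalize v ^ 2 = V at *
  omega

/-- the descent step, with `3 ∣ r` -/
private theorem qap4_core {p q r s : ℤ} (hpq : IsCoprime p q) (hp : p ≠ 0) (hq : q ≠ 0)
    (h1 : p ^ 2 + q ^ 2 = 9 * r ^ 2 + s ^ 2) (h2 : p * q = r * s) :
    ∃ X Y u v : ℤ, IsCoprime X Y ∧ Y ≠ 0 ∧ X ^ 2 - Y ^ 2 = u ^ 2 ∧ X ^ 2 - 9 * Y ^ 2 = v ^ 2 ∧
      (Y ∣ p ∨ Y ∣ q) := by
  have hr : r ≠ 0 := by
    rintro rfl
    rw [zero_mul] at h2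
    rcases mul_eq_zero.1 h2 with h | h
    · exact hp h
    · exact hq h
  -- the gcd
  obtain ⟨p₁, p₂, q₁, hp₁, hco, hpe, hre⟩ : ∃ p₁ p₂ q₁ : ℤ, p₁ ≠ 0 ∧ IsCoprime p₂ q₁ ∧
      p = p₁ * p₂ ∧ r = p₁ * q₁ := by
    have hg : (Int.gcd p r : ℤ) ≠ 0 := by
      exact_mod_cast (Int.gcd_pos_of_ne_zero_left r hp).ne'
    obtain ⟨a, ha⟩ : (Int.gcd p r : ℤ) ∣ p := Int.gcd_dvd_left ..
    obtain ⟨b, hb⟩ : (Int.gcd p r : ℤ) ∣ r := Int.gcd_dvd_right ..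
    refine ⟨Int.gcd p r, a, b, hg, ?_, ha, hb⟩
    have h3 : (Int.gcd p r : ℤ) = p * Int.gcdA p r + r * Int.gcdB p r := Int.gcd_eq_gcd_ab p r
    refine ⟨Int.gcdA p r, Int.gcdB p r, ?_⟩
    have h4 : (Int.gcd p r : ℤ) * (Int.gcdA p r * a + Int.gcdB p r * b) =
        (Int.gcd p r : ℤ) * 1 := by
      calc (Int.gcd p r : ℤ) * (Int.gcdA p r * a + Int.gcdB p r * b) =
          ((Int.gcd p r : ℤ) * a) * Int.gcdA p r + ((Int.gcd p r : ℤ) * b) * Int.gcdB p r := by ring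
        _ = p * Int.gcdA p r + r * Int.gcdB p r := by rw [← ha, ← hb]
        _ = (Int.gcd p r : ℤ) * 1 := by rw [← h3, mul_one]
    exact mul_left_cancel₀ hg h4
  subst hpe hre
  have hp₂ : p₂ ≠ 0 := right_ne_zero_of_mul hp
  have hq₁ : q₁ ≠ 0 := right_ne_zero_of_mul hr
  have h3 : p₂ * q = q₁ * s := by
    apply mul_left_cancel₀ hp₁
    linear_combination h2
  obtain ⟨q₂, hq₂⟩ : q₁ ∣ q := by
    apply hco.symm.dvd_of_dvd_mul_left
    exact ⟨s, h3⟩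
  subst hq₂
  have hs : s = p₂ * q₂ := by
    apply mul_left_cancel₀ hq₁
    linear_combination -h3
  subst hs
  have h4 : p₂ ^ 2 * (p₁ ^ 2 - q₂ ^ 2) = q₁ ^ 2 * (9 * p₁ ^ 2 - q₂ ^ 2) := by
    linear_combination h1
  obtain ⟨k, hk⟩ : q₁ ^ 2 ∣ p₁ ^ 2 - q₂ ^ 2 := by
    have h5 : IsCoprime (q₁ ^ 2) (p₂ ^ 2) := (hco.symm).pow
    apply h5.dvd_of_dvd_mul_left
    exact ⟨_, h4⟩
  have hk2 : 9 * p₁ ^ 2 - q₂ ^ 2 = k * p₂ ^ 2 := by
    apply mul_left_cancel₀ (pow_ne_zero 2 hq₁)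
    rw [← h4, hk]
    ring
  have hco2 : IsCoprime p₁ q₂ := by
    have := hpq.of_mul_left_left
    exact this.of_mul_right_right
  have hco3 : IsCoprime p₂ q₂ := by
    have := hpq.of_mul_left_right
    exact this.of_mul_right_right
  have hk8 : k ∣ 8 := by
    obtain ⟨a, b, hab⟩ : IsCoprime (p₁ ^ 2) (q₂ ^ 2) := hco2.pow
    refine ⟨a * (p₂ ^ 2 - q₁ ^ 2) + b * (p₂ ^ 2 - 9 * q₁ ^ 2), ?_⟩
    linear_combination (-8) * hab + (a + b) * hk2 - (a + 9 * b) * hk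
  have hk8' : k.natAbs ∣ 8 := by
    have := Int.natAbs_dvd_natAbs.2 hk8
    simpa using this
  have hkabs : k.natAbs = 1 ∨ k.natAbs = 2 ∨ k.natAbs = 4 ∨ k.natAbs = 8 := by
    have h5 : k.natAbs ≤ 8 := Nat.le_of_dvd (by norm_num) hk8'
    have h6 : 0 < k.natAbs := Nat.pos_of_dvd_of_pos hk8' (by norm_num)
    interval_cases k.natAbs <;> omega
  have hkc : k = 1 ∨ k = -1 ∨ k = 2 ∨ k = -2 ∨ k = 4 ∨ k = -4 ∨ k = 8 ∨ k = -8 := by omega
  have c1 := qap4_sq3 p₂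
  have c2 := qap4_sq3 q₂
  have c3 : ¬ (p₂ % 3 = 0 ∧ q₂ % 3 = 0) := fun h => qap4_not_both hco3 (by norm_num) h.1 h.2
  have c4 : ¬ (p₂ % 2 = 0 ∧ q₁ % 2 = 0) := fun h => qap4_not_both hco (by norm_num) h.1 h.2
  have c5 : ¬ (p₁ % 2 = 0 ∧ q₂ % 2 = 0) := fun h => qap4_not_both hco2 (by norm_num) h.1 h.2
  have par : ∀ t : ℤ, (t % 2 = 0 ∧ (t ^ 2 % 16 = 0 ∨ t ^ 2 % 16 = 4)) ∨
      (t % 2 = 1 ∧ (t ^ 2 % 16 = 1 ∨ t ^ 2 % 16 = 9)) := by
    intro t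
    rcases Int.emod_two_eq_zero_or_one t with h | h
    · exact Or.inl ⟨h, qap4_sq16_even t h⟩
    · exact Or.inr ⟨h, qap4_sq16_odd t h⟩
  have d1 := par p₁
  have d2 := par p₂
  have d3 := par q₁
  have d4 := par q₂
  have key : k = -1 ∨ k = 8 := by
    rw [mul_comm] at hk
    generalize p₁ ^ 2 = A at *
    generalize p₂ ^ 2 = B at *
    generalize q₁ ^ 2 = C at *
    generalize q₂ ^ 2 = D at *
    rcases hkc with h | h | h | h | h | h | h | h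
    · exfalso
      subst h
      clear d1 d2 d3 d4 c4 c5
      omega
    · left; exact h
    · exfalso
      subst h
      clear c1 c2 c3
      omega
    · exfalso
      subst h
      clear d1 d2 d3 d4 c4 c5
      omega
    · exfalso
      subst h
      clear d1 d2 d3 d4 c4 c5
      omega
    · exfalso
      subst h
      clear c1 c2 c3
      omega
    · right; exact h
    · exfalso
      subst h
      clear d1 d2 d3 d4 c4 c5
      omega
  rcases key with h | h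
  · subst h
    refine ⟨q₂, p₁, q₁, p₂, hco2.symm, hp₁, ?_, ?_, Or.inl (dvd_mul_right _ _)⟩
    · linear_combination -hk
    · linear_combination -hk2
  · subst h
    refine ⟨p₂, q₁, p₁, q₂, hco, hq₁, ?_, ?_, Or.inr (dvd_mul_right _ _)⟩
    · have : (8 : ℤ) * (p₂ ^ 2 - q₁ ^ 2) = 8 * p₁ ^ 2 := by linear_combination hk - hk2
      linarith
    · have : (8 : ℤ) * (p₂ ^ 2 - 9 * q₁ ^ 2) = 8 * q₂ ^ 2 := by linear_combination 9 * hk - hk2
      linarith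

private theorem qap4_coprime_leg {X Y u : ℤ} (h : IsCoprime X Y) (h1 : X ^ 2 - Y ^ 2 = u ^ 2) :
    Int.gcd u Y = 1 := by
  rw [← Int.isCoprime_iff_gcd_eq_one]
  have h2 : IsCoprime (X ^ 2) Y := h.pow_left
  have h3 : IsCoprime (u ^ 2) Y := by
    have h4 : u ^ 2 = X ^ 2 + Y * (-Y) := by linear_combination -h1
    rw [h4]
    exact IsCoprime.add_mul_left_left h2 (-Y)
  exact (IsCoprime.pow_left_iff (by norm_num)).1 h3

private theorem qap4_param {X Y u : ℤ} (hX : 0 < X) (h : IsCoprime X Y) (hY : Y % 2 = 0)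
    (h1 : X ^ 2 - Y ^ 2 = u ^ 2) :
    ∃ p q : ℤ, X = p ^ 2 + q ^ 2 ∧ Y = 2 * p * q ∧ IsCoprime p q := by
  have hu : u % 2 = 1 := by
    have hX2 : X % 2 ≠ 0 := fun h' => qap4_not_both h (by norm_num) h' hY
    rcases Int.emod_two_eq_zero_or_one u with h' | h'
    · exfalso
      have a1 := qap4_sq16_odd X (by omega)
      have a2 := qap4_sq16_even Y hY
      have a3 := qap4_sq16_even u h'
      generalize X ^ 2 = A at *
      generalize Y ^ 2 = B at *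
      generalize u ^ 2 = U at *
      omega
    · exact h'
  have hpt : PythagoreanTriple u Y X := by
    unfold PythagoreanTriple
    linear_combination -h1
  obtain ⟨m, n, -, hy, hz, hg, -, -⟩ :=
    hpt.coprime_classification' (qap4_coprime_leg h h1) hu hX
  exact ⟨m, n, hz, hy, Int.isCoprime_iff_gcd_eq_one.2 hg⟩

private theorem qap4_aux (n : ℕ) : ∀ X Y u v : ℤ, Y.natAbs = n → IsCoprime X Y → Y ≠ 0 →
    X ^ 2 - Y ^ 2 = u ^ 2 → X ^ 2 - 9 * Y ^ 2 = v ^ 2 → False := by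
  induction n using Nat.strong_induction_on with
  | _ n ih =>
    intro X Y u v hn hco hY h1 h2
    wlog hX : 0 < X generalizing X with H
    · have hX0 : X ≠ 0 := by
        rintro rfl
        have : Y ^ 2 = 0 := by nlinarith [sq_nonneg Y, sq_nonneg u]
        exact hY (pow_eq_zero_iff (two_ne_zero) |>.1 this)
      refine H (-X) hco.neg_left ?_ ?_ (by omega)
      · rw [neg_sq]; exact h1
      · rw [neg_sq]; exact h2
    have hYe : Y % 2 = 0 := qap4_even h1 h2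
    have hX3 : X % 3 ≠ 0 := by
      intro hX3
      have a1 := qap4_sq3 X
      have a2 := qap4_sq3 Y
      have a3 := qap4_sq3 u
      have a4 : ¬ (X % 3 = 0 ∧ Y % 3 = 0) := fun h => qap4_not_both hco (by norm_num) h.1 h.2
      generalize X ^ 2 = A at *
      generalize Y ^ 2 = B at *
      generalize u ^ 2 = U at *
      omega
    have hco3 : IsCoprime X (3 * Y) := by
      refine IsCoprime.mul_right ?_ hco
      rw [Int.isCoprime_iff_gcd_eq_one, Int.gcd_comm]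
      have h3p : Prime (3 : ℤ) := Int.prime_three
      have : ¬ (3 : ℤ) ∣ X := fun h => hX3 (Int.emod_eq_zero_of_dvd h)
      rw [← Int.isCoprime_iff_gcd_eq_one]
      exact (Prime.coprime_iff_not_dvd h3p).2 this
    obtain ⟨p, q, hp1, hp2, hpq⟩ := qap4_param hX hco hYe h1
    obtain ⟨r, s, hr1, hr2, hrs⟩ := qap4_param (u := v) hX hco3 (by omega)
      (by linear_combination h2)
    have hpq0 : p * q ≠ 0 := by
      intro h
      apply hY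
      rw [hp2, mul_assoc, h, mul_zero]
    have hp0 : p ≠ 0 := left_ne_zero_of_mul hpq0
    have hq0 : q ≠ 0 := right_ne_zero_of_mul hpq0
    have h3 : 3 * (p * q) = r * s := by
      have : 2 * (3 * (p * q)) = 2 * (r * s) := by
        linear_combination hr2 - 3 * hp2
      linarith
    have h4 : p ^ 2 + q ^ 2 = r ^ 2 + s ^ 2 := by rw [← hp1, ← hr1]
    have hdvd : (3 : ℤ) ∣ r * s := ⟨_, h3.symm⟩
    -- the conclusion of the descent
    have hfin : (∃ X Y u v : ℤ, IsCoprime X Y ∧ Y ≠ 0 ∧ X ^ 2 - Y ^ 2 = u ^ 2 ∧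
        X ^ 2 - 9 * Y ^ 2 = v ^ 2 ∧ (Y ∣ p ∨ Y ∣ q)) → False := by
      rintro ⟨X', Y', u', v', k1, k2, k3, k4, k5⟩
      have hlt : Y'.natAbs < n := by
        rw [← hn, hp2, Int.natAbs_mul, Int.natAbs_mul]
        have e1 : 0 < p.natAbs := Int.natAbs_pos.2 hp0
        have e2 : 0 < q.natAbs := Int.natAbs_pos.2 hq0
        have e3 : (2 : ℤ).natAbs = 2 := rfl
        rw [e3]
        rcases k5 with k5 | k5
        · have e4 : Y'.natAbs ≤ p.natAbs := Nat.le_of_dvd e1 (Int.natAbs_dvd_natAbs.2 k5)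
          nlinarith
        · have e4 : Y'.natAbs ≤ q.natAbs := Nat.le_of_dvd e2 (Int.natAbs_dvd_natAbs.2 k5)
          nlinarith
      exact ih _ hlt X' Y' u' v' rfl k1 k2 k3 k4
    rcases Int.prime_three.dvd_or_dvd hdvd with ⟨r', hr'⟩ | ⟨s', hs'⟩
    · apply hfin
      apply qap4_core (r := r') (s := s) hpq hp0 hq0
      · rw [h4, hr']; ring
      · have : 3 * (p * q) = 3 * (r' * s) := by rw [h3, hr']; ring
        linarith
    · apply hfin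
      apply qap4_core (r := s') (s := r) hpq hp0 hq0
      · rw [h4, hs']; ring
      · have : 3 * (p * q) = 3 * (s' * r) := by rw [h3, hs']; ring
        linarith

theorem no_sol (X Y u v : ℤ) (h : IsCoprime X Y) (hY : Y ≠ 0) (h1 : X ^ 2 - Y ^ 2 = u ^ 2)
    (h2 : X ^ 2 - 9 * Y ^ 2 = v ^ 2) : False :=
  qap4_aux _ X Y u v rfl h hY h1 h2

theorem ap4_int (a b c d : ℤ) (h1 : b ^ 2 - a ^ 2 = c ^ 2 - b ^ 2) (h2 : c ^ 2 - b ^ 2 = d ^ 2 - c ^ 2) :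
    b ^ 2 = a ^ 2 := by
  by_contra hne
  have hD : b ^ 2 - a ^ 2 ≠ 0 := sub_ne_zero.2 hne
  set X : ℤ := b ^ 2 + c ^ 2 with hX
  set Y : ℤ := b ^ 2 - a ^ 2 with hY
  have e1 : X ^ 2 - Y ^ 2 = (2 * b * c) ^ 2 := by
    have : Y = c ^ 2 - b ^ 2 := h1
    rw [this, hX]
    ring
  have e2 : X ^ 2 - 9 * Y ^ 2 = (2 * a * d) ^ 2 := by
    have k1 : X = a ^ 2 + d ^ 2 := by rw [hX]; linarith
    have k2 : 3 * Y = d ^ 2 - a ^ 2 := by rw [hY]; linarith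
    have k3 : 9 * Y ^ 2 = (3 * Y) ^ 2 := by ring
    rw [k3, k2, k1]
    ring
  have hg : (Int.gcd X Y : ℤ) ≠ 0 := by
    exact_mod_cast (Int.gcd_pos_of_ne_zero_right X hD).ne'
  obtain ⟨x, hx⟩ : (Int.gcd X Y : ℤ) ∣ X := Int.gcd_dvd_left ..
  obtain ⟨y, hy⟩ : (Int.gcd X Y : ℤ) ∣ Y := Int.gcd_dvd_right ..
  have hco : IsCoprime x y := by
    have h3 : (Int.gcd X Y : ℤ) = X * Int.gcdA X Y + Y * Int.gcdB X Y := Int.gcd_eq_gcd_ab X Y
    refine ⟨Int.gcdA X Y, Int.gcdB X Y, ?_⟩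
    have h4 : (Int.gcd X Y : ℤ) * (Int.gcdA X Y * x + Int.gcdB X Y * y) =
        (Int.gcd X Y : ℤ) * 1 := by
      calc (Int.gcd X Y : ℤ) * (Int.gcdA X Y * x + Int.gcdB X Y * y) =
          ((Int.gcd X Y : ℤ) * x) * Int.gcdA X Y + ((Int.gcd X Y : ℤ) * y) * Int.gcdB X Y := by ring
        _ = X * Int.gcdA X Y + Y * Int.gcdB X Y := by rw [← hx, ← hy]
        _ = (Int.gcd X Y : ℤ) * 1 := by rw [← h3, mul_one]
    exact mul_left_cancel₀ hg h4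
  generalize (Int.gcd X Y : ℤ) = g at *
  have hy0 : y ≠ 0 := by
    rintro rfl
    apply hD
    rw [hy, mul_zero]
  have f1 : g ^ 2 * (x ^ 2 - y ^ 2) = (2 * b * c) ^ 2 := by
    rw [← e1, hx, hy]
    ring
  have f2 : g ^ 2 * (x ^ 2 - 9 * y ^ 2) = (2 * a * d) ^ 2 := by
    rw [← e2, hx, hy]
    ring
  obtain ⟨u, hu⟩ : g ∣ 2 * b * c := by
    rw [← Int.pow_dvd_pow_iff (n := 2) (by norm_num)]
    exact ⟨_, f1.symm⟩
  obtain ⟨v, hv⟩ : g ∣ 2 * a * d := by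
    rw [← Int.pow_dvd_pow_iff (n := 2) (by norm_num)]
    exact ⟨_, f2.symm⟩
  refine no_sol x y u v hco hy0 ?_ ?_
  · apply mul_left_cancel₀ (pow_ne_zero 2 hg)
    rw [f1, hu]
    ring
  · apply mul_left_cancel₀ (pow_ne_zero 2 hg)
    rw [f2, hv]
    ring

theorem ap4_rat (a b c d : ℚ) (h1 : b ^ 2 - a ^ 2 = c ^ 2 - b ^ 2) (h2 : c ^ 2 - b ^ 2 = d ^ 2 - c ^ 2) :
    b ^ 2 = a ^ 2 := by
  have ha : (a.den : ℚ) ≠ 0 := by exact_mod_cast a.den_nz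
  have hb : (b.den : ℚ) ≠ 0 := by exact_mod_cast b.den_nz
  have hc : (c.den : ℚ) ≠ 0 := by exact_mod_cast c.den_nz
  have hd : (d.den : ℚ) ≠ 0 := by exact_mod_cast d.den_nz
  set N : ℚ := (a.den : ℚ) * b.den * c.den * d.den with hN
  have hN0 : N ≠ 0 := by
    rw [hN]
    positivity
  have ea : N * a = ((a.num * b.den * c.den * d.den : ℤ) : ℚ) := by
    rw [hN]
    push_cast
    have := Rat.mul_den_eq_num a
    linear_combination ((b.den : ℚ) * c.den * d.den) * this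
  have eb : N * b = ((b.num * a.den * c.den * d.den : ℤ) : ℚ) := by
    rw [hN]
    push_cast
    have := Rat.mul_den_eq_num b
    linear_combination ((a.den : ℚ) * c.den * d.den) * this
  have ec : N * c = ((c.num * a.den * b.den * d.den : ℤ) : ℚ) := by
    rw [hN]
    push_cast
    have := Rat.mul_den_eq_num c
    linear_combination ((a.den : ℚ) * b.den * d.den) * this
  have ed : N * d = ((d.num * a.den * b.den * c.den : ℤ) : ℚ) := by
    rw [hN]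
    push_cast
    have := Rat.mul_den_eq_num d
    linear_combination ((a.den : ℚ) * b.den * c.den) * this
  generalize (a.num * b.den * c.den * d.den : ℤ) = A at ea
  generalize (b.num * a.den * c.den * d.den : ℤ) = B at eb
  generalize (c.num * a.den * b.den * d.den : ℤ) = C at ec
  generalize (d.num * a.den * b.den * c.den : ℤ) = D at ed
  have k := ap4_int A B C D ?_ ?_
  · have k' : (B : ℚ) ^ 2 = (A : ℚ) ^ 2 := by exact_mod_cast k
    have k2 : N ^ 2 * b ^ 2 = N ^ 2 * a ^ 2 := by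
      rw [← mul_pow, ← mul_pow N a, eb, ea, k']
    exact mul_left_cancel₀ (pow_ne_zero 2 hN0) k2
  · have : (B : ℚ) ^ 2 - (A : ℚ) ^ 2 = (C : ℚ) ^ 2 - (B : ℚ) ^ 2 := by
      rw [← ea, ← eb, ← ec]
      linear_combination N ^ 2 * h1
    exact_mod_cast this
  · have : (C : ℚ) ^ 2 - (B : ℚ) ^ 2 = (D : ℚ) ^ 2 - (C : ℚ) ^ 2 := by
      rw [← ed, ← eb, ← ec]
      linear_combination N ^ 2 * h2
    exact_mod_cast this

end QT
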