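import Pool.Agent.Lib.MP_10e784_ag.QBLcore

/-! JOB QBL.  The symmetric bilinear bound.

Proof.  If `N ≤ M` this is `bl_core` (with `(min M N)^(-1/8) N = N^(7/8)` and monotonicity of the log factor).
If `M < N`: for odd `m, n` quadratic reciprocity gives `(m/n) = (n/m) * s`, `s = -1` iff `m ≡ n ≡ 3 mod 4`
(`jacobiSym.quadratic_reciprocity'` or the `_one_mod_four`, `_three_mod_four` versions).  Split `A = A1 + A3`, `B = B1 + B3`
according to the residue mod 4 (supports are odd).  Each of the four sums is `± ∑_{n ≤ N} ∑_{m ≤ M} B_b n A_a m (n/m)`, to which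
`bl_core` applies with the roles `(A,B,M,N) := (B_b, A_a, N, M)`; total `≤ 4 * 2 * N * M^(7/8) (1+4 log N)^8`. -/

namespace QT

open Finset

private theorem qbl_rpow (N : ℕ) (hN : 1 ≤ N) :
    (N : ℝ) ^ (7 / 8 : ℝ) = N * (N : ℝ) ^ (-(1 / 8) : ℝ) := by
  have hN0 : (0 : ℝ) < N := by exact_mod_cast hN
  rw [show (7 / 8 : ℝ) = 1 + -(1 / 8) by norm_num, Real.rpow_add hN0, Real.rpow_one]

/-- the part of `A` supported on the residue class `c` mod 4 -/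
private noncomputable def qblPart (A : ℕ → ℝ) (c m : ℕ) : ℝ := if m % 4 = c then A m else 0

private theorem qblPart_le (A : ℕ → ℝ) (hA : ∀ m, |A m| ≤ 1) (c m : ℕ) : |qblPart A c m| ≤ 1 := by
  unfold qblPart
  split_ifs
  · exact hA m
  · simp

private theorem qblPart_supp (A : ℕ → ℝ) (hAs : ∀ m, A m ≠ 0 → Odd m ∧ Squarefree m) (c m : ℕ)
    (h : qblPart A c m ≠ 0) : Odd m ∧ Squarefree m := by
  unfold qblPart at h
  split_ifs at h
  · exact hAs m h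
  · exact absurd rfl h

private theorem qbl_point (A B : ℕ → ℝ)
    (hAs : ∀ m, A m ≠ 0 → Odd m ∧ Squarefree m) (hBs : ∀ n, B n ≠ 0 → Odd n ∧ Squarefree n)
    (m n : ℕ) : A m * B n * (jacobiSym m n : ℝ) =
      qblPart B 1 n * qblPart A 1 m * (jacobiSym n m : ℝ) +
      qblPart B 3 n * qblPart A 1 m * (jacobiSym n m : ℝ) +
      qblPart B 1 n * qblPart A 3 m * (jacobiSym n m : ℝ) -
      qblPart B 3 n * qblPart A 3 m * (jacobiSym n m : ℝ) := by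
  by_cases hA : A m = 0
  · simp [qblPart, hA]
  by_cases hB : B n = 0
  · simp [qblPart, hB]
  obtain ⟨hm, -⟩ := hAs m hA
  obtain ⟨hn, -⟩ := hBs n hB
  have hm4 : m % 4 = 1 ∨ m % 4 = 3 := by
    rw [Nat.odd_iff] at hm; omega
  have hn4 : n % 4 = 1 ∨ n % 4 = 3 := by
    rw [Nat.odd_iff] at hn; omega
  have v1 : ∀ (f : ℕ → ℝ) (c k : ℕ), k % 4 = c → qblPart f c k = f k := fun f c k h => if_pos h
  have v2 : ∀ (f : ℕ → ℝ) (c k : ℕ), k % 4 ≠ c → qblPart f c k = 0 := fun f c k h => if_neg h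
  rcases hm4 with h1 | h1
  · have e := jacobiSym.quadratic_reciprocity_one_mod_four h1 hn
    rw [v1 A 1 m h1, v2 A 3 m (by omega), e]
    rcases hn4 with h2 | h2
    · rw [v1 B 1 n h2, v2 B 3 n (by omega)]; ring
    · rw [v1 B 3 n h2, v2 B 1 n (by omega)]; ring
  · rw [v1 A 3 m h1, v2 A 1 m (by omega)]
    rcases hn4 with h2 | h2
    · have e := jacobiSym.quadratic_reciprocity_one_mod_four' hm h2
      rw [v1 B 1 n h2, v2 B 3 n (by omega), e]; ring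
    · have e := jacobiSym.quadratic_reciprocity_three_mod_four h1 h2
      rw [v1 B 3 n h2, v2 B 1 n (by omega), e]; push_cast; ring

theorem bl (A B : ℕ → ℝ) (M N : ℕ) (hA : ∀ m, |A m| ≤ 1) (hB : ∀ n, |B n| ≤ 1)
    (hAs : ∀ m, A m ≠ 0 → Odd m ∧ Squarefree m) (hBs : ∀ n, B n ≠ 0 → Odd n ∧ Squarefree n)
    (hM : 1 ≤ M) (hN : 1 ≤ N) :
    |∑ m ∈ Icc 1 M, ∑ n ∈ Icc 1 N, A m * B n * (jacobiSym m n : ℝ)| ≤
      8 * M * N * ((min M N : ℕ) : ℝ) ^ (-(1 / 8) : ℝ) * (1 + 4 * Real.log (max M N : ℕ)) ^ 8 := by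
  rcases le_or_gt N M with h | h
  · rw [min_eq_right h, max_eq_left h]
    refine (bl_core A B M N hA hB hBs hN h).trans ?_
    rw [qbl_rpow N hN]
    have h1 : (0 : ℝ) ≤ M * (N * (N : ℝ) ^ (-(1 / 8) : ℝ)) * (1 + 4 * Real.log M) ^ 8 := by
      have : (0 : ℝ) ≤ (1 + 4 * Real.log M) ^ 8 := by positivity
      positivity
    calc 2 * (M : ℝ) * (N * (N : ℝ) ^ (-(1 / 8) : ℝ)) * (1 + 4 * Real.log M) ^ 8
        = 2 * (M * (N * (N : ℝ) ^ (-(1 / 8) : ℝ)) * (1 + 4 * Real.log M) ^ 8) := by ring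
      _ ≤ 8 * (M * (N * (N : ℝ) ^ (-(1 / 8) : ℝ)) * (1 + 4 * Real.log M) ^ 8) := by linarith
      _ = _ := by ring
  · rw [min_eq_left h.le, max_eq_right h.le]
    have key : ∀ a b : ℕ, |∑ n ∈ Icc 1 N, ∑ m ∈ Icc 1 M,
        qblPart B b n * qblPart A a m * (jacobiSym n m : ℝ)| ≤
        2 * N * (M : ℝ) ^ (7 / 8 : ℝ) * (1 + 4 * Real.log N) ^ 8 := fun a b =>
      bl_core (qblPart B b) (qblPart A a) N M (qblPart_le B hB b) (qblPart_le A hA a)
        (qblPart_supp A hAs a) hM h.le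
    have e : ∑ m ∈ Icc 1 M, ∑ n ∈ Icc 1 N, A m * B n * (jacobiSym m n : ℝ) =
        (∑ n ∈ Icc 1 N, ∑ m ∈ Icc 1 M, qblPart B 1 n * qblPart A 1 m * (jacobiSym n m : ℝ)) +
        (∑ n ∈ Icc 1 N, ∑ m ∈ Icc 1 M, qblPart B 3 n * qblPart A 1 m * (jacobiSym n m : ℝ)) +
        (∑ n ∈ Icc 1 N, ∑ m ∈ Icc 1 M, qblPart B 1 n * qblPart A 3 m * (jacobiSym n m : ℝ)) -
        (∑ n ∈ Icc 1 N, ∑ m ∈ Icc 1 M, qblPart B 3 n * qblPart A 3 m * (jacobiSym n m : ℝ)) := by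
      rw [Finset.sum_comm]
      simp only [← Finset.sum_add_distrib, ← Finset.sum_sub_distrib]
      refine Finset.sum_congr rfl fun n _ => Finset.sum_congr rfl fun m _ => ?_
      exact qbl_point A B hAs hBs m n
    rw [e]
    have k1 := key 1 1
    have k2 := key 1 3
    have k3 := key 3 1
    have k4 := key 3 3
    rw [qbl_rpow M hM] at k1 k2 k3 k4
    rw [abs_le] at k1 k2 k3 k4 ⊢
    have e2 : 8 * (M : ℝ) * N * (M : ℝ) ^ (-(1 / 8) : ℝ) * (1 + 4 * Real.log N) ^ 8 =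
        4 * (2 * N * (M * (M : ℝ) ^ (-(1 / 8) : ℝ)) * (1 + 4 * Real.log N) ^ 8) := by ring
    rw [e2]
    constructor <;> linarith [k1.1, k1.2, k2.1, k2.2, k3.1, k3.2, k4.1, k4.2]

end QT
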