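import Pool.Agent.Lib.MP_10e784_ag.QBL

/-! JOB QBL2.  The bilinear bound in a hyperbolic region.

Proof.  If `V² ≥ X` the sum is empty.  Let `H = ⌈V^(1/16)⌉₊`, so `V^(1/16) ≤ H ≤ 2 V^(1/16)`.
Dyadic blocks `(M_a, 2M_a]`, `M_a = V 2^a`, with `V ≤ M_a < X/V` (there are `≤ 1 + log X / log 2` of them) cover all `m` that occur.
Cut each block into `H` intervals `I_h = (M_a(1+h/H), M_a(1+(h+1)/H)]`.  For `m ∈ I_h` put `N_h = X/(M_a(1+(h+1)/H))`;
then `n ≤ N_h` implies `mn ≤ X`.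
Main part `m ∈ I_h`, `V < n ≤ N_h` (empty unless `N_h > V`): apply `bl` to `A·1_{I_h}`, `B·1_{n>V}` with
`M = ⌊2M_a⌋₊`, `N = ⌊N_h⌋₊` (both `≥ 1` and `≥ V/2`): `≤ 8·2M_a·N_h·(V/2)^(-1/8)(1+4 log(2X))^8`
`≤ C X V^(-1/8) (1+log X)^8`, times the number `≤ H (2+2 log X)` of pieces: `≤ C X V^(-1/16)(1+log X)^9`.
Error: pairs with `m ∈ I_h`, `N_h < n ≤ X/m`: at most `(M_a/H + 1)(X/(M_a H) + 1)` pairs for each `h`, total over `h`
`≤ X/H + M_a + X/M_a + H ≤ X/H + 2X/V + H`, and `H ≤ 2V^(1/16) ≤ 2 V ≤ 2X/V`; sum over the blocks: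
`≤ C X V^(-1/16)(1+log X)`. -/

namespace QT

open Finset

/-- the cut points -/
private def qcut (h a0 : ℕ) : ℕ → ℕ
  | 0 => a0
  | k + 1 => qcut h a0 k + qcut h a0 k / h + 1

private theorem qcut_succ (h a0 k : ℕ) :
    qcut h a0 (k + 1) = qcut h a0 k + qcut h a0 k / h + 1 := rfl

private theorem qcut_strict (h a0 : ℕ) : StrictMono (qcut h a0) :=
  strictMono_nat_of_lt_succ fun k => by
    rw [qcut_succ]
    have := Nat.zero_le (qcut h a0 k / h)
    omega

private theorem qcut_step (h a0 k i : ℕ) :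
    qcut h a0 k + i * (qcut h a0 k / h + 1) ≤ qcut h a0 (k + i) := by
  induction i with
  | zero => simp
  | succ i ih =>
    have h1 : qcut h a0 k ≤ qcut h a0 (k + i) := (qcut_strict h a0).monotone (Nat.le_add_right _ _)
    have h2 : qcut h a0 k / h ≤ qcut h a0 (k + i) / h := Nat.div_le_div_right h1
    rw [← Nat.add_assoc, qcut_succ, Nat.add_one_mul]
    omega

private theorem qcut_double (h a0 k : ℕ) (hh : 1 ≤ h) : 2 * qcut h a0 k ≤ qcut h a0 (k + h) := by
  have h1 := qcut_step h a0 k h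
  have h2 := Nat.lt_mul_div_succ (qcut h a0 k) (show 0 < h by omega)
  omega

private theorem qcut_pow (h a0 : ℕ) (hh : 1 ≤ h) (ha : 1 ≤ a0) (j : ℕ) :
    2 ^ j ≤ qcut h a0 (h * j) := by
  induction j with
  | zero => simpa [qcut] using ha
  | succ j ih =>
    have := qcut_double h a0 (h * j) hh
    have e : h * (j + 1) = h * j + h := Nat.mul_add_one h j
    rw [pow_succ, e]
    omega

private theorem qsum_pieces (F : ℕ → ℝ) (a : ℕ → ℕ) (ha : Monotone a) (K : ℕ) :
    ∑ m ∈ Ioc (a 0) (a K), F m = ∑ k ∈ range K, ∑ m ∈ Ioc (a k) (a (k + 1)), F m := by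
  induction K with
  | zero => simp
  | succ K ih =>
    rw [Finset.sum_range_succ, ← ih,
      Finset.sum_Ioc_consecutive F (ha (Nat.zero_le K)) (ha (Nat.le_succ K))]

/-- the main part of one piece -/
private theorem qmain_piece (A B : ℕ → ℝ) (X : ℕ) (V : ℝ) (hA : ∀ m, |A m| ≤ 1)
    (hB : ∀ n, |B n| ≤ 1) (hAs : ∀ m, A m ≠ 0 → Odd m ∧ Squarefree m)
    (hBs : ∀ n, B n ≠ 0 → Odd n ∧ Squarefree n) (hV : 1 ≤ V) (hX : 2 ≤ X)
    (a b : ℕ) (hVa : V < b) (hab : a < b) :
    |∑ m ∈ Ioc a b, ∑ n ∈ Icc 1 X,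
        if b * n ≤ X ∧ V < n then A m * B n * (jacobiSym m n : ℝ) else 0| ≤
      8 * X * V ^ (-(1 / 8) : ℝ) * (1 + 4 * Real.log X) ^ 8 := by
  have hV0 : 0 < V := by linarith
  have hb0 : 0 < b := by omega
  have hX1 : (1 : ℝ) ≤ X := by exact_mod_cast (by omega : 1 ≤ X)
  have hlog : 0 ≤ Real.log X := Real.log_nonneg hX1
  have hrhs : 0 ≤ 8 * X * V ^ (-(1 / 8) : ℝ) * (1 + 4 * Real.log X) ^ 8 := by positivity
  set N := X / b with hN
  have hdiv : ∀ n : ℕ, b * n ≤ X ↔ n ≤ N := fun n => by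
    rw [hN, Nat.le_div_iff_mul_le hb0, mul_comm]
  by_cases hNV : (N : ℝ) ≤ V
  · rw [Finset.sum_eq_zero, abs_zero]
    · exact hrhs
    · intro m _
      refine Finset.sum_eq_zero fun n _ => if_neg ?_
      rintro ⟨h1, h2⟩
      rw [hdiv] at h1
      have : (n : ℝ) ≤ N := by exact_mod_cast h1
      linarith
  · push Not at hNV
    have hN1 : 1 ≤ N := by
      have : (0 : ℝ) < N := by linarith
      exact_mod_cast this
    have hNX : N ≤ X := Nat.div_le_self _ _
    have hbN : b * N ≤ X := Nat.mul_div_le _ _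
    have hbX : b ≤ X := le_trans (Nat.le_mul_of_pos_right b hN1) hbN
    have key := bl (fun m => if a < m then A m else 0) (fun n => if V < n then B n else 0) b N
      (fun m => by split_ifs; exacts [hA m, by simp])
      (fun n => by split_ifs; exacts [hB n, by simp])
      (fun m hm => by
        split_ifs at hm
        · exact hAs m hm
        · exact absurd rfl hm)
      (fun n hn => by
        split_ifs at hn
        · exact hBs n hn
        · exact absurd rfl hn) hb0 hN1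
    have e : ∑ m ∈ Ioc a b, ∑ n ∈ Icc 1 X,
        (if b * n ≤ X ∧ V < n then A m * B n * (jacobiSym m n : ℝ) else 0) =
        ∑ m ∈ Icc 1 b, ∑ n ∈ Icc 1 N, (if a < m then A m else 0) * (if V < n then B n else 0) *
          (jacobiSym m n : ℝ) := by
      have e1 : ∀ m, ∑ n ∈ Icc 1 X,
          (if b * n ≤ X ∧ V < n then A m * B n * (jacobiSym m n : ℝ) else 0) =
          ∑ n ∈ Icc 1 N, A m * (if V < n then B n else 0) * (jacobiSym m n : ℝ) := by
        intro m
        symm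
        have hsub : Icc 1 N ⊆ Icc 1 X := Finset.Icc_subset_Icc le_rfl hNX
        rw [← Finset.sum_subset hsub]
        · refine Finset.sum_congr rfl fun n hn => ?_
          have h1 : b * n ≤ X := (hdiv n).2 (Finset.mem_Icc.1 hn).2
          by_cases h2 : V < n
          · rw [if_pos h2, if_pos ⟨h1, h2⟩]
          · rw [if_neg h2, if_neg fun h => h2 h.2]; ring
        · intro n _ hn
          refine if_neg fun h => hn ?_
          have := (hdiv n).1 h.1
          have h3 : (1 : ℝ) < n := by linarith [h.2]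
          rw [Finset.mem_Icc]
          exact ⟨by exact_mod_cast h3.le, this⟩
      rw [Finset.sum_congr rfl fun m _ => e1 m]
      have hsub : Ioc a b ⊆ Icc 1 b := fun m hm => by
        rw [Finset.mem_Ioc] at hm
        rw [Finset.mem_Icc]
        omega
      rw [← Finset.sum_subset hsub]
      · refine Finset.sum_congr rfl fun m hm => Finset.sum_congr rfl fun n _ => ?_
        rw [if_pos (Finset.mem_Ioc.1 hm).1]
      · intro m hm hm'
        refine Finset.sum_eq_zero fun n _ => ?_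
        rw [if_neg]
        · ring
        · intro h
          exact hm' (Finset.mem_Ioc.2 ⟨h, (Finset.mem_Icc.1 hm).2⟩)
    rw [e]
    refine key.trans ?_
    have hbN' : (b : ℝ) * N ≤ X := by exact_mod_cast hbN
    have hmin : V ≤ ((min b N : ℕ) : ℝ) := by
      rcases min_choice b N with h | h <;> rw [h] <;> linarith
    have hmax : ((max b N : ℕ) : ℝ) ≤ X := by
      exact_mod_cast max_le hbX hNX
    have hmax1 : (1 : ℝ) ≤ ((max b N : ℕ) : ℝ) := by
      exact_mod_cast le_max_of_le_right hN1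
    have h1 : ((min b N : ℕ) : ℝ) ^ (-(1 / 8) : ℝ) ≤ V ^ (-(1 / 8) : ℝ) :=
      Real.rpow_le_rpow_of_nonpos hV0 hmin (by norm_num)
    have h2 : Real.log ((max b N : ℕ) : ℝ) ≤ Real.log X := Real.log_le_log (by linarith) hmax
    have h3 : 0 ≤ Real.log ((max b N : ℕ) : ℝ) := Real.log_nonneg hmax1
    have h4 : (1 + 4 * Real.log ((max b N : ℕ) : ℝ)) ^ 8 ≤ (1 + 4 * Real.log X) ^ 8 := by
      gcongr
    have h5 : (0 : ℝ) ≤ ((min b N : ℕ) : ℝ) ^ (-(1 / 8) : ℝ) := by positivity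
    calc 8 * (b : ℝ) * N * ((min b N : ℕ) : ℝ) ^ (-(1 / 8) : ℝ) *
          (1 + 4 * Real.log ((max b N : ℕ) : ℝ)) ^ 8
        = 8 * ((b : ℝ) * N) * ((min b N : ℕ) : ℝ) ^ (-(1 / 8) : ℝ) *
          (1 + 4 * Real.log ((max b N : ℕ) : ℝ)) ^ 8 := by ring
      _ ≤ 8 * X * V ^ (-(1 / 8) : ℝ) * (1 + 4 * Real.log X) ^ 8 := by
          gcongr

/-- the number of pairs near the hyperbola -/
private theorem qerr_count (h a0 X K : ℕ) (V : ℝ) (hh : 1 ≤ h) (hV : 1 ≤ V) (ha0 : a0 = ⌊V⌋₊)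
    (n : ℕ) (hn : 1 ≤ n) :
    ∑ k ∈ range K, ∑ m ∈ Ioc (qcut h a0 k) (qcut h a0 (k + 1)),
      (if m * n ≤ X ∧ X < qcut h a0 (k + 1) * n then (1 : ℝ) else 0) ≤
      (X / h + X / V) * (1 / n) := by
  have hV0 : 0 < V := by linarith
  have hn0 : (0 : ℝ) < n := by exact_mod_cast hn
  have hh0 : (0 : ℝ) < h := by exact_mod_cast hh
  have hrhs : 0 ≤ ((X : ℝ) / h + X / V) * (1 / n) := by positivity
  by_cases hex : ∃ k ∈ range K, qcut h a0 k * n < X ∧ X < qcut h a0 (k + 1) * n ∧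
      (qcut h a0 k + 1) * n ≤ X
  · obtain ⟨k, hk, h1, h2, h2'⟩ := hex
    rw [Finset.sum_eq_single k]
    · calc ∑ m ∈ Ioc (qcut h a0 k) (qcut h a0 (k + 1)),
            (if m * n ≤ X ∧ X < qcut h a0 (k + 1) * n then (1 : ℝ) else 0)
          ≤ ∑ m ∈ Ioc (qcut h a0 k) (qcut h a0 (k + 1)), (1 : ℝ) :=
            Finset.sum_le_sum fun m _ => by split_ifs <;> norm_num
        _ = (((qcut h a0 k) / h : ℕ) : ℝ) + 1 := by
            rw [Finset.sum_const, Nat.card_Ioc, qcut_succ, nsmul_eq_mul, mul_one]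
            have : qcut h a0 k + qcut h a0 k / h + 1 - qcut h a0 k = qcut h a0 k / h + 1 := by
              rw [Nat.add_assoc, Nat.add_sub_cancel_left]
            rw [this]
            push_cast
            ring
        _ ≤ (X / h + X / V) * (1 / n) := by
            have h3 : (((qcut h a0 k) / h : ℕ) : ℝ) ≤ (qcut h a0 k : ℝ) / h := Nat.cast_div_le
            have h4 : (qcut h a0 k : ℝ) * n ≤ X := by exact_mod_cast h1.le
            have h5 : (qcut h a0 k : ℝ) / h ≤ X / h * (1 / n) := by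
              rw [div_mul_div_comm, mul_one, div_le_div_iff₀ hh0 (by positivity)]
              calc (qcut h a0 k : ℝ) * (h * n) = (qcut h a0 k : ℝ) * n * h := by ring
                _ ≤ X * h := by gcongr
            have h6 : V < (qcut h a0 k + 1 : ℕ) := by
              have h7 : a0 ≤ qcut h a0 k := (qcut_strict h a0).monotone (Nat.zero_le k)
              have h8 : V < a0 + 1 := by rw [ha0]; exact Nat.lt_floor_add_one V
              have h9 : (a0 : ℝ) ≤ qcut h a0 k := by exact_mod_cast h7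
              push_cast
              linarith
            have h10 : ((qcut h a0 k + 1 : ℕ) : ℝ) * n ≤ X := by exact_mod_cast h2'
            have h11 : (1 : ℝ) ≤ X / V * (1 / n) := by
              rw [div_mul_div_comm, mul_one, le_div_iff₀ (by positivity), one_mul]
              calc V * n ≤ ((qcut h a0 k + 1 : ℕ) : ℝ) * n := by gcongr
                _ ≤ X := h10
            rw [add_mul]
            linarith
    · intro k' _ hne
      refine Finset.sum_eq_zero fun m hm => if_neg ?_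
      rw [Finset.mem_Ioc] at hm
      rintro ⟨h3, h4⟩
      rcases lt_or_gt_of_ne hne with hlt | hlt
      · have h5 : qcut h a0 (k' + 1) ≤ qcut h a0 k := (qcut_strict h a0).monotone hlt
        have h6 : qcut h a0 (k' + 1) * n ≤ qcut h a0 k * n := Nat.mul_le_mul_right n h5
        omega
      · have h5 : qcut h a0 (k + 1) ≤ qcut h a0 k' := (qcut_strict h a0).monotone hlt
        have h6 : qcut h a0 (k + 1) * n ≤ m * n := Nat.mul_le_mul_right n (by omega)
        omega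
    · intro hk'
      exact absurd hk hk'
  · push Not at hex
    rw [Finset.sum_eq_zero]
    · exact hrhs
    · intro k hk
      refine Finset.sum_eq_zero fun m hm => if_neg ?_
      rw [Finset.mem_Ioc] at hm
      rintro ⟨h3, h4⟩
      have h5 : (qcut h a0 k + 1) * n ≤ m * n := Nat.mul_le_mul_right n hm.1
      have h6 : qcut h a0 k * n < (qcut h a0 k + 1) * n := Nat.mul_lt_mul_of_pos_right (by omega) hn
      have := hex k hk (by omega) h4
      omega

theorem bl2 : ∃ C : ℝ, 0 < C ∧ ∀ (A B : ℕ → ℝ) (X : ℕ) (V : ℝ), (∀ m, |A m| ≤ 1) → (∀ n, |B n| ≤ 1) →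
    (∀ m, A m ≠ 0 → Odd m ∧ Squarefree m) → (∀ n, B n ≠ 0 → Odd n ∧ Squarefree n) → 1 ≤ V → 2 ≤ X →
    |∑ m ∈ Icc 1 X, ∑ n ∈ Icc 1 X,
        if m * n ≤ X ∧ V < m ∧ V < n then A m * B n * (jacobiSym m n : ℝ) else 0| ≤
      C * X * (1 + Real.log X) ^ 10 * V ^ (-(1 / 16) : ℝ) := by
  refine ⟨16 * 4 ^ 9 + 2, by norm_num, ?_⟩
  intro A B X V hA hB hAs hBs hV hX
  have hV0 : 0 < V := by linarith
  have hX1 : (1 : ℝ) ≤ X := by exact_mod_cast (by omega : 1 ≤ X)
  have hlog : 0 ≤ Real.log X := Real.log_nonneg hX1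
  set h : ℕ := ⌈V ^ (1 / 16 : ℝ)⌉₊ with hh
  have hV16 : 1 ≤ V ^ (1 / 16 : ℝ) := Real.one_le_rpow hV (by norm_num)
  have hh1 : 1 ≤ h := Nat.one_le_ceil_iff.2 (by linarith)
  have hhle : V ^ (1 / 16 : ℝ) ≤ h := Nat.le_ceil _
  have hhge : (h : ℝ) ≤ 2 * V ^ (1 / 16 : ℝ) := by
    have := (Nat.ceil_lt_add_one (show 0 ≤ V ^ (1 / 16 : ℝ) by linarith)).le
    linarith
  have hh0 : (0 : ℝ) < h := by linarith
  set a0 : ℕ := ⌊V⌋₊ with ha0
  have ha01 : 1 ≤ a0 := Nat.one_le_floor_iff V |>.2 hV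
  set a : ℕ → ℕ := qcut h a0 with ha
  have hamono : Monotone a := (qcut_strict h a0).monotone
  set K : ℕ := h * (Nat.log 2 X + 1) with hK
  have haK : X ≤ a K := (Nat.lt_pow_succ_log_self (by norm_num) X).le.trans
    (qcut_pow h a0 hh1 ha01 (Nat.log 2 X + 1))
  have hKle : (K : ℝ) ≤ 2 * V ^ (1 / 16 : ℝ) * (1 + 2 * Real.log X) := by
    have h1 : (Nat.log 2 X : ℝ) ≤ 2 * Real.log X := by
      have h2 := Real.natLog_le_logb X 2
      have h3 : Real.logb (2 : ℕ) X = Real.log X / Real.log 2 := by simp [Real.logb]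
      rw [h3] at h2
      have h4 : (1 : ℝ) / 2 < Real.log 2 := by linarith [Real.log_two_gt_d9]
      refine h2.trans ?_
      rw [div_le_iff₀ (by linarith)]
      nlinarith
    rw [hK]
    push_cast
    have h5 : (0 : ℝ) ≤ (Nat.log 2 X : ℝ) + 1 := by positivity
    calc (h : ℝ) * ((Nat.log 2 X : ℝ) + 1) ≤ (2 * V ^ (1 / 16 : ℝ)) * ((Nat.log 2 X : ℝ) + 1) := by
          gcongr
      _ ≤ (2 * V ^ (1 / 16 : ℝ)) * (1 + 2 * Real.log X) :=
          mul_le_mul_of_nonneg_left (by linarith) (by positivity)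
  -- condition V < m
  have hVm : ∀ m : ℕ, V < m ↔ a0 < m := fun m => (Nat.floor_lt (by linarith)).symm
  -- decomposition into pieces
  have hdec : (∑ m ∈ Icc 1 X, ∑ n ∈ Icc 1 X,
        if m * n ≤ X ∧ V < m ∧ V < n then A m * B n * (jacobiSym m n : ℝ) else 0) =
      ∑ k ∈ range K, ∑ m ∈ Ioc (a k) (a (k + 1)), ∑ n ∈ Icc 1 X,
        ((if a (k + 1) * n ≤ X ∧ V < n then A m * B n * (jacobiSym m n : ℝ) else 0) +
        (if m * n ≤ X ∧ X < a (k + 1) * n ∧ V < n then A m * B n * (jacobiSym m n : ℝ) else 0)) := by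
    have e1 : (∑ m ∈ Icc 1 X, ∑ n ∈ Icc 1 X,
        if m * n ≤ X ∧ V < m ∧ V < n then A m * B n * (jacobiSym m n : ℝ) else 0) =
        ∑ m ∈ Ioc (a 0) (a K), ∑ n ∈ Icc 1 X,
        if m * n ≤ X ∧ V < m ∧ V < n then A m * B n * (jacobiSym m n : ℝ) else 0 := by
      have hs1 : Icc 1 X ⊆ Icc 1 (a K) := Finset.Icc_subset_Icc le_rfl haK
      have hs2 : Ioc (a 0) (a K) ⊆ Icc 1 (a K) := fun m hm => by
        rw [Finset.mem_Ioc] at hm
        rw [Finset.mem_Icc]
        omega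
      rw [Finset.sum_subset hs1, Finset.sum_subset hs2]
      · intro m hm hm'
        refine Finset.sum_eq_zero fun n _ => if_neg ?_
        rintro ⟨-, h2, -⟩
        rw [hVm] at h2
        exact hm' (Finset.mem_Ioc.2 ⟨h2, (Finset.mem_Icc.1 hm).2⟩)
      · intro m hm hm'
        refine Finset.sum_eq_zero fun n hn => if_neg ?_
        rintro ⟨h1, -, -⟩
        have h3 : X < m := by
          by_contra hcon
          exact hm' (Finset.mem_Icc.2 ⟨(Finset.mem_Icc.1 hm).1, by omega⟩)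
        have h4 : m * 1 ≤ m * n := Nat.mul_le_mul_left m (Finset.mem_Icc.1 hn).1
        omega
    rw [e1, qsum_pieces _ a hamono K]
    refine Finset.sum_congr rfl fun k _ => Finset.sum_congr rfl fun m hm =>
      Finset.sum_congr rfl fun n _ => ?_
    rw [Finset.mem_Ioc] at hm
    have h0 : V < m := by
      rw [hVm]
      exact lt_of_le_of_lt (hamono (Nat.zero_le k)) hm.1
    have hmn : m * n ≤ a (k + 1) * n := Nat.mul_le_mul_right n hm.2
    by_cases h2 : V < n
    · by_cases h3 : a (k + 1) * n ≤ X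
      · rw [if_pos ⟨by omega, h0, h2⟩, if_pos ⟨h3, h2⟩, if_neg (by rintro ⟨-, h4, -⟩; omega),
          add_zero]
      · by_cases h5 : m * n ≤ X
        · rw [if_pos ⟨h5, h0, h2⟩, if_neg (fun h4 => h3 h4.1), if_pos ⟨h5, by omega, h2⟩, zero_add]
        · rw [if_neg (fun h4 => h5 h4.1), if_neg (fun h4 => h3 h4.1), if_neg (fun h4 => h5 h4.1),
            add_zero]
    · rw [if_neg (fun h4 => h2 h4.2.2), if_neg (fun h4 => h2 h4.2), if_neg (fun h4 => h2 h4.2.2),
        add_zero]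
  rw [hdec]
  simp only [Finset.sum_add_distrib]
  -- main part
  have hmain : |∑ k ∈ range K, ∑ m ∈ Ioc (a k) (a (k + 1)), ∑ n ∈ Icc 1 X,
        (if a (k + 1) * n ≤ X ∧ V < n then A m * B n * (jacobiSym m n : ℝ) else 0)| ≤
      K * (8 * X * V ^ (-(1 / 8) : ℝ) * (1 + 4 * Real.log X) ^ 8) := by
    refine (Finset.abs_sum_le_sum_abs _ _).trans ?_
    rw [← nsmul_eq_mul]
    conv_rhs => rw [← Finset.card_range K]
    refine Finset.sum_le_card_nsmul _ _ _ fun k _ => ?_
    have h1 : a k < a (k + 1) := qcut_strict h a0 (Nat.lt_succ_self k)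
    refine qmain_piece A B X V hA hB hAs hBs hV hX (a k) (a (k + 1)) ?_ h1
    rw [hVm]
    exact lt_of_le_of_lt (hamono (Nat.zero_le k)) h1
  -- error part
  have herr : |∑ k ∈ range K, ∑ m ∈ Ioc (a k) (a (k + 1)), ∑ n ∈ Icc 1 X,
        (if m * n ≤ X ∧ X < a (k + 1) * n ∧ V < n then A m * B n * (jacobiSym m n : ℝ) else 0)| ≤
      (X / h + X / V) * (1 + Real.log X) := by
    have hb : ∀ m n : ℕ, |A m * B n * (jacobiSym m n : ℝ)| ≤ 1 := fun m n => by
      rw [abs_mul, abs_mul]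
      have hj : |(jacobiSym m n : ℝ)| ≤ 1 := by
        rcases jacobiSym.trichotomy (m : ℤ) n with hj | hj | hj <;> rw [hj] <;> simp
      have h1 : |A m| * |B n| ≤ 1 := mul_le_one₀ (hA m) (abs_nonneg _) (hB n)
      exact mul_le_one₀ h1 (abs_nonneg _) hj
    calc |∑ k ∈ range K, ∑ m ∈ Ioc (a k) (a (k + 1)), ∑ n ∈ Icc 1 X,
          (if m * n ≤ X ∧ X < a (k + 1) * n ∧ V < n then A m * B n * (jacobiSym m n : ℝ) else 0)|
        ≤ ∑ k ∈ range K, ∑ m ∈ Ioc (a k) (a (k + 1)), ∑ n ∈ Icc 1 X,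
          (if m * n ≤ X ∧ X < a (k + 1) * n then (1 : ℝ) else 0) := by
          refine (Finset.abs_sum_le_sum_abs _ _).trans (Finset.sum_le_sum fun k _ => ?_)
          refine (Finset.abs_sum_le_sum_abs _ _).trans (Finset.sum_le_sum fun m _ => ?_)
          refine (Finset.abs_sum_le_sum_abs _ _).trans (Finset.sum_le_sum fun n _ => ?_)
          by_cases h1 : m * n ≤ X ∧ X < a (k + 1) * n ∧ V < n
          · rw [if_pos h1, if_pos ⟨h1.1, h1.2.1⟩]
            exact hb m n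
          · rw [if_neg h1, abs_zero]
            split_ifs <;> norm_num
      _ = ∑ n ∈ Icc 1 X, ∑ k ∈ range K, ∑ m ∈ Ioc (a k) (a (k + 1)),
          (if m * n ≤ X ∧ X < a (k + 1) * n then (1 : ℝ) else 0) := by
          rw [Finset.sum_congr rfl fun k _ => Finset.sum_comm]
          exact Finset.sum_comm
      _ ≤ ∑ n ∈ Icc 1 X, (X / h + X / V) * (1 / n) :=
          Finset.sum_le_sum fun n hn =>
            qerr_count h a0 X K V hh1 hV ha0 n (Finset.mem_Icc.1 hn).1
      _ = (X / h + X / V) * ∑ n ∈ Icc 1 X, (1 / n : ℝ) := by rw [Finset.mul_sum]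
      _ ≤ (X / h + X / V) * (1 + Real.log X) := by
          have h1 : ∑ n ∈ Icc 1 X, (1 / n : ℝ) ≤ 1 + Real.log X := by
            have h2 := harmonic_le_one_add_log X
            rw [harmonic_eq_sum_Icc] at h2
            push_cast at h2
            simpa [one_div] using h2
          gcongr
  -- assembly
  refine (abs_add_le _ _).trans ?_
  refine (add_le_add hmain herr).trans ?_
  set u : ℝ := V ^ (-(1 / 16) : ℝ) with hu
  set v : ℝ := V ^ (1 / 16 : ℝ) with hv
  have hu0 : 0 < u := by positivity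
  have huv : v * u = 1 := by
    rw [hv, hu, ← Real.rpow_add hV0]
    norm_num
  have hu2 : V ^ (-(1 / 8) : ℝ) = u * u := by
    rw [hu, ← Real.rpow_add hV0]
    norm_num
  have hvV : v ≤ V := by
    rw [hv]
    calc V ^ (1 / 16 : ℝ) ≤ V ^ (1 : ℝ) := Real.rpow_le_rpow_of_exponent_le hV (by norm_num)
      _ = V := Real.rpow_one V
  have hv0 : 0 < v := by linarith
  have hvu : 1 / v = u := by
    rw [div_eq_iff hv0.ne', mul_comm]
    exact huv.symm
  set l : ℝ := Real.log X with hl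
  have hX0 : (0 : ℝ) < X := by linarith
  have g1 : (K : ℝ) * (8 * X * V ^ (-(1 / 8) : ℝ) * (1 + 4 * l) ^ 8) ≤
      16 * 4 ^ 9 * (X * u * (1 + l) ^ 10) := by
    rw [hu2]
    calc (K : ℝ) * (8 * X * (u * u) * (1 + 4 * l) ^ 8)
        ≤ (2 * v * (1 + 2 * l)) * (8 * X * (u * u) * (1 + 4 * l) ^ 8) := by gcongr
      _ = 16 * (X * u) * (v * u) * ((1 + 2 * l) * (1 + 4 * l) ^ 8) := by ring
      _ = 16 * (X * u) * ((1 + 2 * l) * (1 + 4 * l) ^ 8) := by rw [huv, mul_one]
      _ ≤ 16 * (X * u) * ((4 * (1 + l)) * (4 * (1 + l)) ^ 8) := by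
          have t1 : 1 + 2 * l ≤ 4 * (1 + l) := by linarith
          have t2 : 1 + 4 * l ≤ 4 * (1 + l) := by linarith
          gcongr
      _ = 16 * 4 ^ 9 * (X * u) * ((1 + l) ^ 9 * 1) := by ring
      _ ≤ 16 * 4 ^ 9 * (X * u) * ((1 + l) ^ 9 * (1 + l)) := by
          have t3 : 1 ≤ 1 + l := by linarith
          gcongr
      _ = 16 * 4 ^ 9 * (X * u * (1 + l) ^ 10) := by ring
  have g2 : ((X : ℝ) / h + X / V) * (1 + l) ≤ 2 * (X * u * (1 + l) ^ 10) := by
    have t1 : (X : ℝ) / h ≤ X * u := by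
      rw [← hvu, mul_one_div]
      gcongr
    have t2 : (X : ℝ) / V ≤ X * u := by
      rw [← hvu, mul_one_div]
      gcongr
    have t3 : 1 ≤ 1 + l := by linarith
    have t4 : 1 + l ≤ (1 + l) ^ 10 := le_self_pow₀ t3 (by norm_num)
    calc ((X : ℝ) / h + X / V) * (1 + l) ≤ (X * u + X * u) * (1 + l) ^ 10 := by gcongr
      _ = 2 * (X * u * (1 + l) ^ 10) := by ring
  calc (K : ℝ) * (8 * X * V ^ (-(1 / 8) : ℝ) * (1 + 4 * l) ^ 8) + ((X : ℝ) / h + X / V) * (1 + l)
      ≤ 16 * 4 ^ 9 * (X * u * (1 + l) ^ 10) + 2 * (X * u * (1 + l) ^ 10) := add_le_add g1 g2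
    _ = (16 * 4 ^ 9 + 2) * X * (1 + l) ^ 10 * u := by ring

end QT
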