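import Pool.Agent.Lib.MP_10e784_ag.QDefs

/-! JOB QPeriod.  Incomplete sums of `m ↦ (m/n)` for an odd non-square modulus `n`.

Proof.  There is `a : ℕ` with `jacobiSym a n = -1`: as `n` is odd and not a square some prime `q ∣ n` has odd exponent `v`;
choose `a ≡ non-residue mod q`, `a ≡ 1 mod n/q^v` (CRT).  `m ↦ (m/n)` is periodic mod `n` (`jacobiSym.mod_left`), and multiplication
by `a` (a unit mod `n`) permutes the residues, so a sum over a full period is `0`; hence the sum over `Icc 1 Y` has absolute value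
at most `n`.
`sum_jacobi_two`: if `n1 ≠ n2` are odd and squarefree then `n1 * n2` is not a square. -/

namespace QT

open Finset

private theorem QPeriod_exists (n : ℕ) (hn : Odd n) (hsq : ¬ IsSquare n) :
    ∃ a : ℕ, jacobiSym a n = -1 := by
  obtain ⟨s, b, hbs, hs⟩ := Nat.sq_mul_squarefree n
  have hn0 : n ≠ 0 := hn.pos.ne'
  have hs1 : s ≠ 1 := by
    rintro rfl
    apply hsq
    refine ⟨b, ?_⟩
    rw [← hbs]
    ring
  obtain ⟨q, hq, hqs⟩ := Nat.exists_prime_and_dvd hs1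
  have hb0 : b ≠ 0 := by
    rintro rfl
    simp at hbs
    exact hn0 hbs.symm
  have hs0 : s ≠ 0 := hs.ne_zero
  -- the exponent of `q`
  have hv : Odd (n.factorization q) := by
    rw [← hbs, Nat.factorization_mul (pow_ne_zero 2 hb0) hs0, Nat.factorization_pow]
    have h1 : s.factorization q = 1 := by
      have h2 : s.factorization q ≤ 1 := hs.natFactorization_le_one q
      have h3 : 0 < s.factorization q := hq.factorization_pos_of_dvd hs0 hqs
      omega
    simp [h1]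
  have hqn : q ∣ n := hqs.trans (hbs ▸ Dvd.intro_left _ rfl)
  have hq2 : q ≠ 2 := by
    rintro rfl
    exact (Nat.not_even_iff_odd.2 hn) (even_iff_two_dvd.2 hqn)
  have : Fact q.Prime := ⟨hq⟩
  obtain ⟨r, hr⟩ := FiniteField.exists_nonsquare (F := ZMod q) (by rw [ZMod.ringChar_zmod_n]; exact hq2)
  have hco : Nat.Coprime q (n / q ^ n.factorization q) := Nat.coprime_ordCompl hq hn0
  obtain ⟨a, ha1, ha2⟩ := Nat.chineseRemainder hco r.val 1
  refine ⟨a, ?_⟩
  have hmn : q ^ n.factorization q * (n / q ^ n.factorization q) = n :=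
    Nat.ordProj_mul_ordCompl_eq_self n q
  obtain ⟨m, hm⟩ : ∃ m, m = n / q ^ n.factorization q := ⟨_, rfl⟩
  rw [← hm] at hmn ha2
  have hm0 : m ≠ 0 := by
    rintro rfl
    rw [mul_zero] at hmn
    exact hn0 hmn.symm
  have : NeZero m := ⟨hm0⟩
  have : NeZero (q ^ n.factorization q) := ⟨pow_ne_zero _ hq.ne_zero⟩
  have e1 : jacobiSym a n = jacobiSym a (q ^ n.factorization q) * jacobiSym a m := by
    rw [← jacobiSym.mul_right, hmn]
  have e2 : jacobiSym a m = 1 := by
    have h1 : ((a : ℤ)) % (m : ℤ) = 1 % (m : ℤ) := by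
      have := ha2
      unfold Nat.ModEq at this
      exact_mod_cast this
    rw [jacobiSym.mod_left' h1, jacobiSym.one_left]
  have e3 : jacobiSym a (q ^ n.factorization q) = -1 := by
    rw [jacobiSym.pow_right, ← jacobiSym.legendreSym.to_jacobiSym]
    have h2 : legendreSym q a = -1 := by
      rw [legendreSym.eq_neg_one_iff]
      have h3 : (((a : ℕ) : ℤ) : ZMod q) = r := by
        have h4 : ((a : ℕ) : ZMod q) = ((r.val : ℕ) : ZMod q) :=
          (ZMod.natCast_eq_natCast_iff a r.val q).2 ha1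
        rw [Int.cast_natCast, h4, ZMod.natCast_zmod_val]
      rw [h3]
      exact hr
    rw [h2, hv.neg_one_pow]
  rw [e1, e2, e3]
  norm_num

private theorem QPeriod_full (n : ℕ) (hn : Odd n) (hsq : ¬ IsSquare n) :
    ∑ m ∈ range n, (jacobiSym m n : ℝ) = 0 := by
  have hn0 : n ≠ 0 := hn.pos.ne'
  have : NeZero n := ⟨hn0⟩
  obtain ⟨a, ha⟩ := QPeriod_exists n hn hsq
  have hcop : Nat.Coprime a n := by
    by_contra h
    have h1 : jacobiSym a n = 0 := by
      refine jacobiSym.eq_zero_iff_not_coprime.2 ?_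
      rwa [Int.gcd_natCast_natCast]
    rw [h1] at ha
    norm_num at ha
  obtain ⟨f, hf⟩ : ∃ f : ZMod n → ℝ, f = fun z => (jacobiSym (z.val : ℤ) n : ℝ) := ⟨_, rfl⟩
  have hval : ∀ m : ℕ, f (m : ZMod n) = (jacobiSym (m : ℤ) n : ℝ) := by
    intro m
    rw [hf]
    simp only
    rw [ZMod.val_natCast, Int.natCast_mod, ← jacobiSym.mod_left]
  have hmul : ∀ z : ZMod n, f ((a : ZMod n) * z) = - f z := by
    intro z
    obtain ⟨m, rfl⟩ : ∃ m : ℕ, (m : ZMod n) = z := ⟨z.val, ZMod.natCast_zmod_val z⟩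
    rw [← Nat.cast_mul, hval, hval]
    push_cast
    rw [jacobiSym.mul_left, ha]
    push_cast
    ring
  have hsum : ∑ z : ZMod n, f z = 0 := by
    have hu : IsUnit (a : ZMod n) := (ZMod.isUnit_iff_coprime a n).2 hcop
    obtain ⟨u, hu⟩ := hu
    have h1 : ∑ z : ZMod n, f z = ∑ z : ZMod n, f ((a : ZMod n) * z) := by
      rw [← hu]
      exact (Equiv.sum_comp (Units.mulLeft u) f).symm
    have h2 : ∑ z : ZMod n, f ((a : ZMod n) * z) = - ∑ z : ZMod n, f z := by
      rw [← Finset.sum_neg_distrib]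
      exact Finset.sum_congr rfl (fun z _ => hmul z)
    linarith
  rw [← hsum]
  refine Finset.sum_bij (fun m _ => (m : ZMod n)) ?_ ?_ ?_ ?_
  · intro m _
    exact Finset.mem_univ _
  · intro m1 h1 m2 h2 h
    have h3 := (ZMod.natCast_eq_natCast_iff m1 m2 n).1 h
    exact Nat.ModEq.eq_of_lt_of_lt h3 (Finset.mem_range.1 h1) (Finset.mem_range.1 h2)
  · intro z _
    exact ⟨z.val, Finset.mem_range.2 (ZMod.val_lt z), ZMod.natCast_zmod_val z⟩
  · intro m _
    rw [hval]

private theorem QPeriod_bound (n : ℕ) (hn : Odd n) (hsq : ¬ IsSquare n) (x : ℕ) :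
    |∑ m ∈ range x, (jacobiSym m n : ℝ)| ≤ n := by
  have hle : ∀ m : ℤ, |(jacobiSym m n : ℝ)| ≤ 1 := by
    intro m
    rcases jacobiSym.trichotomy m n with h | h | h <;> rw [h] <;> norm_num
  induction x using Nat.strong_induction_on with
  | _ x ih =>
    by_cases hx : x < n
    · calc |∑ m ∈ range x, (jacobiSym m n : ℝ)| ≤ ∑ m ∈ range x, |(jacobiSym m n : ℝ)| :=
            Finset.abs_sum_le_sum_abs _ _
        _ ≤ ∑ m ∈ range x, (1 : ℝ) := Finset.sum_le_sum (fun m _ => hle m)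
        _ = x := by simp
        _ ≤ n := by exact_mod_cast hx.le
    · obtain ⟨y, rfl⟩ : ∃ y, x = n + y := ⟨x - n, by omega⟩
      have hy := ih y (by have := hn.pos; omega)
      rw [Finset.sum_range_add, QPeriod_full n hn hsq, zero_add]
      have h1 : ∑ m ∈ range y, (jacobiSym ((n + m : ℕ) : ℤ) n : ℝ) =
          ∑ m ∈ range y, (jacobiSym m n : ℝ) := by
        refine Finset.sum_congr rfl ?_
        intro m _
        have h2 : (((n + m : ℕ) : ℤ)) % (n : ℤ) = (m : ℤ) % (n : ℤ) := by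
          push_cast
          exact Int.add_emod_left _ _
        rw [jacobiSym.mod_left' h2]
      rw [h1]
      exact hy

theorem abs_sum_jacobi_le (n : ℕ) (hn : Odd n) (hsq : ¬ IsSquare n) (Y : ℕ) :
    |∑ m ∈ Icc 1 Y, (jacobiSym m n : ℝ)| ≤ n := by
  have h := QPeriod_bound n hn hsq (Y + 1)
  have h1 : n ≠ 1 := by
    rintro rfl
    exact hsq ⟨1, rfl⟩
  rw [Finset.sum_range_eq_add_Ico _ (Nat.succ_pos Y)] at h
  have h0 : jacobiSym ((0 : ℕ) : ℤ) n = 0 := by
    rw [Nat.cast_zero]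
    exact jacobiSym.zero_left (by have := hn.pos; omega)
  rw [h0, Int.cast_zero, zero_add] at h
  exact h

theorem abs_sum_jacobi_two_le (n1 n2 : ℕ) (h1 : Odd n1) (h2 : Odd n2) (s1 : Squarefree n1) (s2 : Squarefree n2)
    (hne : n1 ≠ n2) (Y : ℕ) :
    |∑ m ∈ Icc 1 Y, (jacobiSym m n1 : ℝ) * (jacobiSym m n2 : ℝ)| ≤ n1 * n2 := by
  have : NeZero n1 := ⟨h1.pos.ne'⟩
  have : NeZero n2 := ⟨h2.pos.ne'⟩
  have hsq : ¬ IsSquare (n1 * n2) := by
    rintro ⟨k, hk⟩
    have a1 : n1 ∣ k := by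
      rw [← s1.dvd_pow_iff_dvd (n := 2) (by norm_num), pow_two, ← hk]
      exact Dvd.intro _ rfl
    have a2 : n2 ∣ k := by
      rw [← s2.dvd_pow_iff_dvd (n := 2) (by norm_num), pow_two, ← hk]
      exact Dvd.intro_left _ rfl
    obtain ⟨c, rfl⟩ := a1
    obtain ⟨d, hd⟩ := a2
    have hn1 : 0 < n1 := h1.pos
    have hn2 : 0 < n2 := h2.pos
    have b1 : n2 = n1 * c * c := by
      refine Nat.eq_of_mul_eq_mul_left hn1 ?_
      rw [hk]
      ring
    have hc : c * c ∣ n2 := by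
      rw [b1]
      exact ⟨n1, by ring⟩
    have hc1 : c = 1 := Nat.isUnit_iff.1 (s2 c hc)
    rw [hc1] at b1
    apply hne
    rw [b1]
    ring
  have h := abs_sum_jacobi_le (n1 * n2) (h1.mul h2) hsq Y
  have h3 : ∑ m ∈ Icc 1 Y, (jacobiSym m (n1 * n2) : ℝ) =
      ∑ m ∈ Icc 1 Y, (jacobiSym m n1 : ℝ) * (jacobiSym m n2 : ℝ) := by
    refine Finset.sum_congr rfl ?_
    intro m _
    rw [jacobiSym.mul_right]
    push_cast
    rfl
  rw [h3] at h
  push_cast at h
  exact h

end QT
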