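import Pool.Agent.Lib.MP_10e784_ag.QTau
import Pool.Agent.Lib.MP_10e784_ag.QPeriod

/-! JOB QBLcore.  The bilinear bound for `N ≤ M`.

Proof.  Let `𝒩` be the set of odd squarefree `n ≤ N`, `S n = ∑_{m ≤ M} A m (m/n)` (real).  Then
`|Σ| ≤ ∑_{n ∈ 𝒩} |S n|`, and by Hoelder (or Cauchy-Schwarz twice) `|Σ|^4 ≤ N^3 ∑_{n∈𝒩} (S n)^4`.
Expand: `(S n)^4 = ∑_{m' ≤ M^4} c(m') (m'/n)`, `c(m') = ∑_{m1 m2 m3 m4 = m'} A m1 A m2 A m3 A m4`, `|c(m')| ≤ τ(m')^3`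
(`m1, m2, m3` are divisors of `m'` and determine `m4`).  So with `T(m') = ∑_{n∈𝒩} (m'/n)`,
`∑_n (S n)^4 = ∑_{m'} c(m') T(m') ≤ (∑ c²)^(1/2) (∑ T²)^(1/2)`, where `∑_{m' ≤ M^4} c(m')² ≤ ∑ τ(m')^6
≤ M^4 (1 + log (M^4))^63` (`sum_tau_pow_le 6`) and `∑_{m' ≤ M^4} T(m')² = ∑_{n1,n2∈𝒩} ∑_{m'} (m'/n1)(m'/n2)
≤ N M^4 + N² N² ≤ 2 N M^4` (`abs_sum_jacobi_two_le` for `n1 ≠ n2`, trivial for `n1 = n2`; `N^4 ≤ N M^4`).
Hence `|Σ|^4 ≤ N^3 * M² (1+4 log M)^(63/2) * (2N)^(1/2) M²`, i.e. `|Σ| ≤ 2 M N^(7/8) (1+4 log M)^8`.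
(It is convenient to prove `|Σ|^8 ≤ 2 N^7 M^8 (1+4 log M)^63` and then take roots.) -/

namespace QT

open Finset

private theorem blc_jac_abs (m n : ℕ) : |(jacobiSym m n : ℝ)| ≤ 1 := by
  have h := jacobiSym.trichotomy (m : ℤ) n
  rcases h with h | h | h <;> simp [h]

private theorem blc_S4 (A : ℕ → ℝ) (M n : ℕ) :
    (∑ m ∈ Icc 1 M, A m * (jacobiSym m n : ℝ)) ^ 4 =
      ∑ q ∈ (Icc 1 M ×ˢ Icc 1 M) ×ˢ (Icc 1 M ×ˢ Icc 1 M),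
        (A q.1.1 * A q.1.2 * (A q.2.1 * A q.2.2)) *
          (jacobiSym ((q.1.1 * q.1.2 * (q.2.1 * q.2.2) : ℕ) : ℤ) n : ℝ) := by
  have h2 : (∑ m ∈ Icc 1 M, A m * (jacobiSym m n : ℝ)) ^ 2 =
      ∑ q ∈ Icc 1 M ×ˢ Icc 1 M, (A q.1 * A q.2) * ((jacobiSym q.1 n : ℝ) * (jacobiSym q.2 n : ℝ)) := by
    rw [sq, Finset.sum_mul_sum, Finset.sum_product]
    refine Finset.sum_congr rfl fun a _ => Finset.sum_congr rfl fun b _ => ?_
    ring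
  have h4 : (∑ m ∈ Icc 1 M, A m * (jacobiSym m n : ℝ)) ^ 4 =
      ((∑ m ∈ Icc 1 M, A m * (jacobiSym m n : ℝ)) ^ 2) * ((∑ m ∈ Icc 1 M, A m * (jacobiSym m n : ℝ)) ^ 2) := by
    ring
  rw [h4, h2, Finset.sum_mul_sum, Finset.sum_product (s := Icc 1 M ×ˢ Icc 1 M) (t := Icc 1 M ×ˢ Icc 1 M)]
  refine Finset.sum_congr rfl fun a _ => Finset.sum_congr rfl fun b _ => ?_
  push_cast
  rw [jacobiSym.mul_left, jacobiSym.mul_left, jacobiSym.mul_left]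
  push_cast
  ring

private theorem blc_card (M k : ℕ) (hk : k ≠ 0) :
    (((Icc 1 M ×ˢ Icc 1 M) ×ˢ (Icc 1 M ×ˢ Icc 1 M)).filter
      (fun q => q.1.1 * q.1.2 * (q.2.1 * q.2.2) = k)).card ≤ k.divisors.card ^ 3 := by
  have h3 : k.divisors.card ^ 3 = ((k.divisors ×ˢ k.divisors) ×ˢ k.divisors).card := by
    rw [Finset.card_product, Finset.card_product]; ring
  rw [h3]
  refine Finset.card_le_card_of_injOn (fun q => ((q.1.1, q.1.2), q.2.1)) ?_ ?_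
  · intro q hq
    have hq' := (Finset.mem_filter.1 hq).2
    have d1 : q.1.1 ∣ k := ⟨q.1.2 * (q.2.1 * q.2.2), by rw [← hq']; ring⟩
    have d2 : q.1.2 ∣ k := ⟨q.1.1 * (q.2.1 * q.2.2), by rw [← hq']; ring⟩
    have d3 : q.2.1 ∣ k := ⟨q.1.1 * q.1.2 * q.2.2, by rw [← hq']; ring⟩
    simp only [Finset.coe_product, Set.mem_prod, Finset.mem_coe, Nat.mem_divisors]
    exact ⟨⟨⟨d1, hk⟩, ⟨d2, hk⟩⟩, ⟨d3, hk⟩⟩
  · intro q hq r hr hqr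
    have hq' := (Finset.mem_filter.1 hq).2
    have hr' := (Finset.mem_filter.1 hr).2
    simp only [Prod.mk.injEq] at hqr
    obtain ⟨⟨e1, e2⟩, e3⟩ := hqr
    have hne : q.1.1 * q.1.2 * q.2.1 ≠ 0 := by
      intro h0
      apply hk
      rw [← hq', ← mul_assoc, h0, zero_mul]
    have e4 : q.2.2 = r.2.2 := by
      have hh : (q.1.1 * q.1.2 * q.2.1) * q.2.2 = (q.1.1 * q.1.2 * q.2.1) * r.2.2 := by
        calc (q.1.1 * q.1.2 * q.2.1) * q.2.2 = k := by rw [← hq']; ring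
          _ = (r.1.1 * r.1.2 * r.2.1) * r.2.2 := by rw [← hr']; ring
          _ = (q.1.1 * q.1.2 * q.2.1) * r.2.2 := by rw [e1, e2, e3]
      exact Nat.eq_of_mul_eq_mul_left (Nat.pos_of_ne_zero hne) hh
    exact Prod.ext (Prod.ext e1 e2) (Prod.ext e3 e4)

/-- the coefficients -/
private noncomputable def blc_c (A : ℕ → ℝ) (M k : ℕ) : ℝ :=
  ∑ q ∈ ((Icc 1 M ×ˢ Icc 1 M) ×ˢ (Icc 1 M ×ˢ Icc 1 M)).filter
      (fun q => q.1.1 * q.1.2 * (q.2.1 * q.2.2) = k), A q.1.1 * A q.1.2 * (A q.2.1 * A q.2.2)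

private theorem blc_c_le (A : ℕ → ℝ) (hA : ∀ m, |A m| ≤ 1) (M k : ℕ) (hk : k ≠ 0) :
    (blc_c A M k) ^ 2 ≤ (k.divisors.card : ℝ) ^ 6 := by
  have h1 : |blc_c A M k| ≤ (k.divisors.card : ℝ) ^ 3 := by
    unfold blc_c
    refine (Finset.abs_sum_le_sum_abs _ _).trans ?_
    refine (Finset.sum_le_card_nsmul _ _ 1 ?_).trans ?_
    · intro q _
      rw [abs_mul, abs_mul, abs_mul]
      have h12 : |A q.1.1| * |A q.1.2| ≤ 1 := mul_le_one₀ (hA _) (abs_nonneg _) (hA _)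
      have h34 : |A q.2.1| * |A q.2.2| ≤ 1 := mul_le_one₀ (hA _) (abs_nonneg _) (hA _)
      exact mul_le_one₀ h12 (by positivity) h34
    · rw [nsmul_eq_mul, mul_one]
      exact_mod_cast blc_card M k hk
  calc (blc_c A M k) ^ 2 = |blc_c A M k| ^ 2 := (sq_abs _).symm
    _ ≤ ((k.divisors.card : ℝ) ^ 3) ^ 2 := pow_le_pow_left₀ (abs_nonneg _) h1 2
    _ = _ := by ring

private theorem blc_S4' (A : ℕ → ℝ) (M n : ℕ) :
    (∑ m ∈ Icc 1 M, A m * (jacobiSym m n : ℝ)) ^ 4 =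
      ∑ k ∈ Icc 1 (M ^ 4), blc_c A M k * (jacobiSym k n : ℝ) := by
  rw [blc_S4]
  have hmap : ∀ q ∈ (Icc 1 M ×ˢ Icc 1 M) ×ˢ (Icc 1 M ×ˢ Icc 1 M),
      q.1.1 * q.1.2 * (q.2.1 * q.2.2) ∈ Icc 1 (M ^ 4) := by
    intro q hq
    simp only [Finset.mem_product, Finset.mem_Icc] at hq
    obtain ⟨⟨⟨a1, a2⟩, ⟨b1, b2⟩⟩, ⟨⟨c1, c2⟩, ⟨d1, d2⟩⟩⟩ := hq
    rw [Finset.mem_Icc]
    constructor
    · have : 0 < q.1.1 * q.1.2 * (q.2.1 * q.2.2) := by positivity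
      omega
    · calc q.1.1 * q.1.2 * (q.2.1 * q.2.2) ≤ M * M * (M * M) :=
          Nat.mul_le_mul (Nat.mul_le_mul a2 b2) (Nat.mul_le_mul c2 d2)
        _ = M ^ 4 := by ring
  rw [← Finset.sum_fiberwise_of_maps_to hmap]
  refine Finset.sum_congr rfl fun k _ => ?_
  unfold blc_c
  rw [Finset.sum_mul]
  refine Finset.sum_congr rfl fun q hq => ?_
  rw [(Finset.mem_filter.1 hq).2]

/-- the odd squarefree numbers up to `N` -/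
private noncomputable def blc_N (N : ℕ) : Finset ℕ := by
  classical
  exact (Icc 1 N).filter fun n => Odd n ∧ Squarefree n

private theorem blc_N_mem {N n : ℕ} (h : n ∈ blc_N N) : 1 ≤ n ∧ n ≤ N ∧ Odd n ∧ Squarefree n := by
  classical
  unfold blc_N at h
  simp only [Finset.mem_filter, Finset.mem_Icc] at h
  exact ⟨h.1.1, h.1.2, h.2⟩

private theorem blc_N_card (N : ℕ) : (blc_N N).card ≤ N := by
  classical
  unfold blc_N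
  refine (Finset.card_filter_le _ _).trans ?_
  simp

private theorem blc_T (M N : ℕ) (hN : 1 ≤ N) (hNM : N ≤ M) :
    ∑ k ∈ Icc 1 (M ^ 4), (∑ n ∈ blc_N N, (jacobiSym k n : ℝ)) ^ 2 ≤ 2 * N * (M : ℝ) ^ 4 := by
  have hNr : (1 : ℝ) ≤ N := by exact_mod_cast hN
  have hNMr : (N : ℝ) ≤ M := by exact_mod_cast hNM
  have hcard : ((blc_N N).card : ℝ) ≤ N := by exact_mod_cast blc_N_card N
  have h1 : ∑ k ∈ Icc 1 (M ^ 4), (∑ n ∈ blc_N N, (jacobiSym k n : ℝ)) ^ 2 =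
      ∑ a ∈ blc_N N, ∑ b ∈ blc_N N, ∑ k ∈ Icc 1 (M ^ 4), (jacobiSym k a : ℝ) * (jacobiSym k b : ℝ) := by
    have : ∀ k ∈ Icc 1 (M ^ 4), (∑ n ∈ blc_N N, (jacobiSym (k : ℤ) n : ℝ)) ^ 2 =
        ∑ a ∈ blc_N N, ∑ b ∈ blc_N N, (jacobiSym k a : ℝ) * (jacobiSym k b : ℝ) := by
      intro k _
      rw [sq, Finset.sum_mul_sum]
    rw [Finset.sum_congr rfl this, Finset.sum_comm]
    refine Finset.sum_congr rfl fun a _ => ?_
    rw [Finset.sum_comm]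
  rw [h1]
  have h2 : ∀ a ∈ blc_N N, ∀ b ∈ blc_N N,
      ∑ k ∈ Icc 1 (M ^ 4), (jacobiSym (k : ℤ) a : ℝ) * (jacobiSym k b : ℝ) ≤
        (if a = b then (M : ℝ) ^ 4 else 0) + (N : ℝ) ^ 2 := by
    intro a ha b hb
    obtain ⟨a1, a2, a3, a4⟩ := blc_N_mem ha
    obtain ⟨b1, b2, b3, b4⟩ := blc_N_mem hb
    have ha2 : (a : ℝ) ≤ N := by exact_mod_cast a2
    have hb2 : (b : ℝ) ≤ N := by exact_mod_cast b2
    by_cases hab : a = b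
    · rw [if_pos hab]
      have : ∑ k ∈ Icc 1 (M ^ 4), (jacobiSym (k : ℤ) a : ℝ) * (jacobiSym k b : ℝ) ≤
          ∑ k ∈ Icc 1 (M ^ 4), (1 : ℝ) := by
        refine Finset.sum_le_sum fun k _ => ?_
        refine (le_abs_self _).trans ?_
        rw [abs_mul]
        exact mul_le_one₀ (blc_jac_abs _ _) (abs_nonneg _) (blc_jac_abs _ _)
      refine this.trans ?_
      rw [Finset.sum_const, Nat.card_Icc, nsmul_eq_mul, mul_one, Nat.add_sub_cancel]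
      push_cast
      nlinarith [sq_nonneg (N : ℝ)]
    · rw [if_neg hab, zero_add]
      refine (le_abs_self _).trans ((abs_sum_jacobi_two_le a b a3 b3 a4 b4 hab _).trans ?_)
      rw [sq]
      exact mul_le_mul ha2 hb2 (by positivity) (by positivity)
  refine (Finset.sum_le_sum fun a ha => Finset.sum_le_sum fun b hb => h2 a ha b hb).trans ?_
  have h3 : ∀ a ∈ blc_N N, ∑ b ∈ blc_N N, ((if a = b then (M : ℝ) ^ 4 else 0) + (N : ℝ) ^ 2) ≤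
      (M : ℝ) ^ 4 + (N : ℝ) ^ 3 := by
    intro a ha
    rw [Finset.sum_add_distrib, Finset.sum_ite_eq, if_pos ha, Finset.sum_const, nsmul_eq_mul]
    have : ((blc_N N).card : ℝ) * (N : ℝ) ^ 2 ≤ N * (N : ℝ) ^ 2 :=
      mul_le_mul_of_nonneg_right hcard (by positivity)
    nlinarith
  refine (Finset.sum_le_sum h3).trans ?_
  rw [Finset.sum_const, nsmul_eq_mul]
  have hM3 : (N : ℝ) ^ 3 ≤ (M : ℝ) ^ 4 := by
    calc (N : ℝ) ^ 3 ≤ (M : ℝ) ^ 3 := pow_le_pow_left₀ (by positivity) hNMr 3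
      _ ≤ (M : ℝ) ^ 4 := pow_le_pow_right₀ (hNr.trans hNMr) (by norm_num)
  calc ((blc_N N).card : ℝ) * ((M : ℝ) ^ 4 + (N : ℝ) ^ 3) ≤ N * ((M : ℝ) ^ 4 + (M : ℝ) ^ 4) :=
        mul_le_mul hcard (by linarith) (by positivity) (by positivity)
    _ = 2 * N * (M : ℝ) ^ 4 := by ring

private theorem blc_sumS4 (A : ℕ → ℝ) (M N : ℕ) (hA : ∀ m, |A m| ≤ 1) (hN : 1 ≤ N) (hNM : N ≤ M) :
    (∑ n ∈ blc_N N, (∑ m ∈ Icc 1 M, A m * (jacobiSym m n : ℝ)) ^ 4) ^ 2 ≤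
      ((M : ℝ) ^ 4 * (1 + 4 * Real.log M) ^ 63) * (2 * N * (M : ℝ) ^ 4) := by
  have h1 : ∑ n ∈ blc_N N, (∑ m ∈ Icc 1 M, A m * (jacobiSym m n : ℝ)) ^ 4 =
      ∑ k ∈ Icc 1 (M ^ 4), blc_c A M k * ∑ n ∈ blc_N N, (jacobiSym k n : ℝ) := by
    rw [Finset.sum_congr rfl fun n _ => blc_S4' A M n, Finset.sum_comm]
    refine Finset.sum_congr rfl fun k _ => ?_
    rw [Finset.mul_sum]
  rw [h1]
  refine (Finset.sum_mul_sq_le_sq_mul_sq _ _ _).trans ?_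
  have hc : ∑ k ∈ Icc 1 (M ^ 4), (blc_c A M k) ^ 2 ≤ (M : ℝ) ^ 4 * (1 + 4 * Real.log M) ^ 63 := by
    have hM1 : 1 ≤ M ^ 4 := Nat.one_le_pow _ _ (by omega)
    have h := sum_tau_pow_le 6 (M ^ 4) hM1
    refine (Finset.sum_le_sum fun k hk => ?_).trans (h.trans (le_of_eq ?_))
    · exact blc_c_le A hA M k (by have := (Finset.mem_Icc.1 hk).1; omega)
    · push_cast
      rw [Real.log_pow]
      norm_num
  exact mul_le_mul hc (blc_T M N hN hNM) (Finset.sum_nonneg fun _ _ => sq_nonneg _)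
    ((Finset.sum_nonneg fun _ _ => sq_nonneg _).trans hc)

theorem bl_core (A B : ℕ → ℝ) (M N : ℕ) (hA : ∀ m, |A m| ≤ 1) (hB : ∀ n, |B n| ≤ 1)
    (hBs : ∀ n, B n ≠ 0 → Odd n ∧ Squarefree n) (hN : 1 ≤ N) (hNM : N ≤ M) :
    |∑ m ∈ Icc 1 M, ∑ n ∈ Icc 1 N, A m * B n * (jacobiSym m n : ℝ)| ≤
      2 * M * (N : ℝ) ^ (7 / 8 : ℝ) * (1 + 4 * Real.log M) ^ 8 := by
  have hNr : (1 : ℝ) ≤ N := by exact_mod_cast hN
  have hNMr : (N : ℝ) ≤ M := by exact_mod_cast hNM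
  have hM1 : (1 : ℝ) ≤ M := hNr.trans hNMr
  have hlog : 0 ≤ Real.log M := Real.log_nonneg hM1
  have hL0 : 1 ≤ 1 + 4 * Real.log M := by linarith
  have hfour := blc_sumS4 A M N hA hN hNM
  obtain ⟨L, hLd⟩ : ∃ L : ℝ, L = 1 + 4 * Real.log M := ⟨_, rfl⟩
  rw [← hLd] at hfour hL0 ⊢
  set S : ℕ → ℝ := fun n => ∑ m ∈ Icc 1 M, A m * (jacobiSym m n : ℝ) with hS
  have h1 : ∑ m ∈ Icc 1 M, ∑ n ∈ Icc 1 N, A m * B n * (jacobiSym m n : ℝ) =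
      ∑ n ∈ Icc 1 N, B n * S n := by
    rw [Finset.sum_comm]
    refine Finset.sum_congr rfl fun n _ => ?_
    rw [hS, Finset.mul_sum]
    refine Finset.sum_congr rfl fun m _ => ?_
    ring
  have h2 : |∑ m ∈ Icc 1 M, ∑ n ∈ Icc 1 N, A m * B n * (jacobiSym m n : ℝ)| ≤
      ∑ n ∈ blc_N N, |S n| := by
    classical
    rw [h1]
    refine (Finset.abs_sum_le_sum_abs _ _).trans ?_
    unfold blc_N
    rw [Finset.sum_filter]
    refine Finset.sum_le_sum fun n _ => ?_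
    by_cases hBn : B n = 0
    · rw [hBn, zero_mul, abs_zero]
      split_ifs
      · exact abs_nonneg _
      · exact le_refl _
    · rw [if_pos (hBs n hBn), abs_mul]
      exact mul_le_of_le_one_left (abs_nonneg _) (hB n)
  set W : ℝ := ∑ n ∈ blc_N N, |S n| with hW
  have hW0 : 0 ≤ W := Finset.sum_nonneg fun _ _ => abs_nonneg _
  have hcard : ((blc_N N).card : ℝ) ≤ N := by exact_mod_cast blc_N_card N
  set Q : ℝ := ∑ n ∈ blc_N N, (S n) ^ 4 with hQ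
  have hQ0 : 0 ≤ Q := Finset.sum_nonneg fun n _ => by positivity
  have h3 : W ^ 4 ≤ (N : ℝ) ^ 3 * Q := by
    have e1 : W ^ 2 ≤ N * ∑ n ∈ blc_N N, |S n| ^ 2 :=
      (sq_sum_le_card_mul_sum_sq).trans
        (mul_le_mul_of_nonneg_right hcard (Finset.sum_nonneg fun _ _ => sq_nonneg _))
    have e2 : (∑ n ∈ blc_N N, |S n| ^ 2) ^ 2 ≤ N * Q := by
      refine (sq_sum_le_card_mul_sum_sq).trans ?_
      have e3 : ∑ n ∈ blc_N N, (|S n| ^ 2) ^ 2 = Q := by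
        refine Finset.sum_congr rfl fun n _ => ?_
        rw [sq_abs]; ring
      rw [e3]
      exact mul_le_mul_of_nonneg_right hcard hQ0
    calc W ^ 4 = (W ^ 2) ^ 2 := by ring
      _ ≤ (N * ∑ n ∈ blc_N N, |S n| ^ 2) ^ 2 := pow_le_pow_left₀ (sq_nonneg _) e1 2
      _ = (N : ℝ) ^ 2 * (∑ n ∈ blc_N N, |S n| ^ 2) ^ 2 := by ring
      _ ≤ (N : ℝ) ^ 2 * (N * Q) := mul_le_mul_of_nonneg_left e2 (by positivity)
      _ = (N : ℝ) ^ 3 * Q := by ring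
  have h4 : W ^ 8 ≤ 2 * (N : ℝ) ^ 7 * (M : ℝ) ^ 8 * L ^ 63 := by
    calc W ^ 8 = (W ^ 4) ^ 2 := by ring
      _ ≤ ((N : ℝ) ^ 3 * Q) ^ 2 := pow_le_pow_left₀ (by positivity) h3 2
      _ = (N : ℝ) ^ 6 * Q ^ 2 := by ring
      _ ≤ (N : ℝ) ^ 6 * (((M : ℝ) ^ 4 * L ^ 63) * (2 * N * (M : ℝ) ^ 4)) :=
          mul_le_mul_of_nonneg_left hfour (by positivity)
      _ = _ := by ring
  have h5 : (2 * M * (N : ℝ) ^ (7 / 8 : ℝ) * L ^ 8) ^ 8 =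
      256 * (N : ℝ) ^ 7 * (M : ℝ) ^ 8 * L ^ 64 := by
    have e : ((N : ℝ) ^ (7 / 8 : ℝ)) ^ 8 = (N : ℝ) ^ 7 := by
      rw [← Real.rpow_natCast, ← Real.rpow_mul (by positivity)]
      norm_num
    rw [mul_pow, mul_pow, mul_pow, e]
    ring
  have h6 : W ≤ 2 * M * (N : ℝ) ^ (7 / 8 : ℝ) * L ^ 8 := by
    refine le_of_pow_le_pow_left₀ (n := 8) (by norm_num) (by positivity) ?_
    rw [h5]
    refine h4.trans ?_
    have e63 : L ^ 63 ≤ L ^ 64 := pow_le_pow_right₀ hL0 (by norm_num)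
    have : 2 * (N : ℝ) ^ 7 * (M : ℝ) ^ 8 * L ^ 63 ≤
        2 * (N : ℝ) ^ 7 * (M : ℝ) ^ 8 * L ^ 64 :=
      mul_le_mul_of_nonneg_left e63 (by positivity)
    refine this.trans ?_
    have hnn : 0 ≤ (N : ℝ) ^ 7 * (M : ℝ) ^ 8 * L ^ 64 := by positivity
    linarith
  exact h2.trans h6

end QT
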