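import Pool.Agent.Lib.MP_10e784_ag.QCharSum

/-! JOB QCharB.  The Dirichlet series of `chi b` is at most `4 + log |b|` on `σ > 1`.

Proof.  Let `q = 4|b| ≥ 4`, `f n = chi b n * n^(-σ)` (absolutely summable since `σ > 1`).
Terms `n ≤ q`: at most `∑_{n ≤ q} 1/n ≤ 1 + log q`.
Terms `n > q`: with `A(n) = ∑_{q < k ≤ n} chi b k`; `|A(n)| ≤ q` (the sum over a full period vanishes; or use
`abs_sum_chi_le` twice and get `|A(n)| ≤ 2q`, see below) and Abel summation against the decreasing sequence `n^(-σ)`: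
`|∑_{q < n ≤ M} chi b n n^(-σ)| ≤ max|A| * (q+1)^(-σ) ≤ 2 q /(q+1) ≤ 2`.
Total: `≤ 3 + log q = 3 + log 4 + log|b|`, which is `≤ 5 + log |b|` since `log 4 ≤ 2`. -/

namespace QT

open Finset

/-- Abel summation identity -/
private theorem QCharB_abel (a g : ℕ → ℝ) (m k : ℕ) :
    ∑ n ∈ range k, a (m + n) * g (m + n) =
      (∑ n ∈ range k, a (m + n)) * g (m + k) +
      ∑ n ∈ range k, (∑ i ∈ range (n + 1), a (m + i)) * (g (m + n) - g (m + n + 1)) := by
  induction k with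
  | zero => simp
  | succ k ih =>
    rw [Finset.sum_range_succ, ih, Finset.sum_range_succ (fun n => a (m + n)) k,
      Finset.sum_range_succ (fun n => (∑ i ∈ range (n + 1), a (m + i)) *
        (g (m + n) - g (m + n + 1))) k, Finset.sum_range_succ (fun i => a (m + i)) k]
    have e : m + (k + 1) = m + k + 1 := by ring
    rw [e]
    ring

private theorem QCharB_abel_le (a g : ℕ → ℝ) (m k : ℕ) (M : ℝ)
    (hM : ∀ j, |∑ n ∈ range j, a (m + n)| ≤ M) (hg : ∀ n, m ≤ n → g (n + 1) ≤ g n)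
    (hg0 : ∀ n, m ≤ n → 0 ≤ g n) :
    ∑ n ∈ range k, a (m + n) * g (m + n) ≤ M * g m := by
  rw [QCharB_abel]
  have h1 : (∑ n ∈ range k, a (m + n)) * g (m + k) ≤ M * g (m + k) :=
    mul_le_mul_of_nonneg_right ((le_abs_self _).trans (hM k)) (hg0 _ (Nat.le_add_right _ _))
  have h2 : ∑ n ∈ range k, (∑ i ∈ range (n + 1), a (m + i)) * (g (m + n) - g (m + n + 1)) ≤
      ∑ n ∈ range k, M * (g (m + n) - g (m + n + 1)) := by
    refine Finset.sum_le_sum ?_
    intro n _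
    refine mul_le_mul_of_nonneg_right ((le_abs_self _).trans (hM (n + 1))) ?_
    have := hg (m + n) (Nat.le_add_right _ _)
    linarith
  have h3 : ∑ n ∈ range k, M * (g (m + n) - g (m + n + 1)) = M * (g m - g (m + k)) := by
    rw [← Finset.mul_sum]
    congr 1
    have := Finset.sum_range_sub' (fun n => g (m + n)) k
    simpa [add_assoc] using this
  rw [h3] at h2
  linarith

private theorem QCharB_nonneg (n : ℕ) (σ : ℝ) : 0 ≤ (n : ℝ) ^ (-σ) :=
  Real.rpow_nonneg (Nat.cast_nonneg n) _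

private theorem QCharB_head (b : ℤ) (q : ℕ) (σ : ℝ) (hσ : 1 < σ) :
    ∑ n ∈ range (q + 1), chi b n * (n : ℝ) ^ (-σ) ≤ 1 + Real.log q := by
  have h0 : chi b 0 = 0 := by simp [chi]
  rw [Finset.sum_range_succ', h0, zero_mul, add_zero]
  have h1 : ∑ k ∈ range q, chi b (k + 1) * ((k + 1 : ℕ) : ℝ) ^ (-σ) ≤
      ∑ k ∈ range q, ((k + 1 : ℕ) : ℝ)⁻¹ := by
    refine Finset.sum_le_sum ?_
    intro k _
    have hk : (1 : ℝ) ≤ ((k + 1 : ℕ) : ℝ) := by exact_mod_cast Nat.succ_pos k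
    have h2 : ((k + 1 : ℕ) : ℝ) ^ (-σ) ≤ ((k + 1 : ℕ) : ℝ)⁻¹ := by
      rw [← Real.rpow_neg_one]
      exact Real.rpow_le_rpow_of_exponent_le hk (by linarith)
    have h3 : chi b (k + 1) * ((k + 1 : ℕ) : ℝ) ^ (-σ) ≤ 1 * ((k + 1 : ℕ) : ℝ) ^ (-σ) :=
      mul_le_mul_of_nonneg_right ((le_abs_self _).trans (abs_chi_le b _)) (QCharB_nonneg _ _)
    linarith
  refine h1.trans ?_
  have h := harmonic_le_one_add_log q
  unfold harmonic at h
  push_cast at h ⊢
  exact h

private theorem QCharB_partial (b : ℤ) (hb : ¬ IsSquare b) (σ : ℝ) (hσ : 1 < σ) (N : ℕ) :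
    ∑ n ∈ range (4 * b.natAbs + 1 + N), chi b n * (n : ℝ) ^ (-σ) ≤
      1 + Real.log ((4 * b.natAbs : ℕ) : ℝ) + 2 := by
  rw [Finset.sum_range_add]
  have h1 := QCharB_head b (4 * b.natAbs) σ hσ
  obtain ⟨q, hq⟩ : ∃ q, q = 4 * b.natAbs := ⟨_, rfl⟩
  rw [← hq] at h1 ⊢
  have hqs : ∀ x, |∑ n ∈ range x, chi b n| ≤ (q : ℝ) := by
    intro x
    have := abs_sum_chi_le b hb x
    rw [hq]
    push_cast
    exact this
  have hM : ∀ j, |∑ n ∈ range j, chi b (q + 1 + n)| ≤ 2 * (q : ℝ) := by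
    intro j
    have e : ∑ n ∈ range j, chi b (q + 1 + n) =
        ∑ n ∈ range (q + 1 + j), chi b n - ∑ n ∈ range (q + 1), chi b n := by
      rw [Finset.sum_range_add]
      ring
    rw [e]
    have h3 := abs_sub (∑ n ∈ range (q + 1 + j), chi b n) (∑ n ∈ range (q + 1), chi b n)
    have h4 := hqs (q + 1 + j)
    have h5 := hqs (q + 1)
    linarith
  have h2 := QCharB_abel_le (chi b) (fun n => (n : ℝ) ^ (-σ)) (q + 1) N (2 * (q : ℝ)) hM
    (by
      intro n hn
      refine Real.rpow_le_rpow_of_nonpos ?_ ?_ (by linarith)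
      · have : 0 < n := by omega
        exact_mod_cast this
      · push_cast
        linarith)
    (fun n _ => QCharB_nonneg n σ)
  have h3 : 2 * (q : ℝ) * ((q + 1 : ℕ) : ℝ) ^ (-σ) ≤ 2 := by
    have hk : (1 : ℝ) ≤ ((q + 1 : ℕ) : ℝ) := by exact_mod_cast Nat.succ_pos q
    have h4 : ((q + 1 : ℕ) : ℝ) ^ (-σ) ≤ ((q + 1 : ℕ) : ℝ)⁻¹ := by
      rw [← Real.rpow_neg_one]
      exact Real.rpow_le_rpow_of_exponent_le hk (by linarith)
    have h5 : 2 * (q : ℝ) * ((q + 1 : ℕ) : ℝ) ^ (-σ) ≤ 2 * (q : ℝ) * ((q + 1 : ℕ) : ℝ)⁻¹ :=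
      mul_le_mul_of_nonneg_left h4 (by positivity)
    refine h5.trans ?_
    rw [← div_eq_mul_inv, div_le_iff₀ (by linarith)]
    push_cast
    linarith
  linarith

theorem charB_chi (b : ℤ) (hb : ¬ IsSquare b) : CharB (chi b) (5 + Real.log b.natAbs) := by
  have hb0 : b ≠ 0 := by
    rintro rfl
    exact hb ⟨0, by ring⟩
  have hn : 1 ≤ b.natAbs := Int.natAbs_pos.2 hb0
  have hlog : 0 ≤ Real.log b.natAbs := Real.log_natCast_nonneg _
  refine ⟨by simp [chi], by simp [chi], chi_mul b, abs_chi_le b, by linarith, ?_⟩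
  intro σ hσ
  have hsum : Summable (fun n : ℕ => chi b n * (n : ℝ) ^ (-σ)) := by
    refine Summable.of_norm_bounded (g := fun n : ℕ => (n : ℝ) ^ (-σ))
      (Real.summable_nat_rpow.2 (by linarith)) ?_
    intro n
    rw [norm_mul, Real.norm_eq_abs, Real.norm_eq_abs, abs_of_nonneg (QCharB_nonneg n σ)]
    exact mul_le_of_le_one_left (QCharB_nonneg n σ) (abs_chi_le b n)
  have h4 : Real.log 4 ≤ 2 := by
    have h5 : Real.log 4 = 2 * Real.log 2 := by
      rw [show (4 : ℝ) = 2 ^ 2 by norm_num, Real.log_pow]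
      push_cast
      ring
    rw [h5]
    have := Real.log_two_lt_d9
    linarith
  have hB : ∀ N, ∑ n ∈ range (4 * b.natAbs + 1 + N), chi b n * (n : ℝ) ^ (-σ) ≤
      5 + Real.log b.natAbs := by
    intro N
    have h1 := QCharB_partial b hb σ hσ N
    have h2 : Real.log ((4 * b.natAbs : ℕ) : ℝ) = Real.log 4 + Real.log b.natAbs := by
      push_cast
      rw [Real.log_mul (by norm_num) (by exact_mod_cast (by omega : b.natAbs ≠ 0))]
    linarith
  have htend := hsum.hasSum.tendsto_sum_nat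
  have htend2 := htend.comp (Filter.tendsto_add_atTop_nat (4 * b.natAbs + 1))
  refine le_of_tendsto' htend2 ?_
  intro N
  have := hB N
  rw [add_comm (4 * b.natAbs + 1) N] at this
  exact this

end QT
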