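import Pool.Agent.Lib.MP_10e784_ag.QUB
import Pool.Agent.Lib.MP_10e784_ag.QCharB

/-! JOB QCase1.  Vectors with all coordinates but one at most `τ`.

Proof.  For such an `e` (not `Good`) there is `i ∈ A` with `e j ≤ τ` for all `j ≠ i`, and since `e` is not good there are
`j, k ≠ i` such that `b := (θ i j * e j) * (θ i k * e k)` is not a square.  Let `f` be `e` with the `i`-th entry replaced by `1` (so all entries of `f` are
in `[1, ⌊τ⌋]`) and `m = e i`; `b` depends only on `f, i, j, k`.  `m ≤ N / ∏ f =: Y`, `m` is odd and squarefree and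
`jacobiSym b p = 1` for every prime `p ∣ m` (`Loc`).  So the number of `e` is at most
`∑_i ∑_j ∑_k ∑_f #{m ≤ Y : m squarefree, ∀ p ∣ m, p odd and (b/p) = 1}`, and by `ub` with `χ = chi b`, `B = 5 + log|b|` (`charB_chi`) and
`w p = if p odd ∧ (b/p) = 1 then 1 else 0 ≤ (3 + chi b p)/4`, the inner number is
`∑_{m≤Y} pf w m ≤ 20 Y (log Y)^(-1/4) (5 + log|b|)^(1/4)`, where `Y` may be taken real, `Y = N/∏ f`.
As `∏ f ≤ τ^n` (`n = card ι`) and `τ^(2n) ≤ N`, `Y ≥ √N ≥ 4`, `log Y ≥ (log N)/2`.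
`|b| ≤ T² τ²` with `T = max |θ|`, so `(5+log|b|)^(1/4) ≤ 5 + log|b| ≤ C (1+log τ)`, and `∑_f 1/∏ f ≤ (1+log τ)^n`. -/

namespace QT

open Finset

private theorem c1_chi (b : ℤ) (n : ℕ) : |chi b n| ≤ 1 := by
  unfold chi
  split_ifs with h
  · rcases jacobiSym.trichotomy b n with h1 | h1 | h1 <;> rw [h1] <;> norm_num
  · norm_num

open Classical in
/-- the count of `m` -/
private theorem c1_inner (b : ℤ) (hb : ¬ IsSquare b) (x : ℝ) (hx : 2 ≤ x) :
    (((Icc 1 ⌊x⌋₊).filter fun m : ℕ => Squarefree m ∧ Odd m ∧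
      ∀ p : ℕ, p.Prime → p ∣ m → jacobiSym b p = 1).card : ℝ) ≤
      20 * x * Real.log x ^ (-(1 / 4) : ℝ) * (5 + Real.log b.natAbs) ^ (1 / 4 : ℝ) := by
  set w : ℕ → ℝ := fun p => if Odd p ∧ jacobiSym b p = 1 then 1 else 0 with hw
  have hw0 : ∀ p, 0 ≤ w p := by
    intro p
    simp only [hw]
    split_ifs <;> norm_num
  refine le_trans ?_ (ub (charB_chi b hb) w ?_ x hx)
  · have h1 : (((Icc 1 ⌊x⌋₊).filter fun m : ℕ => Squarefree m ∧ Odd m ∧
      ∀ p : ℕ, p.Prime → p ∣ m → jacobiSym b p = 1).card : ℝ) =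
      ∑ m ∈ (Icc 1 ⌊x⌋₊).filter fun m : ℕ => Squarefree m ∧ Odd m ∧
      ∀ p : ℕ, p.Prime → p ∣ m → jacobiSym b p = 1, pf w m := by
      rw [Finset.card_eq_sum_ones, Nat.cast_sum]
      apply Finset.sum_congr rfl
      intro m hm
      rw [Finset.mem_filter] at hm
      obtain ⟨_, _, hodd, hp⟩ := hm
      unfold pf
      rw [Nat.cast_one]
      symm
      apply Finset.prod_eq_one
      intro p hpm
      rw [Nat.mem_primeFactors] at hpm
      simp only [hw]
      rw [if_pos]
      exact ⟨Odd.of_dvd_nat hodd hpm.2.1, hp p hpm.1 hpm.2.1⟩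
    rw [h1]
    apply Finset.sum_le_sum_of_subset_of_nonneg
    · intro m hm
      rw [Finset.mem_filter] at hm ⊢
      exact ⟨hm.1, hm.2.1⟩
    · intro m _ _
      exact Finset.prod_nonneg fun p _ => hw0 p
  · intro p hp
    refine ⟨hw0 p, ?_⟩
    have hc := abs_le.1 (c1_chi b p)
    simp only [hw]
    split_ifs with h
    · unfold chi
      rw [if_pos h.1, h.2]
      norm_num
    · linarith [hc.1]

open Classical in
private noncomputable def c1M {ι : Type} [Fintype ι] (θ : ι → ι → ℤ) (N : ℕ) (i j k : ι)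
    (f : ι → ℕ) : Finset ℕ :=
  if j ≠ i ∧ k ≠ i ∧ ¬ IsSquare ((θ i j * f j) * (θ i k * f k)) then
    (Icc 1 ⌊(N : ℝ) / ∏ l, (f l : ℝ)⌋₊).filter fun m : ℕ => Squarefree m ∧ Odd m ∧
      ∀ p : ℕ, p.Prime → p ∣ m → jacobiSym ((θ i j * f j) * (θ i k * f k)) p = 1
  else ∅

private theorem c1_harm (τ : ℝ) (hτ : 1 ≤ τ) :
    ∑ m ∈ Icc 1 ⌊τ⌋₊, (1 : ℝ) / m ≤ 1 + Real.log τ := by
  have h1 := harmonic_floor_le_one_add_log τ hτ
  refine le_trans (le_of_eq ?_) h1
  rw [harmonic_eq_sum_Icc]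
  push_cast
  apply Finset.sum_congr rfl
  intro m _
  rw [one_div]

open Classical in
theorem case_one {ι : Type} [Fintype ι] [DecidableEq ι] (θ : ι → ι → ℤ) (A : Finset ι)
    (hθ : ∀ i j, i ≠ j → θ i j ≠ 0) :
    ∃ C : ℝ, 0 < C ∧ ∀ (N : ℕ) (τ : ℝ), 16 ≤ N → 1 ≤ τ → τ ^ (2 * Fintype.card ι) ≤ N →
    (((Box ι N).filter fun e => Odd (∏ i, e i) ∧ (∃ i ∈ A, ∀ j, j ≠ i → (e j : ℝ) ≤ τ) ∧ Loc θ e ∧
        ¬ Good θ A e).card : ℝ) ≤
      C * N * Real.log N ^ (-(1 / 4) : ℝ) * (1 + Real.log τ) ^ (Fintype.card ι + 1) := by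
  set n := Fintype.card ι with hn
  obtain ⟨T, hT1, hT⟩ : ∃ T : ℝ, 1 ≤ T ∧ ∀ i j, |(θ i j : ℝ)| ≤ T := by
    refine ⟨1 + ∑ i, ∑ j, |(θ i j : ℝ)|, ?_, ?_⟩
    · have : 0 ≤ ∑ i, ∑ j, |(θ i j : ℝ)| :=
        Finset.sum_nonneg fun i _ => Finset.sum_nonneg fun j _ => abs_nonneg _
      linarith
    · intro i j
      have h1 : |(θ i j : ℝ)| ≤ ∑ j, |(θ i j : ℝ)| :=
        Finset.single_le_sum (f := fun j => |(θ i j : ℝ)|) (fun j _ => abs_nonneg _)
          (Finset.mem_univ j)
      have h2 : ∑ j, |(θ i j : ℝ)| ≤ ∑ i, ∑ j, |(θ i j : ℝ)| :=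
        Finset.single_le_sum (f := fun i => ∑ j, |(θ i j : ℝ)|)
          (fun i _ => Finset.sum_nonneg fun j _ => abs_nonneg _) (Finset.mem_univ i)
      linarith
  have hlogT : 0 ≤ Real.log T := Real.log_nonneg hT1
  refine ⟨n * (n * n) * (40 * (5 + 2 * Real.log T)) + 1, by positivity, ?_⟩
  intro N τ hN hτ hτN
  have hNr : (16 : ℝ) ≤ N := by exact_mod_cast hN
  have hlogN : 0 < Real.log N := Real.log_pos (by linarith)
  have hlogτ : 0 ≤ Real.log τ := Real.log_nonneg hτ
  have hlN : (0 : ℝ) ≤ Real.log N ^ (-(1 / 4) : ℝ) := Real.rpow_nonneg hlogN.le _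
  set t := ⌊τ⌋₊ with ht
  have ht1 : 1 ≤ t := Nat.le_floor (by exact_mod_cast hτ)
  have htτ : (t : ℝ) ≤ τ := Nat.floor_le (by linarith)
  set F : Finset (ι → ℕ) := Fintype.piFinset fun _ : ι => Icc 1 t with hF
  -- inner bound
  have hinner : ∀ f ∈ F, ∀ i j k : ι, ((c1M θ N i j k f).card : ℝ) ≤
      (∏ l, (1 / (f l : ℝ))) * (40 * (5 + 2 * Real.log T) * N * Real.log N ^ (-(1 / 4) : ℝ) *
        (1 + Real.log τ)) := by
    intro f hf i j k
    rw [hF, Fintype.mem_piFinset] at hf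
    have hf1 : ∀ l, (1 : ℝ) ≤ f l := fun l => by exact_mod_cast (Finset.mem_Icc.1 (hf l)).1
    have hf2 : ∀ l, (f l : ℝ) ≤ τ := fun l =>
      le_trans (by exact_mod_cast (Finset.mem_Icc.1 (hf l)).2) htτ
    have hPpos : 0 < ∏ l, (f l : ℝ) := Finset.prod_pos fun l _ => by linarith [hf1 l]
    have hP : ∏ l, (f l : ℝ) ≤ τ ^ n := by
      calc ∏ l, (f l : ℝ) ≤ ∏ _l : ι, τ :=
            Finset.prod_le_prod (fun l _ => by linarith [hf1 l]) fun l _ => hf2 l
        _ = τ ^ n := by rw [Finset.prod_const, Finset.card_univ]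
    set x : ℝ := (N : ℝ) / ∏ l, (f l : ℝ) with hx
    have hone : ∏ l, (1 / (f l : ℝ)) = 1 / ∏ l, (f l : ℝ) := by
      rw [Finset.prod_div_distrib, Finset.prod_const_one]
    have hxeq : x = N * ∏ l, (1 / (f l : ℝ)) := by rw [hone, hx]; ring
    unfold c1M
    split_ifs with hcond
    · obtain ⟨hji, hki, hnsq⟩ := hcond
      set b : ℤ := (θ i j * f j) * (θ i k * f k) with hb
      -- `x ≥ √N`
      have hsq : (τ ^ n) ^ 2 ≤ N := by
        rw [← pow_mul, mul_comm n 2]; exact hτN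
      have hxsq : Real.sqrt N ≤ x := by
        rw [hx, le_div_iff₀ hPpos]
        have h1 : ∏ l, (f l : ℝ) ≤ Real.sqrt N :=
          hP.trans (Real.le_sqrt_of_sq_le hsq)
        calc Real.sqrt N * ∏ l, (f l : ℝ) ≤ Real.sqrt N * Real.sqrt N :=
              mul_le_mul_of_nonneg_left h1 (Real.sqrt_nonneg _)
          _ = N := Real.mul_self_sqrt (by linarith)
      have hs4 : 4 ≤ Real.sqrt N := by
        apply Real.le_sqrt_of_sq_le
        norm_num
        linarith
      have hx2 : 2 ≤ x := by linarith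
      have hlogx : Real.log N / 2 ≤ Real.log x := by
        rw [← Real.log_sqrt (by linarith)]
        exact Real.log_le_log (by linarith) hxsq
      have hxpow : Real.log x ^ (-(1 / 4) : ℝ) ≤ 2 * Real.log N ^ (-(1 / 4) : ℝ) := by
        calc Real.log x ^ (-(1 / 4) : ℝ) ≤ (Real.log N / 2) ^ (-(1 / 4) : ℝ) :=
              Real.rpow_le_rpow_of_nonpos (by linarith) hlogx (by norm_num)
          _ = Real.log N ^ (-(1 / 4) : ℝ) * (2 : ℝ) ^ (1 / 4 : ℝ) := by
              rw [Real.div_rpow hlogN.le (by norm_num), Real.rpow_neg (by norm_num : (0 : ℝ) ≤ 2) (1 / 4),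
                div_inv_eq_mul]
          _ ≤ Real.log N ^ (-(1 / 4) : ℝ) * (2 : ℝ) ^ (1 : ℝ) := by
              apply mul_le_mul_of_nonneg_left _ hlN
              exact Real.rpow_le_rpow_of_exponent_le (by norm_num) (by norm_num)
          _ = 2 * Real.log N ^ (-(1 / 4) : ℝ) := by rw [Real.rpow_one]; ring
      -- size of `b`
      have hb0 : b ≠ 0 := by
        rw [hb]
        have hfj : (f j : ℤ) ≠ 0 := by
          have := (Finset.mem_Icc.1 (hf j)).1
          exact_mod_cast (by omega : f j ≠ 0)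
        have hfk : (f k : ℤ) ≠ 0 := by
          have := (Finset.mem_Icc.1 (hf k)).1
          exact_mod_cast (by omega : f k ≠ 0)
        exact mul_ne_zero (mul_ne_zero (hθ i j hji.symm) hfj) (mul_ne_zero (hθ i k hki.symm) hfk)
      have hbabs : ((b.natAbs : ℕ) : ℝ) ≤ (T * τ) ^ 2 := by
        rw [Nat.cast_natAbs, Int.cast_abs, hb]
        push_cast
        rw [abs_mul, abs_mul, abs_mul, Nat.abs_cast, Nat.abs_cast, sq]
        have h1 : |(θ i j : ℝ)| * (f j : ℝ) ≤ T * τ :=
          mul_le_mul (hT i j) (hf2 j) (by linarith [hf1 j]) (by linarith)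
        have h2 : |(θ i k : ℝ)| * (f k : ℝ) ≤ T * τ :=
          mul_le_mul (hT i k) (hf2 k) (by linarith [hf1 k]) (by linarith)
        exact mul_le_mul h1 h2 (mul_nonneg (abs_nonneg _) (by linarith [hf1 k])) (by positivity)
      have hbpos : (1 : ℝ) ≤ (b.natAbs : ℕ) := by
        have : 1 ≤ b.natAbs := Nat.one_le_iff_ne_zero.2 (Int.natAbs_ne_zero.2 hb0)
        exact_mod_cast this
      have hlogb : Real.log b.natAbs ≤ 2 * Real.log T + 2 * Real.log τ := by
        calc Real.log b.natAbs ≤ Real.log ((T * τ) ^ 2) := Real.log_le_log (by linarith) hbabs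
          _ = 2 * Real.log T + 2 * Real.log τ := by
              rw [Real.log_pow, Real.log_mul (by linarith) (by linarith)]
              push_cast
              ring
      have hlogb0 : 0 ≤ Real.log b.natAbs := Real.log_nonneg hbpos
      have hB : (5 + Real.log b.natAbs) ^ (1 / 4 : ℝ) ≤ (5 + 2 * Real.log T) * (1 + Real.log τ) := by
        calc (5 + Real.log b.natAbs) ^ (1 / 4 : ℝ) ≤ (5 + Real.log b.natAbs) ^ (1 : ℝ) :=
              Real.rpow_le_rpow_of_exponent_le (by linarith) (by norm_num)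
          _ = 5 + Real.log b.natAbs := Real.rpow_one _
          _ ≤ 5 + (2 * Real.log T + 2 * Real.log τ) := by linarith
          _ ≤ (5 + 2 * Real.log T) * (1 + Real.log τ) := by nlinarith
      have h20 := c1_inner b hnsq x hx2
      refine h20.trans ?_
      have hx0 : 0 ≤ x := by linarith
      calc 20 * x * Real.log x ^ (-(1 / 4) : ℝ) * (5 + Real.log b.natAbs) ^ (1 / 4 : ℝ)
          ≤ 20 * x * (2 * Real.log N ^ (-(1 / 4) : ℝ)) *
            ((5 + 2 * Real.log T) * (1 + Real.log τ)) := by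
            apply mul_le_mul _ hB (Real.rpow_nonneg (by linarith) _) (by positivity)
            apply mul_le_mul_of_nonneg_left hxpow (by positivity)
        _ = (∏ l, (1 / (f l : ℝ))) * (40 * (5 + 2 * Real.log T) * N *
            Real.log N ^ (-(1 / 4) : ℝ) * (1 + Real.log τ)) := by
            rw [hxeq]; ring
    · rw [Finset.card_empty]
      have : 0 ≤ ∏ l, (1 / (f l : ℝ)) := by
        rw [hone]; positivity
      push_cast
      positivity
  -- the covering
  set S := (Box ι N).filter fun e => Odd (∏ i, e i) ∧ (∃ i ∈ A, ∀ j, j ≠ i → (e j : ℝ) ≤ τ) ∧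
    Loc θ e ∧ ¬ Good θ A e with hS
  have hsub : S ⊆ (univ : Finset ι).biUnion fun i => (univ : Finset ι).biUnion fun j =>
      (univ : Finset ι).biUnion fun k => F.biUnion fun f =>
        (c1M θ N i j k f).image fun m => Function.update f i m := by
    intro e he
    rw [hS, Finset.mem_filter] at he
    obtain ⟨hbox, hodd, ⟨i, hiA, hle⟩, hloc, hgood⟩ := he
    unfold Box at hbox
    rw [Finset.mem_filter, Fintype.mem_piFinset] at hbox
    obtain ⟨hIcc, hprodN, hsqf⟩ := hbox
    have hbad : ¬ ∀ j, j ≠ i → ∀ k, k ≠ i → IsSquare ((θ i j * e j) * (θ i k * e k)) := by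
      intro h
      exact hgood ⟨i, hiA, h⟩
    push Not at hbad
    obtain ⟨j, hj, k, hk, hnsq⟩ := hbad
    simp only [Finset.mem_biUnion, Finset.mem_univ, true_and]
    refine ⟨i, j, k, Function.update e i 1, ?_, ?_⟩
    · rw [hF, Fintype.mem_piFinset]
      intro l
      by_cases hl : l = i
      · subst hl
        rw [Function.update_self, Finset.mem_Icc]
        exact ⟨le_refl 1, ht1⟩
      · rw [Function.update_of_ne hl, Finset.mem_Icc]
        exact ⟨(Finset.mem_Icc.1 (hIcc l)).1, Nat.le_floor (hle l hl)⟩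
    · rw [Finset.mem_image]
      refine ⟨e i, ?_, ?_⟩
      · have hfj : Function.update e i 1 j = e j := Function.update_of_ne hj _ _
        have hfk : Function.update e i 1 k = e k := Function.update_of_ne hk _ _
        unfold c1M
        rw [hfj, hfk, if_pos ⟨hj, hk, hnsq⟩, Finset.mem_filter, Finset.mem_Icc]
        have hdvd : e i ∣ ∏ l, e l := Finset.dvd_prod_of_mem e (Finset.mem_univ i)
        have hprod : (e i) * ∏ l, Function.update e i 1 l = ∏ l, e l := by
          rw [Finset.prod_update_of_mem (Finset.mem_univ i), one_mul, Finset.sdiff_singleton_eq_erase,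
            Finset.mul_prod_erase _ _ (Finset.mem_univ i)]
        have hupos : 0 < ∏ l, Function.update e i 1 l := by
          apply Finset.prod_pos
          intro l _
          by_cases hl : l = i
          · subst hl; rw [Function.update_self]; norm_num
          · rw [Function.update_of_ne hl]; exact (Finset.mem_Icc.1 (hIcc l)).1
        refine ⟨⟨(Finset.mem_Icc.1 (hIcc i)).1, ?_⟩, ?_, ?_, ?_⟩
        · apply Nat.le_floor
          rw [le_div_iff₀ (by exact_mod_cast hupos)]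
          have : (e i) * ∏ l, Function.update e i 1 l ≤ N := by rw [hprod]; exact hprodN
          exact_mod_cast this
        · exact hsqf.squarefree_of_dvd hdvd
        · exact Odd.of_dvd_nat hodd hdvd
        · intro p hp hpi
          exact hloc i p hp hpi j hj k hk
      · rw [Function.update_idem, Function.update_eq_self]
  have hcard : (S.card : ℝ) ≤ ∑ _i : ι, ∑ _j : ι, ∑ _k : ι,
      (1 + Real.log τ) ^ n * (40 * (5 + 2 * Real.log T) * N * Real.log N ^ (-(1 / 4) : ℝ) *
        (1 + Real.log τ)) := by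
    have h1 : S.card ≤ ∑ i : ι, ∑ j : ι, ∑ k : ι, ∑ f ∈ F, (c1M θ N i j k f).card := by
      refine (Finset.card_le_card hsub).trans (Finset.card_biUnion_le.trans ?_)
      refine Finset.sum_le_sum fun i _ => Finset.card_biUnion_le.trans ?_
      refine Finset.sum_le_sum fun j _ => Finset.card_biUnion_le.trans ?_
      refine Finset.sum_le_sum fun k _ => Finset.card_biUnion_le.trans ?_
      exact Finset.sum_le_sum fun f _ => Finset.card_image_le
    have h2 : (S.card : ℝ) ≤ ∑ i : ι, ∑ j : ι, ∑ k : ι, ∑ f ∈ F, ((c1M θ N i j k f).card : ℝ) := by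
      exact_mod_cast h1
    refine h2.trans ?_
    refine Finset.sum_le_sum fun i _ => Finset.sum_le_sum fun j _ => Finset.sum_le_sum fun k _ => ?_
    refine (Finset.sum_le_sum fun f hf => hinner f hf i j k).trans ?_
    rw [← Finset.sum_mul]
    apply mul_le_mul_of_nonneg_right _ (by positivity)
    have h3 : ∑ f ∈ F, ∏ l, (1 / (f l : ℝ)) = ∏ _l : ι, ∑ m ∈ Icc 1 t, (1 / (m : ℝ)) := by
      rw [hF, Finset.prod_univ_sum]
    rw [h3, Finset.prod_const, Finset.card_univ]
    apply pow_le_pow_left₀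
    · exact Finset.sum_nonneg fun m _ => by positivity
    · exact c1_harm τ hτ
  refine hcard.trans ?_
  simp only [Finset.sum_const, Finset.card_univ, nsmul_eq_mul]
  rw [← hn]
  have hpos : (0 : ℝ) ≤ N * Real.log N ^ (-(1 / 4) : ℝ) * (1 + Real.log τ) ^ (n + 1) := by
    positivity
  calc (n : ℝ) * (n * (n * ((1 + Real.log τ) ^ n * (40 * (5 + 2 * Real.log T) * N *
        Real.log N ^ (-(1 / 4) : ℝ) * (1 + Real.log τ)))))
      = (n * (n * n) * (40 * (5 + 2 * Real.log T))) *
        (N * Real.log N ^ (-(1 / 4) : ℝ) * (1 + Real.log τ) ^ (n + 1)) := by ring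
    _ ≤ (n * (n * n) * (40 * (5 + 2 * Real.log T)) + 1) *
        (N * Real.log N ^ (-(1 / 4) : ℝ) * (1 + Real.log τ) ^ (n + 1)) := by
        apply mul_le_mul_of_nonneg_right _ hpos
        linarith
    _ = (n * (n * n) * (40 * (5 + 2 * Real.log T)) + 1) * N * Real.log N ^ (-(1 / 4) : ℝ) *
        (1 + Real.log τ) ^ (n + 1) := by ring

end QT
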