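import Pool.Agent.Lib.MP_10e784_ag.QInner

/-! JOB QCaseA.  Vectors whose set of coordinates `> τ` is exactly `I`, `2 ≤ |I|`, `I ≠ univ`.

Proof.  Fix `j0 ∉ I`.  Let `f` be `e` with the entries in `I` replaced by `1`, and `e'` be `e` with the entries off `I` replaced by `1`
(so `e = f * e'` pointwise, entries of `f` are in `[1, ⌊τ⌋]`, `∏ f ≤ τ^n`, `n = card ι`), and `X = N / ∏ f` (natural division), `∏ e' ≤ X`.
`γ i j = θ i j * (θ i j0 * f j0)`: `Loc` with `j` and `k = j0` gives `(γ i j e j/p) = 1` for `p ∣ e i = e' i`, `i, j ∈ I`, `j ≠ i`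
(`e' j = e j` for `j ∈ I`).
If `|I| = 2`, `I = {i, i'}` we use `hG` for `f`-values: `hG` applied to the vector `e` gives `j, k ∉ I` and `i₀ ∈ I` with
`b = (θ i₀ j * e j) * (θ i₀ k * e k)` not a square; `b` depends only on `f` and `i₀, j, k`, and `Loc` gives `(b/p) = 1` for `p ∣ e i₀`.
If `|I| ≥ 3` take `b = 2`, any `i₀ ∈ I`.  So the count is at most `∑_{i₀,j,k} ∑_f (count of inner_bound with b, γ)`, where for `|I| = 2` only
those `(i₀,j,k,f)` with `b` non-square are used.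
`|b| ≤ T² τ²`, `T = max |θ|, 2`, so `5 + log|b| ≤ C (1+log τ)`; `∑_f X ≤ N ∑_f 1/∏f ≤ N (1+log τ)^n`.
`X ≥ N^(1/4)` and `X ≥ 16`: from `N ≥ 65536` and `τ^(2n) ≤ N` we get `N/∏f ≥ √N ≥ 256`, `X ≥ √N/2 ≥ N^(1/4)`;
so `log X ≥ (log N)/4` and `V^K₀ ≤ τ ≤ N^(1/4) ≤ X`.  Take `K` large (`K ≥ K₀ + n + 2`, `K ≥ 2n`, `K ≥ 4`). -/

namespace QT

open Finset

private lemma harm_le (τ : ℝ) (hτ : 1 ≤ τ) :
    ∑ m ∈ Icc 1 ⌊τ⌋₊, (1 / (m : ℝ)) ≤ 1 + Real.log τ := by
  have h0 : 0 < ⌊τ⌋₊ := Nat.floor_pos.2 hτ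
  have h1 : ∑ m ∈ Icc 1 ⌊τ⌋₊, (1 / (m : ℝ)) = (harmonic ⌊τ⌋₊ : ℝ) := by
    rw [harmonic_eq_sum_Icc]
    push_cast
    exact Finset.sum_congr rfl fun m _ => by rw [one_div]
  rw [h1]
  refine (harmonic_le_one_add_log _).trans ?_
  have h2 : Real.log ⌊τ⌋₊ ≤ Real.log τ :=
    Real.log_le_log (by exact_mod_cast h0) (Nat.floor_le (by linarith))
  linarith

private lemma sum_inv_prod {ι : Type} [Fintype ι] [DecidableEq ι] (τ : ℝ) (hτ : 1 ≤ τ) :
    ∑ f ∈ Fintype.piFinset (fun _ : ι => Icc 1 ⌊τ⌋₊), ∏ i, (1 / (f i : ℝ)) ≤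
      (1 + Real.log τ) ^ Fintype.card ι := by
  rw [Finset.sum_prod_piFinset (Icc 1 ⌊τ⌋₊) (fun (_ : ι) (m : ℕ) => (1 / (m : ℝ)))]
  rw [Finset.prod_const, Finset.card_univ]
  exact pow_le_pow_left₀ (Finset.sum_nonneg fun _ _ => by positivity) (harm_le τ hτ) _

/-- facts about the reduced box size -/
private lemma X_facts (n K K₀ : ℕ) (N P : ℕ) (V τ : ℝ) (hN : 65536 ≤ N) (hV : 1 ≤ V)
    (hVτ : V ^ K ≤ τ) (hτN : τ ^ K ≤ N) (hKn : 2 * n ≤ K) (hK4 : 4 ≤ K) (hKK : K₀ ≤ K)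
    (hP0 : 0 < P) (hP : (P : ℝ) ≤ τ ^ n) :
    16 ≤ N / P ∧ V ^ K₀ ≤ τ ∧ V ^ K₀ ≤ ((N / P : ℕ) : ℝ) ∧
      Real.log N / 4 ≤ Real.log ((N / P : ℕ) : ℝ) := by
  have hτ1 : 1 ≤ τ := (one_le_pow₀ hV).trans hVτ
  have hN' : (65536 : ℝ) ≤ N := by exact_mod_cast hN
  have hN0 : (0 : ℝ) ≤ N := Nat.cast_nonneg _
  set s : ℝ := Real.sqrt N with hs
  set q : ℝ := Real.sqrt s with hq
  have hs0 : 0 ≤ s := Real.sqrt_nonneg _
  have hss : s ^ 2 = N := Real.sq_sqrt hN0
  have hqq : q ^ 2 = s := Real.sq_sqrt hs0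
  have hq0 : 0 ≤ q := Real.sqrt_nonneg _
  have hq4 : q ^ 4 = N := by rw [← hss, ← hqq]; ring
  have hq16 : 16 ≤ q := by
    by_contra h
    push Not at h
    have h1 : q ^ 4 < 16 ^ 4 := pow_lt_pow_left₀ h hq0 (by norm_num)
    rw [hq4] at h1
    norm_num at h1
    linarith
  have hPs : (P : ℝ) ≤ q ^ 2 := by
    refine hP.trans ?_
    by_contra h
    push Not at h
    have h1 : (q ^ 2) ^ 2 < (τ ^ n) ^ 2 := pow_lt_pow_left₀ h (by positivity) (by norm_num)
    have h2 : (τ ^ n) ^ 2 ≤ τ ^ K := by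
      rw [← pow_mul]
      exact pow_le_pow_right₀ hτ1 (by omega)
    have h3 : (q ^ 2) ^ 2 = N := by rw [← hq4]; ring
    rw [h3] at h1
    linarith
  have hτq : τ ≤ q := by
    by_contra h
    push Not at h
    have h1 : q ^ 4 < τ ^ 4 := pow_lt_pow_left₀ h hq0 (by norm_num)
    have h2 : τ ^ 4 ≤ τ ^ K := pow_le_pow_right₀ hτ1 hK4
    rw [hq4] at h1
    linarith
  have hlt : (N : ℝ) < (((N / P : ℕ) : ℝ) + 1) * P := by
    have h1 : N < (N / P + 1) * P := by
      rw [add_mul, one_mul]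
      exact Nat.lt_div_mul_add hP0
    exact_mod_cast h1
  have hXq : q ^ 2 < ((N / P : ℕ) : ℝ) + 1 := by
    by_contra h
    push Not at h
    have h1 : (((N / P : ℕ) : ℝ) + 1) * P ≤ q ^ 2 * q ^ 2 := by
      have hP0' : (0 : ℝ) ≤ P := Nat.cast_nonneg _
      have : (0 : ℝ) ≤ ((N / P : ℕ) : ℝ) + 1 := by positivity
      gcongr
    have h2 : q ^ 2 * q ^ 2 = N := by rw [← hq4]; ring
    linarith
  have hXq' : q ≤ ((N / P : ℕ) : ℝ) := by nlinarith
  have hVK : V ^ K₀ ≤ τ := (pow_le_pow_right₀ hV hKK).trans hVτ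
  refine ⟨?_, hVK, hVK.trans (hτq.trans hXq'), ?_⟩
  · have : (16 : ℝ) ≤ ((N / P : ℕ) : ℝ) := hq16.trans hXq'
    exact_mod_cast this
  · have h1 : Real.log N = 4 * Real.log q := by
      rw [← hq4, Real.log_pow]
      norm_num
    rw [h1]
    have h2 : Real.log q ≤ Real.log ((N / P : ℕ) : ℝ) := Real.log_le_log (by linarith) hXq'
    linarith

private lemma log_rpow_le (a b : ℝ) (ha : 0 < a) (hab : a / 4 ≤ b) :
    b ^ (-(1 / 4) : ℝ) ≤ 2 * a ^ (-(1 / 4) : ℝ) := by
  have hb : 0 < b := by linarith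
  have h1 : b ^ (-(1 / 4) : ℝ) ≤ (a / 4) ^ (-(1 / 4) : ℝ) :=
    Real.rpow_le_rpow_of_nonpos (by linarith) hab (by norm_num)
  refine h1.trans ?_
  rw [Real.div_rpow ha.le (by norm_num), div_eq_mul_inv, mul_comm]
  refine mul_le_mul_of_nonneg_right ?_ (Real.rpow_nonneg ha.le _)
  rw [← Real.rpow_neg (by norm_num)]
  calc (4 : ℝ) ^ (-(-(1 / 4)) : ℝ) ≤ (4 : ℝ) ^ (1 / 2 : ℝ) :=
        Real.rpow_le_rpow_of_exponent_le (by norm_num) (by norm_num)
    _ = 2 := by
        rw [← Real.sqrt_eq_rpow, show (4 : ℝ) = 2 ^ 2 by norm_num]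
        exact Real.sqrt_sq (by norm_num)

open Classical in
theorem case_I {ι : Type} [Fintype ι] [DecidableEq ι] (θ : ι → ι → ℤ) (A : Finset ι)
    (hθ : ∀ i j, i ≠ j → θ i j ≠ 0)
    (hG : ∀ e : ι → ℕ, (∀ i, 0 < e i) → (∀ i ∉ A, e i = 1) → ∀ i ∈ A, ∀ i' ∈ A, i ≠ i' →
      ∃ j k, j ≠ i ∧ j ≠ i' ∧ k ≠ i ∧ k ≠ i' ∧
        (¬ IsSquare ((θ i j * e j) * (θ i k * e k)) ∨ ¬ IsSquare ((θ i' j * e j) * (θ i' k * e k))))
    (I : Finset ι) (hI : 2 ≤ I.card) (hIu : I ≠ univ) :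
    ∃ (C : ℝ) (K : ℕ), 0 < C ∧ ∀ (N : ℕ) (V τ : ℝ), 65536 ≤ N → 1 ≤ V → V ^ K ≤ τ → τ ^ K ≤ N →
    (((Box ι N).filter fun e => Odd (∏ i, e i) ∧ (∀ i ∉ A, e i = 1) ∧ (∀ i, τ < e i ↔ i ∈ I) ∧
        Loc θ e).card : ℝ) ≤
      C * N * ((1 + Real.log N) ^ K * V ^ (-(1 / 16) : ℝ) +
        Real.log N ^ (-(1 / 4) : ℝ)) * (1 + Real.log τ) ^ K := by
  obtain ⟨C₀, K₀, hC₀, hin⟩ := inner_bound I hI
  obtain ⟨j0, hj0⟩ : ∃ j0, j0 ∉ I := by
    by_contra h
    push Not at h
    exact hIu (Finset.eq_univ_iff_forall.2 h)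
  set n := Fintype.card ι with hn
  -- constants
  set M : ℝ := 2 + ∑ i, ∑ j, (((θ i j).natAbs : ℕ) : ℝ) with hM
  have hMθ : ∀ i j, (((θ i j).natAbs : ℕ) : ℝ) ≤ M := by
    intro i j
    have h1 : (((θ i j).natAbs : ℕ) : ℝ) ≤ ∑ j, (((θ i j).natAbs : ℕ) : ℝ) :=
      Finset.single_le_sum (f := fun j => (((θ i j).natAbs : ℕ) : ℝ))
        (fun _ _ => Nat.cast_nonneg _) (Finset.mem_univ j)
    have h2 : ∑ j, (((θ i j).natAbs : ℕ) : ℝ) ≤ ∑ i, ∑ j, (((θ i j).natAbs : ℕ) : ℝ) :=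
      Finset.single_le_sum (f := fun i => ∑ j, (((θ i j).natAbs : ℕ) : ℝ))
        (fun _ _ => Finset.sum_nonneg fun _ _ => Nat.cast_nonneg _) (Finset.mem_univ i)
    linarith
  have hM2 : 2 ≤ M := by
    have : 0 ≤ ∑ i, ∑ j, (((θ i j).natAbs : ℕ) : ℝ) :=
      Finset.sum_nonneg fun _ _ => Finset.sum_nonneg fun _ _ => Nat.cast_nonneg _
    linarith
  set C₁ : ℝ := 5 + 2 * Real.log M with hC₁
  have hlogM : 0 ≤ Real.log M := Real.log_nonneg (by linarith)
  set t : ℝ := ((Fintype.card (ι × ι × ι) : ℕ) : ℝ) with ht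
  set K : ℕ := K₀ + 2 * n + 4 with hK
  refine ⟨(t + 1) * C₀ * (1 + 2 * C₁), K, by positivity, ?_⟩
  intro N V τ hN hV hVτ hτN
  have hτ1 : 1 ≤ τ := (one_le_pow₀ hV).trans hVτ
  have hlogτ : 0 ≤ Real.log τ := Real.log_nonneg hτ1
  have hN' : (65536 : ℝ) ≤ N := by exact_mod_cast hN
  have hlogN : 0 < Real.log N := Real.log_pos (by linarith)
  have hlogV : 0 ≤ Real.log V := Real.log_nonneg hV
  have hVτ' : V ≤ τ := by
    refine le_trans ?_ hVτ
    calc V = V ^ 1 := (pow_one V).symm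
      _ ≤ V ^ K := pow_le_pow_right₀ hV (by omega)
  have hlogVτ : Real.log V ≤ Real.log τ := Real.log_le_log (by linarith) hVτ'
  set S := (Box ι N).filter fun e => Odd (∏ i, e i) ∧ (∀ i ∉ A, e i = 1) ∧
    (∀ i, τ < e i ↔ i ∈ I) ∧ Loc θ e with hS
  set F : Finset (ι → ℕ) := Fintype.piFinset (fun _ : ι => Icc 1 ⌊τ⌋₊) with hF
  -- the frozen part, the large part
  set fo : (ι → ℕ) → (ι → ℕ) := fun e i => if i ∈ I then 1 else e i with hfo
  set eo : (ι → ℕ) → (ι → ℕ) := fun e i => if i ∈ I then e i else 1 with heo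
  have hmul : ∀ e : ι → ℕ, ∏ i, e i = (∏ i, fo e i) * ∏ i, eo e i := by
    intro e
    rw [← Finset.prod_mul_distrib]
    refine Finset.prod_congr rfl fun i _ => ?_
    simp only [hfo, heo]
    split_ifs <;> simp
  set bb : (ι × ι × ι) → (ι → ℕ) → ℤ := fun q f =>
    if I.card = 2 then (θ q.1 q.2.1 * f q.2.1) * (θ q.1 q.2.2 * f q.2.2) else 2 with hbb
  set R : (ι × ι × ι) → (ι → ℕ) → Finset (ι → ℕ) := fun q f => S.filter fun e =>
    q.1 ∈ I ∧ ¬ IsSquare (bb q f) ∧ fo e = f ∧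
      (I.card = 2 → ∀ p : ℕ, p.Prime → p ∣ e q.1 → jacobiSym (bb q f) p = 1) with hR
  have hSmem : ∀ e ∈ S, (∀ i, 1 ≤ e i) ∧ ∏ i, e i ≤ N ∧ Squarefree (∏ i, e i) ∧
      Odd (∏ i, e i) ∧ (∀ i ∉ A, e i = 1) ∧ (∀ i, τ < e i ↔ i ∈ I) ∧ Loc θ e := by
    intro e he
    obtain ⟨h1, h2, h3, h4, h5⟩ := Finset.mem_filter.1 he
    obtain ⟨h6, h7, h8⟩ := Finset.mem_filter.1 h1
    exact ⟨fun i => (Finset.mem_Icc.1 (Fintype.mem_piFinset.1 h6 i)).1, h7, h8, h2, h3, h4, h5⟩
  have hfoF : ∀ e ∈ S, fo e ∈ F := by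
    intro e he
    obtain ⟨h1, -, -, -, -, h6, -⟩ := hSmem e he
    rw [hF, Fintype.mem_piFinset]
    intro i
    rw [Finset.mem_Icc]
    simp only [hfo]
    split_ifs with hi
    · exact ⟨le_rfl, Nat.floor_pos.2 hτ1⟩
    · refine ⟨h1 i, Nat.le_floor ?_⟩
      by_contra h
      push Not at h
      exact hi ((h6 i).1 h)
  -- covering
  have hcover : S ⊆ (Finset.univ ×ˢ F).biUnion fun q => R q.1 q.2 := by
    intro e he
    obtain ⟨h1, h2, h3, h4, h5, h6, h7⟩ := hSmem e he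
    rw [Finset.mem_biUnion]
    by_cases hc : I.card = 2
    · obtain ⟨i, i', hii, hIe⟩ := Finset.card_eq_two.1 hc
      have hiI : i ∈ I := by rw [hIe]; simp
      have hiI' : i' ∈ I := by rw [hIe]; simp
      have hIA : ∀ x ∈ I, x ∈ A := by
        intro x hx
        by_contra hxA
        have h8 := (h6 x).2 hx
        rw [h5 x hxA] at h8
        norm_num at h8
        linarith
      obtain ⟨j, k, hji, hji', hki, hki', hsq⟩ := hG e h1 h5 i (hIA i hiI) i' (hIA i' hiI') hii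
      have hjI : j ∉ I := by rw [hIe]; simp [hji, hji']
      have hkI : k ∉ I := by rw [hIe]; simp [hki, hki']
      have hfj : fo e j = e j := by simp [hfo, hjI]
      have hfk : fo e k = e k := by simp [hfo, hkI]
      have key : ∀ i₀ ∈ I, i₀ ≠ j → i₀ ≠ k → ¬ IsSquare ((θ i₀ j * e j) * (θ i₀ k * e k)) →
          ∃ a ∈ (Finset.univ : Finset (ι × ι × ι)) ×ˢ F, e ∈ R a.1 a.2 := by
        intro i₀ hi₀ hj hk hsq
        refine ⟨((i₀, j, k), fo e), Finset.mem_product.2 ⟨Finset.mem_univ _, hfoF e he⟩, ?_⟩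
        have hb : bb (i₀, j, k) (fo e) = (θ i₀ j * e j) * (θ i₀ k * e k) := by
          simp only [hbb, if_pos hc, hfj, hfk]
        simp only [hR]
        rw [Finset.mem_filter]
        refine ⟨he, hi₀, ?_, rfl, ?_⟩
        · rw [hb]; exact hsq
        · intro _ p hp hpe
          rw [hb]
          exact h7 i₀ p hp hpe j hj.symm k hk.symm
      rcases hsq with hsq | hsq
      · exact key i hiI hji.symm hki.symm hsq
      · exact key i' hiI' hji'.symm hki'.symm hsq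
    · obtain ⟨i, hi⟩ : I.Nonempty := Finset.card_pos.1 (by omega)
      refine ⟨((i, i, i), fo e), Finset.mem_product.2 ⟨Finset.mem_univ _, hfoF e he⟩, ?_⟩
      simp only [hR]
      rw [Finset.mem_filter]
      refine ⟨he, hi, ?_, rfl, fun h => absurd h hc⟩
      simp only [hbb, if_neg hc]
      rintro ⟨r, hr⟩
      have h8 : r.natAbs * r.natAbs = 2 := by
        rw [← Int.natAbs_mul, ← hr]
        rfl
      have h9 : r.natAbs < 2 := by nlinarith
      interval_cases r.natAbs <;> omega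
  -- the bound for one class
  set E : ℝ := (1 + Real.log N) ^ K₀ * V ^ (-(1 / 16) : ℝ) +
    2 * C₁ * Real.log N ^ (-(1 / 4) : ℝ) * (1 + Real.log τ) ^ (K₀ + 1) with hE
  have hVr : 0 ≤ V ^ (-(1 / 16) : ℝ) := Real.rpow_nonneg (by linarith) _
  have hLr : 0 ≤ Real.log N ^ (-(1 / 4) : ℝ) := Real.rpow_nonneg hlogN.le _
  have hC₁0 : 0 < C₁ := by positivity
  have hE0 : 0 ≤ E := by positivity
  have hclass : ∀ q : ι × ι × ι, ∀ f ∈ F, ((R q f).card : ℝ) ≤
      C₀ * N * E * ∏ i, (1 / (f i : ℝ)) := by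
    intro q f hf
    have hf1 : ∀ i, 1 ≤ f i ∧ (f i : ℝ) ≤ τ := by
      intro i
      have h1 := Finset.mem_Icc.1 (Fintype.mem_piFinset.1 hf i)
      exact ⟨h1.1, (Nat.cast_le.2 h1.2).trans (Nat.floor_le (by linarith))⟩
    have hprod0 : 0 ≤ ∏ i, (1 / (f i : ℝ)) := Finset.prod_nonneg fun _ _ => by positivity
    rcases (R q f).eq_empty_or_nonempty with h0 | ⟨e₁, he₁⟩
    · rw [h0, Finset.card_empty, Nat.cast_zero]
      positivity
    · have he₁' : q.1 ∈ I ∧ ¬ IsSquare (bb q f) := by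
        simp only [hR] at he₁
        obtain ⟨-, h1, h2, -⟩ := Finset.mem_filter.1 he₁
        exact ⟨h1, h2⟩
      obtain ⟨hqI, hqsq⟩ := he₁'
      set P : ℕ := ∏ i, f i with hPdef
      have hP0 : 0 < P := Finset.prod_pos fun i _ => (hf1 i).1
      have hPτ : (P : ℝ) ≤ τ ^ n := by
        rw [hPdef, Nat.cast_prod]
        calc ∏ i, (f i : ℝ) ≤ ∏ _i : ι, τ :=
              Finset.prod_le_prod (fun _ _ => Nat.cast_nonneg _) fun i _ => (hf1 i).2
          _ = τ ^ n := by rw [Finset.prod_const, Finset.card_univ]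
      obtain ⟨hX16, hVK₀, hVX, hlogX⟩ := X_facts n K K₀ N P V τ hN hV hVτ hτN (by omega)
        (by omega) (by omega) hP0 hPτ
      set X : ℕ := N / P with hXdef
      have hb := hin (fun i j => θ i j * (θ i j0 * f j0)) (bb q f) q.1 X V τ hqsq hqI hX16 hV
        hVK₀ hVX
      have hcard : (R q f).card ≤ ((Box ι X).filter fun e => Odd (∏ i, e i) ∧
          (∀ i ∉ I, e i = 1) ∧ (∀ i ∈ I, τ < e i) ∧
          (∀ i ∈ I, ∀ p : ℕ, p.Prime → p ∣ e i → ∀ j ∈ I, j ≠ i →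
            jacobiSym (θ i j * (θ i j0 * f j0) * e j) p = 1) ∧
          (I.card = 2 → ∀ p : ℕ, p.Prime → p ∣ e q.1 → jacobiSym (bb q f) p = 1)).card := by
        refine Finset.card_le_card_of_injOn eo ?_ ?_
        · intro e he
          simp only [hR] at he
          obtain ⟨heS, -, -, hfe, hjac⟩ := Finset.mem_filter.1 (Finset.mem_coe.1 he)
          obtain ⟨h1, h2, h3, h4, h5, h6, h7⟩ := hSmem e heS
          have hdvd : ∏ i, eo e i ∣ ∏ i, e i := by
            rw [hmul e]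
            exact Dvd.intro_left _ rfl
          have heo1 : ∀ i, 1 ≤ eo e i := by
            intro i
            simp only [heo]
            split_ifs
            · exact h1 i
            · exact le_rfl
          have hle : ∏ i, eo e i ≤ X := by
            rw [hXdef, Nat.le_div_iff_mul_le hP0, mul_comm, hPdef, ← hfe, ← hmul e]
            exact h2
          refine Finset.mem_coe.2 (Finset.mem_filter.2 ⟨Finset.mem_filter.2 ⟨?_, hle, ?_⟩,
            ?_, ?_, ?_, ?_, ?_⟩)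
          · rw [Fintype.mem_piFinset]
            intro i
            rw [Finset.mem_Icc]
            refine ⟨heo1 i, le_trans ?_ hle⟩
            exact Finset.single_le_prod' (f := fun i => eo e i) (fun j _ => heo1 j)
              (Finset.mem_univ i)
          · exact h3.squarefree_of_dvd hdvd
          · exact Odd.of_dvd_nat h4 hdvd
          · intro i hi
            simp [heo, hi]
          · intro i hi
            simp only [heo, if_pos hi]
            exact (h6 i).2 hi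
          · intro i hi p hp hpe j hj hji
            simp only [heo, if_pos hi] at hpe
            simp only [heo, if_pos hj]
            have hij0 : j0 ≠ i := fun h => hj0 (h ▸ hi)
            have h8 := h7 i p hp hpe j hji j0 hij0
            have h9 : f j0 = e j0 := by
              rw [← hfe]
              simp [hfo, hj0]
            rw [h9]
            rw [show θ i j * (θ i j0 * (e j0 : ℤ)) * (e j : ℤ) =
              (θ i j * (e j : ℤ)) * (θ i j0 * (e j0 : ℤ)) by ring]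
            exact h8
          · intro hc p hp hpe
            simp only [heo, if_pos hqI] at hpe
            exact hjac hc p hp hpe
        · intro e he e' he' hee
          simp only [hR] at he he'
          obtain ⟨-, -, -, hfe, -⟩ := Finset.mem_filter.1 (Finset.mem_coe.1 he)
          obtain ⟨-, -, -, hfe', -⟩ := Finset.mem_filter.1 (Finset.mem_coe.1 he')
          funext i
          by_cases hi : i ∈ I
          · have := congrFun hee i
            simpa [heo, hi] using this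
          · have := congrFun (hfe.trans hfe'.symm) i
            simpa [hfo, hi] using this
      have hcard' : ((R q f).card : ℝ) ≤ C₀ * X * ((1 + Real.log X) ^ K₀ * V ^ (-(1 / 16) : ℝ) +
          Real.log X ^ (-(1 / 4) : ℝ) * (5 + Real.log (bb q f).natAbs) *
            (1 + Real.log V) ^ K₀) :=
        (Nat.cast_le.2 hcard).trans hb
      refine hcard'.trans ?_
      have hXN : (X : ℝ) ≤ N * ∏ i, (1 / (f i : ℝ)) := by
        have h1 : (X : ℝ) ≤ (N : ℝ) / P := Nat.cast_div_le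
        refine h1.trans (le_of_eq ?_)
        rw [hPdef, Nat.cast_prod, div_eq_mul_inv]
        congr 1
        rw [← Finset.prod_inv_distrib]
        exact Finset.prod_congr rfl fun i _ => (one_div _).symm
      have hX0 : (0 : ℝ) ≤ X := Nat.cast_nonneg _
      have hX16' : (16 : ℝ) ≤ X := by exact_mod_cast hX16
      have hXleN : (X : ℝ) ≤ N := by
        have : X ≤ N := Nat.div_le_self _ _
        exact_mod_cast this
      have hlogXN : Real.log X ≤ Real.log N := Real.log_le_log (by linarith) hXleN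
      have hlogX0 : 0 ≤ Real.log X := Real.log_nonneg (by linarith)
      have hbbne : bb q f ≠ 0 := by
        intro h
        rw [h] at hqsq
        exact hqsq IsSquare.zero
      have hbnat : 0 < (bb q f).natAbs := Int.natAbs_pos.2 hbbne
      have hbb_le : (((bb q f).natAbs : ℕ) : ℝ) ≤ M ^ 2 * τ ^ 2 := by
        simp only [hbb]
        split_ifs with hc
        · rw [Int.natAbs_mul, Int.natAbs_mul, Int.natAbs_mul, Int.natAbs_natCast,
            Int.natAbs_natCast]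
          push_cast
          calc ((θ q.1 q.2.1).natAbs : ℝ) * (f q.2.1 : ℝ) * (((θ q.1 q.2.2).natAbs : ℝ) *
                (f q.2.2 : ℝ)) ≤ M * τ * (M * τ) := by
                gcongr
                · exact hMθ _ _
                · exact (hf1 _).2
                · exact hMθ _ _
                · exact (hf1 _).2
            _ = M ^ 2 * τ ^ 2 := by ring
        · have h1 : (((2 : ℤ).natAbs : ℕ) : ℝ) = 2 := by norm_num
          rw [h1]
          nlinarith [mul_le_mul hM2 hτ1 (by norm_num) (by linarith : (0 : ℝ) ≤ M),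
            mul_pos (show (0 : ℝ) < M by linarith) (show (0 : ℝ) < τ by linarith)]
      have hlogb : Real.log (bb q f).natAbs ≤ 2 * Real.log M + 2 * Real.log τ := by
        have h1 : Real.log (bb q f).natAbs ≤ Real.log (M ^ 2 * τ ^ 2) :=
          Real.log_le_log (by exact_mod_cast hbnat) hbb_le
        rw [Real.log_mul (by positivity) (by positivity), Real.log_pow, Real.log_pow] at h1
        push_cast at h1
        exact h1
      have h5b : 5 + Real.log (bb q f).natAbs ≤ C₁ * (1 + Real.log τ) := by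
        rw [hC₁]
        nlinarith [mul_nonneg hlogM hlogτ]
      have h5b0 : 0 ≤ 5 + Real.log (bb q f).natAbs := by
        have : 0 ≤ Real.log (bb q f).natAbs := Real.log_natCast_nonneg _
        linarith
      have hLX : Real.log X ^ (-(1 / 4) : ℝ) ≤ 2 * Real.log N ^ (-(1 / 4) : ℝ) :=
        log_rpow_le _ _ hlogN hlogX
      have hLX0 : 0 ≤ Real.log X ^ (-(1 / 4) : ℝ) := Real.rpow_nonneg hlogX0 _
      have hterm : (1 + Real.log X) ^ K₀ * V ^ (-(1 / 16) : ℝ) +
          Real.log X ^ (-(1 / 4) : ℝ) * (5 + Real.log (bb q f).natAbs) *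
            (1 + Real.log V) ^ K₀ ≤ E := by
        rw [hE]
        refine add_le_add ?_ ?_
        · gcongr
        · calc Real.log X ^ (-(1 / 4) : ℝ) * (5 + Real.log (bb q f).natAbs) *
                (1 + Real.log V) ^ K₀ ≤
                (2 * Real.log N ^ (-(1 / 4) : ℝ)) * (C₁ * (1 + Real.log τ)) *
                  (1 + Real.log τ) ^ K₀ := by gcongr
            _ = _ := by ring
      have hterm0 : 0 ≤ (1 + Real.log X) ^ K₀ * V ^ (-(1 / 16) : ℝ) +
          Real.log X ^ (-(1 / 4) : ℝ) * (5 + Real.log (bb q f).natAbs) *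
            (1 + Real.log V) ^ K₀ := by
        positivity
      calc C₀ * X * ((1 + Real.log X) ^ K₀ * V ^ (-(1 / 16) : ℝ) +
          Real.log X ^ (-(1 / 4) : ℝ) * (5 + Real.log (bb q f).natAbs) *
            (1 + Real.log V) ^ K₀) ≤ C₀ * (N * ∏ i, (1 / (f i : ℝ))) * E := by
            gcongr
        _ = _ := by ring
  -- summation
  have hfin : (S.card : ℝ) ≤ t * (C₀ * N * E * (1 + Real.log τ) ^ n) := by
    have h1 : S.card ≤ ∑ q ∈ (Finset.univ : Finset (ι × ι × ι)) ×ˢ F, (R q.1 q.2).card :=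
      (Finset.card_le_card hcover).trans Finset.card_biUnion_le
    calc (S.card : ℝ) ≤ ((∑ q ∈ (Finset.univ : Finset (ι × ι × ι)) ×ˢ F,
            (R q.1 q.2).card : ℕ) : ℝ) := by exact_mod_cast h1
      _ = ∑ q ∈ (Finset.univ : Finset (ι × ι × ι)) ×ˢ F, ((R q.1 q.2).card : ℝ) := by
          push_cast
          rfl
      _ = ∑ q : ι × ι × ι, ∑ f ∈ F, ((R q f).card : ℝ) := by
          rw [Finset.sum_product]
      _ ≤ ∑ q : ι × ι × ι, ∑ f ∈ F, C₀ * N * E * ∏ i, (1 / (f i : ℝ)) :=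
          Finset.sum_le_sum fun q _ => Finset.sum_le_sum fun f hf => hclass q f hf
      _ = t * (C₀ * N * E * ∑ f ∈ F, ∏ i, (1 / (f i : ℝ))) := by
          rw [Finset.sum_const, Finset.card_univ, nsmul_eq_mul, ← Finset.mul_sum]
      _ ≤ t * (C₀ * N * E * (1 + Real.log τ) ^ n) := by
          gcongr
          exact sum_inv_prod τ hτ1
  refine hfin.trans ?_
  have hE' : E ≤ (1 + 2 * C₁) * ((1 + Real.log N) ^ K * V ^ (-(1 / 16) : ℝ) +
      Real.log N ^ (-(1 / 4) : ℝ)) * (1 + Real.log τ) ^ (K₀ + 1) := by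
    have h1 : (1 + Real.log N) ^ K₀ ≤ (1 + Real.log N) ^ K :=
      pow_le_pow_right₀ (by linarith) (by omega)
    have h2 : 1 ≤ (1 + Real.log τ) ^ (K₀ + 1) := one_le_pow₀ (by linarith)
    set a := (1 + Real.log N) ^ K * V ^ (-(1 / 16) : ℝ) with ha
    set l := Real.log N ^ (-(1 / 4) : ℝ) with hl
    set r := (1 + Real.log τ) ^ (K₀ + 1) with hr
    have ha0 : 0 ≤ a := by positivity
    have h3 : (1 + Real.log N) ^ K₀ * V ^ (-(1 / 16) : ℝ) ≤ a := by
      rw [ha]
      gcongr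
    have h4 : a ≤ a * r := le_mul_of_one_le_right ha0 h2
    have h5 : 0 ≤ C₁ * a * r := by positivity
    have h6 : 0 ≤ l * r := by positivity
    rw [hE]
    nlinarith
  have hpow : (1 + Real.log τ) ^ (K₀ + 1) * (1 + Real.log τ) ^ n ≤ (1 + Real.log τ) ^ K := by
    rw [← pow_add]
    exact pow_le_pow_right₀ (by linarith) (by omega)
  have ht0 : 0 ≤ t := Nat.cast_nonneg _
  have hG0 : 0 ≤ (1 + Real.log N) ^ K * V ^ (-(1 / 16) : ℝ) + Real.log N ^ (-(1 / 4) : ℝ) := by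
    positivity
  set G := (1 + Real.log N) ^ K * V ^ (-(1 / 16) : ℝ) + Real.log N ^ (-(1 / 4) : ℝ) with hGdef
  have hN0 : (0 : ℝ) ≤ N := Nat.cast_nonneg _
  have hL0 : 0 ≤ 1 + Real.log τ := by linarith
  calc t * (C₀ * N * E * (1 + Real.log τ) ^ n)
      ≤ (t + 1) * (C₀ * N * ((1 + 2 * C₁) * G * (1 + Real.log τ) ^ (K₀ + 1)) *
          (1 + Real.log τ) ^ n) := by
        gcongr
        linarith
    _ = (t + 1) * C₀ * (1 + 2 * C₁) * N * G *
          ((1 + Real.log τ) ^ (K₀ + 1) * (1 + Real.log τ) ^ n) := by ring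
    _ ≤ (t + 1) * C₀ * (1 + 2 * C₁) * N * G * (1 + Real.log τ) ^ K := by
        gcongr

end QT
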