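import Pool.Agent.Lib.MP_10e784_ag.QDefs

/-! The trivial character data. -/

namespace QT

/-- the indicator function of `1` as character data -/
theorem charB_one : CharB (fun n => if n = 1 then 1 else 0) 1 := by
  refine ⟨by simp, by simp, ?_, ?_, le_refl _, ?_⟩
  · intro m n
    by_cases hm : m = 1
    · by_cases hn : n = 1
      · simp [hm, hn]
      · simp [hm, hn]
    · have : m * n ≠ 1 := fun h => hm (Nat.eq_one_of_mul_eq_one_right h)
      simp [hm]
  · intro n
    by_cases hn : n = 1
    · simp [hn]
    · simp [hn]
  · intro σ _
    rw [tsum_eq_single 1]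
    · simp
    · intro n hn
      simp [hn]

end QT
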