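import Pool.Agent.Lib.MP_10e784_ag.QEngine
import Pool.Agent.Lib.MP_10e784_ag.QTriv

/-! JOB QCaseB.  All coordinates larger than `τ` (only relevant when `card ι ≥ 5`).

Proof.  Let `n = card ι ≥ 5`.  Labels `L = {ℓ : ι × Finset ι // ℓ.1 ∉ ℓ.2 ∧ Even ℓ.2.card}`, `idx ℓ = ℓ.1.1`, `St ℓ = ℓ.1.2`, `I = univ`;
`u ℓ p = if p = 2 then 0 else 2^(-(n-2)) * ∏_{j ∈ St ℓ} (θ (idx ℓ) j / p)`.
For `i` and an odd prime `p` put `x_j = (θ i j e j / p) ∈ {-1,0,1}`, `j ≠ i`.  Then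
`∑_{ℓ : idx ℓ = i} u ℓ p ∏_{j∈St ℓ} (e j/p) = 2^(-(n-2)) ∑_{S ⊆ ι∖{i}, |S| even} ∏_{j∈S} x_j
 = 2^(-(n-1)) (∏_{j≠i} (1 + x_j) + ∏_{j≠i} (1 - x_j)) ≥ 0`,
and it equals `1` when `Loc` holds and `p ∣ e i` (all `x_j` are equal to the same sign, because `x_j x_k = 1` for all `j,k ≠ i`).
So the number of `e` in question is at most the (nonnegative) sum in `engine`, with `h i p = 2^(-(n-2))`,
`∑_i h i p = n 2^(-(n-2)) ≤ 3/4` for `n ≥ 5`, `χ` = indicator of `1` (`charB_one`, `χ p = 0`), `B = 1`.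
(Filter in the statement: `Odd` makes the prime `2` irrelevant.) -/

namespace QT

open Finset

/-- labels -/
abbrev QCaseB_L (ι : Type) : Type := {ℓ : ι × Finset ι // ℓ.1 ∉ ℓ.2 ∧ Even ℓ.2.card}

/-- the label system -/
def QCaseB_s (ι : Type) [Fintype ι] : Sys ι (QCaseB_L ι) where
  idx ℓ := ℓ.1.1
  St ℓ := ℓ.1.2
  I := univ
  idx_mem _ := mem_univ _
  St_sub _ := subset_univ _
  not_mem ℓ := ℓ.2.1
  inj _ _ h1 h2 := Subtype.ext (Prod.ext h1 h2)

/-- the weights -/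
noncomputable def QCaseB_u {ι : Type} [Fintype ι] (θ : ι → ι → ℤ) (ℓ : QCaseB_L ι) (p : ℕ) : ℝ :=
  if p = 2 then 0 else (1 / 2) ^ (Fintype.card ι - 2) * ∏ j ∈ ℓ.1.2, (jacobiSym (θ ℓ.1.1 j) p : ℝ)

theorem QCaseB_abs_jac (a : ℤ) (p : ℕ) : |(jacobiSym a p : ℝ)| ≤ 1 := by
  rcases jacobiSym.trichotomy a p with h | h | h <;> rw [h] <;> simp

theorem QCaseB_even_sum {ι : Type} (A : Finset ι) (x : ι → ℝ) :
    ∑ S ∈ A.powerset.filter (fun S => Even S.card), ∏ j ∈ S, x j =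
      (∏ j ∈ A, (1 + x j) + ∏ j ∈ A, (1 - x j)) / 2 := by
  classical
  have h1 : ∏ j ∈ A, (1 - x j) = ∑ S ∈ A.powerset, (-1) ^ S.card * ∏ j ∈ S, x j := by
    have : ∏ j ∈ A, (1 - x j) = ∏ j ∈ A, (1 + (-x j)) := by
      apply prod_congr rfl
      intro j _
      ring
    rw [this, prod_one_add]
    apply sum_congr rfl
    intro S _
    have h2 : ∏ j ∈ S, (-x j) = ∏ j ∈ S, ((-1) * x j) := by
      apply prod_congr rfl
      intro j _
      ring
    rw [h2, prod_mul_distrib, prod_const]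
  rw [h1, prod_one_add, ← sum_add_distrib, sum_div, sum_filter]
  apply sum_congr rfl
  intro S _
  by_cases h : Even S.card
  · rw [if_pos h, h.neg_one_pow]
    ring
  · rw [if_neg h, (Nat.not_even_iff_odd.mp h).neg_one_pow]
    ring

theorem QCaseB_sum_label {ι : Type} [Fintype ι] [DecidableEq ι] (i : ι) (F : Finset ι → ℝ) :
    ∑ ℓ : QCaseB_L ι with (QCaseB_s ι).idx ℓ = i, F ℓ.1.2 =
      ∑ S ∈ (univ.erase i).powerset.filter (fun S => Even S.card), F S := by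
  apply sum_bij (fun (ℓ : QCaseB_L ι) _ => ℓ.1.2)
  · intro ℓ hℓ
    rw [mem_filter] at hℓ
    have h1 : ℓ.1.1 = i := hℓ.2
    rw [mem_filter, mem_powerset]
    refine ⟨?_, ℓ.2.2⟩
    intro j hj
    rw [mem_erase]
    refine ⟨?_, mem_univ _⟩
    rintro rfl
    exact ℓ.2.1 (h1 ▸ hj)
  · intro ℓ hℓ ℓ' hℓ' h
    rw [mem_filter] at hℓ hℓ'
    have h1 : ℓ.1.1 = i := hℓ.2
    have h2 : ℓ'.1.1 = i := hℓ'.2
    exact Subtype.ext (Prod.ext (h1.trans h2.symm) h)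
  · intro S hS
    rw [mem_filter, mem_powerset] at hS
    refine ⟨⟨(i, S), ?_, hS.2⟩, ?_, rfl⟩
    · intro h
      exact (mem_erase.mp (hS.1 h)).1 rfl
    · rw [mem_filter]
      exact ⟨mem_univ _, rfl⟩
  · intro ℓ _
    rfl

theorem QCaseB_T_eq {ι : Type} [Fintype ι] [DecidableEq ι] (θ : ι → ι → ℤ) (e : ι → ℕ) (i : ι)
    (p : ℕ) (hp : p ≠ 2) :
    ∑ ℓ : QCaseB_L ι with (QCaseB_s ι).idx ℓ = i,
      QCaseB_u θ ℓ p * ∏ j ∈ (QCaseB_s ι).St ℓ, (jacobiSym (e j) p : ℝ) =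
    (1 / 2) ^ (Fintype.card ι - 2) * ((∏ j ∈ univ.erase i, (1 + (jacobiSym (θ i j * e j) p : ℝ)) +
      ∏ j ∈ univ.erase i, (1 - (jacobiSym (θ i j * e j) p : ℝ))) / 2) := by
  rw [← QCaseB_even_sum, mul_sum, ← QCaseB_sum_label i
    (fun S => (1 / 2) ^ (Fintype.card ι - 2) * ∏ j ∈ S, (jacobiSym (θ i j * e j) p : ℝ))]
  apply sum_congr rfl
  intro ℓ hℓ
  rw [mem_filter] at hℓ
  have h1 : ℓ.1.1 = i := hℓ.2
  unfold QCaseB_u
  rw [if_neg hp, mul_assoc]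
  congr 1
  have h2 : (QCaseB_s ι).St ℓ = ℓ.1.2 := rfl
  rw [h2, ← prod_mul_distrib]
  apply prod_congr rfl
  intro j _
  rw [h1, jacobiSym.mul_left]
  push_cast
  rfl

theorem QCaseB_T_nonneg {ι : Type} [Fintype ι] [DecidableEq ι] (θ : ι → ι → ℤ) (e : ι → ℕ) (i : ι)
    (p : ℕ) :
    0 ≤ ∑ ℓ : QCaseB_L ι with (QCaseB_s ι).idx ℓ = i,
      QCaseB_u θ ℓ p * ∏ j ∈ (QCaseB_s ι).St ℓ, (jacobiSym (e j) p : ℝ) := by
  by_cases hp : p = 2
  · apply le_of_eq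
    symm
    apply sum_eq_zero
    intro ℓ _
    unfold QCaseB_u
    rw [if_pos hp, zero_mul]
  · rw [QCaseB_T_eq θ e i p hp]
    have h1 : ∀ j, |(jacobiSym (θ i j * e j) p : ℝ)| ≤ 1 := fun j => QCaseB_abs_jac _ _
    have h2 : 0 ≤ ∏ j ∈ univ.erase i, (1 + (jacobiSym (θ i j * e j) p : ℝ)) :=
      prod_nonneg fun j _ => by linarith [(abs_le.mp (h1 j)).1]
    have h3 : 0 ≤ ∏ j ∈ univ.erase i, (1 - (jacobiSym (θ i j * e j) p : ℝ)) :=
      prod_nonneg fun j _ => by linarith [(abs_le.mp (h1 j)).2]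
    positivity

theorem QCaseB_T_eq_one {ι : Type} [Fintype ι] [DecidableEq ι] (θ : ι → ι → ℤ)
    (hcard : 5 ≤ Fintype.card ι) (e : ι → ℕ) (hloc : Loc θ e) (i : ι)
    (p : ℕ) (hpp : p.Prime) (hp : p ≠ 2) (hdvd : p ∣ e i) :
    ∑ ℓ : QCaseB_L ι with (QCaseB_s ι).idx ℓ = i,
      QCaseB_u θ ℓ p * ∏ j ∈ (QCaseB_s ι).St ℓ, (jacobiSym (e j) p : ℝ) = 1 := by
  rw [QCaseB_T_eq θ e i p hp]
  have hl := hloc i p hpp hdvd
  set x : ι → ℝ := fun j => (jacobiSym (θ i j * e j) p : ℝ) with hx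
  have hxx : ∀ j, j ≠ i → ∀ k, k ≠ i → x j * x k = 1 := by
    intro j hj k hk
    have := hl j hj k hk
    rw [jacobiSym.mul_left] at this
    simp only [hx]
    exact_mod_cast this
  have hne : (univ.erase i).Nonempty := by
    rw [← card_pos, card_erase_of_mem (mem_univ i), card_univ]
    omega
  obtain ⟨k, hk⟩ := hne
  have hki : k ≠ i := (mem_erase.mp hk).1
  have hcard' : (univ.erase i).card = Fintype.card ι - 1 := by
    rw [card_erase_of_mem (mem_univ i), card_univ]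
  have hk1 : x k = 1 ∨ x k = -1 := by
    have h1 := hxx k hki k hki
    rcases jacobiSym.trichotomy (θ i k * e k) p with h | h | h
    · exfalso
      simp only [hx, h] at h1
      norm_num at h1
    · left; simp only [hx, h]; norm_num
    · right; simp only [hx, h]; norm_num
  have hall : ∀ j ∈ univ.erase i, x j = x k := by
    intro j hj
    have h1 := hxx j (mem_erase.mp hj).1 k hki
    rcases hk1 with h | h
    · rw [h] at h1 ⊢
      linarith
    · rw [h] at h1 ⊢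
      linarith
  have e1 : ∏ j ∈ univ.erase i, (1 + x j) = (1 + x k) ^ (Fintype.card ι - 1) := by
    rw [prod_congr rfl (g := fun _ => 1 + x k) (fun j hj => by rw [hall j hj]), prod_const, hcard']
  have e2 : ∏ j ∈ univ.erase i, (1 - x j) = (1 - x k) ^ (Fintype.card ι - 1) := by
    rw [prod_congr rfl (g := fun _ => 1 - x k) (fun j hj => by rw [hall j hj]), prod_const, hcard']
  change (1 / 2) ^ (Fintype.card ι - 2) * ((∏ j ∈ univ.erase i, (1 + x j) +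
      ∏ j ∈ univ.erase i, (1 - x j)) / 2) = 1
  rw [e1, e2]
  obtain ⟨m, hm⟩ : ∃ m, Fintype.card ι = m + 2 := ⟨Fintype.card ι - 2, by omega⟩
  have hm1 : Fintype.card ι - 1 = m + 1 := by omega
  have hm2 : Fintype.card ι - 2 = m := by omega
  rw [hm1, hm2]
  have h2m : ((1 : ℝ) / 2) ^ m * 2 ^ (m + 1) = 2 := by
    rw [pow_succ, ← mul_assoc, ← mul_pow]
    norm_num
  rcases hk1 with h | h
  · rw [h]
    have : (1 - 1 : ℝ) ^ (m + 1) = 0 := by simp
    rw [this, show (1 + 1 : ℝ) = 2 by norm_num]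
    linarith
  · rw [h]
    have : (1 + -1 : ℝ) ^ (m + 1) = 0 := by simp
    rw [this, show (1 - -1 : ℝ) = 2 by norm_num]
    linarith

theorem QCaseB_card_bd : ∀ n : ℕ, 5 ≤ n → (n : ℝ) * (1 / 2) ^ (n - 2) ≤ 3 / 4 := by
  intro n hn
  obtain ⟨m, rfl⟩ : ∃ m, n = m + 5 := ⟨n - 5, by omega⟩
  have h : (4 * (m + 5) : ℝ) ≤ 3 * 2 ^ (m + 3) := by
    clear hn
    induction m with
    | zero => norm_num
    | succ k ih =>
      push_cast at ih ⊢
      have : (2 : ℝ) ^ (k + 1 + 3) = 2 * 2 ^ (k + 3) := by ring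
      rw [this]
      have hk : (0 : ℝ) ≤ k := Nat.cast_nonneg k
      linarith
  have e : m + 5 - 2 = m + 3 := by omega
  rw [e, div_pow, one_pow]
  push_cast
  rw [mul_one_div, div_le_div_iff₀ (by positivity) (by norm_num)]
  linarith

open Classical in
theorem case_all {ι : Type} [Fintype ι] [DecidableEq ι] (θ : ι → ι → ℤ) (hcard : 5 ≤ Fintype.card ι) :
    ∃ (C : ℝ) (K : ℕ), 0 < C ∧ ∀ (N : ℕ) (V τ : ℝ), 16 ≤ N → 1 ≤ V → V ^ K ≤ τ → τ ^ K ≤ N →
    (((Box ι N).filter fun e => Odd (∏ i, e i) ∧ (∀ i, τ < e i) ∧ Loc θ e).card : ℝ) ≤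
      C * N * ((1 + Real.log N) ^ K * V ^ (-(1 / 16) : ℝ) +
        Real.log N ^ (-(1 / 4) : ℝ) * (1 + Real.log τ) ^ K) := by
  obtain ⟨C, K, hC, hE⟩ := engine (QCaseB_s ι)
  refine ⟨C, K + 1, hC, ?_⟩
  intro N V τ hN hV hVτ hτN
  have hVK : V ^ K ≤ τ := (pow_le_pow_right₀ hV (Nat.le_succ K)).trans hVτ
  have hV1 : V ≤ τ := by
    calc V = V ^ 1 := (pow_one V).symm
      _ ≤ V ^ (K + 1) := pow_le_pow_right₀ hV (by omega)
      _ ≤ τ := hVτ
  have hτ1 : 1 ≤ τ := hV.trans hV1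
  have hτN' : τ ≤ N := by
    calc τ = τ ^ 1 := (pow_one τ).symm
      _ ≤ τ ^ (K + 1) := pow_le_pow_right₀ hτ1 (by omega)
      _ ≤ N := hτN
  have hjac : ∀ (S : Finset ι) (i : ι) (p : ℕ), |∏ j ∈ S, (jacobiSym (θ i j) p : ℝ)| ≤ 1 := by
    intro S i p
    rw [abs_prod]
    exact prod_le_one (fun j _ => abs_nonneg _) (fun j _ => QCaseB_abs_jac _ _)
  have hu : ∀ (ℓ : QCaseB_L ι) (p : ℕ), |QCaseB_u θ ℓ p| ≤ (1 / 2) ^ (Fintype.card ι - 2) := by
    intro ℓ p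
    unfold QCaseB_u
    split_ifs
    · rw [abs_zero]; positivity
    · rw [abs_mul, abs_of_pos (by positivity)]
      exact mul_le_of_le_one_right (by positivity) (hjac _ _ _)
  have hmain := hE (QCaseB_u θ) (fun _ _ => (1 / 2) ^ (Fintype.card ι - 2))
    (fun n => if n = 1 then 1 else 0) 1 V τ N charB_one
    (fun ℓ p => (hu ℓ p).trans (pow_le_one₀ (by norm_num) (by norm_num)))
    (fun ℓ => by unfold QCaseB_u; rw [if_pos rfl])
    (fun ℓ p _ => hu ℓ p)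
    (fun i p => by positivity)
    (fun p hp => by
      have h1 : (QCaseB_s ι).I = univ := rfl
      rw [h1, sum_const, card_univ, nsmul_eq_mul, if_neg hp.one_lt.ne']
      have := QCaseB_card_bd _ hcard
      linarith)
    hV hVK (hVK.trans hτN') hN
  have hnn : ∀ e : ι → ℕ, 0 ≤ ∏ i, ∏ p ∈ (e i).primeFactors,
      ∑ ℓ : QCaseB_L ι with (QCaseB_s ι).idx ℓ = i,
        QCaseB_u θ ℓ p * ∏ j ∈ (QCaseB_s ι).St ℓ, (jacobiSym (e j) p : ℝ) := by
    intro e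
    apply prod_nonneg
    intro i _
    apply prod_nonneg
    intro p _
    exact QCaseB_T_nonneg θ e i p
  have hone : ∀ e : ι → ℕ, Odd (∏ i, e i) → Loc θ e → ∏ i, ∏ p ∈ (e i).primeFactors,
      ∑ ℓ : QCaseB_L ι with (QCaseB_s ι).idx ℓ = i,
        QCaseB_u θ ℓ p * ∏ j ∈ (QCaseB_s ι).St ℓ, (jacobiSym (e j) p : ℝ) = 1 := by
    intro e hodd hloc
    apply prod_eq_one
    intro i _
    apply prod_eq_one
    intro p hp
    have hpp := Nat.prime_of_mem_primeFactors hp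
    have hdvd := Nat.dvd_of_mem_primeFactors hp
    apply QCaseB_T_eq_one θ hcard e hloc i p hpp _ hdvd
    rintro rfl
    have h2 : 2 ∣ ∏ i, e i := hdvd.trans (dvd_prod_of_mem e (mem_univ i))
    exact (Nat.not_even_iff_odd.mpr hodd) (even_iff_two_dvd.mpr h2)
  refine le_trans ?_ ((le_abs_self _).trans (hmain.trans ?_))
  · calc (((Box ι N).filter fun e => Odd (∏ i, e i) ∧ (∀ i, τ < e i) ∧ Loc θ e).card : ℝ)
        = ∑ e ∈ (Box ι N).filter (fun e => Odd (∏ i, e i) ∧ (∀ i, τ < e i) ∧ Loc θ e), (1 : ℝ) := by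
          rw [sum_const, nsmul_eq_mul, mul_one]
      _ = ∑ e ∈ (Box ι N).filter (fun e => Odd (∏ i, e i) ∧ (∀ i, τ < e i) ∧ Loc θ e),
          ∏ i, ∏ p ∈ (e i).primeFactors,
          ∑ ℓ : QCaseB_L ι with (QCaseB_s ι).idx ℓ = i,
            QCaseB_u θ ℓ p * ∏ j ∈ (QCaseB_s ι).St ℓ, (jacobiSym (e j) p : ℝ) := by
          apply sum_congr rfl
          intro e he
          rw [mem_filter] at he
          exact (hone e he.2.1 he.2.2.2).symm
      _ ≤ _ := by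
          apply sum_le_sum_of_subset_of_nonneg
          · intro e he
            rw [mem_filter] at he ⊢
            exact ⟨he.1, fun i _ => he.2.2.1 i⟩
          · intro e _ _
            exact hnn e
  · have hlogN : 0 ≤ Real.log N := Real.log_natCast_nonneg N
    have hlogV : 0 ≤ Real.log V := Real.log_nonneg hV
    have hlogVτ : Real.log V ≤ Real.log τ := Real.log_le_log (by linarith) hV1
    rw [Real.one_rpow, mul_one]
    apply mul_le_mul_of_nonneg_left _ (by positivity)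
    apply add_le_add
    · apply mul_le_mul_of_nonneg_right _ (by positivity)
      exact pow_le_pow_right₀ (by linarith) (Nat.le_succ K)
    · apply mul_le_mul_of_nonneg_left _ (by positivity)
      calc (1 + Real.log V) ^ K ≤ (1 + Real.log τ) ^ K := by gcongr
        _ ≤ (1 + Real.log τ) ^ (K + 1) := pow_le_pow_right₀ (by linarith) (Nat.le_succ K)

end QT
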