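import Pool.Agent.Lib.MP_10e784_ag.QJac

/-! JOB QCharSum.  Partial sums of the quadratic character are bounded by the period `q = 4|b|`.

Proof.  `chi b` is periodic with period `q = 4 * b.natAbs` (`jacobiSym.mod_right`; `q` is even).
Take `n0` from `exists_jacobi_neg_one`; `n0` is odd and coprime to `b` (otherwise the symbol is `0`),
hence coprime to `q`, and `chi b (n0 * n) = chi b n0 * chi b n = - chi b n`.  Multiplication by `n0` permutes the
residues mod `q`, so the sum `s` over a full period satisfies `s = -s`, i.e. `s = 0`.  Therefore the sum over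
`range x` equals the sum over `range (x % q)` (up to periodicity), which has at most `q` terms of size `≤ 1`. -/

namespace QT

open Finset

theorem chi_mul (b : ℤ) (m n : ℕ) : chi b (m * n) = chi b m * chi b n := by
  unfold chi
  by_cases hm : Odd m
  · by_cases hn : Odd n
    · have hmn : Odd (m * n) := hm.mul hn
      rw [if_pos hmn, if_pos hm, if_pos hn]
      have hm0 : m ≠ 0 := by rintro rfl; simp at hm
      have hn0 : n ≠ 0 := by rintro rfl; simp at hn
      rw [jacobiSym.mul_right' b hm0 hn0]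
      push_cast
      ring
    · have hmn : ¬ Odd (m * n) := fun h => hn (Nat.odd_mul.mp h).2
      rw [if_neg hmn, if_neg hn, mul_zero]
  · have hmn : ¬ Odd (m * n) := fun h => hm (Nat.odd_mul.mp h).1
    rw [if_neg hmn, if_neg hm, zero_mul]

theorem abs_chi_le (b : ℤ) (n : ℕ) : |chi b n| ≤ 1 := by
  unfold chi
  split_ifs
  · rcases jacobiSym.trichotomy b n with h | h | h <;> rw [h] <;> simp
  · simp

private theorem QCharSum_periodic (b : ℤ) (n : ℕ) :
    chi b (4 * b.natAbs + n) = chi b n := by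
  unfold chi
  have hodd : Odd (4 * b.natAbs + n) ↔ Odd n := by
    rw [Nat.odd_iff, Nat.odd_iff]
    omega
  by_cases hn : Odd n
  · rw [if_pos (hodd.mpr hn), if_pos hn]
    rw [jacobiSym.mod_right b (hodd.mpr hn), jacobiSym.mod_right b hn]
    congr 2
    exact Nat.add_mod_left _ _
  · rw [if_neg (fun h => hn (hodd.mp h)), if_neg hn]

private theorem QCharSum_mul_periodic (b : ℤ) (k n : ℕ) :
    chi b (4 * b.natAbs * k + n) = chi b n := by
  induction k with
  | zero => simp
  | succ k ih =>
    have : 4 * b.natAbs * (k + 1) + n = 4 * b.natAbs + (4 * b.natAbs * k + n) := by ring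
    rw [this, QCharSum_periodic, ih]

private theorem QCharSum_mod (b : ℤ) (n : ℕ) :
    chi b (n % (4 * b.natAbs)) = chi b n := by
  conv_rhs => rw [← Nat.div_add_mod n (4 * b.natAbs)]
  rw [QCharSum_mul_periodic]

private theorem QCharSum_full (b : ℤ) (hb : ¬ IsSquare b) :
    ∑ n ∈ range (4 * b.natAbs), chi b n = 0 := by
  have hb0 : b ≠ 0 := by
    rintro rfl
    exact hb ⟨0, by simp⟩
  have hq : 0 < 4 * b.natAbs := by
    have := Int.natAbs_pos.mpr hb0
    omega
  obtain ⟨n0, hn0, hJ⟩ := exists_jacobi_neg_one b hb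
  have hn00 : n0 ≠ 0 := by rintro rfl; simp at hn0
  have hcop1 : Nat.gcd b.natAbs n0 = 1 := by
    by_contra hne
    have : jacobiSym b n0 = 0 := jacobiSym.eq_zero_iff.mpr ⟨hn00, by
      rw [Int.gcd]
      simpa using hne⟩
    rw [hJ] at this
    norm_num at this
  have hcop : Nat.Coprime n0 (4 * b.natAbs) := by
    apply Nat.Coprime.mul_right
    · have : Nat.Coprime n0 (2 ^ 2) := Nat.Coprime.pow_right 2 (Nat.coprime_two_right.mpr hn0)
      simpa using this
    · exact (Nat.coprime_comm.mp hcop1)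
  have hchi0 : chi b n0 = -1 := by
    unfold chi
    rw [if_pos hn0, hJ]
    norm_num
  have hmaps : ∀ n ∈ range (4 * b.natAbs), (n0 * n) % (4 * b.natAbs) ∈ range (4 * b.natAbs) := by
    intro n _
    exact Finset.mem_range.mpr (Nat.mod_lt _ hq)
  have hinj : Set.InjOn (fun n => (n0 * n) % (4 * b.natAbs)) (range (4 * b.natAbs) : Finset ℕ) := by
    intro m hm n hn hmn
    simp only [Finset.coe_range, Set.mem_Iio] at hm hn
    have h1 : n0 * m ≡ n0 * n [MOD (4 * b.natAbs)] := hmn
    have h2 : m ≡ n [MOD (4 * b.natAbs)] :=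
      Nat.ModEq.cancel_left_of_coprime (Nat.coprime_comm.mp hcop) h1
    exact Nat.ModEq.eq_of_lt_of_lt h2 hm hn
  have hsurj : Set.SurjOn (fun n => (n0 * n) % (4 * b.natAbs)) (range (4 * b.natAbs) : Finset ℕ)
      (range (4 * b.natAbs) : Finset ℕ) :=
    Finset.surjOn_of_injOn_of_card_le _ hmaps hinj le_rfl
  have key : ∑ n ∈ range (4 * b.natAbs), chi b ((n0 * n) % (4 * b.natAbs))
      = ∑ n ∈ range (4 * b.natAbs), chi b n :=
    Finset.sum_nbij (fun n => (n0 * n) % (4 * b.natAbs)) hmaps hinj hsurj (fun _ _ => rfl)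
  have key2 : ∑ n ∈ range (4 * b.natAbs), chi b ((n0 * n) % (4 * b.natAbs))
      = - ∑ n ∈ range (4 * b.natAbs), chi b n := by
    rw [← Finset.sum_neg_distrib]
    refine Finset.sum_congr rfl fun n _ => ?_
    rw [QCharSum_mod, chi_mul, hchi0]
    ring
  linarith [key, key2]

private theorem QCharSum_split (b : ℤ) (hb : ¬ IsSquare b) (k r : ℕ) :
    ∑ n ∈ range (4 * b.natAbs * k + r), chi b n = ∑ n ∈ range r, chi b n := by
  induction k with
  | zero => simp
  | succ k ih =>
    have : 4 * b.natAbs * (k + 1) + r = 4 * b.natAbs + (4 * b.natAbs * k + r) := by ring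
    rw [this, Finset.sum_range_add, QCharSum_full b hb, zero_add]
    rw [← ih]
    exact Finset.sum_congr rfl fun n _ => QCharSum_periodic b n

theorem abs_sum_chi_le (b : ℤ) (hb : ¬ IsSquare b) (x : ℕ) :
    |∑ n ∈ range x, chi b n| ≤ 4 * b.natAbs := by
  have hb0 : b ≠ 0 := by
    rintro rfl
    exact hb ⟨0, by simp⟩
  have hq : 0 < 4 * b.natAbs := by
    have := Int.natAbs_pos.mpr hb0
    omega
  have h1 : ∑ n ∈ range x, chi b n = ∑ n ∈ range (x % (4 * b.natAbs)), chi b n := by
    conv_lhs => rw [← Nat.div_add_mod x (4 * b.natAbs)]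
    exact QCharSum_split b hb _ _
  rw [h1]
  refine (Finset.abs_sum_le_sum_abs _ _).trans ?_
  refine (Finset.sum_le_sum fun n _ => abs_chi_le b n).trans ?_
  rw [Finset.sum_const, Finset.card_range, nsmul_eq_mul, mul_one]
  have h2 : x % (4 * b.natAbs) ≤ 4 * b.natAbs := (Nat.mod_lt _ hq).le
  exact_mod_cast h2

end QT
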