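import Pool.Agent.Lib.MP_10e784_ag.QSplitAP

/-! JOB QConsec.  The explicit totally split families.

(a) `D y² = x(x-1)(x-2)...(x-2g)`, `g ≥ 4`: use `split_ap` with `ι = Option (Fin (2g+1))`, forms `x - j y` for `some j` (`α = 1, β = -j`), and `y` for `none`
(`α = 0`, `β = 1`); a solution `(x,y)` of the affine equation, `y ≠ 0`, gives the point `(x, 1, w = y)`.
`dl (some i) (some j) = α_j β_i - α_i β_j = j - i`; `dl (some i) none = -1` (`0·β_i - 1·1`); `dl none (some j) = 1·1 - 0 = 1`.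
`hG`: for `i < i'` finite: if `i' ≥ i + 2`: `j = none`, `k = i+1`: `(-1)(k-i)(-1)(k-i') = (1)(i+1-i') < 0`.  If `i' = i+1`: `j = none` and `k = i+2` or `k = i-1`:
product `2·1` or `(-1)(-2)`, i.e. `2`, not a square.  For `none, i`: `j = i+1, k = i-1` gives `1·1·(1)(-1) < 0` if `0 < i < 2g`; for `i = 0`: `j=1,k=2`:
`1·1·1·2 = 2`; for `i = 2g`: `2g-1, 2g-2`: `2`.
`hAP`: `none`: `0,1,2,3` (`α/dl = 1`, `β/dl = -j`).  `some i`, `2 ≤ i ≤ 2g-2`: `v_j = (x - j y)/(j - i)`; in the order `i+2, none, i-2` would be three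
terms; take `j0 = i-2`, `j1 = none`, `j2 = i+2`, `j3 = i+1`: `α/dl = -1/2, 0, 1/2, 1`; `β/dl`: `(i-2)/2, -1, -(i+2)/2, -(i+1)`, differences `-1 - (i-2)/2 = -i/2`,
`-(i+2)/2 + 1 = -i/2`, `-(i+1)+(i+2)/2 = -i/2`. ok.
`i ≤ 1` (`i+6 ≤ 2g`): `j0 = none, j1 = i+6, j2 = i+3, j3 = i+2`: `α/dl = 0, 1/6, 1/3, 1/2`; `β/dl = -1, -(i+6)/6, -(i+3)/3, -(i+2)/2`, all differences `-i/6`. ok
`i ≥ 2g-1`: `j0 = none, j1 = i-6, j2 = i-3, j3 = i-2`: `α/dl = 0,-1/6,-1/3,-1/2`, `β/dl = -1, (i-6)/6, (i-3)/3, (i-2)/2`, differences `i/6`. ok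
(b) `g = 2`: `D y² = x(x²-1)(x²-9)`: forms `x, x-y, x+y, x-3y, x+3y, y` (`ι = Fin 6`); `hG`, `hAP` by `decide`/`norm_num` on explicit indices.  AP quadruples, writing
the branch points as `∞,0,1,-1,3,-3`: for `∞`: `-3,-1,1,3`; for `0`: `1/b` must be in AP: `1, 3, -3, -1` gives `1, 1/3, -1/3, -1`;
for `1`: `1/(b-1)`: `∞ → 0`, `0 → -1`, `-1 → -1/2`, `3 → 1/2`, `-3 → -1/4`: AP `-1 (0), -1/2 (-1), 0 (∞), 1/2 (3)`;
for `-1`: mirrored: `0, 1, ∞, -3`; for `3`: `1/(b-3)`: `∞ → 0`, `0 → -1/3`, `1 → -1/2`, `-1 → -1/4`, `-3 → -1/6`: AP `0 (∞), -1/6 (-3), -1/3 (0), -1/2 (1)`; for `-3` mirrored: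
`∞, 3, 0, -1`.
(c) `g = 3`: `D y² = x(x²-1)(x²-4)(x²-16)`, branch points `∞,0,±1,±2,±4`.  For `∞`: need AP of length 4 in `{0,±1,±2,±4}`: `-2,-1,0,1`.  For `0`: `1/b ∈ {0,±1,±1/2,±1/4}`:
`-1/2 (-2), 0 (∞), 1/2 (2), 1 (1)`.  For `1`: `1/(b-1)`: `∞→0, 0→-1, -1→-1/2, 2→1, -2→-1/3, 4→1/3, -4→-1/5`: AP: `-1 (0), -1/3 (-2), 1/3 (4), 1 (2)`.  For `-1`: mirrored
`0, 2, -4, -2`.  For `2`: `1/(b-2)`: `∞→0, 0→-1/2, 1→-1, -1→-1/3, -2→-1/4, 4→1/2, -4→-1/6`: AP `-1 (1), -1/2 (0), 0 (∞), 1/2 (4)`.  For `-2`: mirrored `-1, 0, ∞, -4`.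
For `4`: `1/(b-4)`: `∞→0, 0→-1/4, 1→-1/3, -1→-1/5, 2→-1/2, -2→-1/6, -4→-1/8`: AP `0 (∞), -1/6 (-2), -1/3 (1), -1/2 (2)`.  For `-4`: mirrored `∞, 2, -1, -2`.
`hG` for (b), (c): `decide` with a helper for non-squares (`2`, negative numbers, ...). -/

namespace QT

open Finset

private theorem qConsec_mono {P Q : ℤ → Prop} (h : ∀ D, P D → Q D) (hQ : AlmostNone Q) :
    AlmostNone P := by
  intro η hη0 hη
  obtain ⟨C, hC, hb⟩ := hQ η hη0 hη
  refine ⟨C, hC, fun N hN => le_trans (Nat.cast_le.2 ?_) (hb N hN)⟩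
  unfold cnt
  have hfin : Set.Finite {D : ℤ | Squarefree D ∧ |D| ≤ (N : ℤ) ∧ Q D} := by
    apply Set.Finite.subset (Set.finite_Icc (-(N : ℤ)) N)
    rintro D ⟨-, hDN, -⟩
    exact abs_le.1 hDN
  exact Set.ncard_le_ncard (s := {D : ℤ | Squarefree D ∧ |D| ≤ (N : ℤ) ∧ P D})
    (t := {D : ℤ | Squarefree D ∧ |D| ≤ (N : ℤ) ∧ Q D})
    (fun D hD => ⟨hD.1, hD.2.1, h D hD.2.2⟩) hfin

private theorem qConsec_neg {n : ℤ} (h : n < 0) : ¬ IsSquare n := by
  rintro ⟨t, ht⟩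
  have := mul_self_nonneg t
  omega

private theorem qConsec_two : ¬ IsSquare (2 : ℤ) := by norm_num

/-! ### the family of consecutive integers -/

private def qA (n : ℕ) : Option (Fin n) → ℤ := fun o => o.elim 0 (fun _ => 1)

private def qB (n : ℕ) : Option (Fin n) → ℤ := fun o => o.elim 1 (fun j => -((j : ℕ) : ℤ))

private theorem q_ss {n : ℕ} (i j : Fin n) :
    dl (qA n) (qB n) (some i) (some j) = ((j : ℕ) : ℤ) - ((i : ℕ) : ℤ) := by
  simp only [dl, qA, qB, Option.elim]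
  ring

private theorem q_sn {n : ℕ} (i : Fin n) : dl (qA n) (qB n) (some i) none = -1 := by
  simp only [dl, qA, qB, Option.elim]
  ring

private theorem q_ns {n : ℕ} (j : Fin n) : dl (qA n) (qB n) none (some j) = 1 := by
  simp only [dl, qA, qB, Option.elim]
  ring

private theorem q_val {n : ℕ} (a b : ℕ) (ha : a < n) (hb : b < n) (d : ℤ)
    (h : (b : ℤ) - a = d) : dl (qA n) (qB n) (some ⟨a, ha⟩) (some ⟨b, hb⟩) = d := by
  rw [q_ss]
  exact h

private theorem qG_lt (g : ℕ) (hg : 4 ≤ g) (a b : ℕ) (ha : a < 2 * g + 1) (hb : b < 2 * g + 1)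
    (hab : a < b) : ∃ j k, j ≠ some (⟨a, ha⟩ : Fin (2 * g + 1)) ∧ j ≠ some ⟨b, hb⟩ ∧
      k ≠ some ⟨a, ha⟩ ∧ k ≠ some ⟨b, hb⟩ ∧
      ¬ IsSquare (dl (qA (2 * g + 1)) (qB (2 * g + 1)) (some ⟨a, ha⟩) j *
        dl (qA (2 * g + 1)) (qB (2 * g + 1)) (some ⟨a, ha⟩) k *
        (dl (qA (2 * g + 1)) (qB (2 * g + 1)) (some ⟨b, hb⟩) j *
        dl (qA (2 * g + 1)) (qB (2 * g + 1)) (some ⟨b, hb⟩) k)) := by
  have hne : ∀ (c : ℕ) (hc : c < 2 * g + 1) (e : ℕ) (he : e < 2 * g + 1), c ≠ e →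
      (some (⟨c, hc⟩ : Fin (2 * g + 1)) : Option (Fin (2 * g + 1))) ≠ some ⟨e, he⟩ := by
    intro c hc e he hce h
    apply hce
    have := Option.some.inj h
    exact Fin.mk.inj_iff.1 this
  by_cases h2 : a + 2 ≤ b
  · refine ⟨none, some ⟨a + 1, by omega⟩, by simp, by simp, hne _ _ _ _ (by omega),
      hne _ _ _ _ (by omega), ?_⟩
    rw [q_sn, q_sn, q_val a (a + 1) _ _ 1 (by push_cast; ring),
      q_val b (a + 1) _ _ ((a : ℤ) + 1 - b) (by push_cast; ring)]
    apply qConsec_neg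
    have h3 : (a : ℤ) + 2 ≤ b := by exact_mod_cast h2
    linarith
  · have hb1 : b = a + 1 := by omega
    subst hb1
    by_cases h3 : a + 2 < 2 * g + 1
    · refine ⟨none, some ⟨a + 2, h3⟩, by simp, by simp, hne _ _ _ _ (by omega),
        hne _ _ _ _ (by omega), ?_⟩
      rw [q_sn, q_sn, q_val a (a + 2) _ _ 2 (by push_cast; ring),
        q_val (a + 1) (a + 2) _ _ 1 (by push_cast; ring)]
      norm_num
    · obtain ⟨c, rfl⟩ : ∃ c, a = c + 1 := ⟨a - 1, by omega⟩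
      refine ⟨none, some ⟨c, by omega⟩, by simp, by simp, hne _ _ _ _ (by omega),
        hne _ _ _ _ (by omega), ?_⟩
      rw [q_sn, q_sn, q_val (c + 1) c _ _ (-1) (by push_cast; ring),
        q_val (c + 1 + 1) c _ _ (-2) (by push_cast; ring)]
      norm_num

private theorem qG_none (g : ℕ) (hg : 4 ≤ g) (b : ℕ) (hb : b < 2 * g + 1) :
    ∃ j k, j ≠ (none : Option (Fin (2 * g + 1))) ∧ j ≠ some ⟨b, hb⟩ ∧
      k ≠ none ∧ k ≠ some ⟨b, hb⟩ ∧
      ¬ IsSquare (dl (qA (2 * g + 1)) (qB (2 * g + 1)) none j *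
        dl (qA (2 * g + 1)) (qB (2 * g + 1)) none k *
        (dl (qA (2 * g + 1)) (qB (2 * g + 1)) (some ⟨b, hb⟩) j *
        dl (qA (2 * g + 1)) (qB (2 * g + 1)) (some ⟨b, hb⟩) k)) := by
  have hne : ∀ (c : ℕ) (hc : c < 2 * g + 1) (e : ℕ) (he : e < 2 * g + 1), c ≠ e →
      (some (⟨c, hc⟩ : Fin (2 * g + 1)) : Option (Fin (2 * g + 1))) ≠ some ⟨e, he⟩ := by
    intro c hc e he hce h
    apply hce
    have := Option.some.inj h
    exact Fin.mk.inj_iff.1 this
  by_cases h0 : b = 0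
  · subst h0
    refine ⟨some ⟨1, by omega⟩, some ⟨2, by omega⟩, by simp, hne _ _ _ _ (by omega), by simp,
      hne _ _ _ _ (by omega), ?_⟩
    rw [q_ns, q_ns, q_val 0 1 _ _ 1 (by norm_num), q_val 0 2 _ _ 2 (by norm_num)]
    norm_num
  · obtain ⟨c, rfl⟩ : ∃ c, b = c + 1 := ⟨b - 1, by omega⟩
    by_cases h3 : c + 2 < 2 * g + 1
    · refine ⟨some ⟨c + 2, h3⟩, some ⟨c, by omega⟩, by simp, hne _ _ _ _ (by omega), by simp,
        hne _ _ _ _ (by omega), ?_⟩
      rw [q_ns, q_ns, q_val (c + 1) (c + 2) _ _ 1 (by push_cast; ring),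
        q_val (c + 1) c _ _ (-1) (by push_cast; ring)]
      norm_num
    · obtain ⟨e, rfl⟩ : ∃ e, c = e + 1 := ⟨c - 1, by omega⟩
      refine ⟨some ⟨e + 1, by omega⟩, some ⟨e, by omega⟩, by simp, hne _ _ _ _ (by omega), by simp,
        hne _ _ _ _ (by omega), ?_⟩
      rw [q_ns, q_ns, q_val (e + 1 + 1) (e + 1) _ _ (-1) (by push_cast; ring),
        q_val (e + 1 + 1) e _ _ (-2) (by push_cast; ring)]
      norm_num

private theorem qG_swap {ι : Type} (α β : ι → ℤ) (i i' : ι)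
    (h : ∃ j k, j ≠ i ∧ j ≠ i' ∧ k ≠ i ∧ k ≠ i' ∧
      ¬ IsSquare (dl α β i j * dl α β i k * (dl α β i' j * dl α β i' k))) :
    ∃ j k, j ≠ i' ∧ j ≠ i ∧ k ≠ i' ∧ k ≠ i ∧
      ¬ IsSquare (dl α β i' j * dl α β i' k * (dl α β i j * dl α β i k)) := by
  obtain ⟨j, k, h1, h2, h3, h4, h5⟩ := h
  refine ⟨j, k, h2, h1, h4, h3, ?_⟩
  rwa [mul_comm]

theorem consec (g : ℕ) (hg : 4 ≤ g) :
    AlmostNone fun D => ∃ x y : ℚ, y ≠ 0 ∧ (D : ℚ) * y ^ 2 = ∏ j ∈ range (2 * g + 1), (x - (j : ℚ)) := by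
  have hne : ∀ (c : ℕ) (hc : c < 2 * g + 1) (e : ℕ) (he : e < 2 * g + 1), c ≠ e →
      (some (⟨c, hc⟩ : Fin (2 * g + 1)) : Option (Fin (2 * g + 1))) ≠ some ⟨e, he⟩ := by
    intro c hc e he hce h
    apply hce
    have := Option.some.inj h
    exact Fin.mk.inj_iff.1 this
  have main := split_ap (qA (2 * g + 1)) (qB (2 * g + 1)) ?_ ?_ ?_ ?_ ?_
  · refine qConsec_mono ?_ main
    rintro D ⟨x, y, hy, h⟩
    refine ⟨x, 1, y, hy, ?_⟩
    rw [h, Fintype.prod_option, Finset.prod_range]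
    simp only [qA, qB, Option.elim]
    push_cast
    rw [zero_mul, zero_add, mul_one, one_mul]
    apply Finset.prod_congr rfl
    intro j _
    ring
  · rw [Fintype.card_option, Fintype.card_fin]
    omega
  · rw [Fintype.card_option, Fintype.card_fin]
    exact ⟨g + 1, by ring⟩
  · rintro (_ | i) (_ | j) hij
    · exact absurd rfl hij
    · rw [q_ns]
      norm_num
    · rw [q_sn]
      norm_num
    · rw [q_ss, sub_ne_zero]
      intro h
      apply hij
      have h2 : (j : ℕ) = (i : ℕ) := by exact_mod_cast h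
      rw [Fin.ext h2]
  · rintro (_ | ⟨a, ha⟩) (_ | ⟨b, hb⟩) hij
    · exact absurd rfl hij
    · exact qG_none g hg b hb
    · exact qG_swap _ _ _ _ (qG_none g hg a ha)
    · have hab : a ≠ b := by
        rintro rfl
        exact hij rfl
      rcases lt_or_gt_of_ne hab with h | h
      · exact qG_lt g hg a b ha hb h
      · exact qG_swap _ _ _ _ (qG_lt g hg b a hb ha h)
  · rintro (_ | ⟨a, ha⟩)
    · refine ⟨some ⟨0, by omega⟩, some ⟨1, by omega⟩, some ⟨2, by omega⟩, some ⟨3, by omega⟩,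
        by simp, by simp, by simp, by simp, hne _ _ _ _ (by omega), ?_, ?_, ?_, ?_⟩ <;>
      · simp only [q_ns, qA, qB, Option.elim]
        try norm_num
    · by_cases h1 : a ≤ 1
      · refine ⟨none, some ⟨a + 6, by omega⟩, some ⟨a + 3, by omega⟩, some ⟨a + 2, by omega⟩,
          by simp, hne _ _ _ _ (by omega), hne _ _ _ _ (by omega), hne _ _ _ _ (by omega),
          by simp, ?_, ?_, ?_, ?_⟩ <;>
        · rw [q_val a (a + 3) _ _ 3 (by push_cast; ring)]
          try rw [q_sn]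
          try rw [q_val a (a + 6) _ _ 6 (by push_cast; ring)]
          try rw [q_val a (a + 2) _ _ 2 (by push_cast; ring)]
          simp only [qA, qB, Option.elim]
          push_cast
          ring
      · by_cases h2 : a + 2 < 2 * g + 1
        · obtain ⟨b, rfl⟩ : ∃ b, a = b + 2 := ⟨a - 2, by omega⟩
          refine ⟨some ⟨b, by omega⟩, none, some ⟨b + 4, by omega⟩, some ⟨b + 3, by omega⟩,
            hne _ _ _ _ (by omega), by simp, hne _ _ _ _ (by omega), hne _ _ _ _ (by omega),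
            by simp, ?_, ?_, ?_, ?_⟩ <;>
          · rw [q_val (b + 2) (b + 4) _ _ 2 (by push_cast; ring)]
            try rw [q_sn]
            try rw [q_val (b + 2) b _ _ (-2) (by push_cast; ring)]
            try rw [q_val (b + 2) (b + 3) _ _ 1 (by push_cast; ring)]
            simp only [qA, qB, Option.elim]
            push_cast
            ring
        · obtain ⟨b, rfl⟩ : ∃ b, a = b + 6 := ⟨a - 6, by omega⟩
          refine ⟨none, some ⟨b, by omega⟩, some ⟨b + 3, by omega⟩, some ⟨b + 4, by omega⟩,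
            by simp, hne _ _ _ _ (by omega), hne _ _ _ _ (by omega), hne _ _ _ _ (by omega),
            by simp, ?_, ?_, ?_, ?_⟩ <;>
          · rw [q_val (b + 6) (b + 3) _ _ (-3) (by push_cast; ring)]
            try rw [q_sn]
            try rw [q_val (b + 6) b _ _ (-6) (by push_cast; ring)]
            try rw [q_val (b + 6) (b + 4) _ _ (-2) (by push_cast; ring)]
            simp only [qA, qB, Option.elim]
            push_cast
            ring

/-! ### genus two -/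

private def a2 : Fin 6 → ℤ := ![1, 1, 1, 1, 1, 0]

private def b2 : Fin 6 → ℤ := ![0, -1, 1, -3, 3, 1]

private def J2 : Fin 6 → Fin 6 → Fin 6 := ![![0, 2, 1, 1, 2, 1], ![2, 0, 0, 0, 0, 0],
  ![1, 0, 0, 0, 0, 0], ![1, 0, 0, 0, 1, 0], ![2, 0, 0, 1, 0, 0], ![1, 0, 0, 0, 0, 0]]

private def K2 : Fin 6 → Fin 6 → Fin 6 := ![![0, 5, 5, 5, 5, 2], ![5, 0, 5, 5, 5, 2],
  ![5, 5, 0, 5, 5, 1], ![5, 5, 5, 0, 5, 1], ![5, 5, 5, 5, 0, 2], ![2, 2, 1, 1, 2, 0]]

theorem genus_two :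
    AlmostNone fun D => ∃ x y : ℚ, y ≠ 0 ∧ (D : ℚ) * y ^ 2 = x * (x ^ 2 - 1) * (x ^ 2 - 9) := by
  have main := split_ap a2 b2 (by decide) ⟨3, by decide⟩ (by decide) ?_ ?_
  · refine qConsec_mono ?_ main
    rintro D ⟨x, y, hy, h⟩
    refine ⟨x, 1, y, hy, ?_⟩
    rw [h, Fin.prod_univ_six, show a2 0 = 1 from rfl, show a2 1 = 1 from rfl,
      show a2 2 = 1 from rfl, show a2 3 = 1 from rfl, show a2 4 = 1 from rfl,
      show a2 5 = 0 from rfl, show b2 0 = 0 from rfl, show b2 1 = -1 from rfl,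
      show b2 2 = 1 from rfl, show b2 3 = -3 from rfl, show b2 4 = 3 from rfl,
      show b2 5 = 1 from rfl]
    push_cast
    ring
  · intro i i' hii
    have key : ∀ i i' : Fin 6, i ≠ i' → (J2 i i' ≠ i ∧ J2 i i' ≠ i' ∧ K2 i i' ≠ i ∧ K2 i i' ≠ i') ∧
        (dl a2 b2 i (J2 i i') * dl a2 b2 i (K2 i i') *
          (dl a2 b2 i' (J2 i i') * dl a2 b2 i' (K2 i i')) < 0 ∨
        dl a2 b2 i (J2 i i') * dl a2 b2 i (K2 i i') *
          (dl a2 b2 i' (J2 i i') * dl a2 b2 i' (K2 i i')) = 2 ∨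
        dl a2 b2 i (J2 i i') * dl a2 b2 i (K2 i i') *
          (dl a2 b2 i' (J2 i i') * dl a2 b2 i' (K2 i i')) = 3 ∨
        dl a2 b2 i (J2 i i') * dl a2 b2 i (K2 i i') *
          (dl a2 b2 i' (J2 i i') * dl a2 b2 i' (K2 i i')) = 6) := by decide
    obtain ⟨⟨h1, h2, h3, h4⟩, h5⟩ := key i i' hii
    refine ⟨J2 i i', K2 i i', h1, h2, h3, h4, ?_⟩
    rcases h5 with h5 | h5 | h5 | h5
    · exact qConsec_neg h5
    · rw [h5]; norm_num
    · rw [h5]; norm_num
    · rw [h5]; norm_num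
  · intro i
    fin_cases i
    · exact ⟨1, 3, 4, 2, by decide, by decide, by decide, by decide, by decide,
        by decide +kernel, by decide +kernel, by decide +kernel,
        by decide +kernel⟩
    · exact ⟨0, 2, 5, 3, by decide, by decide, by decide, by decide, by decide,
        by decide +kernel, by decide +kernel, by decide +kernel,
        by decide +kernel⟩
    · exact ⟨0, 1, 5, 4, by decide, by decide, by decide, by decide, by decide,
        by decide +kernel, by decide +kernel, by decide +kernel,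
        by decide +kernel⟩
    · exact ⟨1, 0, 4, 5, by decide, by decide, by decide, by decide, by decide,
        by decide +kernel, by decide +kernel, by decide +kernel,
        by decide +kernel⟩
    · exact ⟨2, 0, 3, 5, by decide, by decide, by decide, by decide, by decide,
        by decide +kernel, by decide +kernel, by decide +kernel,
        by decide +kernel⟩
    · exact ⟨3, 1, 2, 4, by decide, by decide, by decide, by decide, by decide,
        by decide +kernel, by decide +kernel, by decide +kernel,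
        by decide +kernel⟩

/-! ### genus three -/

private def a3 : Fin 8 → ℤ := ![1, 1, 1, 1, 1, 1, 1, 0]

private def b3 : Fin 8 → ℤ := ![0, -1, 1, -2, 2, -4, 4, 1]

private def J3 : Fin 8 → Fin 8 → Fin 8 := ![![0, 2, 1, 1, 2, 1, 2, 1], ![2, 0, 0, 0, 0, 3, 0, 0],
  ![1, 0, 0, 0, 0, 0, 4, 0], ![1, 0, 0, 0, 1, 1, 1, 0], ![2, 0, 0, 1, 0, 2, 2, 0],
  ![1, 3, 0, 1, 2, 0, 3, 1], ![2, 0, 4, 1, 2, 3, 0, 2], ![1, 0, 0, 0, 0, 1, 2, 0]]

private def K3 : Fin 8 → Fin 8 → Fin 8 := ![![0, 7, 7, 7, 7, 7, 7, 2], ![7, 0, 7, 7, 7, 7, 7, 3],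
  ![7, 7, 0, 7, 7, 7, 7, 4], ![7, 7, 7, 0, 7, 7, 7, 1], ![7, 7, 7, 7, 0, 7, 7, 2],
  ![7, 7, 7, 7, 7, 0, 7, 3], ![7, 7, 7, 7, 7, 7, 0, 4], ![2, 3, 4, 1, 2, 3, 4, 0]]

theorem genus_three :
    AlmostNone fun D => ∃ x y : ℚ, y ≠ 0 ∧
      (D : ℚ) * y ^ 2 = x * (x ^ 2 - 1) * (x ^ 2 - 4) * (x ^ 2 - 16) := by
  have main := split_ap a3 b3 (by decide) ⟨4, by decide⟩ (by decide) ?_ ?_
  · refine qConsec_mono ?_ main
    rintro D ⟨x, y, hy, h⟩
    refine ⟨x, 1, y, hy, ?_⟩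
    rw [h, Fin.prod_univ_eight, show a3 0 = 1 from rfl, show a3 1 = 1 from rfl,
      show a3 2 = 1 from rfl, show a3 3 = 1 from rfl, show a3 4 = 1 from rfl,
      show a3 5 = 1 from rfl, show a3 6 = 1 from rfl, show a3 7 = 0 from rfl,
      show b3 0 = 0 from rfl, show b3 1 = -1 from rfl,
      show b3 2 = 1 from rfl, show b3 3 = -2 from rfl, show b3 4 = 2 from rfl,
      show b3 5 = -4 from rfl, show b3 6 = 4 from rfl, show b3 7 = 1 from rfl]
    push_cast
    ring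
  · intro i i' hii
    have key : ∀ i i' : Fin 8, i ≠ i' → (J3 i i' ≠ i ∧ J3 i i' ≠ i' ∧ K3 i i' ≠ i ∧ K3 i i' ≠ i') ∧
        (dl a3 b3 i (J3 i i') * dl a3 b3 i (K3 i i') *
          (dl a3 b3 i' (J3 i i') * dl a3 b3 i' (K3 i i')) < 0 ∨
        dl a3 b3 i (J3 i i') * dl a3 b3 i (K3 i i') *
          (dl a3 b3 i' (J3 i i') * dl a3 b3 i' (K3 i i')) = 2 ∨
        dl a3 b3 i (J3 i i') * dl a3 b3 i (K3 i i') *
          (dl a3 b3 i' (J3 i i') * dl a3 b3 i' (K3 i i')) = 3 ∨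
        dl a3 b3 i (J3 i i') * dl a3 b3 i (K3 i i') *
          (dl a3 b3 i' (J3 i i') * dl a3 b3 i' (K3 i i')) = 6) := by decide
    obtain ⟨⟨h1, h2, h3, h4⟩, h5⟩ := key i i' hii
    refine ⟨J3 i i', K3 i i', h1, h2, h3, h4, ?_⟩
    rcases h5 with h5 | h5 | h5 | h5
    · exact qConsec_neg h5
    · rw [h5]; norm_num
    · rw [h5]; norm_num
    · rw [h5]; norm_num
  · intro i
    fin_cases i
    · exact ⟨1, 3, 7, 4, by decide, by decide, by decide, by decide, by decide,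
        by decide +kernel, by decide +kernel, by decide +kernel,
        by decide +kernel⟩
    · exact ⟨0, 4, 5, 3, by decide, by decide, by decide, by decide, by decide,
        by decide +kernel, by decide +kernel, by decide +kernel,
        by decide +kernel⟩
    · exact ⟨0, 3, 6, 4, by decide, by decide, by decide, by decide, by decide,
        by decide +kernel, by decide +kernel, by decide +kernel,
        by decide +kernel⟩
    · exact ⟨0, 2, 6, 7, by decide, by decide, by decide, by decide, by decide,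
        by decide +kernel, by decide +kernel, by decide +kernel,
        by decide +kernel⟩
    · exact ⟨0, 1, 5, 7, by decide, by decide, by decide, by decide, by decide,
        by decide +kernel, by decide +kernel, by decide +kernel,
        by decide +kernel⟩
    · exact ⟨3, 1, 4, 7, by decide, by decide, by decide, by decide, by decide,
        by decide +kernel, by decide +kernel, by decide +kernel,
        by decide +kernel⟩
    · exact ⟨4, 2, 3, 7, by decide, by decide, by decide, by decide, by decide,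
        by decide +kernel, by decide +kernel, by decide +kernel,
        by decide +kernel⟩
    · exact ⟨1, 0, 2, 4, by decide, by decide, by decide, by decide, by decide,
        by decide +kernel, by decide +kernel, by decide +kernel,
        by decide +kernel⟩

end QT
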