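import Pool.Agent.Lib.MP_10e784_ag.QCase1
import Pool.Agent.Lib.MP_10e784_ag.QCaseA
import Pool.Agent.Lib.MP_10e784_ag.QCaseB
import Pool.Agent.Lib.MP_10e784_ag.QChooseV

/-! JOB QCountE.  The counting theorem for the vectors `e`.

Proof.  Let `K` be larger than all the `K`'s of `case_all` (if `5 ≤ card ι`), of `case_I` for all `I` with `2 ≤ |I|`, `I ≠ univ`, and `2 card ι + 2`.
All these bounds remain true with a larger `K` (`V, τ ≥ 1`, logs nonnegative), and the largest constant.
For `N ≥ N0` (also `≥ 65536`) take `V` from `chooseV η hη K` and `τ = V^K`.  Split the set by `I = {i | τ < e i}`.  If `I.card ≤ 1`: since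
`A` is nonempty (and `I ⊆ A` because `e i = 1 ≤ τ` off `A`) there is `i ∈ A` with `e j ≤ τ` for `j ≠ i`: `case_one`.
If `2 ≤ I.card`, `I ≠ univ`: `case_I`.  If `I = univ`: then `A = univ`, so `5 ≤ card ι` and `case_all` applies.
For `N < N0` the count is at most `(N+1)^(card ι) ≤ C`, and `N / (log N)^η ≥ c > 0`. -/

namespace QT

open Finset

open Classical in
private theorem qcountE_part {ι : Type} [Fintype ι] [DecidableEq ι] (θ : ι → ι → ℤ) (A : Finset ι)
    (hθ : ∀ i j, i ≠ j → θ i j ≠ 0) (hAn : A.Nonempty) (hA : A ≠ univ ∨ 5 ≤ Fintype.card ι)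
    (hG : ∀ e : ι → ℕ, (∀ i, 0 < e i) → (∀ i ∉ A, e i = 1) → ∀ i ∈ A, ∀ i' ∈ A, i ≠ i' →
      ∃ j k, j ≠ i ∧ j ≠ i' ∧ k ≠ i ∧ k ≠ i' ∧
        (¬ IsSquare ((θ i j * e j) * (θ i k * e k)) ∨ ¬ IsSquare ((θ i' j * e j) * (θ i' k * e k))))
    (I : Finset ι) :
    ∃ (C : ℝ) (K : ℕ), 0 < C ∧ ∀ (N : ℕ) (V τ : ℝ), 65536 ≤ N → 1 ≤ V → V ^ K ≤ τ → τ ^ K ≤ N →
    (((Box ι N).filter fun e => (∀ i, τ < e i ↔ i ∈ I) ∧ Odd (∏ i, e i) ∧ (∀ i ∉ A, e i = 1) ∧
        Loc θ e ∧ ¬ Good θ A e).card : ℝ) ≤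
      C * N * ((1 + Real.log N) ^ K * V ^ (-(1 / 16) : ℝ) * (1 + Real.log τ) ^ K +
        Real.log N ^ (-(1 / 4) : ℝ) * (1 + Real.log τ) ^ K) := by
  have hne : Nonempty ι := ⟨hAn.choose⟩
  by_cases h1 : I.card ≤ 1
  · obtain ⟨C, hC, hb⟩ := case_one θ A hθ
    refine ⟨C, 2 * Fintype.card ι + 1, hC, ?_⟩
    intro N V τ hN hV hVτ hτN
    have hτ1 : 1 ≤ τ := (one_le_pow₀ hV).trans hVτ
    have hlogτ : 0 ≤ Real.log τ := Real.log_nonneg hτ1
    have hN1 : (1 : ℝ) ≤ N := by
      have : 1 ≤ N := by omega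
      exact_mod_cast this
    have hlogN : 0 ≤ Real.log N := Real.log_nonneg hN1
    have hτN' : τ ^ (2 * Fintype.card ι) ≤ N :=
      (pow_le_pow_right₀ hτ1 (Nat.le_succ _)).trans hτN
    refine le_trans (Nat.cast_le.mpr (Finset.card_le_card ?_)) ((hb N τ (by omega) hτ1 hτN').trans ?_)
    · intro e he
      rw [Finset.mem_filter] at he ⊢
      obtain ⟨heB, heI, heO, heA, heL, heG⟩ := he
      refine ⟨heB, heO, ?_, heL, heG⟩
      rcases Finset.card_le_one_iff_subset_singleton.mp h1 with ⟨i0, hi0⟩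
      by_cases hmem : i0 ∈ I
      · have hi0A : i0 ∈ A := by
          by_contra hcon
          have h2 := (heI i0).mpr hmem
          rw [heA i0 hcon] at h2
          push_cast at h2
          linarith
        refine ⟨i0, hi0A, ?_⟩
        intro j hj
        by_contra hcon
        push Not at hcon
        have := hi0 ((heI j).mp hcon)
        rw [Finset.mem_singleton] at this
        exact hj this
      · obtain ⟨i, hi⟩ := hAn
        refine ⟨i, hi, ?_⟩
        intro j _
        by_contra hcon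
        push Not at hcon
        have h3 := (heI j).mp hcon
        have := hi0 h3
        rw [Finset.mem_singleton] at this
        rw [this] at h3
        exact hmem h3
    · rw [mul_assoc (C * N)]
      apply mul_le_mul_of_nonneg_left _ (by positivity)
      have hq : 0 ≤ Real.log N ^ (-(1 / 4) : ℝ) := Real.rpow_nonneg hlogN _
      have h4 : (1 + Real.log τ) ^ (Fintype.card ι + 1) ≤ (1 + Real.log τ) ^ (2 * Fintype.card ι + 1) :=
        pow_le_pow_right₀ (by linarith) (by omega)
      have h5 : 0 ≤ (1 + Real.log N) ^ (2 * Fintype.card ι + 1) * V ^ (-(1 / 16) : ℝ) *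
          (1 + Real.log τ) ^ (2 * Fintype.card ι + 1) := by positivity
      have h6 := mul_le_mul_of_nonneg_left h4 hq
      linarith
  · push Not at h1
    by_cases hIu : I = univ
    · by_cases hAu : A = univ
      · have h5 : 5 ≤ Fintype.card ι := by
          rcases hA with h | h
          · exact absurd hAu h
          · exact h
        obtain ⟨C, K, hC, hb⟩ := case_all θ h5
        refine ⟨C, K, hC, ?_⟩
        intro N V τ hN hV hVτ hτN
        have hτ1 : 1 ≤ τ := (one_le_pow₀ hV).trans hVτ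
        have hlogτ : 0 ≤ Real.log τ := Real.log_nonneg hτ1
        have hN1 : (1 : ℝ) ≤ N := by
          have : 1 ≤ N := by omega
          exact_mod_cast this
        have hlogN : 0 ≤ Real.log N := Real.log_nonneg hN1
        refine le_trans (Nat.cast_le.mpr (Finset.card_le_card ?_)) ((hb N V τ (by omega) hV hVτ hτN).trans ?_)
        · intro e he
          rw [Finset.mem_filter] at he ⊢
          obtain ⟨heB, heI, heO, _, heL, _⟩ := he
          refine ⟨heB, heO, ?_, heL⟩
          intro i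
          apply (heI i).mpr
          rw [hIu]
          exact Finset.mem_univ i
        · apply mul_le_mul_of_nonneg_left _ (by positivity)
          have h7 : (1 : ℝ) ≤ (1 + Real.log τ) ^ K := one_le_pow₀ (by linarith)
          have h8 : 0 ≤ (1 + Real.log N) ^ K * V ^ (-(1 / 16) : ℝ) := by positivity
          have h9 := mul_le_mul_of_nonneg_left h7 h8
          linarith
      · refine ⟨1, 0, one_pos, ?_⟩
        intro N V τ hN hV hVτ hτN
        have hτ1 : 1 ≤ τ := (one_le_pow₀ hV).trans hVτ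
        have hN1 : (1 : ℝ) ≤ N := by
          have : 1 ≤ N := by omega
          exact_mod_cast this
        have hlogN : 0 ≤ Real.log N := Real.log_nonneg hN1
        obtain ⟨i, hi⟩ : ∃ i, i ∉ A := by
          by_contra hcon
          push Not at hcon
          exact hAu (Finset.eq_univ_iff_forall.mpr hcon)
        have hempty : ((Box ι N).filter fun e => (∀ i, τ < e i ↔ i ∈ I) ∧ Odd (∏ i, e i) ∧
            (∀ i ∉ A, e i = 1) ∧ Loc θ e ∧ ¬ Good θ A e) = ∅ := by
          rw [Finset.filter_eq_empty_iff]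
          rintro e _ ⟨heI, _, heA, _, _⟩
          have h2 := (heI i).mpr (by rw [hIu]; exact Finset.mem_univ i)
          rw [heA i hi] at h2
          push_cast at h2
          linarith
        rw [hempty, Finset.card_empty, Nat.cast_zero]
        have hq : 0 ≤ Real.log N ^ (-(1 / 4) : ℝ) := Real.rpow_nonneg hlogN _
        positivity
    · obtain ⟨C, K, hC, hb⟩ := case_I θ A hθ hG I (by omega) hIu
      refine ⟨C, K, hC, ?_⟩
      intro N V τ hN hV hVτ hτN
      refine le_trans (Nat.cast_le.mpr (Finset.card_le_card ?_)) ((hb N V τ hN hV hVτ hτN).trans (le_of_eq ?_))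
      · intro e he
        rw [Finset.mem_filter] at he ⊢
        obtain ⟨heB, heI, heO, heA, heL, _⟩ := he
        exact ⟨heB, heO, heA, heI, heL⟩
      · ring

open Classical in
theorem countE {ι : Type} [Fintype ι] [DecidableEq ι] (η : ℝ) (hη0 : 0 ≤ η) (hη : η < 1 / 4) (θ : ι → ι → ℤ) (A : Finset ι)
    (hθ : ∀ i j, i ≠ j → θ i j ≠ 0) (hAn : A.Nonempty) (hA : A ≠ univ ∨ 5 ≤ Fintype.card ι)
    (hG : ∀ e : ι → ℕ, (∀ i, 0 < e i) → (∀ i ∉ A, e i = 1) → ∀ i ∈ A, ∀ i' ∈ A, i ≠ i' →
      ∃ j k, j ≠ i ∧ j ≠ i' ∧ k ≠ i ∧ k ≠ i' ∧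
        (¬ IsSquare ((θ i j * e j) * (θ i k * e k)) ∨ ¬ IsSquare ((θ i' j * e j) * (θ i' k * e k)))) :
    ∃ C : ℝ, 0 < C ∧ ∀ N : ℕ, 2 ≤ N →
    (((Box ι N).filter fun e => Odd (∏ i, e i) ∧ (∀ i ∉ A, e i = 1) ∧ Loc θ e ∧ ¬ Good θ A e).card : ℝ) ≤
      C * N * Real.log N ^ (-η) := by
  choose Cf Kf hCf hbf using qcountE_part θ A hθ hAn hA hG
  set K : ℕ := ∑ I : Finset ι, Kf I with hK
  have hKf : ∀ I, Kf I ≤ K := fun I =>
    Finset.single_le_sum (f := Kf) (fun _ _ => Nat.zero_le _) (Finset.mem_univ I)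
  set C0 : ℝ := ∑ I : Finset ι, Cf I with hC0
  have hC0pos : 0 < C0 := Finset.sum_pos (fun I _ => hCf I) ⟨∅, Finset.mem_univ _⟩
  obtain ⟨C1, N0, hC1, hch⟩ := chooseV η hη K
  set N1 : ℕ := N0 + 65536 with hN1
  set M : ℝ := ((N1 ^ Fintype.card ι : ℕ) : ℝ) with hM
  set c : ℝ := Real.log N1 ^ (-η) with hc
  have hlogN1 : 0 < Real.log N1 := by
    apply Real.log_pos
    have : 1 < N1 := by omega
    exact_mod_cast this
  have hcpos : 0 < c := Real.rpow_pos_of_pos hlogN1 _
  have hMnn : 0 ≤ M := Nat.cast_nonneg _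
  refine ⟨C0 * (2 * C1) + M / c, by positivity, ?_⟩
  intro N hN2
  have hNr : (1 : ℝ) < N := by
    have : 1 < N := by omega
    exact_mod_cast this
  have hlogN : 0 < Real.log N := Real.log_pos hNr
  have hq8 : 0 < Real.log N ^ (-η) := Real.rpow_pos_of_pos hlogN _
  by_cases hNN : N < N1
  · -- small `N`
    have hcard : ((((Box ι N).filter fun e => Odd (∏ i, e i) ∧ (∀ i ∉ A, e i = 1) ∧ Loc θ e ∧
        ¬ Good θ A e).card : ℕ) : ℝ) ≤ M := by
      rw [hM]
      apply Nat.cast_le.mpr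
      refine (Finset.card_le_card (Finset.filter_subset _ _)).trans ?_
      unfold Box
      refine (Finset.card_le_card (Finset.filter_subset _ _)).trans ?_
      rw [Fintype.card_piFinset]
      simp only [Nat.card_Icc, Nat.add_sub_cancel, Finset.prod_const, Finset.card_univ]
      exact Nat.pow_le_pow_left hNN.le _
    have hmono : c ≤ Real.log N ^ (-η) := by
      rw [hc]
      apply Real.rpow_le_rpow_of_nonpos hlogN _ (by linarith)
      apply Real.log_le_log (by linarith)
      exact_mod_cast hNN.le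
    have h1 : M ≤ M / c * N * Real.log N ^ (-η) := by
      have e1 : M = M / c * 1 * c := by
        field_simp
      calc M = M / c * 1 * c := e1
        _ ≤ M / c * N * Real.log N ^ (-η) := by
          apply mul_le_mul _ hmono hcpos.le (by positivity)
          apply mul_le_mul_of_nonneg_left hNr.le (by positivity)
    have h2 : 0 ≤ C0 * (2 * C1) * N * Real.log N ^ (-η) := by positivity
    have e3 : (C0 * (2 * C1) + M / c) * N * Real.log N ^ (-η) =
        C0 * (2 * C1) * N * Real.log N ^ (-η) + M / c * N * Real.log N ^ (-η) := by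
      ring
    rw [e3]
    linarith
  · push Not at hNN
    obtain ⟨V, hV, hVN, hb1, hb2⟩ := hch N (by omega)
    set τ : ℝ := V ^ K with hτ
    have hτ1 : 1 ≤ τ := one_le_pow₀ hV
    have hlogτ : 0 ≤ Real.log τ := Real.log_nonneg hτ1
    have hpart : ∀ I : Finset ι, (((Box ι N).filter fun e => (∀ i, τ < e i ↔ i ∈ I) ∧
        Odd (∏ i, e i) ∧ (∀ i ∉ A, e i = 1) ∧ Loc θ e ∧ ¬ Good θ A e).card : ℝ) ≤
        Cf I * (N * (2 * C1 * Real.log N ^ (-η))) := by
      intro I
      refine (hbf I N V τ (by omega) hV (pow_le_pow_right₀ hV (hKf I))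
        ((pow_le_pow_right₀ hτ1 (hKf I)).trans hVN)).trans ?_
      rw [mul_assoc]
      apply mul_le_mul_of_nonneg_left _ (hCf I).le
      apply mul_le_mul_of_nonneg_left _ (by positivity)
      have g1 : (1 + Real.log N) ^ Kf I * V ^ (-(1 / 16) : ℝ) * (1 + Real.log τ) ^ Kf I ≤
          (1 + Real.log N) ^ K * V ^ (-(1 / 16) : ℝ) * (1 + Real.log τ) ^ K := by
        have a1 : (1 + Real.log N) ^ Kf I ≤ (1 + Real.log N) ^ K :=
          pow_le_pow_right₀ (by linarith) (hKf I)
        have a2 : (1 + Real.log τ) ^ Kf I ≤ (1 + Real.log τ) ^ K :=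
          pow_le_pow_right₀ (by linarith) (hKf I)
        have a3 : 0 ≤ V ^ (-(1 / 16) : ℝ) := by positivity
        exact mul_le_mul (mul_le_mul_of_nonneg_right a1 a3) a2 (by positivity) (by positivity)
      have g2 : Real.log N ^ (-(1 / 4) : ℝ) * (1 + Real.log τ) ^ Kf I ≤
          Real.log N ^ (-(1 / 4) : ℝ) * (1 + Real.log τ) ^ K := by
        apply mul_le_mul_of_nonneg_left _ (Real.rpow_nonneg hlogN.le _)
        exact pow_le_pow_right₀ (by linarith) (hKf I)
      linarith
    have hsplit : (((Box ι N).filter fun e => Odd (∏ i, e i) ∧ (∀ i ∉ A, e i = 1) ∧ Loc θ e ∧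
        ¬ Good θ A e).card : ℝ) ≤ ∑ I : Finset ι, (((Box ι N).filter fun e => (∀ i, τ < e i ↔ i ∈ I) ∧
        Odd (∏ i, e i) ∧ (∀ i ∉ A, e i = 1) ∧ Loc θ e ∧ ¬ Good θ A e).card : ℝ) := by
      rw [← Nat.cast_sum]
      apply Nat.cast_le.mpr
      refine le_trans (Finset.card_le_card ?_) Finset.card_biUnion_le
      intro e he
      rw [Finset.mem_filter] at he
      rw [Finset.mem_biUnion]
      refine ⟨Finset.univ.filter (fun i => τ < e i), Finset.mem_univ _, ?_⟩
      rw [Finset.mem_filter]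
      refine ⟨he.1, ?_, he.2⟩
      intro i
      rw [Finset.mem_filter]
      exact ⟨fun h => ⟨Finset.mem_univ i, h⟩, fun h => h.2⟩
    calc (((Box ι N).filter fun e => Odd (∏ i, e i) ∧ (∀ i ∉ A, e i = 1) ∧ Loc θ e ∧
        ¬ Good θ A e).card : ℝ) ≤ _ := hsplit
      _ ≤ ∑ I : Finset ι, Cf I * (N * (2 * C1 * Real.log N ^ (-η))) :=
          Finset.sum_le_sum fun I _ => hpart I
      _ = C0 * (2 * C1) * N * Real.log N ^ (-η) := by
          rw [← Finset.sum_mul, ← hC0]
          ring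
      _ ≤ (C0 * (2 * C1) + M / c) * N * Real.log N ^ (-η) := by
          apply mul_le_mul_of_nonneg_right _ hq8.le
          apply mul_le_mul_of_nonneg_right _ (by positivity)
          have : 0 ≤ M / c := by positivity
          linarith

end QT
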