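import Pool.Agent.Lib.MP_10e784_ag.QDefs

/-! JOB QDesc.  Two elementary lemmas on squarefree parts.

`decomp`: `|m| = a * s²` with `a` squarefree (`Nat.sq_mul_squarefree`), `c = sign(m) * gcd(a,R)`, `e = a / gcd(a,R)`; `e` is coprime to `R`
since `a` is squarefree (a prime dividing `e` and `R` would divide `a` twice).

`twist`: `E = ∏_{i∈A} e i` is squarefree and coprime to `R`.  For a prime `p ∣ E` the exponent of `p` in `D w² = ∏ c_i e_i s_i²` is odd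
(`p ∤ c_i` because `c_i ∣ R`), hence `p ∣ D`; so `E ∣ D`, `D = g E`.  `g` is squarefree (divides `D`); from `g w² = (∏ c_i)(∏ s_i)²`
(cancel `E`), a prime `p ∣ g` with `p ∤ R` would have odd exponent on the left and even exponent on the right.  So every prime factor of
`g` divides `R`, and `g` is squarefree, so `g ∣ R`. -/

namespace QT

open Finset

theorem decomp (R : ℕ) (hR : R ≠ 0) (m : ℤ) (hm : m ≠ 0) :
    ∃ (c : ℤ) (e s : ℕ), c ≠ 0 ∧ c.natAbs ∣ R ∧ Squarefree e ∧ Nat.Coprime e R ∧ s ≠ 0 ∧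
      m = c * e * (s : ℤ) ^ 2 := by
  obtain ⟨a, s, has, ha⟩ := Nat.sq_mul_squarefree m.natAbs
  have hm' : m.natAbs ≠ 0 := Int.natAbs_ne_zero.2 hm
  have hs : s ≠ 0 := by
    rintro rfl
    rw [zero_pow two_ne_zero, zero_mul] at has
    exact hm' has.symm
  have hgpos : 0 < Nat.gcd a R := Nat.gcd_pos_of_pos_right _ (Nat.pos_of_ne_zero hR)
  obtain ⟨e, he⟩ := Nat.gcd_dvd_left a R
  have hsq : Squarefree (Nat.gcd a R * e) := by rw [← he]; exact ha
  have hcop := (Nat.squarefree_mul_iff.1 hsq)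
  have hsign : m.sign.natAbs = 1 := Int.natAbs_sign_of_ne_zero hm
  refine ⟨m.sign * (Nat.gcd a R : ℕ), e, s, ?_, ?_, hcop.2.2, ?_, hs, ?_⟩
  · exact mul_ne_zero (by rw [Ne, Int.sign_eq_zero_iff_zero]; exact hm)
      (by exact_mod_cast hgpos.ne')
  · rw [Int.natAbs_mul, hsign, one_mul, Int.natAbs_natCast]
    exact Nat.gcd_dvd_right _ _
  · apply Nat.coprime_of_dvd
    intro p hp hpe hpR
    have h1 : p ∣ a := by rw [he]; exact hpe.mul_left _
    have h2 : p ∣ Nat.gcd a R := Nat.dvd_gcd h1 hpR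
    exact hp.one_lt.ne' (Nat.dvd_one.1 (hcop.1 ▸ Nat.dvd_gcd h2 hpe))
  · have h1 : (m.natAbs : ℤ) = (Nat.gcd a R : ℤ) * e * (s : ℤ) ^ 2 := by
      rw [← has]
      push_cast
      have h2 : (a : ℤ) = (Nat.gcd a R : ℤ) * e := by exact_mod_cast he
      rw [h2]
      ring
    calc m = m.sign * (m.natAbs : ℤ) := (Int.sign_mul_natAbs m).symm
      _ = m.sign * (Nat.gcd a R : ℤ) * e * (s : ℤ) ^ 2 := by rw [h1]; ring

private theorem QDesc_sqf_dvd {n R : ℕ} (hn : Squarefree n)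
    (h : ∀ p : ℕ, p.Prime → p ∣ n → p ∣ R) : n ∣ R := by
  rw [← Nat.prod_primeFactors_of_squarefree hn]
  apply Finset.prod_primes_dvd
  · intro p hp
    exact (Nat.prime_of_mem_primeFactors hp).prime
  · intro p hp
    exact h p (Nat.prime_of_mem_primeFactors hp) (Nat.dvd_of_mem_primeFactors hp)

private theorem QDesc_nat {D W C E S : ℕ} (hD : Squarefree D) (hW : W ≠ 0) (hE : Squarefree E)
    (hEC : Nat.Coprime E C) (h : D * W ^ 2 = C * E * S ^ 2) (hS : S ≠ 0) :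
    ∃ g : ℕ, D = g * E ∧ g ∣ C := by
  obtain ⟨d, W1, S1, hd, hcop, hW1, hS1⟩ : ∃ d W1 S1 : ℕ, 0 < d ∧ Nat.Coprime W1 S1 ∧
      W = W1 * d ∧ S = S1 * d := by
    obtain ⟨h1, W1, S1, h2, h3, h4⟩ := Nat.exists_coprime' (m := W) (n := S)
      (Nat.gcd_pos_of_pos_left _ (Nat.pos_of_ne_zero hW))
    exact ⟨_, W1, S1, h2, h3, h4⟩
  have h1 : D * W1 ^ 2 = C * E * S1 ^ 2 := by
    rw [hW1, hS1, mul_pow, mul_pow, ← mul_assoc, ← mul_assoc] at h
    exact Nat.eq_of_mul_eq_mul_right (by positivity) h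
  have hS1u : S1 = 1 := by
    have h2 : S1 ^ 2 ∣ D * W1 ^ 2 := by rw [h1]; exact Dvd.intro_left _ rfl
    have h3 : S1 ^ 2 ∣ D := (hcop.symm.pow 2 2).dvd_of_dvd_mul_right h2
    rw [pow_two] at h3
    exact Nat.isUnit_iff.1 (hD S1 h3)
  rw [hS1u, one_pow, mul_one] at h1
  have hE0 : E ≠ 0 := hE.ne_zero
  have hEW : Nat.Coprime E W1 := by
    apply Nat.coprime_of_dvd
    intro p hp hpE hpW
    have h2 : p * p ∣ C * E := by
      rw [← h1, pow_two]
      exact (mul_dvd_mul hpW hpW).mul_left D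
    have h3 : Nat.Coprime p C := Nat.Coprime.coprime_dvd_left hpE hEC
    have h4 : Nat.Coprime (p * p) C := Nat.Coprime.mul_left h3 h3
    have h5 : p * p ∣ E := h4.dvd_of_dvd_mul_left h2
    exact hp.one_lt.ne' (Nat.isUnit_iff.1 (hE p h5))
  have hED : E ∣ D := by
    have h2 : E ∣ D * W1 ^ 2 := by rw [h1]; exact Dvd.intro_left _ rfl
    exact (hEW.pow_right 2).dvd_of_dvd_mul_right h2
  obtain ⟨g, hg⟩ := hED
  refine ⟨g, by rw [hg, mul_comm], ⟨W1 ^ 2, ?_⟩⟩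
  rw [hg] at h1
  have h2 : (g * W1 ^ 2) * E = C * E := by rw [← h1]; ring
  exact (Nat.eq_of_mul_eq_mul_right (Nat.pos_of_ne_zero hE0) h2).symm

theorem twist {ι : Type} (A : Finset ι) (R : ℕ) (hR : R ≠ 0) (D w : ℤ) (hD : Squarefree D) (hw : w ≠ 0)
    (c : ι → ℤ) (e s : ι → ℕ) (hc : ∀ i ∈ A, c i ≠ 0 ∧ (c i).natAbs ∣ R) (he : Squarefree (∏ i ∈ A, e i))
    (heR : Nat.Coprime (∏ i ∈ A, e i) R) (hs : ∀ i ∈ A, s i ≠ 0)
    (h : D * w ^ 2 = ∏ i ∈ A, (c i * e i * (s i : ℤ) ^ 2)) :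
    ∃ g : ℤ, g.natAbs ∣ R ∧ D = g * ∏ i ∈ A, (e i : ℤ) := by
  have hD0 : D ≠ 0 := hD.ne_zero
  have hD' : Squarefree D.natAbs := Int.squarefree_natAbs.2 hD
  have hprime : ∀ p : ℕ, p.Prime → p ∣ ∏ i ∈ A, (c i).natAbs → p ∣ R := by
    intro p hp hpC
    obtain ⟨i, hi, hpi⟩ := (hp.prime.dvd_finsetProd_iff _).1 hpC
    exact hpi.trans (hc i hi).2
  have hEC : Nat.Coprime (∏ i ∈ A, e i) (∏ i ∈ A, (c i).natAbs) := by
    apply Nat.coprime_of_dvd
    intro p hp hpE hpC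
    exact hp.one_lt.ne' (Nat.dvd_one.1 (heR ▸ Nat.dvd_gcd hpE (hprime p hp hpC)))
  have h1 : D.natAbs * w.natAbs ^ 2 =
      (∏ i ∈ A, (c i).natAbs) * (∏ i ∈ A, e i) * (∏ i ∈ A, s i) ^ 2 := by
    have h2 := congrArg Int.natAbs h
    rw [Int.natAbs_mul, Int.natAbs_pow] at h2
    rw [h2, ← Finset.prod_pow, ← Finset.prod_mul_distrib, ← Finset.prod_mul_distrib]
    have h3 : ∀ (f : ι → ℤ) (B : Finset ι), (∏ i ∈ B, f i).natAbs = ∏ i ∈ B, (f i).natAbs := by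
      intro f B
      exact map_prod Int.natAbsHom f B
    rw [h3]
    apply Finset.prod_congr rfl
    intro i _
    rw [Int.natAbs_mul, Int.natAbs_mul, Int.natAbs_pow, Int.natAbs_natCast, Int.natAbs_natCast]
  obtain ⟨g, hg, hgC⟩ := QDesc_nat hD' (Int.natAbs_ne_zero.2 hw) he hEC h1
    (Finset.prod_ne_zero_iff.2 hs)
  have hgR : g ∣ R := by
    apply QDesc_sqf_dvd
    · apply hD'.squarefree_of_dvd
      rw [hg]
      exact Dvd.intro _ rfl
    · intro p hp hpg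
      exact hprime p hp (hpg.trans hgC)
  refine ⟨D.sign * g, ?_, ?_⟩
  · rw [Int.natAbs_mul, Int.natAbs_sign_of_ne_zero hD0, one_mul, Int.natAbs_natCast]
    exact hgR
  · calc D = D.sign * (D.natAbs : ℤ) := (Int.sign_mul_natAbs D).symm
      _ = D.sign * g * ∏ i ∈ A, (e i : ℤ) := by rw [hg]; push_cast; ring

end QT
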