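import Pool.Agent.Lib.MP_10e784_ag.QExpand
import Pool.Agent.Lib.MP_10e784_ag.QLinked
import Pool.Agent.Lib.MP_10e784_ag.QUnlinked

/-! JOB QEngine.  The main estimate.

Proof.  `K = 2 card L + 16`.  Apply `expand` with `k i n = if i ∈ I then (if τ < n then 1 else 0) else 1`; the filter on `e` in the
statement is the same as multiplying by `∏ k i (e i)`.  Split `Box L X` by the pattern `Z = {ℓ | V < d ℓ}` (`2^(card L)` patterns).
* If `Z` contains `ℓ0, ℓ1` with `Linked s ℓ0 ℓ1`: `linked_bound`.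
* If some `i ∈ I` has no label in `Z`: then `eOf s d i ≤ V^(card L) ≤ V^K ≤ τ`, so `k i (eOf s d i) = 0` and the pattern contributes `0`.
* Otherwise `unlinked_bound`. -/

namespace QT

open Finset

/-- the cut-off functions used in `engine` -/
private noncomputable def engK {κ : Type} [DecidableEq κ] (I : Finset κ) (τ : ℝ) (i : κ) (n : ℕ) : ℝ :=
  if i ∈ I then (if τ < (n : ℝ) then 1 else 0) else 1

private theorem engK_abs {κ : Type} [DecidableEq κ] (I : Finset κ) (τ : ℝ) (i : κ) (n : ℕ) :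
    |engK I τ i n| ≤ 1 := by
  unfold engK
  split_ifs <;> simp

private theorem engK_prod {κ : Type} [Fintype κ] [DecidableEq κ] (I : Finset κ) (τ : ℝ) (e : κ → ℕ) :
    ∏ i, engK I τ i (e i) = if (∀ i ∈ I, τ < (e i : ℝ)) then (1 : ℝ) else 0 := by
  split_ifs with h
  · apply Finset.prod_eq_one
    intro i _
    unfold engK
    split_ifs with h1 h2
    · rfl
    · exact absurd (h i h1) h2
    · rfl
  · push Not at h
    obtain ⟨i, hi, hle⟩ := h
    apply Finset.prod_eq_zero (Finset.mem_univ i)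
    unfold engK
    rw [if_pos hi, if_neg (not_lt.2 hle)]

private theorem eng_pattern {κ L : Type} [Fintype κ] [DecidableEq κ] [Fintype L] [DecidableEq L]
    (s : Sys κ L) (u : L → ℕ → ℝ) (V τ : ℝ) (X K : ℕ) (Z : Finset L) (i : κ) (hi : i ∈ s.I)
    (hno : ∀ ℓ ∈ Z, s.idx ℓ ≠ i) (hV : 1 ≤ V) (hK : Fintype.card L ≤ K) (hVτ : V ^ K ≤ τ) :
    ∑ d ∈ (Box L X) with (∀ ℓ, ℓ ∈ Z ↔ V < d ℓ), FF s u (engK s.I τ) d = 0 := by
  apply Finset.sum_eq_zero
  intro d hd
  rw [Finset.mem_filter] at hd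
  obtain ⟨_, hZ⟩ := hd
  have hle : (eOf s d i : ℝ) ≤ τ := by
    unfold eOf
    push_cast
    calc ∏ ℓ with s.idx ℓ = i, (d ℓ : ℝ) ≤ ∏ ℓ with s.idx ℓ = i, V := by
          apply Finset.prod_le_prod
          · intro ℓ _; positivity
          · intro ℓ hℓ
            rw [Finset.mem_filter] at hℓ
            have hnot : ℓ ∉ Z := fun hmem => hno ℓ hmem hℓ.2
            rw [hZ ℓ] at hnot
            exact not_lt.1 hnot
      _ = V ^ (Finset.univ.filter fun ℓ => s.idx ℓ = i).card := by rw [Finset.prod_const]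
      _ ≤ V ^ K := by
          apply pow_le_pow_right₀ hV
          exact (Finset.card_le_univ _).trans hK
      _ ≤ τ := hVτ
  unfold FF
  have : ∏ i, engK s.I τ i (eOf s d i) = 0 := by
    apply Finset.prod_eq_zero (Finset.mem_univ i)
    unfold engK
    rw [if_pos hi, if_neg (not_lt.2 hle)]
  rw [this, zero_mul]

theorem engine {κ L : Type} [Fintype κ] [DecidableEq κ] [Fintype L] [DecidableEq L] (s : Sys κ L) :
    ∃ (C : ℝ) (K : ℕ), 0 < C ∧
    ∀ (u : L → ℕ → ℝ) (h : κ → ℕ → ℝ) (χ : ℕ → ℝ) (B V τ : ℝ) (X : ℕ),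
    CharB χ B → (∀ ℓ p, |u ℓ p| ≤ 1) → (∀ ℓ, u ℓ 2 = 0) →
    (∀ ℓ p, p.Prime → |u ℓ p| ≤ h (s.idx ℓ) p) → (∀ i p, 0 ≤ h i p) →
    (∀ p, p.Prime → ∑ i ∈ s.I, h i p ≤ (3 + χ p) / 4) → 1 ≤ V → V ^ K ≤ τ → V ^ K ≤ X → 16 ≤ X →
    |∑ e ∈ (Box κ X) with (∀ i ∈ s.I, τ < e i), ∏ i, ∏ p ∈ (e i).primeFactors,
        ∑ ℓ with s.idx ℓ = i, u ℓ p * ∏ j ∈ s.St ℓ, (jacobiSym (e j) p : ℝ)| ≤
      C * X * ((1 + Real.log X) ^ K * V ^ (-(1 / 16) : ℝ) +
        Real.log X ^ (-(1 / 4) : ℝ) * B ^ (1 / 4 : ℝ) * (1 + Real.log V) ^ K) := by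
  obtain ⟨C1, hC1, hlink⟩ := linked_bound s
  refine ⟨2 ^ (Fintype.card L) * (C1 + 40), 2 * Fintype.card L + 16, by positivity, ?_⟩
  intro u h χ B V τ X hχ hu hu2 huh hh hw hV hVτ hVX hX
  set K : ℕ := 2 * Fintype.card L + 16 with hK
  have hX2 : 2 ≤ X := by omega
  have hXr : (16 : ℝ) ≤ X := by exact_mod_cast hX
  have hlogX : 0 < Real.log X := Real.log_pos (by linarith)
  have hlogV : 0 ≤ Real.log V := Real.log_nonneg hV
  have hVp : (0 : ℝ) ≤ V ^ (-(1 / 16) : ℝ) := Real.rpow_nonneg (by linarith) _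
  have hLp : (0 : ℝ) ≤ Real.log X ^ (-(1 / 4) : ℝ) := Real.rpow_nonneg hlogX.le _
  have hBp : (0 : ℝ) ≤ B ^ (1 / 4 : ℝ) := Real.rpow_nonneg (by linarith [hχ.hB]) _
  -- rewrite the left side
  have hLHS : ∑ e ∈ (Box κ X) with (∀ i ∈ s.I, τ < e i), ∏ i, ∏ p ∈ (e i).primeFactors,
        ∑ ℓ with s.idx ℓ = i, u ℓ p * ∏ j ∈ s.St ℓ, (jacobiSym (e j) p : ℝ) =
      ∑ d ∈ Box L X, FF s u (engK s.I τ) d := by
    rw [← expand s u (engK s.I τ) X, Finset.sum_filter]
    apply Finset.sum_congr rfl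
    intro e _
    rw [Finset.prod_mul_distrib, engK_prod]
    split_ifs <;> simp
  rw [hLHS]
  -- split by patterns
  have hsplit : ∑ d ∈ Box L X, FF s u (engK s.I τ) d =
      ∑ Z : Finset L, ∑ d ∈ (Box L X) with (∀ ℓ, ℓ ∈ Z ↔ V < d ℓ), FF s u (engK s.I τ) d := by
    classical
    rw [← Finset.sum_fiberwise (Box L X) (fun d => Finset.univ.filter fun ℓ => V < (d ℓ : ℝ))
      (fun d => FF s u (engK s.I τ) d)]
    apply Finset.sum_congr rfl
    intro Z _
    apply Finset.sum_congr _ (fun _ _ => rfl)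
    apply Finset.filter_congr
    intro d _
    constructor
    · intro hE ℓ
      rw [← hE]
      simp
    · intro hE
      ext ℓ
      rw [Finset.mem_filter, hE ℓ]
      simp
  rw [hsplit]
  set M : ℝ := (C1 + 40) * X * ((1 + Real.log X) ^ K * V ^ (-(1 / 16) : ℝ) +
        Real.log X ^ (-(1 / 4) : ℝ) * B ^ (1 / 4 : ℝ) * (1 + Real.log V) ^ K) with hM
  have hA : 0 ≤ (1 + Real.log X) ^ K * V ^ (-(1 / 16) : ℝ) := by positivity
  have hBB : 0 ≤ Real.log X ^ (-(1 / 4) : ℝ) * B ^ (1 / 4 : ℝ) * (1 + Real.log V) ^ K := by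
    positivity
  have hM0 : 0 ≤ M := by
    rw [hM]
    have : (0 : ℝ) ≤ (C1 + 40) * X := by positivity
    exact mul_nonneg this (add_nonneg hA hBB)
  have hbound : ∀ Z : Finset L,
      |∑ d ∈ (Box L X) with (∀ ℓ, ℓ ∈ Z ↔ V < d ℓ), FF s u (engK s.I τ) d| ≤ M := by
    intro Z
    by_cases hl : ∃ ℓ0 ∈ Z, ∃ ℓ1 ∈ Z, Linked s ℓ0 ℓ1
    · obtain ⟨ℓ0, h0, ℓ1, h1, hL⟩ := hl
      refine (hlink u (engK s.I τ) V X Z ℓ0 ℓ1 hu hu2 (fun i n => engK_abs _ _ _ _) hV hX2 h0 h1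
        hL).trans ?_
      have e1 : (1 + Real.log X) ^ (10 + Fintype.card L) ≤ (1 + Real.log X) ^ K :=
        pow_le_pow_right₀ (by linarith) (by omega)
      calc C1 * X * (1 + Real.log X) ^ (10 + Fintype.card L) * V ^ (-(1 / 16) : ℝ)
          ≤ C1 * X * (1 + Real.log X) ^ K * V ^ (-(1 / 16) : ℝ) := by
            apply mul_le_mul_of_nonneg_right _ hVp
            apply mul_le_mul_of_nonneg_left e1
            positivity
        _ = C1 * X * ((1 + Real.log X) ^ K * V ^ (-(1 / 16) : ℝ)) := by ring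
        _ ≤ (C1 + 40) * X * ((1 + Real.log X) ^ K * V ^ (-(1 / 16) : ℝ)) := by
            apply mul_le_mul_of_nonneg_right _ hA
            apply mul_le_mul_of_nonneg_right _ (by positivity)
            linarith
        _ ≤ M := by
            rw [hM]
            apply mul_le_mul_of_nonneg_left _ (by positivity)
            linarith
    · by_cases hall : ∀ i ∈ s.I, ∃ ℓ ∈ Z, s.idx ℓ = i
      · have hun : ∀ ℓ ∈ Z, ∀ ℓ' ∈ Z, ¬ Linked s ℓ ℓ' := by
          intro ℓ hℓ ℓ' hℓ' hL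
          exact hl ⟨ℓ, hℓ, ℓ', hℓ', hL⟩
        have hVX2 : V ^ (2 * Fintype.card L) ≤ X :=
          (pow_le_pow_right₀ hV (by omega)).trans hVX
        refine (unlinked_bound s u (engK s.I τ) h χ B V X Z hχ hu (fun i n => engK_abs _ _ _ _)
          huh hh hw hV hX hVX2 hall hun).trans ?_
        have e1 : (1 + Real.log V) ^ (Fintype.card L) ≤ (1 + Real.log V) ^ K :=
          pow_le_pow_right₀ (by linarith) (by omega)
        calc 40 * X * Real.log X ^ (-(1 / 4) : ℝ) * B ^ (1 / 4 : ℝ) *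
              (1 + Real.log V) ^ (Fintype.card L)
            ≤ 40 * X * Real.log X ^ (-(1 / 4) : ℝ) * B ^ (1 / 4 : ℝ) *
              (1 + Real.log V) ^ K := by
              apply mul_le_mul_of_nonneg_left e1
              positivity
          _ = 40 * X * (Real.log X ^ (-(1 / 4) : ℝ) * B ^ (1 / 4 : ℝ) *
              (1 + Real.log V) ^ K) := by ring
          _ ≤ (C1 + 40) * X * (Real.log X ^ (-(1 / 4) : ℝ) * B ^ (1 / 4 : ℝ) *
              (1 + Real.log V) ^ K) := by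
              apply mul_le_mul_of_nonneg_right _ hBB
              apply mul_le_mul_of_nonneg_right _ (by positivity)
              linarith
          _ ≤ M := by
              rw [hM]
              apply mul_le_mul_of_nonneg_left _ (by positivity)
              linarith
      · push Not at hall
        obtain ⟨i, hi, hno⟩ := hall
        rw [eng_pattern s u V τ X K Z i hi hno hV (by omega) hVτ, abs_zero]
        exact hM0
  calc |∑ Z : Finset L, ∑ d ∈ (Box L X) with (∀ ℓ, ℓ ∈ Z ↔ V < d ℓ), FF s u (engK s.I τ) d|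
      ≤ ∑ Z : Finset L, |∑ d ∈ (Box L X) with (∀ ℓ, ℓ ∈ Z ↔ V < d ℓ), FF s u (engK s.I τ) d| :=
        Finset.abs_sum_le_sum_abs _ _
    _ ≤ ∑ _Z : Finset L, M := Finset.sum_le_sum fun Z _ => hbound Z
    _ = 2 ^ (Fintype.card L) * M := by
        rw [Finset.sum_const, Finset.card_univ, Fintype.card_finset, nsmul_eq_mul]
        push_cast
        ring
    _ = 2 ^ (Fintype.card L) * (C1 + 40) * X * ((1 + Real.log X) ^ K * V ^ (-(1 / 16) : ℝ) +
        Real.log X ^ (-(1 / 4) : ℝ) * B ^ (1 / 4 : ℝ) * (1 + Real.log V) ^ K) := by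
        rw [hM]; ring

end QT
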