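import Pool.Agent.Lib.MP_10e784_ag.QDefs

/-! JOB QEuler.

Proof.  For `P ≥ M`: `∑_{n ≤ M, sqfree} pf w n n^(-σ) ≤ ∏_{p < P+1} (1 + w p p^(-σ))` (expand the product over subsets of
the primes; all terms are `≥ 0`).  For `t = p^(-σ) ∈ (0,1/2]`, `0 ≤ w ≤ (3+c)/4`, `c = χ p ∈ [-1,1]`:
`(1 + w t)^4 (1-t)^3 (1 - c t) ≤ (1 + w t)^4 (1 - (3+c)t/4)^4 ≤ ((1 + w t)(1 - w t))^4 ≤ 1`.
Let `P → ∞`: by the Euler product the right-hand side tends to `(∑' n^(-σ))^3 * ∑' χ n n^(-σ)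
≤ (1 + 1/(σ-1))^3 * B`.  Take fourth roots. -/

namespace QT

open Finset

/-- polynomial form of the AM-GM step -/
private lemma QEuler_amgm (x y : ℝ) : x ^ 3 * y ≤ ((3 * x + y) / 4) ^ 4 ∨ x < 0 ∨ y < 0 := by
  by_cases hx : 0 ≤ x
  · by_cases hy : 0 ≤ y
    · left
      have h : ((3 * x + y) / 4) ^ 4 - x ^ 3 * y =
          (x - y) ^ 2 * (81 * x ^ 2 + 14 * (x * y) + y ^ 2) / 256 := by ring
      have h2 : 0 ≤ (x - y) ^ 2 * (81 * x ^ 2 + 14 * (x * y) + y ^ 2) / 256 := by positivity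
      linarith
    · right; right; linarith
  · right; left; linarith

private lemma QEuler_local (t w c : ℝ) (ht0 : 0 < t) (ht : t ≤ 1 / 2) (hw0 : 0 ≤ w) (hw : w ≤ (3 + c) / 4)
    (hc1 : -1 ≤ c) (hc2 : c ≤ 1) :
    (1 + w * t) ^ 4 * ((1 - t) ^ 3 * (1 - c * t)) ≤ 1 := by
  have h1t : 0 ≤ 1 - t := by linarith
  have hct : 0 ≤ 1 - c * t := by nlinarith
  have hA : (1 - t) ^ 3 * (1 - c * t) ≤ ((3 * (1 - t) + (1 - c * t)) / 4) ^ 4 := by
    rcases QEuler_amgm (1 - t) (1 - c * t) with h | h | h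
    · exact h
    · linarith
    · linarith
  set u : ℝ := (3 + c) / 4 * t with hu
  have hu0 : 0 ≤ u := by
    have : 0 ≤ (3 + c) / 4 := by linarith
    positivity
  have hu1 : u ≤ 1 := by
    have : (3 + c) / 4 ≤ 1 := by linarith
    nlinarith
  have hE : (3 * (1 - t) + (1 - c * t)) / 4 = 1 - u := by rw [hu]; ring
  have hwu : 1 + w * t ≤ 1 + u := by
    have := mul_le_mul_of_nonneg_right hw ht0.le
    linarith
  have h0 : 0 ≤ 1 + w * t := by positivity
  calc (1 + w * t) ^ 4 * ((1 - t) ^ 3 * (1 - c * t))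
      ≤ (1 + u) ^ 4 * (1 - u) ^ 4 := by
        apply mul_le_mul
        · exact pow_le_pow_left₀ h0 hwu 4
        · rw [hE] at hA; exact hA
        · positivity
        · positivity
    _ = ((1 + u) * (1 - u)) ^ 4 := by rw [mul_pow]
    _ ≤ 1 := by
        apply pow_le_one₀
        · apply mul_nonneg <;> linarith
        · nlinarith

private lemma QEuler_rpow_le_half (p : ℕ) (hp : p.Prime) (σ : ℝ) (hσ : 1 < σ) :
    0 < (p : ℝ) ^ (-σ) ∧ (p : ℝ) ^ (-σ) ≤ 1 / 2 := by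
  have hp2 : (2 : ℝ) ≤ p := by exact_mod_cast hp.two_le
  refine ⟨Real.rpow_pos_of_pos (by linarith) _, ?_⟩
  rw [Real.rpow_neg (by linarith), one_div]
  apply inv_anti₀ (by norm_num)
  calc (2 : ℝ) ≤ p := hp2
    _ = (p : ℝ) ^ (1 : ℝ) := (Real.rpow_one _).symm
    _ ≤ (p : ℝ) ^ σ := Real.rpow_le_rpow_of_exponent_le (by linarith) hσ.le

/-- the sum over squarefree numbers is bounded by the finite product -/
private lemma QEuler_sum_le_prod (w : ℕ → ℝ) (hw : ∀ p, p.Prime → 0 ≤ w p) (σ : ℝ) (M P : ℕ) (hP : M < P) :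
    ∑ n ∈ (Icc 1 M).filter Squarefree, pf w n * (n : ℝ) ^ (-σ) ≤
      ∏ p ∈ P.primesBelow, (1 + w p * (p : ℝ) ^ (-σ)) := by
  classical
  rw [Finset.prod_one_add]
  have hterm : ∀ n ∈ (Icc 1 M).filter Squarefree, pf w n * (n : ℝ) ^ (-σ) =
      ∏ p ∈ n.primeFactors, (w p * (p : ℝ) ^ (-σ)) := by
    intro n hn
    have hsq : Squarefree n := (Finset.mem_filter.mp hn).2
    have hprod : ∏ p ∈ n.primeFactors, p = n := Nat.prod_primeFactors_of_squarefree hsq
    rw [Finset.prod_mul_distrib]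
    unfold pf
    congr 1
    conv_lhs => rw [← hprod]
    push_cast
    rw [Real.finsetProd_rpow _ _ (fun i _ => by positivity)]
  rw [Finset.sum_congr rfl hterm]
  have hinj : Set.InjOn Nat.primeFactors ((Icc 1 M).filter Squarefree : Finset ℕ) := by
    intro a ha b hb hab
    have h1 : Squarefree a := (Finset.mem_filter.mp ha).2
    have h2 : Squarefree b := (Finset.mem_filter.mp hb).2
    rw [← Nat.prod_primeFactors_of_squarefree h1, ← Nat.prod_primeFactors_of_squarefree h2, hab]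
  rw [← Finset.sum_image (f := fun s : Finset ℕ => ∏ p ∈ s, (w p * (p : ℝ) ^ (-σ))) hinj]
  apply Finset.sum_le_sum_of_subset_of_nonneg
  · intro s hs
    obtain ⟨n, hn, rfl⟩ := Finset.mem_image.mp hs
    rw [Finset.mem_powerset]
    intro p hp
    rw [Nat.mem_primesBelow]
    have hn' := (Finset.mem_filter.mp hn).1
    rw [Finset.mem_Icc] at hn'
    have := Nat.le_of_mem_primeFactors hp
    exact ⟨by omega, Nat.prime_of_mem_primeFactors hp⟩
  · intro s hs _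
    apply Finset.prod_nonneg
    intro p hp
    have hpp : p.Prime := by
      have := (Finset.mem_powerset.mp hs) hp
      exact (Nat.mem_primesBelow.mp this).2
    exact mul_nonneg (hw p hpp) (by positivity)

private lemma QEuler_step (N : ℕ) (hN : 2 ≤ N) (σ : ℝ) (hσ : 1 < σ) :
    (N : ℝ) ^ (-σ) ≤ (((N : ℝ) - 1) ^ (1 - σ) - (N : ℝ) ^ (1 - σ)) / (σ - 1) := by
  have hN' : (2 : ℝ) ≤ N := by exact_mod_cast hN
  have h0 : (0 : ℝ) < N := by linarith
  have h1 : (0 : ℝ) < (N : ℝ) - 1 := by linarith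
  rw [le_div_iff₀ (by linarith)]
  have hfac : ((N : ℝ) - 1) ^ (1 - σ) = (N : ℝ) ^ (1 - σ) * (((N : ℝ) - 1) / N) ^ (1 - σ) := by
    rw [← Real.mul_rpow h0.le (by positivity)]
    congr 1
    field_simp
  have hN2 : (N : ℝ) ^ (-σ) = (N : ℝ) ^ (1 - σ) * (1 / N) := by
    rw [one_div, ← Real.rpow_neg_one, ← Real.rpow_add h0]
    congr 1
    ring
  have hb : 1 + (σ - 1) * (1 / N) ≤ (((N : ℝ) - 1) / N) ^ (1 - σ) := by
    rw [Real.rpow_def_of_pos (by positivity)]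
    have hlog : 1 / (N : ℝ) ≤ - Real.log (((N : ℝ) - 1) / N) := by
      have := Real.log_le_sub_one_of_pos (show (0 : ℝ) < ((N : ℝ) - 1) / N by positivity)
      have h3 : ((N : ℝ) - 1) / N - 1 = - (1 / N) := by field_simp; ring
      linarith
    have h4 := Real.add_one_le_exp (Real.log (((N : ℝ) - 1) / N) * (1 - σ))
    have h5 : (σ - 1) * (1 / N) ≤ Real.log (((N : ℝ) - 1) / N) * (1 - σ) := by
      have := mul_le_mul_of_nonneg_left hlog (show (0 : ℝ) ≤ σ - 1 by linarith)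
      nlinarith
    linarith
  rw [hfac, hN2]
  have hpos : (0 : ℝ) < (N : ℝ) ^ (1 - σ) := Real.rpow_pos_of_pos h0 _
  nlinarith [mul_le_mul_of_nonneg_left hb hpos.le]

private lemma QEuler_summable (σ : ℝ) (hσ : 1 < σ) : Summable fun n : ℕ => (n : ℝ) ^ (-σ) := by
  exact Real.summable_nat_rpow.mpr (by linarith)

private lemma QEuler_zeta_le (σ : ℝ) (hσ : 1 < σ) : ∑' n : ℕ, (n : ℝ) ^ (-σ) ≤ 1 + 1 / (σ - 1) := by
  have hpart : ∀ N : ℕ, 2 ≤ N → ∑ n ∈ range N, (n : ℝ) ^ (-σ) ≤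
      1 + (1 - ((N : ℝ) - 1) ^ (1 - σ)) / (σ - 1) := by
    intro N hN
    induction N, hN using Nat.le_induction with
    | base =>
      rw [Finset.sum_range_succ, Finset.sum_range_one]
      have h0 : ((0 : ℕ) : ℝ) ^ (-σ) = 0 := by
        rw [Nat.cast_zero, Real.zero_rpow (by linarith)]
      have h1 : ((1 : ℕ) : ℝ) ^ (-σ) = 1 := by rw [Nat.cast_one, Real.one_rpow]
      rw [h0, h1]
      have h2 : (((2 : ℕ) : ℝ) - 1) ^ (1 - σ) = 1 := by
        norm_num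
      rw [h2]
      simp
    | succ n hn ih =>
      rw [Finset.sum_range_succ]
      have hs := QEuler_step n hn σ hσ
      push_cast
      have h3 : (1 - ((n : ℝ) + 1 - 1) ^ (1 - σ)) / (σ - 1) =
          (1 - ((n : ℝ) - 1) ^ (1 - σ)) / (σ - 1) +
            (((n : ℝ) - 1) ^ (1 - σ) - (n : ℝ) ^ (1 - σ)) / (σ - 1) := by
        rw [add_sub_cancel_right]
        ring
      rw [h3]
      linarith
  apply (QEuler_summable σ hσ).tsum_le_of_sum_range_le
  intro N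
  by_cases hN : 2 ≤ N
  · refine (hpart N hN).trans ?_
    have h1 : (0 : ℝ) < (N : ℝ) - 1 := by
      have : (2 : ℝ) ≤ N := by exact_mod_cast hN
      linarith
    have h2 : (0 : ℝ) < ((N : ℝ) - 1) ^ (1 - σ) := Real.rpow_pos_of_pos h1 _
    have h3 : (1 - ((N : ℝ) - 1) ^ (1 - σ)) / (σ - 1) ≤ 1 / (σ - 1) :=
      div_le_div_of_nonneg_right (by linarith) (by linarith)
    linarith
  · have hle : ∑ n ∈ range N, (n : ℝ) ^ (-σ) ≤ ∑ n ∈ range 2, (n : ℝ) ^ (-σ) := by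
      apply Finset.sum_le_sum_of_subset_of_nonneg
      · intro x hx
        rw [Finset.mem_range] at hx ⊢
        omega
      · intro i _ _
        positivity
    refine hle.trans ((hpart 2 le_rfl).trans ?_)
    have h3 : (1 - (((2 : ℕ) : ℝ) - 1) ^ (1 - σ)) / (σ - 1) ≤ 1 / (σ - 1) := by
      apply div_le_div_of_nonneg_right _ (by linarith)
      have : (0 : ℝ) ≤ (((2 : ℕ) : ℝ) - 1) ^ (1 - σ) := by
        apply Real.rpow_nonneg; norm_num
      linarith
    linarith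

theorem euler_ub {χ : ℕ → ℝ} {B : ℝ} (hχ : CharB χ B) (w : ℕ → ℝ)
    (hw : ∀ p, p.Prime → 0 ≤ w p ∧ w p ≤ (3 + χ p) / 4) (σ : ℝ) (hσ : 1 < σ) (M : ℕ) :
    ∑ n ∈ (Icc 1 M).filter Squarefree, pf w n * (n : ℝ) ^ (-σ) ≤
      ((1 + 1 / (σ - 1)) ^ 3 * B) ^ (1 / 4 : ℝ) := by
  classical
  set S : ℝ := ∑ n ∈ (Icc 1 M).filter Squarefree, pf w n * (n : ℝ) ^ (-σ) with hS
  have hS0 : 0 ≤ S := by
    apply Finset.sum_nonneg
    intro n _
    apply mul_nonneg _ (by positivity)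
    unfold pf
    exact Finset.prod_nonneg fun p hp => (hw p (Nat.prime_of_mem_primeFactors hp)).1
  -- the two completely multiplicative functions
  let f : ℕ →*₀ ℝ :=
    { toFun := fun n => (n : ℝ) ^ (-σ)
      map_zero' := by
        show ((0 : ℕ) : ℝ) ^ (-σ) = 0
        rw [Nat.cast_zero, Real.zero_rpow (by linarith)]
      map_one' := by
        show ((1 : ℕ) : ℝ) ^ (-σ) = 1
        rw [Nat.cast_one, Real.one_rpow]
      map_mul' := by
        intro a b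
        show ((a * b : ℕ) : ℝ) ^ (-σ) = (a : ℝ) ^ (-σ) * (b : ℝ) ^ (-σ)
        rw [Nat.cast_mul, Real.mul_rpow (by positivity) (by positivity)] }
  let g : ℕ →*₀ ℝ :=
    { toFun := fun n => χ n * (n : ℝ) ^ (-σ)
      map_zero' := by
        show χ 0 * ((0 : ℕ) : ℝ) ^ (-σ) = 0
        rw [hχ.zero, zero_mul]
      map_one' := by
        show χ 1 * ((1 : ℕ) : ℝ) ^ (-σ) = 1
        rw [hχ.one, Nat.cast_one, Real.one_rpow, mul_one]
      map_mul' := by
        intro a b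
        show χ (a * b) * ((a * b : ℕ) : ℝ) ^ (-σ) = χ a * (a : ℝ) ^ (-σ) * (χ b * (b : ℝ) ^ (-σ))
        rw [hχ.mul, Nat.cast_mul, Real.mul_rpow (by positivity) (by positivity)]
        ring }
  have hf : ∀ n, f n = (n : ℝ) ^ (-σ) := fun n => rfl
  have hg : ∀ n, g n = χ n * (n : ℝ) ^ (-σ) := fun n => rfl
  have hsumf : Summable (fun n => ‖f n‖) := by
    have : (fun n => ‖f n‖) = fun n : ℕ => (n : ℝ) ^ (-σ) := by
      funext n
      rw [hf, Real.norm_of_nonneg (by positivity)]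
    rw [this]
    exact QEuler_summable σ hσ
  have hsumg : Summable (fun n => ‖g n‖) := by
    apply Summable.of_nonneg_of_le (fun n => norm_nonneg _) _ hsumf
    intro n
    rw [hf, hg, norm_mul]
    calc ‖χ n‖ * ‖(n : ℝ) ^ (-σ)‖ ≤ 1 * ‖(n : ℝ) ^ (-σ)‖ := by
          apply mul_le_mul_of_nonneg_right _ (norm_nonneg _)
          rw [Real.norm_eq_abs]; exact hχ.le n
      _ = _ := one_mul _
  have hlimf := EulerProduct.eulerProduct_completely_multiplicative hsumf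
  have hlimg := EulerProduct.eulerProduct_completely_multiplicative hsumg
  have hlim := (hlimf.pow 3).mul hlimg
  have hprodle : ∀ P : ℕ, (∏ p ∈ P.primesBelow, (1 + w p * (p : ℝ) ^ (-σ))) ^ 4 ≤
      (∏ p ∈ P.primesBelow, (1 - f p)⁻¹) ^ 3 * ∏ p ∈ P.primesBelow, (1 - g p)⁻¹ := by
    intro P
    rw [← Finset.prod_pow, ← Finset.prod_pow, ← Finset.prod_mul_distrib]
    apply Finset.prod_le_prod
    · intro p hp
      positivity
    · intro p hp
      have hpp : p.Prime := (Nat.mem_primesBelow.mp hp).2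
      obtain ⟨ht0, ht⟩ := QEuler_rpow_le_half p hpp σ hσ
      have hc := abs_le.mp (hχ.le p)
      have hloc := QEuler_local ((p : ℝ) ^ (-σ)) (w p) (χ p) ht0 ht (hw p hpp).1 (hw p hpp).2 hc.1 hc.2
      rw [hf, hg]
      have h1 : 0 < 1 - (p : ℝ) ^ (-σ) := by linarith
      have h2 : 0 < 1 - χ p * (p : ℝ) ^ (-σ) := by nlinarith [hc.2]
      have h3 : 0 < (1 - (p : ℝ) ^ (-σ)) ^ 3 * (1 - χ p * (p : ℝ) ^ (-σ)) := by positivity
      have h4 : ((1 - (p : ℝ) ^ (-σ))⁻¹) ^ 3 * (1 - χ p * (p : ℝ) ^ (-σ))⁻¹ =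
          1 / ((1 - (p : ℝ) ^ (-σ)) ^ 3 * (1 - χ p * (p : ℝ) ^ (-σ))) := by
        rw [inv_pow, one_div, mul_inv]
      rw [h4, le_div_iff₀ h3]
      exact hloc
  have hkey : ∀ P : ℕ, M < P → S ^ 4 ≤
      (∏ p ∈ P.primesBelow, (1 - f p)⁻¹) ^ 3 * ∏ p ∈ P.primesBelow, (1 - g p)⁻¹ := by
    intro P hP
    have h1 := QEuler_sum_le_prod w (fun p hp => (hw p hp).1) σ M P hP
    exact (pow_le_pow_left₀ hS0 h1 4).trans (hprodle P)
  have hlimS : S ^ 4 ≤ (∑' n, f n) ^ 3 * ∑' n, g n := by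
    apply ge_of_tendsto hlim
    filter_upwards [Filter.eventually_gt_atTop M] with P hP
    exact hkey P hP
  have hZ0 : 0 ≤ ∑' n, f n := tsum_nonneg fun n => by rw [hf]; positivity
  have hZ : ∑' n, f n ≤ 1 + 1 / (σ - 1) := QEuler_zeta_le σ hσ
  have hL : ∑' n, g n ≤ B := hχ.bound σ hσ
  have hB : 0 ≤ B := by linarith [hχ.hB]
  have hfin : S ^ 4 ≤ (1 + 1 / (σ - 1)) ^ 3 * B := by
    refine hlimS.trans ?_
    calc (∑' n, f n) ^ 3 * ∑' n, g n ≤ (∑' n, f n) ^ 3 * B :=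
          mul_le_mul_of_nonneg_left hL (by positivity)
      _ ≤ (1 + 1 / (σ - 1)) ^ 3 * B :=
          mul_le_mul_of_nonneg_right (pow_le_pow_left₀ hZ0 hZ 3) hB
  have hroot : S = (S ^ 4) ^ (1 / 4 : ℝ) := by
    rw [← Real.rpow_natCast S 4, ← Real.rpow_mul hS0]
    norm_num
  rw [hroot]
  exact Real.rpow_le_rpow (by positivity) hfin (by norm_num)

end QT
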