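import Pool.Agent.Lib.MP_10e784_ag.QSplit
import Pool.Agent.Lib.MP_10e784_ag.QAP4

/-! JOB QEven.  The curves `D w² = ∏ (x² - a_i y²)`.

`even_twists`: apply `tu` with index type `ι ⊕ Bool` (or `Option (Option ι)`), forms `X - a_i Y` (`α = 1`, `β = -a_i`) for `i ∈ ι`, `Y` (`α=0, β=1`), `X` (`α = 1, β = 0`), `A` = the image of `ι`.
`dl i j = α_j β_i - α_i β_j = a_j - a_i` for `i, j ∈ ι`; `dl i Y = -1`; `dl i X = β_i = -a_i`; `dl X Y`, `dl Y X = ±1`.  All nonzero.
`hG`: for `i ≠ i'` one of `a_i, a_i'` is not a square, and with `j = Y`, `k = X` (`c = 1` there) `(dl i Y)(dl i X) = a_i`.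
Points: `x, y` rational, `(x,y) = λ(x₁,y₁)`, `x₁, y₁` coprime integers, `X = x₁²`, `Y = y₁²` coprime, `D (w/λ^r)² = ∏ (X - a_i Y)`, `r = card ι`, `w/λ^r ∈ ℤ` (`int_of_sq`).
If `x₁ = 0` or `y₁ = 0` then `D w'² = ∏(-a_i)` or `= 1`, and there are at most two such squarefree `D` (absorbed in `C`).
Otherwise the inactive forms `X, Y` are nonzero squares.  If the square condition of `tu` holds at `i`: with `j = Y, k = X` we get `a_i X Y` is a square so `a_i` is a square; with
`j = Y`, `k = inl j'`: `(-Y)((a_{j'} - a_i)(X - a_{j'} Y)) = (a_i - a_{j'}) (X - a_{j'}Y) y₁²` is a square, so `(a_i - a_{j'})(x₁² - a_{j'} y₁²)` is a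
square (integers; then in `ℚ` after multiplying by `λ²`).
`even_none`: no `a_i` is a square: the condition can never hold.
`even_two`: `a i₁ = 1`, `a i₂ = -1`, `a i₃ = 3`, the other `a_i` (`i ≠ i₁`) are not squares.  If the square condition holds it is at `i = i₁` (the only square), and
`2(x² + y²) = A²`, `-2(x² - 3y²) = B²`; then `B², (2y)², A², (2x)²` are in arithmetic progression with difference `2(x² - y²)`, so by `ap4_rat`
`x² = y²`, contradiction with `w ≠ 0` (the factor `x² - y²` would vanish). -/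

namespace QT

open Finset

private theorem qeven_cnt_le_card (P : ℤ → Prop) (N : ℕ) (S : Finset ℤ)
    (h : ∀ D : ℤ, Squarefree D → |D| ≤ (N : ℤ) → P D → D ∈ S) : cnt P N ≤ S.card := by
  unfold cnt
  have hf : Function.Injective (fun D : {D : ℤ // Squarefree D ∧ |D| ≤ (N : ℤ) ∧ P D} =>
      (⟨D.1, h D.1 D.2.1 D.2.2.1 D.2.2.2⟩ : {x // x ∈ S})) := by
    intro D D' hDD
    apply Subtype.ext
    simpa using hDD
  have h1 := Nat.card_le_card_of_injective _ hf
  have h2 : Nat.card {x // x ∈ S} = S.card := by simp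
  omega

private theorem qeven_cnt_mono (P Q : ℤ → Prop) (N : ℕ)
    (h : ∀ D : ℤ, Squarefree D → P D → Q D) : cnt P N ≤ cnt Q N := by
  unfold cnt
  have hfin : Finite {D : ℤ // Squarefree D ∧ |D| ≤ (N : ℤ) ∧ Q D} := by
    have hinj : Function.Injective (fun D : {D : ℤ // Squarefree D ∧ |D| ≤ (N : ℤ) ∧ Q D} =>
        (⟨D.1, by
          rw [Finset.mem_Icc]
          have := abs_le.mp D.2.2.1
          exact ⟨this.1, this.2⟩⟩ : {x // x ∈ Finset.Icc (-(N : ℤ)) N})) := by
      intro D D' hDD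
      apply Subtype.ext
      simpa using hDD
    exact Finite.of_injective _ hinj
  have hf : Function.Injective (fun D : {D : ℤ // Squarefree D ∧ |D| ≤ (N : ℤ) ∧ P D} =>
      (⟨D.1, D.2.1, D.2.2.1, h D.1 D.2.1 D.2.2.2⟩ : {D : ℤ // Squarefree D ∧ |D| ≤ (N : ℤ) ∧ Q D})) := by
    intro D D' hDD
    apply Subtype.ext
    simpa using hDD
  exact Nat.card_le_card_of_injective _ hf

private theorem qeven_mono {P Q : ℤ → Prop} (h : ∀ D : ℤ, Squarefree D → P D → Q D)
    (hQ : AlmostNone Q) : AlmostNone P := by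
  intro η hη0 hη
  obtain ⟨C, hC, hb⟩ := hQ η hη0 hη
  refine ⟨C, hC, fun N hN => ?_⟩
  have h1 : (cnt P N : ℝ) ≤ cnt Q N := by exact_mod_cast qeven_cnt_mono P Q N h
  exact h1.trans (hb N hN)

private theorem qeven_coprime (x y : ℚ) (hxy : ¬ (x = 0 ∧ y = 0)) :
    ∃ (l : ℚ) (x1 y1 : ℤ), l ≠ 0 ∧ IsCoprime x1 y1 ∧ x = l * x1 ∧ y = l * y1 := by
  have hdx : (x.den : ℤ) ≠ 0 := by exact_mod_cast x.den_nz
  have hdy : (y.den : ℤ) ≠ 0 := by exact_mod_cast y.den_nz
  have hdx' : (x.den : ℚ) ≠ 0 := by exact_mod_cast x.den_nz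
  have hdy' : (y.den : ℚ) ≠ 0 := by exact_mod_cast y.den_nz
  have hpos : 0 < Int.gcd (x.num * y.den) (y.num * x.den) := by
    rcases Nat.eq_zero_or_pos (Int.gcd (x.num * y.den) (y.num * x.den)) with h0 | h0
    · exfalso
      rw [Int.gcd_eq_zero_iff] at h0
      apply hxy
      constructor
      · have := (mul_eq_zero.mp h0.1).resolve_right hdy
        exact Rat.num_eq_zero.mp this
      · have := (mul_eq_zero.mp h0.2).resolve_right hdx
        exact Rat.num_eq_zero.mp this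
    · exact h0
  obtain ⟨x1, y1, hg, h1, h2⟩ := Int.exists_gcd_one hpos
  set g : ℕ := Int.gcd (x.num * y.den) (y.num * x.den) with hgdef
  have hgq : (g : ℚ) ≠ 0 := by exact_mod_cast hpos.ne'
  have h1' : (x.num : ℚ) * y.den = x1 * g := by exact_mod_cast h1
  have h2' : (y.num : ℚ) * x.den = y1 * g := by exact_mod_cast h2
  refine ⟨(g : ℚ) / (x.den * y.den), x1, y1, by positivity, Int.isCoprime_iff_gcd_eq_one.mpr hg, ?_, ?_⟩
  · have hx : x = x.num / x.den := (Rat.num_div_den x).symm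
    have : x * (x.den * y.den) = g * x1 := by
      calc x * (x.den * y.den) = (x * x.den) * y.den := by ring
        _ = x.num * y.den := by rw [Rat.mul_den_eq_num]
        _ = g * x1 := by rw [h1']; ring
    field_simp
    linarith
  · have : y * (x.den * y.den) = g * y1 := by
      calc y * (x.den * y.den) = (y * y.den) * x.den := by ring
        _ = y.num * x.den := by rw [Rat.mul_den_eq_num]
        _ = g * y1 := by rw [h2']; ring
    field_simp
    linarith

private theorem qeven_log (η : ℝ) (hη0 : 0 < η) (hη : η < 1 / 4) (N : ℕ) (hN : 2 ≤ N) :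
    0 < Real.log N ∧ Real.log N ^ η ≤ N := by
  have hN' : (2 : ℝ) ≤ N := by exact_mod_cast hN
  have hpos : 0 < Real.log N := Real.log_pos (by linarith)
  refine ⟨hpos, ?_⟩
  rcases le_total (Real.log N) 1 with h | h
  · have := Real.rpow_le_one hpos.le h hη0.le
    linarith
  · have h1 : Real.log N ^ η ≤ Real.log N ^ (1 : ℝ) :=
      Real.rpow_le_rpow_of_exponent_le h (by linarith)
    rw [Real.rpow_one] at h1
    have h2 := Real.log_le_sub_one_of_pos (by linarith : (0 : ℝ) < N)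
    linarith

private def qeven_al {ι : Type} : ι ⊕ Bool → ℤ := Sum.elim (fun _ => 1) (fun b => if b then 1 else 0)

private def qeven_be {ι : Type} (a : ι → ℤ) : ι ⊕ Bool → ℤ :=
  Sum.elim (fun i => -a i) (fun b => if b then 0 else 1)

private theorem qeven_sq_of_mul {m t : ℤ} (ht : t ≠ 0) (h : IsSquare (m * t ^ 2)) : IsSquare m := by
  obtain ⟨r, hr⟩ := h
  have hd : t ^ 2 ∣ r ^ 2 := ⟨m, by rw [sq r, ← hr]; ring⟩
  rw [Int.pow_dvd_pow_iff (by norm_num)] at hd
  obtain ⟨s, hs⟩ := hd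
  refine ⟨s, ?_⟩
  have ht2 : t ^ 2 ≠ 0 := pow_ne_zero 2 ht
  apply mul_right_cancel₀ ht2
  rw [hr, hs]
  ring

theorem even_twists {ι : Type} [Fintype ι] [DecidableEq ι] [Nonempty ι] (a : ι → ℤ) (ha0 : ∀ i, a i ≠ 0)
    (hinj : Function.Injective a) (hsq : ∀ i i', i ≠ i' → ¬ (IsSquare (a i) ∧ IsSquare (a i'))) :
    AlmostNone fun D => ∃ x y w : ℚ, w ≠ 0 ∧ (D : ℚ) * w ^ 2 = ∏ i, (x ^ 2 - (a i : ℚ) * y ^ 2) ∧
      ¬ ∃ i, IsSquare (a i) ∧ ∀ j, j ≠ i →
        IsSquare (((a i : ℚ) - (a j : ℚ)) * (x ^ 2 - (a j : ℚ) * y ^ 2)) := by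
  classical
  intro η hη0 hη
  let A : Finset (ι ⊕ Bool) := (univ : Finset ι).map ⟨Sum.inl, Sum.inl_injective⟩
  have hmemA : ∀ b : Bool, (Sum.inr b : ι ⊕ Bool) ∉ A := by
    intro b hb
    simp [A] at hb
  have hmemA' : ∀ i : ι, (Sum.inl i : ι ⊕ Bool) ∈ A := by
    intro i
    simp [A]
  have hδ : ∀ i j : ι ⊕ Bool, i ≠ j → dl qeven_al (qeven_be a) i j ≠ 0 := by
    rintro (i | i) (j | j) hij
    · have hne : i ≠ j := fun h => hij (by rw [h])
      have : a i ≠ a j := fun h => hne (hinj h)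
      simp only [dl, qeven_al, qeven_be, Sum.elim_inl]
      intro h
      apply this
      linarith
    · cases j <;> simp [dl, qeven_al, qeven_be, ha0 i]
    · cases i <;> simp [dl, qeven_al, qeven_be, ha0 j]
    · cases i <;> cases j <;> simp_all [dl, qeven_al, qeven_be]
  have hAn : A.Nonempty := by
    obtain ⟨i⟩ := (inferInstance : Nonempty ι)
    exact ⟨Sum.inl i, hmemA' i⟩
  have hA : A ≠ univ ∨ 5 ≤ Fintype.card (ι ⊕ Bool) := by
    left
    intro h
    apply hmemA true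
    rw [h]
    exact mem_univ _
  have hG : ∀ c : ι ⊕ Bool → ℤ, (∀ i, c i ≠ 0) → (∀ i ∉ A, c i = 1) → ∀ i ∈ A, ∀ i' ∈ A, i ≠ i' →
      ∃ j k, j ≠ i ∧ j ≠ i' ∧ k ≠ i ∧ k ≠ i' ∧
        (¬ IsSquare ((dl qeven_al (qeven_be a) i j * c j) * (dl qeven_al (qeven_be a) i k * c k)) ∨
          ¬ IsSquare ((dl qeven_al (qeven_be a) i' j * c j) * (dl qeven_al (qeven_be a) i' k * c k))) := by
    intro c _ hc1 i hi i' hi' hii
    rcases i with i | i
    · rcases i' with i' | i'
      · have hne : i ≠ i' := fun h => hii (by rw [h])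
        refine ⟨Sum.inr false, Sum.inr true, by simp, by simp, by simp, by simp, ?_⟩
        rw [hc1 _ (hmemA false), hc1 _ (hmemA true)]
        have e1 : ∀ q : ι, (dl qeven_al (qeven_be a) (Sum.inl q) (Sum.inr false) * 1) *
            (dl qeven_al (qeven_be a) (Sum.inl q) (Sum.inr true) * 1) = a q := by
          intro q
          simp [dl, qeven_al, qeven_be]
        rw [e1, e1]
        by_contra hcon
        push Not at hcon
        exact hsq i i' hne hcon
      · exact absurd hi' (hmemA i')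
    · exact absurd hi (hmemA i)
  obtain ⟨C, hC, hb⟩ := tu η hη0.le hη qeven_al (qeven_be a) A hδ hAn hA hG
  set M : ℕ := (∏ i, (-a i)).natAbs with hM
  have hM0 : (∏ i, (-a i)) ≠ 0 := prod_ne_zero_iff.mpr fun i _ => neg_ne_zero.mpr (ha0 i)
  have hM1 : 1 ≤ M := by
    have : M ≠ 0 := by
      rw [hM]
      exact Int.natAbs_ne_zero.mpr hM0
    omega
  refine ⟨C + (2 * M + 1), by positivity, fun N hN => ?_⟩
  set S := (Finset.Icc (-(N : ℤ)) N).filter (fun D => Squarefree D ∧ ∃ X Y w : ℤ, IsCoprime X Y ∧ w ≠ 0 ∧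
        (∀ i ∉ A, IsSquare (lf qeven_al (qeven_be a) i X Y) ∧ lf qeven_al (qeven_be a) i X Y ≠ 0) ∧
        D * w ^ 2 = ∏ i ∈ A, lf qeven_al (qeven_be a) i X Y ∧
        ¬ ∃ i ∈ A, ∀ j, j ≠ i → ∀ k, k ≠ i →
          IsSquare ((dl qeven_al (qeven_be a) i j * lf qeven_al (qeven_be a) j X Y) *
            (dl qeven_al (qeven_be a) i k * lf qeven_al (qeven_be a) k X Y))) with hS
  have hbN := hb N hN
  have hcov : cnt (fun D => ∃ x y w : ℚ, w ≠ 0 ∧ (D : ℚ) * w ^ 2 = ∏ i, (x ^ 2 - (a i : ℚ) * y ^ 2) ∧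
      ¬ ∃ i, IsSquare (a i) ∧ ∀ j, j ≠ i →
        IsSquare (((a i : ℚ) - (a j : ℚ)) * (x ^ 2 - (a j : ℚ) * y ^ 2))) N ≤
      (S ∪ Finset.Icc (-(M : ℤ)) M).card := by
    apply qeven_cnt_le_card
    intro D hD hDN hP
    obtain ⟨x, y, w, hw, hDw, hno⟩ := hP
    have hD0 : D ≠ 0 := hD.ne_zero
    have hDq : (D : ℚ) ≠ 0 := by exact_mod_cast hD0
    have hxy : ¬ (x = 0 ∧ y = 0) := by
      rintro ⟨hx, hy⟩
      rw [hx, hy] at hDw
      have hz : ∏ i : ι, ((0 : ℚ) ^ 2 - (a i : ℚ) * 0 ^ 2) = 0 := by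
        obtain ⟨i⟩ := (inferInstance : Nonempty ι)
        exact prod_eq_zero (mem_univ i) (by ring)
      rw [hz] at hDw
      exact (mul_ne_zero hDq (pow_ne_zero 2 hw)) hDw
    obtain ⟨l, x1, y1, hl, hcop, hx, hy⟩ := qeven_coprime x y hxy
    have hprod : ∏ i, (x ^ 2 - (a i : ℚ) * y ^ 2) =
        (l ^ Fintype.card ι) ^ 2 * ((∏ i, (x1 ^ 2 - a i * y1 ^ 2) : ℤ) : ℚ) := by
      rw [hx, hy]
      push_cast
      have : ∀ i : ι, ((l * x1) ^ 2 - (a i : ℚ) * (l * y1) ^ 2) = l ^ 2 * ((x1 : ℚ) ^ 2 - a i * (y1 : ℚ) ^ 2) := by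
        intro i
        ring
      rw [prod_congr rfl fun i _ => this i, prod_mul_distrib, prod_const, card_univ, ← pow_mul, ← pow_mul,
        mul_comm 2]
    have hlr : l ^ Fintype.card ι ≠ 0 := pow_ne_zero _ hl
    have hDw2 : (D : ℚ) * (w / l ^ Fintype.card ι) ^ 2 = ((∏ i, (x1 ^ 2 - a i * y1 ^ 2) : ℤ) : ℚ) := by
      rw [div_pow, ← mul_div_assoc, hDw, hprod]
      field_simp
    obtain ⟨w1, hw1⟩ := int_of_sq D hD _ _ hDw2
    have hw10 : w1 ≠ 0 := by
      intro h
      rw [h] at hw1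
      have : w / l ^ Fintype.card ι ≠ 0 := div_ne_zero hw hlr
      apply this
      rw [← hw1]
      simp
    have hDw3 : D * w1 ^ 2 = ∏ i, (x1 ^ 2 - a i * y1 ^ 2) := by
      rw [← hw1] at hDw2
      exact_mod_cast hDw2
    rw [mem_union]
    by_cases hx0 : x1 = 0
    · right
      have hy1 : y1 ^ 2 = 1 := by
        have : IsUnit y1 := by
          rw [hx0] at hcop
          exact isCoprime_zero_left.mp hcop
        rcases Int.isUnit_iff.mp this with h | h <;> rw [h] <;> norm_num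
      have hdvd : D ∣ ∏ i, (-a i) := by
        refine ⟨w1 ^ 2, ?_⟩
        rw [hDw3]
        apply prod_congr rfl
        intro i _
        rw [hx0, hy1]
        ring
      have h1 : D.natAbs ≤ M := Nat.le_of_dvd (by omega) (Int.natAbs_dvd_natAbs.mpr hdvd)
      rw [mem_Icc]
      omega
    · by_cases hy0 : y1 = 0
      · right
        have hx1 : x1 ^ 2 = 1 := by
          have : IsUnit x1 := by
            rw [hy0] at hcop
            exact isCoprime_zero_right.mp hcop
          rcases Int.isUnit_iff.mp this with h | h <;> rw [h] <;> norm_num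
        have hdvd : D ∣ 1 := by
          refine ⟨w1 ^ 2, ?_⟩
          rw [hDw3]
          symm
          apply prod_eq_one
          intro i _
          rw [hx1, hy0]
          ring
        have h1 : D.natAbs ≤ 1 := Nat.le_of_dvd (by norm_num) (Int.natAbs_dvd_natAbs.mpr hdvd)
        rw [mem_Icc]
        omega
      · left
        rw [hS, mem_filter]
        refine ⟨mem_Icc.mpr (abs_le.mp hDN), hD, x1 ^ 2, y1 ^ 2, w1, hcop.pow, hw10, ?_, ?_, ?_⟩
        · rintro (i | i) hi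
          · exact absurd (hmemA' i) hi
          · cases i
            · have e : lf qeven_al (qeven_be a) (Sum.inr false : ι ⊕ Bool) (x1 ^ 2) (y1 ^ 2) = y1 ^ 2 := by
                simp [lf, qeven_al, qeven_be]
              rw [e]
              exact ⟨⟨y1, sq y1⟩, pow_ne_zero 2 hy0⟩
            · have e : lf qeven_al (qeven_be a) (Sum.inr true : ι ⊕ Bool) (x1 ^ 2) (y1 ^ 2) = x1 ^ 2 := by
                simp [lf, qeven_al, qeven_be]
              rw [e]
              exact ⟨⟨x1, sq x1⟩, pow_ne_zero 2 hx0⟩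
        · rw [hDw3]
          simp only [A, prod_map, Function.Embedding.coeFn_mk]
          apply prod_congr rfl
          intro i _
          simp only [lf, qeven_al, qeven_be, Sum.elim_inl]
          ring
        · rintro ⟨i, hi, hall⟩
          rcases i with p | b
          · apply hno
            have hxy1 : x1 * y1 ≠ 0 := mul_ne_zero hx0 hy0
            refine ⟨p, ?_, ?_⟩
            · have h := hall (Sum.inr false) (by simp) (Sum.inr true) (by simp)
              have e : (dl qeven_al (qeven_be a) (Sum.inl p) (Sum.inr false) *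
                  lf qeven_al (qeven_be a) (Sum.inr false) (x1 ^ 2) (y1 ^ 2)) *
                  (dl qeven_al (qeven_be a) (Sum.inl p) (Sum.inr true) *
                  lf qeven_al (qeven_be a) (Sum.inr true) (x1 ^ 2) (y1 ^ 2)) = a p * (x1 * y1) ^ 2 := by
                simp [dl, lf, qeven_al, qeven_be]
                ring
              rw [e] at h
              exact qeven_sq_of_mul hxy1 h
            · intro q hq
              have h := hall (Sum.inr false) (by simp) (Sum.inl q) (by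
                intro h
                exact hq (Sum.inl_injective h))
              have e : (dl qeven_al (qeven_be a) (Sum.inl p) (Sum.inr false) *
                  lf qeven_al (qeven_be a) (Sum.inr false) (x1 ^ 2) (y1 ^ 2)) *
                  (dl qeven_al (qeven_be a) (Sum.inl p) (Sum.inl q) *
                  lf qeven_al (qeven_be a) (Sum.inl q) (x1 ^ 2) (y1 ^ 2)) =
                  ((a p - a q) * (x1 ^ 2 - a q * y1 ^ 2)) * y1 ^ 2 := by
                simp [dl, lf, qeven_al, qeven_be]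
                ring
              rw [e] at h
              obtain ⟨r, hr⟩ := qeven_sq_of_mul hy0 h
              refine ⟨l * r, ?_⟩
              rw [hx, hy]
              have hr' : ((a p : ℚ) - a q) * ((x1 : ℚ) ^ 2 - a q * (y1 : ℚ) ^ 2) = r * r := by
                exact_mod_cast hr
              calc ((a p : ℚ) - a q) * ((l * x1) ^ 2 - (a q : ℚ) * (l * y1) ^ 2)
                  = l ^ 2 * (((a p : ℚ) - a q) * ((x1 : ℚ) ^ 2 - a q * (y1 : ℚ) ^ 2)) := by ring
                _ = l * r * (l * r) := by rw [hr']; ring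
          · exact absurd hi (hmemA b)
  have hcard : ((S ∪ Finset.Icc (-(M : ℤ)) M).card : ℝ) ≤ S.card + (2 * M + 1) := by
    have h1 := card_union_le S (Finset.Icc (-(M : ℤ)) M)
    have h2 : (Finset.Icc (-(M : ℤ)) M).card = 2 * M + 1 := by
      rw [Int.card_Icc]
      omega
    rw [h2] at h1
    exact_mod_cast h1
  obtain ⟨hlog, hlogN⟩ := qeven_log η hη0 hη N hN
  have hlp : 0 < Real.log N ^ η := Real.rpow_pos_of_pos hlog _
  have hb2 : (S.card : ℝ) ≤ C * N / Real.log N ^ η := by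
    rw [div_eq_mul_inv, ← Real.rpow_neg hlog.le]
    exact hbN
  have hK : ((2 * M + 1 : ℕ) : ℝ) ≤ (2 * M + 1) * N / Real.log N ^ η := by
    rw [le_div_iff₀ hlp]
    push_cast
    apply mul_le_mul_of_nonneg_left hlogN
    positivity
  have hcov' : ((cnt (fun D => ∃ x y w : ℚ, w ≠ 0 ∧ (D : ℚ) * w ^ 2 = ∏ i, (x ^ 2 - (a i : ℚ) * y ^ 2) ∧
      ¬ ∃ i, IsSquare (a i) ∧ ∀ j, j ≠ i →
        IsSquare (((a i : ℚ) - (a j : ℚ)) * (x ^ 2 - (a j : ℚ) * y ^ 2))) N : ℕ) : ℝ) ≤
      (S ∪ Finset.Icc (-(M : ℤ)) M).card := by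
    exact_mod_cast hcov
  have hsum : (C + (2 * M + 1)) * (N : ℝ) / Real.log N ^ η =
      C * N / Real.log N ^ η + (2 * M + 1) * N / Real.log N ^ η := by
    ring
  rw [hsum]
  push_cast at hK
  linarith

theorem even_none {ι : Type} [Fintype ι] [DecidableEq ι] [Nonempty ι] (a : ι → ℤ)
    (hinj : Function.Injective a) (hsq : ∀ i, ¬ IsSquare (a i)) :
    AlmostNone fun D => ∃ x y w : ℚ, w ≠ 0 ∧ (D : ℚ) * w ^ 2 = ∏ i, (x ^ 2 - (a i : ℚ) * y ^ 2) := by
  have ha0 : ∀ i, a i ≠ 0 := by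
    intro i h
    apply hsq i
    rw [h]
    exact ⟨0, by norm_num⟩
  have h := even_twists a ha0 hinj (fun i i' _ hh => hsq i hh.1)
  refine qeven_mono ?_ h
  rintro D _ ⟨x, y, w, hw, hDw⟩
  refine ⟨x, y, w, hw, hDw, ?_⟩
  rintro ⟨i, hi, _⟩
  exact hsq i hi

theorem even_two {ι : Type} [Fintype ι] [DecidableEq ι] (a : ι → ℤ)
    (hinj : Function.Injective a) (i1 i2 i3 : ι) (h1 : a i1 = 1) (h2 : a i2 = -1) (h3 : a i3 = 3)
    (hsq : ∀ i, i ≠ i1 → ¬ IsSquare (a i)) :
    AlmostNone fun D => ∃ x y w : ℚ, w ≠ 0 ∧ (D : ℚ) * w ^ 2 = ∏ i, (x ^ 2 - (a i : ℚ) * y ^ 2) := by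
  have : Nonempty ι := ⟨i1⟩
  have ha0 : ∀ i, a i ≠ 0 := by
    intro i h
    by_cases hi : i = i1
    · rw [hi, h1] at h
      norm_num at h
    · apply hsq i hi
      rw [h]
      exact ⟨0, by norm_num⟩
  have hpair : ∀ i i', i ≠ i' → ¬ (IsSquare (a i) ∧ IsSquare (a i')) := by
    rintro i i' hne ⟨hi, hi'⟩
    by_cases h : i = i1
    · apply hsq i' (fun h' => hne (by rw [h, h'])) hi'
    · exact hsq i h hi
  have h := even_twists a ha0 hinj hpair
  refine qeven_mono ?_ h
  rintro D hD ⟨x, y, w, hw, hDw⟩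
  refine ⟨x, y, w, hw, hDw, ?_⟩
  rintro ⟨i, hi, hall⟩
  have hii : i = i1 := by
    by_contra hne
    exact hsq i hne hi
  subst hii
  have h21 : i2 ≠ i := by
    intro h
    rw [h, h1] at h2
    norm_num at h2
  have h31 : i3 ≠ i := by
    intro h
    rw [h, h1] at h3
    norm_num at h3
  obtain ⟨A, hA⟩ := hall i2 h21
  obtain ⟨B, hB⟩ := hall i3 h31
  rw [h1, h2] at hA
  rw [h1, h3] at hB
  push_cast at hA hB
  have hap := ap4_rat B (2 * y) A (2 * x) (by nlinarith) (by nlinarith)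
  have hxy : x ^ 2 = y ^ 2 := by nlinarith
  have hz : ∏ i : ι, (x ^ 2 - (a i : ℚ) * y ^ 2) = 0 := by
    apply prod_eq_zero (mem_univ i)
    rw [h1, hxy]
    push_cast
    ring
  rw [hz] at hDw
  have hDq : (D : ℚ) ≠ 0 := by exact_mod_cast hD.ne_zero
  exact (mul_ne_zero hDq (pow_ne_zero 2 hw)) hDw

end QT
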