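import Pool.Agent.Lib.MP_10e784_ag.QExpand1

/-! JOB QExpand.  Expansion of the sum over `e` into a sum over the label variables `d`.

Proof.  Apply `prod_sum_eq` once to `n = ∏ e_i` with `g ℓ p = u ℓ p * ∏_{j ∈ St ℓ} (e j / p)` if `p ∣ e (idx ℓ)` and `0`
otherwise.  Only vectors `d` with `eOf s d = e` contribute. -/

namespace QT

open Finset

private theorem eOf_prod {κ L : Type} [Fintype κ] [DecidableEq κ] [Fintype L] [DecidableEq L]
    (s : Sys κ L) (d : L → ℕ) : ∏ i, eOf s d i = ∏ ℓ, d ℓ := by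
  unfold eOf
  exact Finset.prod_fiberwise _ _ _

private theorem sqf_coprime {κ : Type} [Fintype κ] [DecidableEq κ] (e : κ → ℕ)
    (h : Squarefree (∏ i, e i)) {i j : κ} (hij : i ≠ j) : Nat.Coprime (e i) (e j) := by
  have h1 : e i * e j ∣ ∏ i, e i := by
    rw [← Finset.mul_prod_erase univ e (mem_univ i)]
    exact Nat.mul_dvd_mul_left _ (Finset.dvd_prod_of_mem e (mem_erase.2 ⟨hij.symm, mem_univ _⟩))
  exact Nat.coprime_of_squarefree_mul (h.squarefree_of_dvd h1)

private theorem sqf_one {κ : Type} [Fintype κ] [DecidableEq κ] (e : κ → ℕ)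
    (h : Squarefree (∏ i, e i)) (i : κ) : Squarefree (e i) :=
  h.squarefree_of_dvd (Finset.dvd_prod_of_mem e (mem_univ i))

private theorem sqf_ne {κ : Type} [Fintype κ] [DecidableEq κ] (e : κ → ℕ)
    (h : Squarefree (∏ i, e i)) (i : κ) : e i ≠ 0 := (sqf_one e h i).ne_zero

private theorem prod_dvd_nat {ι : Type} (t : Finset ι) (f : ι → ℕ) (z : ℕ)
    (h1 : ∀ i ∈ t, f i ∣ z) (h2 : ∀ i ∈ t, ∀ j ∈ t, i ≠ j → Nat.Coprime (f i) (f j)) :
    ∏ i ∈ t, f i ∣ z := by
  apply Finset.prod_dvd_of_isRelPrime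
  · intro i hi j hj hij
    exact Nat.coprime_iff_isRelPrime.1 (h2 i hi j hj hij)
  · exact h1

private theorem pfac_prod {ι : Type} [Fintype ι] [DecidableEq ι] (f : ι → ℕ) (h : ∀ i, f i ≠ 0) :
    (∏ i, f i).primeFactors = univ.biUnion (fun i => (f i).primeFactors) := by
  ext p
  rw [Nat.mem_primeFactors_of_ne_zero (Finset.prod_ne_zero_iff.2 (fun i _ => h i)), mem_biUnion]
  constructor
  · rintro ⟨hp, hd⟩
    obtain ⟨i, _, hi⟩ := (hp.prime.dvd_finsetProd_iff _).1 hd
    exact ⟨i, mem_univ _, (Nat.mem_primeFactors_of_ne_zero (h i)).2 ⟨hp, hi⟩⟩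
  · rintro ⟨i, _, hi⟩
    rw [Nat.mem_primeFactors_of_ne_zero (h i)] at hi
    exact ⟨hi.1, dvd_trans hi.2 (Finset.dvd_prod_of_mem f (mem_univ i))⟩

private noncomputable def gg {κ L : Type} [DecidableEq κ] (s : Sys κ L) (u : L → ℕ → ℝ)
    (e : κ → ℕ) (ℓ : L) (p : ℕ) : ℝ :=
  if p ∣ e (s.idx ℓ) then u ℓ p * ∏ j ∈ s.St ℓ, (jacobiSym (e j) p : ℝ) else 0

private theorem step1 {κ L : Type} [Fintype κ] [DecidableEq κ] [Fintype L] [DecidableEq L]
    (s : Sys κ L) (u : L → ℕ → ℝ) (e : κ → ℕ) (h : Squarefree (∏ i, e i)) :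
    ∏ i, ∏ p ∈ (e i).primeFactors,
        ∑ ℓ with s.idx ℓ = i, u ℓ p * ∏ j ∈ s.St ℓ, (jacobiSym (e j) p : ℝ) =
      ∏ p ∈ (∏ i, e i).primeFactors, ∑ ℓ, gg s u e ℓ p := by
  have h1 : (∏ i, e i).primeFactors = univ.biUnion (fun i => (e i).primeFactors) :=
    pfac_prod e (sqf_ne e h)
  rw [h1, Finset.prod_biUnion]
  · apply Finset.prod_congr rfl
    intro i _
    apply Finset.prod_congr rfl
    intro p hp
    rw [Finset.sum_filter]
    apply Finset.sum_congr rfl
    intro ℓ _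
    unfold gg
    have hp' := Nat.dvd_of_mem_primeFactors hp
    have hpp := Nat.prime_of_mem_primeFactors hp
    by_cases hi : s.idx ℓ = i
    · rw [if_pos hi, if_pos (by rw [hi]; exact hp')]
    · rw [if_neg hi, if_neg]
      intro h2
      exact Nat.Prime.not_coprime_iff_dvd.2 ⟨p, hpp, h2, hp'⟩ (sqf_coprime e h hi)
  · intro i _ j _ hij
    exact Nat.Coprime.disjoint_primeFactors (sqf_coprime e h hij)

private theorem step2 {κ L : Type} [Fintype κ] [DecidableEq κ] [Fintype L] [DecidableEq L]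
    (s : Sys κ L) (u : L → ℕ → ℝ) (k : κ → ℕ → ℝ) (e : κ → ℕ) (d : L → ℕ)
    (h : Squarefree (∏ i, e i)) (hd : ∏ ℓ, d ℓ = ∏ i, e i) :
    (∏ i, k i (e i)) * ∏ ℓ, pf (gg s u e ℓ) (d ℓ) = if eOf s d = e then FF s u k d else 0 := by
  have hsd : Squarefree (∏ ℓ, d ℓ) := by rw [hd]; exact h
  split_ifs with he
  · subst he
    unfold FF
    congr 1
    apply Finset.prod_congr rfl
    intro ℓ _
    unfold pf
    have h1 : ∀ p ∈ (d ℓ).primeFactors, gg s u (eOf s d) ℓ p =
        u ℓ p * ∏ j ∈ s.St ℓ, (jacobiSym (eOf s d j) p : ℝ) := by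
      intro p hp
      unfold gg
      rw [if_pos]
      refine dvd_trans (Nat.dvd_of_mem_primeFactors hp) ?_
      unfold eOf
      exact Finset.dvd_prod_of_mem d (mem_filter.2 ⟨mem_univ _, rfl⟩)
    rw [Finset.prod_congr rfl h1, Finset.prod_mul_distrib, Finset.prod_comm]
    congr 1
    apply Finset.prod_congr rfl
    intro j _
    have h2 : d ℓ = ∏ p ∈ (d ℓ).primeFactors, p := (Nat.prod_primeFactors_of_squarefree (sqf_one d hsd ℓ)).symm
    have h3 : ∀ (T : Finset ℕ), (∀ p ∈ T, p ≠ 0) → ∀ a : ℤ,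
        jacobiSym a (∏ p ∈ T, p) = ∏ p ∈ T, jacobiSym a p := by
      intro T hT a
      induction T using Finset.induction_on with
      | empty => simp
      | insert q T hq ih =>
        rw [Finset.prod_insert hq, Finset.prod_insert hq]
        have : NeZero q := ⟨hT q (mem_insert_self _ _)⟩
        have : NeZero (∏ p ∈ T, p) :=
          ⟨Finset.prod_ne_zero_iff.2 (fun p hp => hT p (mem_insert_of_mem hp))⟩
        rw [jacobiSym.mul_right, ih (fun p hp => hT p (mem_insert_of_mem hp))]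
    conv_rhs => rw [h2]
    rw [h3 _ (fun p hp => (Nat.prime_of_mem_primeFactors hp).ne_zero)]
    push_cast
    rfl
  · -- some factor vanishes
    have hex : ∃ ℓ, ¬ (d ℓ ∣ e (s.idx ℓ)) := by
      by_contra hcon
      push Not at hcon
      apply he
      have h1 : ∀ i, eOf s d i ∣ e i := by
        intro i
        unfold eOf
        apply prod_dvd_nat
        · intro ℓ hℓ
          rw [mem_filter] at hℓ
          rw [← hℓ.2]
          exact hcon ℓ
        · intro a _ b _ hab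
          exact sqf_coprime d hsd hab
      have h2 : ∏ i, eOf s d i = ∏ i, e i := by rw [eOf_prod, hd]
      funext i
      by_contra hne
      have h3 : eOf s d i < e i :=
        lt_of_le_of_ne (Nat.le_of_dvd (Nat.pos_of_ne_zero (sqf_ne e h i)) (h1 i)) hne
      have h4 : ∏ i, eOf s d i < ∏ i, e i := by
        apply Finset.prod_lt_prod
        · intro j _
          have : eOf s d j ≠ 0 := by
            intro h0
            have := h1 j
            rw [h0, zero_dvd_iff] at this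
            exact sqf_ne e h j this
          exact Nat.pos_of_ne_zero this
        · intro j _
          exact Nat.le_of_dvd (Nat.pos_of_ne_zero (sqf_ne e h j)) (h1 j)
        · exact ⟨i, mem_univ _, h3⟩
      omega
    obtain ⟨ℓ, hℓ⟩ := hex
    have h5 : pf (gg s u e ℓ) (d ℓ) = 0 := by
      unfold pf
      have h6 : ∃ p ∈ (d ℓ).primeFactors, ¬ (p ∣ e (s.idx ℓ)) := by
        by_contra hcon
        push Not at hcon
        apply hℓ
        rw [← Nat.prod_primeFactors_of_squarefree (sqf_one d hsd ℓ)]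
        apply prod_dvd_nat
        · exact hcon
        · intro a ha b hb hab
          exact (Nat.coprime_primes (Nat.prime_of_mem_primeFactors ha)
            (Nat.prime_of_mem_primeFactors hb)).2 hab
      obtain ⟨p, hp, hp2⟩ := h6
      apply Finset.prod_eq_zero hp
      unfold gg
      rw [if_neg hp2]
    rw [Finset.prod_eq_zero (mem_univ ℓ) h5, mul_zero]

theorem expand {κ L : Type} [Fintype κ] [DecidableEq κ] [Fintype L] [DecidableEq L] (s : Sys κ L)
    (u : L → ℕ → ℝ) (k : κ → ℕ → ℝ) (X : ℕ) :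
    ∑ e ∈ Box κ X, ∏ i, (k i (e i) * ∏ p ∈ (e i).primeFactors,
        ∑ ℓ with s.idx ℓ = i, u ℓ p * ∏ j ∈ s.St ℓ, (jacobiSym (e j) p : ℝ)) =
      ∑ d ∈ Box L X, FF s u k d := by
  have h1 : ∀ e ∈ Box κ X, ∏ i, (k i (e i) * ∏ p ∈ (e i).primeFactors,
        ∑ ℓ with s.idx ℓ = i, u ℓ p * ∏ j ∈ s.St ℓ, (jacobiSym (e j) p : ℝ)) =
      ∑ d ∈ Box L X, if eOf s d = e then FF s u k d else 0 := by
    intro e he
    unfold Box at he
    rw [mem_filter, Fintype.mem_piFinset] at he
    obtain ⟨he1, he2, he3⟩ := he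
    rw [Finset.prod_mul_distrib, step1 s u e he3, prod_sum_eq (gg s u e) _ X he3 he2,
      Finset.mul_sum]
    have h2 : ∀ d ∈ (Fintype.piFinset fun _ : L => Icc 1 X).filter (fun d => ∏ ℓ, d ℓ = ∏ i, e i),
        (∏ i, k i (e i)) * ∏ ℓ, pf (gg s u e ℓ) (d ℓ) =
          if eOf s d = e then FF s u k d else 0 := by
      intro d hd
      rw [mem_filter] at hd
      exact step2 s u k e d he3 hd.2
    rw [Finset.sum_congr rfl h2]
    apply Finset.sum_subset_zero_on_sdiff
    · intro d hd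
      unfold Box
      rw [mem_filter] at hd ⊢
      refine ⟨hd.1, ?_, ?_⟩
      · rw [hd.2]; exact he2
      · rw [hd.2]; exact he3
    · intro d hd
      rw [mem_sdiff, mem_filter] at hd
      rw [if_neg]
      intro h3
      apply hd.2
      unfold Box at hd
      rw [mem_filter] at hd
      refine ⟨hd.1.1, ?_⟩
      rw [← eOf_prod s d, h3]
    · intro d _
      rfl
  rw [Finset.sum_congr rfl h1, Finset.sum_comm]
  apply Finset.sum_congr rfl
  intro d hd
  rw [Finset.sum_ite_eq, if_pos]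
  unfold Box at hd ⊢
  rw [mem_filter, Fintype.mem_piFinset] at hd ⊢
  obtain ⟨hd1, hd2, hd3⟩ := hd
  have h4 : ∀ i, eOf s d i ≠ 0 := by
    intro i
    unfold eOf
    rw [Finset.prod_ne_zero_iff]
    intro ℓ _
    exact sqf_ne d hd3 ℓ
  refine ⟨?_, ?_, ?_⟩
  · intro i
    rw [mem_Icc]
    refine ⟨Nat.pos_of_ne_zero (h4 i), ?_⟩
    calc eOf s d i ≤ ∏ i, eOf s d i := by
          apply Nat.le_of_dvd
          · exact Nat.pos_of_ne_zero (Finset.prod_ne_zero_iff.2 (fun i _ => h4 i))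
          · exact Finset.dvd_prod_of_mem _ (mem_univ i)
      _ = ∏ ℓ, d ℓ := eOf_prod s d
      _ ≤ X := hd2
  · rw [eOf_prod]; exact hd2
  · rw [eOf_prod]; exact hd3

end QT
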