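import Pool.Agent.Lib.MP_10e784_ag.QDefs

/-! JOB QHall.

Proof.  Put `W n = pf w n` for squarefree `n` and `0` else, so `0 ≤ W ≤ 1`, `S = ∑_{n ≤ x} W n`.
`S log x = ∑ W n log n + ∑ W n log (x/n)`.  The second sum is `≤ x ∑ W n / n` because `log t ≤ t`.
For the first: `log n = ∑_{p ∣ n} log p` for squarefree `n`, and for `p ∣ n`, `n = p m` we have `W n = w p * W m` with
`m` squarefree, so `∑_{n ≤ x} W n log n ≤ ∑_{m ≤ x} W m ∑_{p ≤ x/m} log p = ∑_{m ≤ x} W m θ(x/m)
≤ log 4 * x * ∑_{m ≤ x} W m / m` by Chebyshev (`Chebyshev.theta_le_log4_mul_x`). So `C = 1 + log 4 ≤ 3` works. -/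

namespace QT

open Finset

theorem QHall_pf_nonneg (w : ℕ → ℝ) (hw : ∀ p, p.Prime → 0 ≤ w p ∧ w p ≤ 1) (n : ℕ) :
    0 ≤ pf w n := by
  unfold pf
  apply prod_nonneg
  intro p hp
  exact (hw p (Nat.prime_of_mem_primeFactors hp)).1

theorem QHall_log_eq {n : ℕ} (hn : Squarefree n) :
    Real.log n = ∑ p ∈ n.primeFactors, Real.log p := by
  conv_lhs => rw [← Nat.prod_primeFactors_of_squarefree hn]
  rw [Nat.cast_prod, Real.log_prod]
  intro p hp
  have := (Nat.prime_of_mem_primeFactors hp).pos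
  positivity

theorem QHall_pf_div (w : ℕ → ℝ) (hw : ∀ p, p.Prime → 0 ≤ w p ∧ w p ≤ 1) {n p : ℕ}
    (hn : Squarefree n) (hp : p ∈ n.primeFactors) : pf w n ≤ pf w (n / p) := by
  have hpp := Nat.prime_of_mem_primeFactors hp
  have hdvd := Nat.dvd_of_mem_primeFactors hp
  have h1 : (n / p).primeFactors = n.primeFactors.erase p := by
    have hnp : n = p * (n / p) := (Nat.mul_div_cancel' hdvd).symm
    have hcop : Nat.Coprime p (n / p) := by
      rw [hnp] at hn
      exact Nat.coprime_of_squarefree_mul hn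
    have h2 : n.primeFactors = p.primeFactors ∪ (n / p).primeFactors := by
      conv_lhs => rw [hnp]
      exact hcop.primeFactors_mul
    rw [h2, hpp.primeFactors]
    ext q
    simp only [mem_erase, mem_union, mem_singleton]
    constructor
    · intro hq
      refine ⟨?_, Or.inr hq⟩
      rintro rfl
      have h3 := Nat.dvd_of_mem_primeFactors hq
      have h4 := Nat.dvd_gcd dvd_rfl h3
      rw [hcop.gcd_eq_one] at h4
      exact hpp.one_lt.ne' (Nat.dvd_one.mp h4)
    · rintro ⟨h3, h4⟩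
      rcases h4 with h4 | h4
      · exact absurd h4 h3
      · exact h4
  unfold pf
  rw [h1, ← mul_prod_erase _ _ hp]
  have h5 : 0 ≤ ∏ q ∈ n.primeFactors.erase p, w q := by
    apply prod_nonneg
    intro q hq
    exact (hw q (Nat.prime_of_mem_primeFactors (mem_of_mem_erase hq))).1
  exact mul_le_of_le_one_left h5 (hw p hpp).2

theorem hall (w : ℕ → ℝ) (hw : ∀ p, p.Prime → 0 ≤ w p ∧ w p ≤ 1) (x : ℝ) (hx : 1 ≤ x) :
    (∑ n ∈ (Icc 1 ⌊x⌋₊).filter Squarefree, pf w n) * Real.log x ≤
      3 * x * ∑ n ∈ (Icc 1 ⌊x⌋₊).filter Squarefree, pf w n / n := by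
  classical
  have hx0 : 0 < x := by linarith
  set S := (Icc 1 ⌊x⌋₊).filter Squarefree with hS
  have hmem : ∀ n ∈ S, 1 ≤ n ∧ (n : ℝ) ≤ x ∧ Squarefree n := by
    intro n hn
    rw [hS, mem_filter, mem_Icc] at hn
    refine ⟨hn.1.1, ?_, hn.2⟩
    exact (Nat.cast_le.mpr hn.1.2).trans (Nat.floor_le hx0.le)
  -- split the logarithm
  have hsplit : (∑ n ∈ S, pf w n) * Real.log x =
      ∑ n ∈ S, pf w n * Real.log n + ∑ n ∈ S, pf w n * Real.log (x / n) := by
    rw [sum_mul, ← sum_add_distrib]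
    apply sum_congr rfl
    intro n hn
    have hn1 := (hmem n hn).1
    have hn0 : (n : ℝ) ≠ 0 := by
      have : 0 < n := hn1
      positivity
    rw [Real.log_div hx0.ne' hn0]
    ring
  have hsecond : ∑ n ∈ S, pf w n * Real.log (x / n) ≤ x * ∑ n ∈ S, pf w n / n := by
    rw [mul_sum]
    apply sum_le_sum
    intro n hn
    have hn1 := (hmem n hn).1
    have hn0 : (0 : ℝ) < n := by exact_mod_cast hn1
    have h1 : Real.log (x / n) ≤ x / n := Real.log_le_self (by positivity)
    calc pf w n * Real.log (x / n) ≤ pf w n * (x / n) :=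
          mul_le_mul_of_nonneg_left h1 (QHall_pf_nonneg w hw n)
      _ = x * (pf w n / n) := by ring
  have hfirst : ∑ n ∈ S, pf w n * Real.log n ≤ Real.log 4 * x * ∑ n ∈ S, pf w n / n := by
    have e1 : ∀ n ∈ S, pf w n * Real.log n ≤ ∑ p ∈ n.primeFactors, pf w (n / p) * Real.log p := by
      intro n hn
      rw [QHall_log_eq (hmem n hn).2.2, mul_sum]
      apply sum_le_sum
      intro p hp
      apply mul_le_mul_of_nonneg_right (QHall_pf_div w hw (hmem n hn).2.2 hp)
      have := (Nat.prime_of_mem_primeFactors hp).one_lt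
      exact Real.log_nonneg (by exact_mod_cast this.le)
    have e2 : ∑ n ∈ S, ∑ p ∈ n.primeFactors, pf w (n / p) * Real.log p ≤
        ∑ m ∈ S, ∑ p ∈ (Ioc 0 ⌊x / m⌋₊).filter Nat.Prime, pf w m * Real.log p := by
      rw [sum_sigma', sum_sigma']
      set T := S.sigma (fun m => (Ioc 0 ⌊x / m⌋₊).filter Nat.Prime) with hT
      have hinj : Set.InjOn (fun a : (_ : ℕ) × ℕ => (⟨a.1 / a.2, a.2⟩ : (_ : ℕ) × ℕ))
          (S.sigma fun n => n.primeFactors : Finset ((_ : ℕ) × ℕ)) := by
        rintro ⟨n, p⟩ h1 ⟨n', p'⟩ h2 h3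
        simp only [coe_sigma, Set.mem_sigma_iff, mem_coe] at h1 h2
        simp only [Sigma.mk.injEq, heq_eq_eq] at h3
        obtain ⟨h4, rfl⟩ := h3
        have h5 := Nat.mul_div_cancel' (Nat.dvd_of_mem_primeFactors h1.2)
        have h6 := Nat.mul_div_cancel' (Nat.dvd_of_mem_primeFactors h2.2)
        have : n = n' := by rw [← h5, ← h6, h4]
        subst this
        rfl
      have himg : ((S.sigma fun n => n.primeFactors).image
          (fun a : (_ : ℕ) × ℕ => (⟨a.1 / a.2, a.2⟩ : (_ : ℕ) × ℕ))) ⊆ T := by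
        intro b hb
        rw [mem_image] at hb
        obtain ⟨⟨n, p⟩, ha, rfl⟩ := hb
        rw [mem_sigma] at ha
        obtain ⟨hn, hp⟩ := ha
        simp only at hn hp
        have hpp := Nat.prime_of_mem_primeFactors hp
        have hdvd := Nat.dvd_of_mem_primeFactors hp
        obtain ⟨hn1, hnx, hnsq⟩ := hmem n hn
        rw [hT, mem_sigma]
        have hnp : n / p * p = n := Nat.div_mul_cancel hdvd
        have hpos : 0 < n / p := Nat.div_pos (Nat.le_of_dvd hn1 hdvd) hpp.pos
        constructor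
        · rw [hS, mem_filter, mem_Icc]
          rw [hS, mem_filter, mem_Icc] at hn
          exact ⟨⟨hpos, (Nat.div_le_self n p).trans hn.1.2⟩,
            hnsq.squarefree_of_dvd (Nat.div_dvd_of_dvd hdvd)⟩
        · rw [mem_filter, mem_Ioc]
          refine ⟨⟨hpp.pos, ?_⟩, hpp⟩
          apply Nat.le_floor
          simp only
          rw [le_div_iff₀ (by exact_mod_cast hpos)]
          calc (p : ℝ) * ((n / p : ℕ) : ℝ) = ((n / p * p : ℕ) : ℝ) := by push_cast; ring
            _ = n := by rw [hnp]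
            _ ≤ x := hnx
      calc ∑ a ∈ S.sigma (fun n => n.primeFactors), pf w (a.1 / a.2) * Real.log a.2
          = ∑ b ∈ (S.sigma fun n => n.primeFactors).image
              (fun a : (_ : ℕ) × ℕ => (⟨a.1 / a.2, a.2⟩ : (_ : ℕ) × ℕ)),
              pf w b.1 * Real.log b.2 := by
            rw [sum_image hinj]
        _ ≤ ∑ b ∈ T, pf w b.1 * Real.log b.2 := by
            apply sum_le_sum_of_subset_of_nonneg himg
            intro b _ _
            apply mul_nonneg (QHall_pf_nonneg w hw _)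
            exact Real.log_natCast_nonneg _
    calc ∑ n ∈ S, pf w n * Real.log n
        ≤ ∑ n ∈ S, ∑ p ∈ n.primeFactors, pf w (n / p) * Real.log p := sum_le_sum e1
      _ ≤ ∑ m ∈ S, ∑ p ∈ (Ioc 0 ⌊x / m⌋₊).filter Nat.Prime, pf w m * Real.log p := e2
      _ = ∑ m ∈ S, pf w m * Chebyshev.theta (x / m) := by
          apply sum_congr rfl
          intro m _
          rw [← mul_sum]
          rfl
      _ ≤ ∑ m ∈ S, pf w m * (Real.log 4 * (x / m)) := by
          apply sum_le_sum
          intro m _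
          apply mul_le_mul_of_nonneg_left _ (QHall_pf_nonneg w hw m)
          exact Chebyshev.theta_le_log4_mul_x (by positivity)
      _ = Real.log 4 * x * ∑ n ∈ S, pf w n / n := by
          rw [mul_sum]
          apply sum_congr rfl
          intro m _
          ring
  have hlog4 : Real.log 4 ≤ 2 := by
    have h1 : Real.log 4 = 2 * Real.log 2 := by
      rw [show (4 : ℝ) = 2 ^ 2 by norm_num, Real.log_pow]
      norm_num
    have h2 := Real.log_two_lt_d9
    linarith
  have hR : 0 ≤ ∑ n ∈ S, pf w n / n := by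
    apply sum_nonneg
    intro n _
    exact div_nonneg (QHall_pf_nonneg w hw n) (Nat.cast_nonneg n)
  rw [hsplit]
  have h3 : Real.log 4 * x * ∑ n ∈ S, pf w n / n ≤ 2 * x * ∑ n ∈ S, pf w n / n := by
    gcongr
  linarith

end QT
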