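import Pool.Agent.Lib.MP_10e784_ag.QEven

/-! JOB QHasse.  `(x²-13)(x²-17)(x²-221)` has a root in every `ℚ_p` (and in `ℝ`), so all twists `D w² = ∏ (x² - a_i y²)` with
`13, 17, 221` among the `a_i` are everywhere locally soluble, while `100%` of them have no rational point (`even_none`).

Proof of `root_padic`.  `p ≠ 2, 13, 17`: the Legendre symbols satisfy `(13/p)(17/p) = (221/p)`, so one of `13, 17, 221` is a nonzero square mod `p`
(`legendreSym.mul`, values `±1`), and Hensel's lemma (`hensels_lemma` for `X^2 - C a` over `ℤ_[p]`; `2·root` is a unit) gives a root in `ℤ_[p]`.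
`p = 13`: `17 ≡ 2² mod 13`.  `p = 17`: `13 ≡ 8² mod 17`.  `p = 2`: `17 ≡ 1 mod 8`; Hensel with `a = 1`: `‖F(1)‖ = ‖1 - 17‖ = 1/16 < ‖F'(1)‖² = 1/4`.
`nonsquare` facts: `13, 17, 221` are not squares (not needed here: it is a hypothesis on all `a i`).
`local_soluble`: take `w = 0`, `y = 1`, `x` the root. -/

namespace QT

open Finset

private theorem qhasse_hensel (p : ℕ) [Fact p.Prime] (a s : ℤ)
    (h : ‖((s ^ 2 - a : ℤ) : ℤ_[p])‖ < ‖((2 * s : ℤ) : ℤ_[p])‖ ^ 2) :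
    ∃ x : ℚ_[p], x ^ 2 = a := by
  have h1 := hensels_lemma (p := p) (R := ℤ)
    (F := (Polynomial.X ^ 2 - Polynomial.C a : Polynomial ℤ)) (a := (s : ℤ_[p]))
    (by simpa [map_ofNat] using h)
  obtain ⟨z, hz, -⟩ := h1
  refine ⟨(z : ℚ_[p]), ?_⟩
  have h2 : z ^ 2 - (a : ℤ_[p]) = 0 := by simpa using hz
  have h3 : z ^ 2 = (a : ℤ_[p]) := sub_eq_zero.mp h2
  have h4 := congrArg (fun t : ℤ_[p] => (t : ℚ_[p])) h3
  simpa using h4

private theorem qhasse_odd (p : ℕ) [Fact p.Prime] (a s : ℤ) (h1 : (p : ℤ) ∣ s ^ 2 - a)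
    (h2 : ¬ (p : ℤ) ∣ 2 * s) : ∃ x : ℚ_[p], x ^ 2 = a := by
  apply qhasse_hensel p a s
  have h3 : ‖((s ^ 2 - a : ℤ) : ℤ_[p])‖ < 1 := (PadicInt.norm_int_lt_one_iff_dvd _).mpr h1
  have h4 : ¬ ‖((2 * s : ℤ) : ℤ_[p])‖ < 1 := fun h => h2 ((PadicInt.norm_int_lt_one_iff_dvd _).mp h)
  have h5 : ‖((2 * s : ℤ) : ℤ_[p])‖ ≤ 1 := PadicInt.norm_le_one _
  have h6 : ‖((2 * s : ℤ) : ℤ_[p])‖ = 1 := le_antisymm h5 (not_lt.mp h4)
  rw [h6, one_pow]
  exact h3

private theorem qhasse_leg (p : ℕ) [Fact p.Prime] (hp2 : p ≠ 2) (a : ℤ)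
    (h : legendreSym p a = 1) : ∃ x : ℚ_[p], x ^ 2 = a := by
  have ha0 : (a : ZMod p) ≠ 0 := by
    intro h0
    rw [(legendreSym.eq_zero_iff p a).mpr h0] at h
    exact zero_ne_one h
  obtain ⟨r, hr⟩ := (legendreSym.eq_one_iff p ha0).mp h
  refine qhasse_odd p a (r.val : ℤ) ?_ ?_
  · have h1 : (((r.val : ℤ) ^ 2 - a : ℤ) : ZMod p) = 0 := by
      push_cast
      rw [ZMod.natCast_val, ZMod.cast_id', id, hr]
      ring
    exact (ZMod.intCast_zmod_eq_zero_iff_dvd _ _).mp h1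
  · intro hd
    have h1 : ((2 * (r.val : ℤ) : ℤ) : ZMod p) = 0 := (ZMod.intCast_zmod_eq_zero_iff_dvd _ _).mpr hd
    push_cast at h1
    rw [ZMod.natCast_val, ZMod.cast_id', id] at h1
    rcases mul_eq_zero.mp h1 with h2 | h2
    · have h3 : (p : ℕ) ∣ 2 := by
        have h4 : ((2 : ℕ) : ZMod p) = 0 := by exact_mod_cast h2
        exact (ZMod.natCast_eq_zero_iff 2 p).mp h4
      exact hp2 ((Nat.prime_dvd_prime_iff_eq Fact.out Nat.prime_two).mp h3)
    · rw [h2] at hr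
      exact ha0 (by rw [hr]; ring)

theorem root_padic (p : ℕ) [Fact p.Prime] :
    ∃ x : ℚ_[p], (x ^ 2 - 13) * (x ^ 2 - 17) * (x ^ 2 - 221) = 0 := by
  have hp : p.Prime := Fact.out
  have key : (∃ x : ℚ_[p], x ^ 2 = ((13 : ℤ) : ℚ_[p])) ∨ (∃ x : ℚ_[p], x ^ 2 = ((17 : ℤ) : ℚ_[p])) ∨
      (∃ x : ℚ_[p], x ^ 2 = ((221 : ℤ) : ℚ_[p])) := by
    by_cases hp2 : p = 2
    · subst hp2
      right; left
      apply qhasse_hensel 2 17 1
      have h1 : ‖(((1 : ℤ) ^ 2 - 17 : ℤ) : ℤ_[2])‖ ≤ ((2 : ℕ) : ℝ) ^ (-((4 : ℕ) : ℤ)) := by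
        rw [PadicInt.norm_int_le_pow_iff_dvd]
        norm_num
      have h2 : ‖((2 * 1 : ℤ) : ℤ_[2])‖ = ((2 : ℕ) : ℝ)⁻¹ := by
        have h3 := PadicInt.norm_p (p := 2)
        have h4 : ((2 * 1 : ℤ) : ℤ_[2]) = ((2 : ℕ) : ℤ_[2]) := by norm_num
        rw [h4]
        exact h3
      rw [h2]
      refine lt_of_le_of_lt h1 ?_
      norm_num
    · by_cases hp13 : p = 13
      · subst hp13
        right; left
        exact qhasse_odd 13 17 2 (by norm_num) (by norm_num)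
      · by_cases hp17 : p = 17
        · subst hp17
          left
          exact qhasse_odd 17 13 8 (by norm_num) (by norm_num)
        · have n13 : ((13 : ℤ) : ZMod p) ≠ 0 := by
            intro h
            have h1 : ((13 : ℕ) : ZMod p) = 0 := by exact_mod_cast h
            have h2 : p ∣ 13 := (ZMod.natCast_eq_zero_iff 13 p).mp h1
            exact hp13 ((Nat.prime_dvd_prime_iff_eq hp (by norm_num)).mp h2)
          have n17 : ((17 : ℤ) : ZMod p) ≠ 0 := by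
            intro h
            have h1 : ((17 : ℕ) : ZMod p) = 0 := by exact_mod_cast h
            have h2 : p ∣ 17 := (ZMod.natCast_eq_zero_iff 17 p).mp h1
            exact hp17 ((Nat.prime_dvd_prime_iff_eq hp (by norm_num)).mp h2)
          rcases legendreSym.eq_one_or_neg_one p n13 with h13 | h13
          · exact Or.inl (qhasse_leg p hp2 13 h13)
          · rcases legendreSym.eq_one_or_neg_one p n17 with h17 | h17
            · exact Or.inr (Or.inl (qhasse_leg p hp2 17 h17))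
            · right; right
              apply qhasse_leg p hp2 221
              rw [show (221 : ℤ) = 13 * 17 by norm_num, legendreSym.mul, h13, h17]
              norm_num
  rcases key with ⟨x, hx⟩ | ⟨x, hx⟩ | ⟨x, hx⟩
  · refine ⟨x, ?_⟩
    rw [hx]
    push_cast
    ring
  · refine ⟨x, ?_⟩
    rw [hx]
    push_cast
    ring
  · refine ⟨x, ?_⟩
    rw [hx]
    push_cast
    ring

theorem local_soluble {ι : Type} [Fintype ι] [DecidableEq ι] (a : ι → ℤ) (i1 i2 i3 : ι) (h1 : a i1 = 13)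
    (h2 : a i2 = 17) (h3 : a i3 = 221) (D : ℤ) :
    (∀ (p : ℕ) [Fact p.Prime], ∃ x y w : ℚ_[p], (x, y) ≠ (0, 0) ∧
      (D : ℚ_[p]) * w ^ 2 = ∏ i, (x ^ 2 - (a i : ℚ_[p]) * y ^ 2)) ∧
    (∃ x y w : ℝ, (x, y) ≠ (0, 0) ∧ (D : ℝ) * w ^ 2 = ∏ i, (x ^ 2 - (a i : ℝ) * y ^ 2)) := by
  constructor
  · intro p _
    obtain ⟨x, hx⟩ := root_padic p
    refine ⟨x, 1, 0, fun h => one_ne_zero (congrArg Prod.snd h), ?_⟩
    rw [zero_pow two_ne_zero, mul_zero, eq_comm]
    rcases mul_eq_zero.mp hx with h | h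
    · rcases mul_eq_zero.mp h with h | h
      · refine Finset.prod_eq_zero (Finset.mem_univ i1) ?_
        rw [h1]
        push_cast
        linear_combination h
      · refine Finset.prod_eq_zero (Finset.mem_univ i2) ?_
        rw [h2]
        push_cast
        linear_combination h
    · refine Finset.prod_eq_zero (Finset.mem_univ i3) ?_
      rw [h3]
      push_cast
      linear_combination h
  · refine ⟨√13, 1, 0, fun h => one_ne_zero (congrArg Prod.snd h), ?_⟩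
    rw [zero_pow two_ne_zero, mul_zero, eq_comm]
    refine Finset.prod_eq_zero (Finset.mem_univ i1) ?_
    rw [h1, Real.sq_sqrt (by norm_num)]
    push_cast
    ring

end QT
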