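import Pool.Agent.Lib.MP_10e784_ag.QEngine
import Pool.Agent.Lib.MP_10e784_ag.QTriv
import Pool.Agent.Lib.MP_10e784_ag.QCharB

/-! JOB QInner.  The inner sum for a set `I` of large coordinates, `2 ≤ |I|`, `I ≠ univ` (the small coordinates are frozen in `γ`).

Setting: `γ i j` nonzero integers (the link integers), `b` an integer that is not a square, used only when `I.card = 2` for one index `i₀ ∈ I`.
We count vectors `e` with `e i = 1` off `I`, `τ < e i` on `I`, such that for `p ∣ e i`, `i ∈ I`: `(γ i j e j / p) = 1` for all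
`j ∈ I, j ≠ i`, and, if `I.card = 2`, `(b/p) = 1` for `p ∣ e i₀`.
Proof.  Labels `L = {ℓ : ι × Finset ι // ℓ.1 ∈ I ∧ ℓ.2 ⊆ I.erase ℓ.1}`, `k = I.card`,
`u ℓ p = if p = 2 then 0 else 2^(-(k-1)) * hh (idx ℓ) p * ∏_{j∈St ℓ} (γ (idx ℓ) j / p)`, where `hh i p = (1 + (b/p))/2` if `k = 2` and `i = i₀`, and
`hh i p = 1` otherwise.  For `i ∈ I` and an odd prime `p`:
`∑_{idx ℓ = i} u ℓ p ∏_{j∈St ℓ}(e j/p) = hh i p ∏_{j∈I∖{i}} (1 + (γ i j e j/p))/2 ≥ 0`, and it is `1` when the conditions hold at `p`.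
So the count is at most the sum in `engine`.  `h i p = 2^(-(k-1))`, except `h i₀ p = (1 + chi b p)/4` if `k = 2`.
`∑_{i∈I} h i p = k 2^(-(k-1)) ≤ 3/4` if `k ≥ 3` (take `χ` = indicator of 1, `B = 1 ≤ 5 + log|b|`), and
`= (1+chi b p)/4 + 1/2 = (3 + chi b p)/4` if `k = 2` (take `χ = chi b`, `B = 5 + log |b|`, `charB_chi`).
(`chi b 2 = 0` and `u ℓ 2 = 0`.)  `e i = 1` off `I`: these coordinates are automatically `1` in the engine sum when the summand is
nonzero, because for `i ∉ I` there are no labels. -/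

namespace QT

open Finset

/-- the label system of an index set -/
def QInner_sys {ι : Type} [DecidableEq ι] (I : Finset ι) :
    Sys ι {ℓ : ι × Finset ι // ℓ.1 ∈ I ∧ ℓ.2 ⊆ I.erase ℓ.1} where
  idx ℓ := ℓ.1.1
  St ℓ := ℓ.1.2
  I := I
  idx_mem ℓ := ℓ.2.1
  St_sub ℓ := ℓ.2.2.trans (erase_subset _ _)
  not_mem ℓ h := by simpa using ℓ.2.2 h
  inj _ _ h1 h2 := Subtype.ext (Prod.ext h1 h2)

private lemma sum_labels {ι : Type} [Fintype ι] [DecidableEq ι] (I : Finset ι) (i : ι) (hi : i ∈ I)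
    [Fintype {ℓ : ι × Finset ι // ℓ.1 ∈ I ∧ ℓ.2 ⊆ I.erase ℓ.1}] (G : Finset ι → ℝ) :
    ∑ ℓ : {ℓ : ι × Finset ι // ℓ.1 ∈ I ∧ ℓ.2 ⊆ I.erase ℓ.1} with (QInner_sys I).idx ℓ = i,
      G ((QInner_sys I).St ℓ) = ∑ S ∈ (I.erase i).powerset, G S := by
  refine Finset.sum_bij' (fun ℓ _ => ℓ.1.2)
    (fun S hS => ⟨(i, S), hi, Finset.mem_powerset.1 hS⟩) ?_ ?_ ?_ ?_ ?_
  · rintro ⟨⟨a, S⟩, h1, h2⟩ h
    have h' : a = i := (Finset.mem_filter.1 h).2
    subst h'
    exact Finset.mem_powerset.2 h2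
  · intro S hS
    exact Finset.mem_filter.2 ⟨Finset.mem_univ _, rfl⟩
  · rintro ⟨⟨a, S⟩, h1, h2⟩ h
    have h' : a = i := (Finset.mem_filter.1 h).2
    subst h'
    rfl
  · intro S hS
    rfl
  · intro ℓ _
    rfl

private lemma abs_jac_le (a : ℤ) (p : ℕ) : |(jacobiSym a p : ℝ)| ≤ 1 := by
  rcases jacobiSym.trichotomy a p with h | h | h <;> simp [h]

private lemma jac_le (a : ℤ) (p : ℕ) : (jacobiSym a p : ℝ) ≤ 1 :=
  (abs_le.1 (abs_jac_le a p)).2

private lemma neg_le_jac (a : ℤ) (p : ℕ) : -1 ≤ (jacobiSym a p : ℝ) :=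
  (abs_le.1 (abs_jac_le a p)).1

private lemma abs_prod_jac_le {ι : Type} (S : Finset ι) (f : ι → ℤ) (p : ℕ) :
    |∏ j ∈ S, (jacobiSym (f j) p : ℝ)| ≤ 1 := by
  rw [Finset.abs_prod]
  exact Finset.prod_le_one (fun _ _ => abs_nonneg _) (fun _ _ => abs_jac_le _ _)

private lemma label_sum {ι : Type} [Fintype ι] [DecidableEq ι] (I : Finset ι) (i : ι) (hi : i ∈ I)
    [Fintype {ℓ : ι × Finset ι // ℓ.1 ∈ I ∧ ℓ.2 ⊆ I.erase ℓ.1}] (γ : ι → ι → ℤ) (e : ι → ℕ) (c : ℝ)
    (hh : ι → ℕ → ℝ) (p : ℕ) :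
    ∑ ℓ : {ℓ : ι × Finset ι // ℓ.1 ∈ I ∧ ℓ.2 ⊆ I.erase ℓ.1} with (QInner_sys I).idx ℓ = i,
      (if p = 2 then 0 else c * hh ((QInner_sys I).idx ℓ) p *
        ∏ j ∈ (QInner_sys I).St ℓ, (jacobiSym (γ ((QInner_sys I).idx ℓ) j) p : ℝ)) *
        ∏ j ∈ (QInner_sys I).St ℓ, (jacobiSym (e j) p : ℝ) =
    if p = 2 then 0 else c * hh i p * ∏ j ∈ I.erase i, (1 + (jacobiSym (γ i j * e j) p : ℝ)) := by
  have h1 : ∑ ℓ : {ℓ : ι × Finset ι // ℓ.1 ∈ I ∧ ℓ.2 ⊆ I.erase ℓ.1} with
      (QInner_sys I).idx ℓ = i,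
      (if p = 2 then 0 else c * hh ((QInner_sys I).idx ℓ) p *
        ∏ j ∈ (QInner_sys I).St ℓ, (jacobiSym (γ ((QInner_sys I).idx ℓ) j) p : ℝ)) *
        ∏ j ∈ (QInner_sys I).St ℓ, (jacobiSym (e j) p : ℝ) =
      ∑ ℓ : {ℓ : ι × Finset ι // ℓ.1 ∈ I ∧ ℓ.2 ⊆ I.erase ℓ.1} with (QInner_sys I).idx ℓ = i,
        (fun S : Finset ι => (if p = 2 then 0 else c * hh i p *
          ∏ j ∈ S, (jacobiSym (γ i j * e j) p : ℝ))) ((QInner_sys I).St ℓ) := by
    refine Finset.sum_congr rfl fun ℓ hℓ => ?_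
    have hℓ' : (QInner_sys I).idx ℓ = i := (Finset.mem_filter.1 hℓ).2
    simp only [hℓ']
    split_ifs with h2
    · simp
    · rw [mul_assoc, ← Finset.prod_mul_distrib]
      congr 1
      refine Finset.prod_congr rfl fun j _ => ?_
      rw [jacobiSym.mul_left]
      push_cast
      ring
  rw [h1, sum_labels I i hi (fun S : Finset ι => (if p = 2 then 0 else c * hh i p *
          ∏ j ∈ S, (jacobiSym (γ i j * e j) p : ℝ)))]
  split_ifs with h2
  · simp
  · rw [← Finset.mul_sum, Finset.prod_one_add]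

open Classical in
theorem inner_bound {ι : Type} [Fintype ι] [DecidableEq ι] (I : Finset ι) (hI : 2 ≤ I.card) :
    ∃ (C : ℝ) (K : ℕ), 0 < C ∧ ∀ (γ : ι → ι → ℤ) (b : ℤ) (i₀ : ι) (X : ℕ) (V τ : ℝ),
    ¬ IsSquare b → i₀ ∈ I → 16 ≤ X → 1 ≤ V → V ^ K ≤ τ → V ^ K ≤ X →
    (((Box ι X).filter fun e => Odd (∏ i, e i) ∧ (∀ i ∉ I, e i = 1) ∧ (∀ i ∈ I, τ < e i) ∧
        (∀ i ∈ I, ∀ p : ℕ, p.Prime → p ∣ e i → ∀ j ∈ I, j ≠ i → jacobiSym (γ i j * e j) p = 1) ∧
        (I.card = 2 → ∀ p : ℕ, p.Prime → p ∣ e i₀ → jacobiSym b p = 1)).card : ℝ) ≤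
      C * X * ((1 + Real.log X) ^ K * V ^ (-(1 / 16) : ℝ) +
        Real.log X ^ (-(1 / 4) : ℝ) * (5 + Real.log b.natAbs) * (1 + Real.log V) ^ K) := by
  obtain ⟨C, K, hC, hE⟩ := engine (QInner_sys I)
  refine ⟨C, K, hC, ?_⟩
  intro γ b i₀ X V τ hb hi₀ hX hV hVτ hVX
  have hb0 : b ≠ 0 := by
    rintro rfl
    exact hb (IsSquare.zero)
  have hlogb : 0 ≤ Real.log b.natAbs := Real.log_natCast_nonneg _
  set k := I.card with hk
  set c : ℝ := (1 / 2) ^ (k - 1) with hc
  have hc0 : 0 < c := by positivity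
  have hc1 : c ≤ 1 := pow_le_one₀ (by norm_num) (by norm_num)
  set hh : ι → ℕ → ℝ := fun i p => if k = 2 ∧ i = i₀ then (1 + (jacobiSym b p : ℝ)) / 2 else 1
    with hhh
  have hh0 : ∀ i p, 0 ≤ hh i p := by
    intro i p
    simp only [hhh]
    split_ifs
    · have := neg_le_jac b p
      linarith
    · norm_num
  have hh1 : ∀ i p, hh i p ≤ 1 := by
    intro i p
    simp only [hhh]
    split_ifs
    · have := jac_le b p
      linarith
    · norm_num
  set u : {ℓ : ι × Finset ι // ℓ.1 ∈ I ∧ ℓ.2 ⊆ I.erase ℓ.1} → ℕ → ℝ := fun ℓ p =>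
    if p = 2 then 0 else c * hh ((QInner_sys I).idx ℓ) p *
      ∏ j ∈ (QInner_sys I).St ℓ, (jacobiSym (γ ((QInner_sys I).idx ℓ) j) p : ℝ) with hu
  set h : ι → ℕ → ℝ := fun i p => c * (if p = 2 then (if k = 2 ∧ i = i₀ then 1 / 2 else 1)
    else hh i p) with hhdef
  have hu_abs : ∀ ℓ p, |u ℓ p| ≤ c * hh ((QInner_sys I).idx ℓ) p := by
    intro ℓ p
    simp only [hu]
    split_ifs with h2
    · rw [abs_zero]
      exact mul_nonneg hc0.le (hh0 _ _)
    · rw [abs_mul, abs_of_nonneg (mul_nonneg hc0.le (hh0 _ _))]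
      exact mul_le_of_le_one_right (mul_nonneg hc0.le (hh0 _ _)) (abs_prod_jac_le _ _ _)
  -- the choice of the character
  obtain ⟨χ, B, hχ, hB, hsum⟩ : ∃ (χ : ℕ → ℝ) (B : ℝ), CharB χ B ∧
      B ^ (1 / 4 : ℝ) ≤ 5 + Real.log b.natAbs ∧
      ∀ p, p.Prime → ∑ i ∈ I, h i p ≤ (3 + χ p) / 4 := by
    by_cases hk2 : k = 2
    · refine ⟨chi b, _, charB_chi b hb, ?_, ?_⟩
      · calc (5 + Real.log b.natAbs) ^ (1 / 4 : ℝ) ≤ (5 + Real.log b.natAbs) ^ (1 : ℝ) :=
              Real.rpow_le_rpow_of_exponent_le (by linarith) (by norm_num)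
          _ = _ := Real.rpow_one _
      · intro p hp
        have hcc : c = 1 / 2 := by rw [hc, hk2]; norm_num
        rw [← Finset.add_sum_erase I _ hi₀]
        have h1 : ∑ i ∈ I.erase i₀, h i p = 1 / 2 := by
          have h2 : ∀ i ∈ I.erase i₀, h i p = 1 / 2 := by
            intro i hi
            have hne : i ≠ i₀ := (Finset.mem_erase.1 hi).1
            simp [hhdef, hhh, hne, hcc]
          rw [Finset.sum_congr rfl h2, Finset.sum_const, Finset.card_erase_of_mem hi₀, ← hk, hk2]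
          norm_num
        rw [h1]
        by_cases hp2 : p = 2
        · subst hp2
          have h3 : chi b 2 = 0 := by
            unfold chi
            rw [if_neg (by decide)]
          rw [h3]
          simp only [hhdef, hk2, hcc, true_and, if_true]
          norm_num
        · have h3 : chi b p = (jacobiSym b p : ℝ) := by
            unfold chi
            rw [if_pos (hp.odd_of_ne_two hp2)]
          rw [h3]
          simp only [hhdef, hhh, hk2, hcc, true_and, if_true, if_neg hp2]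
          linarith
    · refine ⟨_, 1, charB_one, ?_, ?_⟩
      · rw [Real.one_rpow]
        linarith
      · intro p hp
        have hp1 : p ≠ 1 := hp.one_lt.ne'
        have h3 : ∀ i ∈ I, h i p ≤ c := by
          intro i _
          simp only [hhdef]
          refine mul_le_of_le_one_right hc0.le ?_
          simp only [hk2, false_and, if_false]
          split_ifs
          · exact le_rfl
          · exact hh1 _ _
        have h4 : ∑ i ∈ I, h i p ≤ k * c := by
          calc ∑ i ∈ I, h i p ≤ ∑ i ∈ I, c := Finset.sum_le_sum h3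
            _ = k * c := by rw [Finset.sum_const, nsmul_eq_mul]
        rw [if_neg hp1]
        refine h4.trans ?_
        have hk3 : 3 ≤ k := by omega
        have h5 : ∀ m : ℕ, ((m + 3 : ℕ) : ℝ) * (1 / 2) ^ (m + 2) ≤ 3 / 4 := by
          intro m
          induction m with
          | zero => norm_num
          | succ m ih =>
            have h6 : ((m + 1 + 3 : ℕ) : ℝ) * (1 / 2) ^ (m + 1 + 2) =
              (((m + 3 : ℕ) : ℝ) * (1 / 2) ^ (m + 2)) * (1 / 2) + (1 / 2) ^ (m + 3) := by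
              push_cast
              ring
            have h7 : ((1 : ℝ) / 2) ^ (m + 3) ≤ (1 / 2) ^ 3 :=
              pow_le_pow_of_le_one (by norm_num) (by norm_num) (by omega)
            have h8 : ((1 : ℝ) / 2) ^ 3 = 1 / 8 := by norm_num
            rw [h8] at h7
            rw [h6]
            linarith
        have h8 := h5 (k - 3)
        rw [show k - 3 + 3 = k by omega, show k - 3 + 2 = k - 1 by omega] at h8
        rw [hc]
        linarith
  -- the main inequality
  have key := hE u h χ B V τ X hχ ?_ ?_ ?_ ?_ hsum hV hVτ hVX hX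
  · refine le_trans ?_ (key.trans ?_)
    · refine le_trans ?_ (le_abs_self _)
      -- nonnegativity of the summands
      have hval : ∀ (e : ι → ℕ) (i : ι), i ∈ I → ∀ p,
          ∑ ℓ with (QInner_sys I).idx ℓ = i,
            u ℓ p * ∏ j ∈ (QInner_sys I).St ℓ, (jacobiSym (e j) p : ℝ) =
          if p = 2 then 0 else c * hh i p *
            ∏ j ∈ I.erase i, (1 + (jacobiSym (γ i j * e j) p : ℝ)) := by
        intro e i hi p
        exact label_sum I i hi γ e c hh p
      have hnn : ∀ (e : ι → ℕ), 0 ≤ ∏ i, ∏ p ∈ (e i).primeFactors,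
          ∑ ℓ with (QInner_sys I).idx ℓ = i,
            u ℓ p * ∏ j ∈ (QInner_sys I).St ℓ, (jacobiSym (e j) p : ℝ) := by
        intro e
        refine Finset.prod_nonneg fun i _ => Finset.prod_nonneg fun p _ => ?_
        by_cases hi : i ∈ I
        · rw [hval e i hi]
          split_ifs
          · exact le_rfl
          · refine mul_nonneg (mul_nonneg hc0.le (hh0 _ _)) (Finset.prod_nonneg fun j _ => ?_)
            have := neg_le_jac (γ i j * e j) p
            linarith
        · rw [Finset.filter_eq_empty_iff.2, Finset.sum_empty]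
          rintro ⟨⟨a, S⟩, h1, h2⟩ _ h3
          simp only [QInner_sys] at h3
          subst h3
          exact hi h1
      rw [Finset.card_eq_sum_ones, Nat.cast_sum]
      have hsub : ((Box ι X).filter fun e => Odd (∏ i, e i) ∧ (∀ i ∉ I, e i = 1) ∧
          (∀ i ∈ I, τ < e i) ∧
          (∀ i ∈ I, ∀ p : ℕ, p.Prime → p ∣ e i → ∀ j ∈ I, j ≠ i →
            jacobiSym (γ i j * e j) p = 1) ∧
          (I.card = 2 → ∀ p : ℕ, p.Prime → p ∣ e i₀ → jacobiSym b p = 1)) ⊆
          (Box ι X).filter fun e => ∀ i ∈ I, τ < e i := by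
        intro e he
        simp only [Finset.mem_filter] at he ⊢
        exact ⟨he.1, he.2.2.2.1⟩
      refine le_trans ?_ (Finset.sum_le_sum_of_subset_of_nonneg hsub (fun e _ _ => hnn e))
      refine Finset.sum_le_sum fun e he => ?_
      obtain ⟨heB, hodd, hoff, hlarge, hloc, hcard2⟩ := Finset.mem_filter.1 he
      push_cast
      refine le_of_eq ?_
      symm
      refine Finset.prod_eq_one fun i _ => ?_
      by_cases hi : i ∈ I
      · refine Finset.prod_eq_one fun p hp => ?_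
        have hpp : p.Prime := Nat.prime_of_mem_primeFactors hp
        have hpd : p ∣ e i := Nat.dvd_of_mem_primeFactors hp
        have hp2 : p ≠ 2 := by
          rintro rfl
          have h1 : 2 ∣ ∏ i, e i := hpd.trans (Finset.dvd_prod_of_mem _ (Finset.mem_univ i))
          exact (Nat.not_even_iff_odd.2 hodd) (even_iff_two_dvd.2 h1)
        rw [hval e i hi, if_neg hp2]
        have h1 : hh i p = 1 := by
          simp only [hhh]
          split_ifs with h2
          · rw [h2.2] at hpd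
            rw [hcard2 (hk ▸ h2.1) p hpp hpd]
            norm_num
          · rfl
        have h2 : ∏ j ∈ I.erase i, (1 + (jacobiSym (γ i j * e j) p : ℝ)) = 2 ^ (k - 1) := by
          have h3 : ∀ j ∈ I.erase i, (1 + (jacobiSym (γ i j * e j) p : ℝ)) = 2 := by
            intro j hj
            rw [hloc i hi p hpp hpd j (Finset.mem_erase.1 hj).2 (Finset.mem_erase.1 hj).1]
            norm_num
          rw [Finset.prod_congr rfl h3, Finset.prod_const, Finset.card_erase_of_mem hi]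
        rw [h1, h2, hc, mul_one, ← mul_pow]
        norm_num
      · rw [hoff i hi]
        simp
    · have hX0 : (0 : ℝ) ≤ X := Nat.cast_nonneg _
      have hlogX : 0 ≤ Real.log X := Real.log_natCast_nonneg _
      have hlogV : 0 ≤ Real.log V := Real.log_nonneg hV
      gcongr
  · intro ℓ p
    refine (hu_abs ℓ p).trans ?_
    calc c * hh ((QInner_sys I).idx ℓ) p ≤ 1 * 1 := by
          gcongr
          · exact hh0 _ _
          · exact hh1 _ _
      _ = 1 := one_mul _
  · intro ℓ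
    simp [hu]
  · intro ℓ p hp
    by_cases hp2 : p = 2
    · have h1 : u ℓ p = 0 := by simp [hu, hp2]
      rw [h1, abs_zero]
      simp only [hhdef, if_pos hp2]
      positivity
    · refine (hu_abs ℓ p).trans ?_
      simp only [hhdef, if_neg hp2]
      exact le_rfl
  · intro i p
    simp only [hhdef]
    refine mul_nonneg hc0.le ?_
    split_ifs
    · norm_num
    · norm_num
    · exact hh0 _ _

end QT
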