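import Pool.Agent.Lib.MP_10e784_ag.QDefs

/-! JOB QJac.  A non-square integer has a Jacobi symbol equal to `-1`.

Proof.  `b ≠ 0`.  Write `|b| = k ^ 2 * a` with `a` squarefree. All `n` below are odd and coprime to `k`.
(1) `a = q * a'` with an odd prime `q`: `n ≡ r mod q` with `r` a non-residue mod `q`, `n ≡ 1 mod 8 a'` and modulo the
    part of `k` prime to `q`. Then `J(-1|n) = 1`, `J(q|n) = J(n|q) = -1`, `J(a'|n) = 1`.
(2) `a = 2`: `n ≡ 5 mod 8`: `J(-1|n) = 1`, `J(2|n) = -1`.
(3) `a = 1`: then `b = -k^2`; take `n ≡ 3 mod 8`: `J(-1|n) = -1`. -/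

namespace QT

private theorem qjac_sq {k n : ℕ} (h : Nat.Coprime k n) : jacobiSym ((k : ℤ) ^ 2) n = 1 := by
  apply jacobiSym.sq_one'
  simpa using h

private theorem qjac_small (k c : ℕ) (hk : k ≠ 0) (hc : c % 2 = 1) :
    ∃ n : ℕ, n % 8 = c % 8 ∧ Nat.Coprime k n := by
  obtain ⟨j, m, hm, rfl⟩ := Nat.exists_eq_pow_mul_and_not_dvd hk 2 (by norm_num)
  have hco : Nat.Coprime 8 m := by
    have : Nat.Coprime 2 m := (Nat.Prime.coprime_iff_not_dvd Nat.prime_two).mpr hm
    exact Nat.Coprime.pow_left 3 this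
  obtain ⟨n, hn1, hn2⟩ := Nat.chineseRemainder hco c 1
  refine ⟨n, hn1, ?_⟩
  have h1 : n % 2 = 1 := by
    have : n % 8 = c % 8 := hn1
    omega
  refine Nat.Coprime.mul_left (Nat.Coprime.pow_left _ ?_) ?_
  · rw [Nat.Prime.coprime_iff_not_dvd Nat.prime_two]
    omega
  · have h2 : Nat.gcd n m = Nat.gcd 1 m := Nat.ModEq.gcd_eq hn2
    rw [Nat.Coprime, Nat.gcd_comm, h2, Nat.gcd_one_left]

theorem exists_jacobi_neg_one (b : ℤ) (hb : ¬ IsSquare b) :
    ∃ n : ℕ, Odd n ∧ jacobiSym b n = -1 := by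
  have hb0 : b ≠ 0 := by
    rintro rfl
    exact hb ⟨0, by simp⟩
  obtain ⟨a, k, hak, hsf⟩ := Nat.sq_mul_squarefree b.natAbs
  have hk0 : k ≠ 0 := by
    rintro rfl
    rw [zero_pow two_ne_zero, zero_mul] at hak
    exact hb0 (Int.natAbs_eq_zero.mp hak.symm)
  have ha0 : a ≠ 0 := hsf.ne_zero
  have hcast : ((b.natAbs : ℕ) : ℤ) = (k : ℤ) ^ 2 * (a : ℤ) := by
    rw [← hak]
    push_cast
    ring
  -- `b` is `k ^ 2 * a` up to sign
  have hbs : b = (k : ℤ) ^ 2 * a ∨ b = -((k : ℤ) ^ 2 * a) := by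
    rcases Int.natAbs_eq b with h | h
    · left
      rw [← hcast]
      exact h
    · right
      rw [← hcast]
      exact h
  by_cases hq : ∃ q : ℕ, q.Prime ∧ q ≠ 2 ∧ q ∣ a
  · obtain ⟨q, hqp, hq2, a', rfl⟩ := hq
    have : Fact q.Prime := ⟨hqp⟩
    have hqa : ¬ q ∣ a' := by
      intro h
      have h1 : q * q ∣ q * a' := Nat.mul_dvd_mul_left q h
      exact hqp.not_isUnit (hsf q h1)
    have ha'0 : a' ≠ 0 := by
      rintro rfl
      exact hqa (dvd_zero q)
    obtain ⟨j, k', hk', rfl⟩ := Nat.exists_eq_pow_mul_and_not_dvd hk0 q hqp.ne_one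
    have hk'0 : k' ≠ 0 := by
      rintro rfl
      exact hk' (dvd_zero q)
    have hqodd : ¬ q ∣ 8 := by
      intro h
      have h1 : q ∣ 2 ^ 3 := by simpa using h
      have h2 := hqp.dvd_of_dvd_pow h1
      exact hq2 ((Nat.prime_dvd_prime_iff_eq hqp Nat.prime_two).mp h2)
    have hco : Nat.Coprime q (8 * a' * k') := by
      rw [Nat.Prime.coprime_iff_not_dvd hqp]
      intro h
      rcases (hqp.dvd_mul).mp h with h | h
      · rcases (hqp.dvd_mul).mp h with h | h
        · exact hqodd h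
        · exact hqa h
      · exact hk' h
    -- a non-residue
    obtain ⟨r, hr⟩ : ∃ r : ZMod q, ¬ IsSquare r :=
      FiniteField.exists_nonsquare (by rw [ZMod.ringChar_zmod_n]; exact hq2)
    obtain ⟨n, hn1, hn2⟩ := Nat.chineseRemainder hco r.val 1
    have hn8 : n % 8 = 1 := by
      have h1 : n ≡ 1 [MOD 8] := hn2.of_dvd ⟨a' * k', by ring⟩
      have h2 : n % 8 = 1 % 8 := h1
      omega
    have hnodd : Odd n := Nat.odd_iff.mpr (by omega)
    have hnq : jacobiSym (n : ℤ) q = -1 := by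
      have h1 : jacobiSym (n : ℤ) q = jacobiSym ((r.val : ℕ) : ℤ) q := by
        apply jacobiSym.mod_left'
        exact_mod_cast congrArg (Nat.cast : ℕ → ℤ) hn1
      rw [h1, ← jacobiSym.legendreSym.to_jacobiSym, legendreSym.eq_neg_one_iff]
      simpa using hr
    have hqodd2 : Odd q := hqp.odd_of_ne_two hq2
    have hJq : jacobiSym (q : ℤ) n = -1 := by
      rw [jacobiSym.quadratic_reciprocity_one_mod_four' hqodd2 (by omega)]
      exact hnq
    have hJa : jacobiSym (a' : ℤ) n = 1 := by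
      rw [jacobiSym.mod_right' a' hnodd]
      have h1 : n ≡ 1 [MOD 4 * a'] := hn2.of_dvd ⟨2 * k', by ring⟩
      have h2 : n % (4 * a') = 1 % (4 * a') := h1
      rw [h2, Nat.mod_eq_of_lt (by omega)]
      exact jacobiSym.one_right _
    have hcop : Nat.Coprime (q ^ j * k') n := by
      refine Nat.Coprime.mul_left (Nat.Coprime.pow_left _ ?_) ?_
      · rw [Nat.Prime.coprime_iff_not_dvd hqp]
        intro h
        have h3 : jacobiSym (n : ℤ) q = 0 := by
          rw [jacobiSym.eq_zero_iff_not_coprime]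
          intro h4
          have h5 : Nat.gcd n q = 1 := by simpa using h4
          have h6 : q ∣ Nat.gcd n q := Nat.dvd_gcd h dvd_rfl
          rw [h5] at h6
          exact hqp.one_lt.ne' (Nat.dvd_one.mp h6)
        rw [h3] at hnq
        norm_num at hnq
      · have h1 : n ≡ 1 [MOD k'] := hn2.of_dvd ⟨8 * a', by ring⟩
        have h2 : Nat.gcd n k' = Nat.gcd 1 k' := Nat.ModEq.gcd_eq h1
        rw [Nat.Coprime, Nat.gcd_comm, h2, Nat.gcd_one_left]
    have hmain : jacobiSym (((q ^ j * k' : ℕ) : ℤ) ^ 2 * ((q * a' : ℕ) : ℤ)) n = -1 := by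
      rw [jacobiSym.mul_left, qjac_sq hcop]
      push_cast
      rw [jacobiSym.mul_left, hJq, hJa]
      norm_num
    refine ⟨n, hnodd, ?_⟩
    rcases hbs with h | h
    · rw [h]
      exact hmain
    · rw [h, jacobiSym.neg _ hnodd, hmain, ZMod.χ₄_nat_one_mod_four (by omega)]
      norm_num
  · -- `a` is `1` or `2`
    have ha12 : a = 1 ∨ a = 2 := by
      by_cases ha1 : a = 1
      · exact Or.inl ha1
      · right
        obtain ⟨p, hp, hpa⟩ := Nat.exists_prime_and_dvd ha1
        have hp2 : p = 2 := by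
          by_contra hne
          exact hq ⟨p, hp, hne, hpa⟩
        subst hp2
        obtain ⟨a', rfl⟩ := hpa
        by_cases ha'1 : a' = 1
        · rw [ha'1]
        · exfalso
          obtain ⟨p, hp', hpa'⟩ := Nat.exists_prime_and_dvd ha'1
          have hp2 : p = 2 := by
            by_contra hne
            exact hq ⟨p, hp', hne, Dvd.dvd.mul_left hpa' 2⟩
          subst hp2
          exact Nat.prime_two.not_isUnit (hsf 2 (Nat.mul_dvd_mul_left 2 hpa'))
    rcases ha12 with rfl | rfl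
    · -- `b = -k^2`
      rcases hbs with h | h
      · exact absurd ⟨(k : ℤ), by rw [h]; push_cast; ring⟩ hb
      · obtain ⟨n, hn, hco⟩ := qjac_small k 3 hk0 (by norm_num)
        have hnodd : Odd n := Nat.odd_iff.mpr (by omega)
        refine ⟨n, hnodd, ?_⟩
        rw [h, jacobiSym.neg _ hnodd]
        push_cast
        rw [mul_one, qjac_sq hco, ZMod.χ₄_nat_three_mod_four (by omega)]
        norm_num
    · obtain ⟨n, hn, hco⟩ := qjac_small k 5 hk0 (by norm_num)
      have hnodd : Odd n := Nat.odd_iff.mpr (by omega)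
      have h2 : jacobiSym 2 n = -1 := by
        rw [jacobiSym.at_two hnodd, ZMod.χ₈_nat_eq_if_mod_eight]
        have h3 : n % 8 = 5 := by omega
        have h4 : n % 2 = 1 := by omega
        simp [h3, h4]
      refine ⟨n, hnodd, ?_⟩
      have hmain : jacobiSym ((k : ℤ) ^ 2 * ((2 : ℕ) : ℤ)) n = -1 := by
        rw [jacobiSym.mul_left, qjac_sq hco]
        push_cast
        rw [h2]
        norm_num
      rcases hbs with h | h
      · rw [h]
        exact hmain
      · rw [h, jacobiSym.neg _ hnodd, hmain, ZMod.χ₄_nat_one_mod_four (by omega)]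
        norm_num

end QT
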