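import Pool.Agent.Lib.MP_10e784_ag.QDefs

/-! JOB QLocal.  Congruences for linear forms.

Notation: `lf α β i X Y = α i X + β i Y`, `dl α β i j = α j β i - α i β j` (the value of the `j`-th form at the root `(β i, -α i)` of the `i`-th).
`local_one`: `p` an odd prime not dividing any `dl i j` (`j ≠ i`), `p ∣ lf i`, `X, Y` coprime.  Identities:
`α i * lf j = - dl i j * Y + α j * lf i` (up to checking signs with `ring`) and `β i * lf j = dl i j * X + β j * lf i`.
`p` does not divide both `α i` and `β i` (else `p ∣ dl i j`).  If `p ∤ α i`: `p ∤ Y` (else `p ∣ α i X`, `p ∣ X`), and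
`(α i)² (dl i j lf j)(dl i k lf k) ≡ (dl i j dl i k Y)² (mod p)`, a nonzero square mod `p`, so the symbol is `1`.
If `p ∤ β i`: same with `X`.
(If there is no `j ≠ i` the statement is empty.)
`not_both`: `β j lf i - β i lf j = ± dl i j X`, `α j lf i - α i lf j = ± dl i j Y`. -/

namespace QT

/-- the `i`-th linear form at `(X,Y)` -/
def lf {ι : Type} (α β : ι → ℤ) (i : ι) (X Y : ℤ) : ℤ := α i * X + β i * Y

/-- the value of the `j`-th form at the root `(β i, -α i)` of the `i`-th form -/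
def dl {ι : Type} (α β : ι → ℤ) (i j : ι) : ℤ := α j * β i - α i * β j

private theorem QLocal_sq {F : Type} [Field F] {a dj dk lj lk Z : F} (ha : a ≠ 0)
    (hj : a * lj = dj * Z) (hk : a * lk = dk * Z) :
    (dj * lj) * (dk * lk) = (dj * dk * Z * a⁻¹) * (dj * dk * Z * a⁻¹) := by
  have e1 : lj = dj * Z * a⁻¹ := by
    rw [← hj]
    field_simp
  have e2 : lk = dk * Z * a⁻¹ := by
    rw [← hk]
    field_simp
  rw [e1, e2]
  ring

theorem local_one {ι : Type} (α β : ι → ℤ) (X Y : ℤ) (hXY : IsCoprime X Y) (p : ℕ) (hp : p.Prime) (hp2 : p ≠ 2)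
    (i : ι) (hi : (p : ℤ) ∣ lf α β i X Y) (hd : ∀ j, j ≠ i → ¬ (p : ℤ) ∣ dl α β i j) (j k : ι) (hj : j ≠ i)
    (hk : k ≠ i) :
    jacobiSym ((dl α β i j * lf α β j X Y) * (dl α β i k * lf α β k X Y)) p = 1 := by
  have : Fact p.Prime := ⟨hp⟩
  have hdj : ((dl α β i j : ℤ) : ZMod p) ≠ 0 := fun h =>
    hd j hj ((ZMod.intCast_zmod_eq_zero_iff_dvd _ _).1 h)
  have hdk : ((dl α β i k : ℤ) : ZMod p) ≠ 0 := fun h =>
    hd k hk ((ZMod.intCast_zmod_eq_zero_iff_dvd _ _).1 h)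
  have hli : ((lf α β i X Y : ℤ) : ZMod p) = 0 := (ZMod.intCast_zmod_eq_zero_iff_dvd _ _).2 hi
  have hXY0 : ¬ ((X : ZMod p) = 0 ∧ (Y : ZMod p) = 0) := by
    rintro ⟨h1, h2⟩
    obtain ⟨u, v, huv⟩ := hXY
    have h3 : ((u * X + v * Y : ℤ) : ZMod p) = 1 := by rw [huv]; simp
    push_cast at h3
    rw [h1, h2] at h3
    simp at h3
  have g1 : ∀ l, (α i : ZMod p) * ((lf α β l X Y : ℤ) : ZMod p) =
      ((dl α β i l : ℤ) : ZMod p) * (-(Y : ZMod p)) := by
    intro l
    have h1 : α i * lf α β l X Y = dl α β i l * (-Y) + α l * lf α β i X Y := by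
      unfold lf dl
      ring
    have h2 := congrArg (fun z : ℤ => (z : ZMod p)) h1
    rw [Int.cast_mul, Int.cast_add, Int.cast_mul, Int.cast_mul, hli, mul_zero, add_zero,
      Int.cast_neg] at h2
    exact h2
  have g2 : ∀ l, (β i : ZMod p) * ((lf α β l X Y : ℤ) : ZMod p) =
      ((dl α β i l : ℤ) : ZMod p) * (X : ZMod p) := by
    intro l
    have h1 : β i * lf α β l X Y = dl α β i l * X + β l * lf α β i X Y := by
      unfold lf dl
      ring
    have h2 := congrArg (fun z : ℤ => (z : ZMod p)) h1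
    rw [Int.cast_mul, Int.cast_add, Int.cast_mul, Int.cast_mul, hli, mul_zero, add_zero] at h2
    exact h2
  have hli' : (α i : ZMod p) * (X : ZMod p) + (β i : ZMod p) * (Y : ZMod p) = 0 := by
    have := hli
    unfold lf at this
    push_cast at this
    exact this
  have main : ∃ a Z : ZMod p, a ≠ 0 ∧ Z ≠ 0 ∧
      ∀ l, a * ((lf α β l X Y : ℤ) : ZMod p) = ((dl α β i l : ℤ) : ZMod p) * Z := by
    by_cases ha : (α i : ZMod p) = 0
    · have hb : (β i : ZMod p) ≠ 0 := by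
        intro hb
        apply hdj
        unfold dl
        push_cast
        rw [ha, hb]
        ring
      refine ⟨β i, X, hb, ?_, g2⟩
      intro hX
      refine hXY0 ⟨hX, ?_⟩
      rw [ha, zero_mul, zero_add] at hli'
      exact (mul_eq_zero.1 hli').resolve_left hb
    · refine ⟨α i, -Y, ha, ?_, g1⟩
      intro hY
      have hY' : (Y : ZMod p) = 0 := neg_eq_zero.1 hY
      refine hXY0 ⟨?_, hY'⟩
      rw [hY', mul_zero, add_zero] at hli'
      exact (mul_eq_zero.1 hli').resolve_left ha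
  obtain ⟨a, Z, ha, hZ, hl⟩ := main
  rw [← jacobiSym.legendreSym.to_jacobiSym]
  have hA : ((((dl α β i j * lf α β j X Y) * (dl α β i k * lf α β k X Y) : ℤ)) : ZMod p) =
      (((dl α β i j : ℤ) : ZMod p) * ((dl α β i k : ℤ) : ZMod p) * Z * a⁻¹) *
      (((dl α β i j : ℤ) : ZMod p) * ((dl α β i k : ℤ) : ZMod p) * Z * a⁻¹) := by
    rw [Int.cast_mul, Int.cast_mul, Int.cast_mul]
    exact QLocal_sq ha (hl j) (hl k)
  have hA0 : ((((dl α β i j * lf α β j X Y) * (dl α β i k * lf α β k X Y) : ℤ)) : ZMod p) ≠ 0 := by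
    rw [hA]
    have : ((dl α β i j : ℤ) : ZMod p) * ((dl α β i k : ℤ) : ZMod p) * Z * a⁻¹ ≠ 0 :=
      mul_ne_zero (mul_ne_zero (mul_ne_zero hdj hdk) hZ) (inv_ne_zero ha)
    exact mul_ne_zero this this
  rw [legendreSym.eq_one_iff p hA0]
  exact ⟨_, hA⟩

theorem not_both {ι : Type} (α β : ι → ℤ) (X Y : ℤ) (hXY : IsCoprime X Y) (p : ℕ) (hp : p.Prime)
    (i j : ι) (hi : (p : ℤ) ∣ lf α β i X Y) (hj : (p : ℤ) ∣ lf α β j X Y) : (p : ℤ) ∣ dl α β i j := by
  obtain ⟨u, v, huv⟩ := hXY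
  have h1 : dl α β i j = u * (β i * lf α β j X Y - β j * lf α β i X Y) +
      v * (α j * lf α β i X Y - α i * lf α β j X Y) := by
    have h2 : dl α β i j = dl α β i j * (u * X + v * Y) := by rw [huv, mul_one]
    rw [h2]
    unfold dl lf
    ring
  rw [h1]
  refine dvd_add (Dvd.dvd.mul_left ?_ _) (Dvd.dvd.mul_left ?_ _)
  · exact dvd_sub (Dvd.dvd.mul_left hj _) (Dvd.dvd.mul_left hi _)
  · exact dvd_sub (Dvd.dvd.mul_left hi _) (Dvd.dvd.mul_left hj _)

end QT
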