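import Pool.Agent.Lib.MP_10e784_ag.QBL2

/-! JOB QPL.  Fix all variables but two and apply `bl2`.

Proof.  Group the vectors `d` by `b = base d` (`b ℓ0 = b ℓ1 = 1`), put `m = d ℓ0`, `n = d ℓ1`, `P = ∏ b`.
The inner sum is over `m, n ∈ [1,X]` with `P m n ≤ X`, i.e. `m n ≤ X' := X / P` (natural division), `V < m, V < n`.
If `X' < 2` it is empty (`V ≥ 1`).  Otherwise `m, n ≤ X'` and `bl2` bounds it by `C X' (1+log X')^10 V^(-1/16)
≤ C (X/P) (1+log X)^10 V^(-1/16)`.  Summing over `b` (entries in `[1,X]`): `∑_b 1/P ≤ ∏_ℓ ∑_{b_ℓ ≤ X} 1/b_ℓ ≤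
(1+log X)^(card L)` (`harmonic_le_one_add_log`). -/

namespace QT

open Finset

/-- the vector with the two variables `ℓ0`, `ℓ1` replaced by `1` -/
def base {L : Type} [DecidableEq L] (ℓ0 ℓ1 : L) (d : L → ℕ) : L → ℕ :=
  Function.update (Function.update d ℓ0 1) ℓ1 1

section QPLaux

variable {L : Type} [Fintype L] [DecidableEq L]

/-- insertion of two values -/
private def qplIns (ℓ0 ℓ1 : L) (b : L → ℕ) (p : ℕ × ℕ) : L → ℕ :=
  Function.update (Function.update b ℓ0 p.1) ℓ1 p.2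

private theorem qpl_ins_at0 {ℓ0 ℓ1 : L} (h : ℓ0 ≠ ℓ1) (b : L → ℕ) (p : ℕ × ℕ) :
    qplIns ℓ0 ℓ1 b p ℓ0 = p.1 := by
  unfold qplIns
  rw [Function.update_of_ne h, Function.update_self]

private theorem qpl_ins_at1 {ℓ0 ℓ1 : L} (b : L → ℕ) (p : ℕ × ℕ) :
    qplIns ℓ0 ℓ1 b p ℓ1 = p.2 := by
  unfold qplIns
  rw [Function.update_self]

private theorem qpl_ins_ne {ℓ0 ℓ1 ℓ : L} (h0 : ℓ ≠ ℓ0) (h1 : ℓ ≠ ℓ1) (b : L → ℕ) (p : ℕ × ℕ) :
    qplIns ℓ0 ℓ1 b p ℓ = b ℓ := by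
  unfold qplIns
  rw [Function.update_of_ne h1, Function.update_of_ne h0]

private theorem qpl_base_ins {ℓ0 ℓ1 : L} (h : ℓ0 ≠ ℓ1) {b : L → ℕ} (hb0 : b ℓ0 = 1) (hb1 : b ℓ1 = 1)
    (p : ℕ × ℕ) : base ℓ0 ℓ1 (qplIns ℓ0 ℓ1 b p) = b := by
  funext ℓ
  unfold base
  by_cases e1 : ℓ = ℓ1
  · subst e1
    rw [Function.update_self, hb1]
  · rw [Function.update_of_ne e1]
    by_cases e0 : ℓ = ℓ0
    · subst e0
      rw [Function.update_self, hb0]
    · rw [Function.update_of_ne e0, qpl_ins_ne e0 e1]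

private theorem qpl_ins_base {ℓ0 ℓ1 : L} (h : ℓ0 ≠ ℓ1) (d : L → ℕ) :
    qplIns ℓ0 ℓ1 (base ℓ0 ℓ1 d) (d ℓ0, d ℓ1) = d := by
  funext ℓ
  by_cases e1 : ℓ = ℓ1
  · subst e1
    rw [qpl_ins_at1]
  · by_cases e0 : ℓ = ℓ0
    · subst e0
      rw [qpl_ins_at0 h]
    · rw [qpl_ins_ne e0 e1]
      unfold base
      rw [Function.update_of_ne e1, Function.update_of_ne e0]

private theorem qpl_prod_ins {ℓ0 ℓ1 : L} (h : ℓ0 ≠ ℓ1) {b : L → ℕ} (hb0 : b ℓ0 = 1) (hb1 : b ℓ1 = 1)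
    (p : ℕ × ℕ) : ∏ ℓ, qplIns ℓ0 ℓ1 b p ℓ = p.1 * p.2 * ∏ ℓ, b ℓ := by
  have h1 : ℓ1 ∈ univ.erase ℓ0 := Finset.mem_erase.2 ⟨h.symm, Finset.mem_univ _⟩
  rw [← Finset.mul_prod_erase univ (qplIns ℓ0 ℓ1 b p) (Finset.mem_univ ℓ0),
    ← Finset.mul_prod_erase _ (qplIns ℓ0 ℓ1 b p) h1,
    ← Finset.mul_prod_erase univ b (Finset.mem_univ ℓ0), ← Finset.mul_prod_erase _ b h1,
    qpl_ins_at0 h, qpl_ins_at1, hb0, hb1]
  have e : ∏ x ∈ (univ.erase ℓ0).erase ℓ1, qplIns ℓ0 ℓ1 b p x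
      = ∏ x ∈ (univ.erase ℓ0).erase ℓ1, b x := by
    refine Finset.prod_congr rfl fun x hx => ?_
    rw [Finset.mem_erase, Finset.mem_erase] at hx
    exact qpl_ins_ne hx.2.1 hx.1 b p
  rw [e]
  ring

end QPLaux

theorem pl {L : Type} [Fintype L] [DecidableEq L] : ∃ C : ℝ, 0 < C ∧
    ∀ (ℓ0 ℓ1 : L) (F : (L → ℕ) → ℝ) (α β : (L → ℕ) → ℕ → ℝ) (V : ℝ) (X : ℕ), ℓ0 ≠ ℓ1 → 1 ≤ V → 2 ≤ X →
    (∀ b m, |α b m| ≤ 1) → (∀ b n, |β b n| ≤ 1) →
    (∀ b m, α b m ≠ 0 → Odd m ∧ Squarefree m) → (∀ b n, β b n ≠ 0 → Odd n ∧ Squarefree n) →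
    (∀ d, F d = α (base ℓ0 ℓ1 d) (d ℓ0) * β (base ℓ0 ℓ1 d) (d ℓ1) * (jacobiSym (d ℓ0) (d ℓ1) : ℝ)) →
    |∑ d ∈ (Fintype.piFinset fun _ : L => Icc 1 X) with (∏ ℓ, d ℓ ≤ X ∧ V < d ℓ0 ∧ V < d ℓ1), F d| ≤
      C * X * (1 + Real.log X) ^ (10 + Fintype.card L) * V ^ (-(1 / 16) : ℝ) := by
  obtain ⟨C, hC, hbl⟩ := bl2
  refine ⟨C, hC, ?_⟩
  intro ℓ0 ℓ1 F α β V X hne hV hX hα hβ hαs hβs hF
  classical
  set S : Finset (L → ℕ) := (Fintype.piFinset fun _ : L => Icc 1 X).filter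
    (fun d => ∏ ℓ, d ℓ ≤ X ∧ V < d ℓ0 ∧ V < d ℓ1) with hS
  set T : Finset (L → ℕ) := (Fintype.piFinset fun _ : L => Icc 1 X).filter
    (fun b => b ℓ0 = 1 ∧ b ℓ1 = 1) with hT
  have hlogX : 0 ≤ Real.log X := Real.log_nonneg (by exact_mod_cast (by omega : 1 ≤ X))
  have hVp : (0 : ℝ) < V ^ (-(1 / 16) : ℝ) := Real.rpow_pos_of_pos (by linarith) _
  -- fiberwise
  have hmaps : ∀ d ∈ S, base ℓ0 ℓ1 d ∈ T := by
    intro d hd
    rw [hS, Finset.mem_filter, Fintype.mem_piFinset] at hd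
    rw [hT, Finset.mem_filter, Fintype.mem_piFinset]
    refine ⟨fun ℓ => ?_, ?_, ?_⟩
    · unfold base
      by_cases e1 : ℓ = ℓ1
      · subst e1
        rw [Function.update_self, Finset.mem_Icc]
        omega
      · rw [Function.update_of_ne e1]
        by_cases e0 : ℓ = ℓ0
        · subst e0
          rw [Function.update_self, Finset.mem_Icc]
          omega
        · rw [Function.update_of_ne e0]
          exact hd.1 ℓ
    · unfold base
      rw [Function.update_of_ne hne, Function.update_self]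
    · unfold base
      rw [Function.update_self]
  -- the inner sum
  have hinner : ∀ b ∈ T, |∑ d ∈ S with base ℓ0 ℓ1 d = b, F d| ≤
      C * X * (1 + Real.log X) ^ 10 * V ^ (-(1 / 16) : ℝ) * ∏ ℓ, ((b ℓ : ℝ))⁻¹ := by
    intro b hb
    rw [hT, Finset.mem_filter, Fintype.mem_piFinset] at hb
    obtain ⟨hbI, hb0, hb1⟩ := hb
    set P : ℕ := ∏ ℓ, b ℓ with hP
    have hPpos : 0 < P := Finset.prod_pos fun ℓ _ => by
      have := Finset.mem_Icc.1 (hbI ℓ)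
      omega
    have hPR : (0 : ℝ) < P := by exact_mod_cast hPpos
    have hPinv : ∏ ℓ, ((b ℓ : ℝ))⁻¹ = (P : ℝ)⁻¹ := by
      rw [Finset.prod_inv_distrib, hP]
      push_cast
      rfl
    set X' : ℕ := X / P with hX'
    have hX'X : X' ≤ X := Nat.div_le_self _ _
    -- rewrite as a double sum
    have hdouble : ∑ d ∈ S with base ℓ0 ℓ1 d = b, F d =
        ∑ m ∈ Icc 1 X', ∑ n ∈ Icc 1 X',
          if m * n ≤ X' ∧ V < m ∧ V < n then α b m * β b n * (jacobiSym m n : ℝ) else 0 := by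
      rw [← Finset.sum_product', ← Finset.sum_filter]
      refine Finset.sum_nbij' (fun d => (d ℓ0, d ℓ1)) (fun p => qplIns ℓ0 ℓ1 b p) ?_ ?_ ?_ ?_ ?_
      · intro d hd
        rw [Finset.mem_filter] at hd
        obtain ⟨hd1, hd2⟩ := hd
        rw [hS, Finset.mem_filter, Fintype.mem_piFinset] at hd1
        obtain ⟨hd1, hd3, hd4, hd5⟩ := hd1
        have e0 := Finset.mem_Icc.1 (hd1 ℓ0)
        have e1 := Finset.mem_Icc.1 (hd1 ℓ1)
        have hprod : d ℓ0 * d ℓ1 * P ≤ X := by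
          have e2 := qpl_prod_ins hne hb0 hb1 (d ℓ0, d ℓ1)
          have e3 := qpl_ins_base hne d
          rw [hd2] at e3
          rw [e3] at e2
          rw [← hP] at e2
          rw [← e2]
          exact hd3
        have hmn : d ℓ0 * d ℓ1 ≤ X' := (Nat.le_div_iff_mul_le hPpos).2 hprod
        rw [Finset.mem_filter, Finset.mem_product, Finset.mem_Icc, Finset.mem_Icc]
        refine ⟨⟨⟨e0.1, ?_⟩, ⟨e1.1, ?_⟩⟩, hmn, hd4, hd5⟩
        · exact le_trans (Nat.le_mul_of_pos_right _ e1.1) hmn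
        · exact le_trans (Nat.le_mul_of_pos_left _ e0.1) hmn
      · intro p hp
        rw [Finset.mem_filter, Finset.mem_product, Finset.mem_Icc, Finset.mem_Icc] at hp
        obtain ⟨⟨hp1, hp2⟩, hp3, hp4, hp5⟩ := hp
        rw [Finset.mem_filter]
        refine ⟨?_, qpl_base_ins hne hb0 hb1 p⟩
        rw [hS, Finset.mem_filter, Fintype.mem_piFinset]
        refine ⟨fun ℓ => ?_, ?_, ?_, ?_⟩
        · by_cases e1 : ℓ = ℓ1
          · subst e1
            rw [qpl_ins_at1, Finset.mem_Icc]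
            exact ⟨hp2.1, hp2.2.trans hX'X⟩
          · by_cases e0 : ℓ = ℓ0
            · subst e0
              rw [qpl_ins_at0 hne, Finset.mem_Icc]
              exact ⟨hp1.1, hp1.2.trans hX'X⟩
            · rw [qpl_ins_ne e0 e1]
              exact hbI ℓ
        · rw [qpl_prod_ins hne hb0 hb1]
          exact (Nat.le_div_iff_mul_le hPpos).1 hp3
        · rw [qpl_ins_at0 hne]
          exact hp4
        · rw [qpl_ins_at1]
          exact hp5
      · intro d hd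
        rw [Finset.mem_filter] at hd
        have e3 := qpl_ins_base hne d
        rw [hd.2] at e3
        exact e3
      · intro p _
        change (qplIns ℓ0 ℓ1 b p ℓ0, qplIns ℓ0 ℓ1 b p ℓ1) = p
        rw [qpl_ins_at0 hne, qpl_ins_at1]
      · intro d hd
        rw [Finset.mem_filter] at hd
        rw [hF, hd.2]
    rw [hdouble, hPinv]
    have hX'R : (X' : ℝ) ≤ X * (P : ℝ)⁻¹ := by
      rw [hX', ← div_eq_mul_inv]
      exact Nat.cast_div_le
    by_cases h2 : 2 ≤ X'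
    · refine (hbl (α b) (β b) X' V (hα b) (hβ b) (hαs b) (hβs b) hV h2).trans ?_
      have hlog1 : Real.log X' ≤ Real.log X :=
        Real.log_le_log (by exact_mod_cast (by omega : 0 < X')) (by exact_mod_cast hX'X)
      have hlog0 : 0 ≤ Real.log X' := Real.log_nonneg (by exact_mod_cast (by omega : 1 ≤ X'))
      have hpow : (1 + Real.log X') ^ 10 ≤ (1 + Real.log X) ^ 10 :=
        pow_le_pow_left₀ (by linarith) (by linarith) 10
      have hX'0 : (0 : ℝ) ≤ X' := Nat.cast_nonneg _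
      calc C * X' * (1 + Real.log X') ^ 10 * V ^ (-(1 / 16) : ℝ)
          ≤ C * (X * (P : ℝ)⁻¹) * (1 + Real.log X) ^ 10 * V ^ (-(1 / 16) : ℝ) := by
            gcongr
        _ = C * X * (1 + Real.log X) ^ 10 * V ^ (-(1 / 16) : ℝ) * (P : ℝ)⁻¹ := by ring
    · have hz : ∑ m ∈ Icc 1 X', ∑ n ∈ Icc 1 X',
          (if m * n ≤ X' ∧ V < m ∧ V < n then α b m * β b n * (jacobiSym m n : ℝ) else 0) = 0 := by
        refine Finset.sum_eq_zero fun m hm => Finset.sum_eq_zero fun n hn => ?_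
        rw [if_neg]
        rintro ⟨-, h3, -⟩
        have hm1 : m ≤ 1 := by
          have := (Finset.mem_Icc.1 hm).2
          omega
        have : (m : ℝ) ≤ 1 := by exact_mod_cast hm1
        linarith
      rw [hz, abs_zero]
      positivity
  -- summation
  rw [← Finset.sum_fiberwise_of_maps_to hmaps]
  refine (Finset.abs_sum_le_sum_abs _ _).trans ?_
  refine (Finset.sum_le_sum hinner).trans ?_
  rw [← Finset.mul_sum]
  have hsumT : ∑ b ∈ T, ∏ ℓ, ((b ℓ : ℝ))⁻¹ ≤ (1 + Real.log X) ^ Fintype.card L := by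
    calc ∑ b ∈ T, ∏ ℓ, ((b ℓ : ℝ))⁻¹
        ≤ ∑ b ∈ Fintype.piFinset (fun _ : L => Icc 1 X), ∏ ℓ, ((b ℓ : ℝ))⁻¹ := by
          refine Finset.sum_le_sum_of_subset_of_nonneg (Finset.filter_subset _ _) ?_
          intro b _ _
          exact Finset.prod_nonneg fun ℓ _ => by positivity
      _ = ∏ _ℓ : L, ∑ n ∈ Icc 1 X, ((n : ℝ))⁻¹ := by
          rw [Finset.prod_univ_sum]
      _ = (∑ n ∈ Icc 1 X, ((n : ℝ))⁻¹) ^ Fintype.card L := by
          rw [Finset.prod_const, Finset.card_univ]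
      _ ≤ (1 + Real.log X) ^ Fintype.card L := by
          refine pow_le_pow_left₀ (Finset.sum_nonneg fun n _ => by positivity) ?_ _
          have e := harmonic_le_one_add_log X
          rw [harmonic_eq_sum_Icc] at e
          push_cast at e
          exact e
  calc C * X * (1 + Real.log X) ^ 10 * V ^ (-(1 / 16) : ℝ) * ∑ b ∈ T, ∏ ℓ, ((b ℓ : ℝ))⁻¹
      ≤ C * X * (1 + Real.log X) ^ 10 * V ^ (-(1 / 16) : ℝ) * (1 + Real.log X) ^ Fintype.card L := by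
        refine mul_le_mul_of_nonneg_left hsumT (by positivity)
    _ = C * X * (1 + Real.log X) ^ (10 + Fintype.card L) * V ^ (-(1 / 16) : ℝ) := by
        rw [pow_add]
        ring

end QT
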