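import Pool.Agent.Lib.MP_10e784_ag.QTU

/-! JOB QSplit.  Totally split hyperelliptic curves: the general theorem, and the version with a finiteness hypothesis.

`split`: apply `tu` with `A = univ`.  `hG` of `tu`: given `c`, take `j, k` from `hG`; if both `(dl i j c j)(dl i k c k)` and
`(dl i' j c j)(dl i' k c k)` were squares, their product `= (dl i j dl i k dl i' j dl i' k)(c j c k)²` is a square, hence
`dl i j dl i k dl i' j dl i' k` is a square (integers, `c j c k ≠ 0`).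
Rational to integral points: `(x,y) ≠ (0,0)` because `w ≠ 0`; `(x,y) = λ (X,Y)` with `X, Y` coprime integers, `λ ∈ ℚ*`.
`∏ (α i x + β i y) = λ^(2r) ∏ lf i X Y` (`card ι = 2r`), so `w' = w/λ^r` satisfies `D w'² = ∏ lf i X Y ∈ ℤ`; `D` squarefree forces `w' ∈ ℤ`
(lemma `int_of_sq`).  Squares: `(dl i j L_j(x,y))(dl i k L_k(x,y)) = λ² (...)`, and an integer which is the square of a rational
is the square of an integer (`Rat.isSquare_intCast_iff` or similar).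

`split_fin`: if `T` is the set of coprime pairs `(X,Y)` such that all `lf ≠ 0` and the square condition holds for some `i`, and `T` is finite, then only finitely
many squarefree `D` have a point with the square condition (`D` is determined by `(X,Y)`: `D w² = ∏ lf`, `D' w'² = ∏ lf`, both squarefree, same sign,
so `D = D'`).  So the count increases by a constant. -/

namespace QT

open Finset

theorem int_of_sq (D : ℤ) (hD : Squarefree D) (w : ℚ) (m : ℤ) (h : (D : ℚ) * w ^ 2 = m) :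
    ∃ w' : ℤ, (w' : ℚ) = w := by
  have hb : (w.den : ℚ) ≠ 0 := by exact_mod_cast w.den_nz
  have hw : w * w.den = w.num := Rat.mul_den_eq_num w
  have h1 : D * w.num ^ 2 = m * (w.den : ℤ) ^ 2 := by
    have h2 : (D : ℚ) * (w.num : ℚ) ^ 2 = m * (w.den : ℚ) ^ 2 := by
      rw [← h, ← hw]
      ring
    exact_mod_cast h2
  have h2 : ((w.den : ℤ) ^ 2) ∣ D * w.num ^ 2 := ⟨m, by rw [h1]; ring⟩
  have hcop : IsCoprime ((w.den : ℤ) ^ 2) (w.num ^ 2) := by
    apply IsCoprime.pow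
    have h3 := w.reduced
    rw [Int.isCoprime_iff_nat_coprime, Int.natAbs_natCast]
    exact h3.symm
  have h3 : (w.den : ℤ) ^ 2 ∣ D := hcop.dvd_of_dvd_mul_right h2
  have h4 : IsUnit (w.den : ℤ) := hD _ (by rwa [← pow_two])
  have h5 : w.den = 1 := by
    have h6 := Int.isUnit_iff_natAbs_eq.1 h4
    simpa using h6
  exact ⟨w.num, Rat.den_eq_one_iff w |>.1 h5⟩

/-- the squarefree `D`, `|D| ≤ N`, with property `P` -/
noncomputable def cnt (P : ℤ → Prop) (N : ℕ) : ℕ :=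
  Nat.card {D : ℤ // Squarefree D ∧ |D| ≤ (N : ℤ) ∧ P D}

/-- almost no squarefree `D` has property `P`, with the rate `O(N / (log N)^η)` for every `η < 1/4` -/
def AlmostNone (P : ℤ → Prop) : Prop :=
  ∀ η : ℝ, 0 < η → η < 1 / 4 →
    ∃ C : ℝ, 0 < C ∧ ∀ N : ℕ, 2 ≤ N → (cnt P N : ℝ) ≤ C * N / Real.log N ^ η

private theorem cnt_le (P : ℤ → Prop) (N : ℕ) (S : Set ℤ) (hS : S.Finite)
    (h : ∀ D, Squarefree D → |D| ≤ (N : ℤ) → P D → D ∈ S) : cnt P N ≤ S.ncard := by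
  unfold cnt
  have h1 : Nat.card {D : ℤ // Squarefree D ∧ |D| ≤ (N : ℤ) ∧ P D} =
      Set.ncard {D : ℤ | Squarefree D ∧ |D| ≤ (N : ℤ) ∧ P D} := rfl
  rw [h1]
  exact Set.ncard_le_ncard (fun D hD => h D hD.1 hD.2.1 hD.2.2) hS

private theorem isSquare_of_mul_sq {a b : ℤ} (hb : b ≠ 0) (h : IsSquare (a * b ^ 2)) :
    IsSquare a := by
  obtain ⟨t, ht⟩ := h
  have h1 : b ^ 2 ∣ t ^ 2 := ⟨a, by rw [pow_two t, ← ht]; ring⟩
  have h2 : b ∣ t := (Int.pow_dvd_pow_iff two_ne_zero).1 h1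
  obtain ⟨u, rfl⟩ := h2
  refine ⟨u, ?_⟩
  have h3 : b ^ 2 ≠ 0 := pow_ne_zero _ hb
  apply mul_right_cancel₀ h3
  rw [ht]
  ring

private theorem exists_scale (x y : ℚ) (h : x ≠ 0 ∨ y ≠ 0) :
    ∃ (l : ℚ) (X Y : ℤ), l ≠ 0 ∧ IsCoprime X Y ∧ x = l * X ∧ y = l * Y := by
  have hx : (x.den : ℚ) ≠ 0 := by exact_mod_cast x.den_nz
  have hy : (y.den : ℚ) ≠ 0 := by exact_mod_cast y.den_nz
  have hx' : x * x.den = x.num := Rat.mul_den_eq_num x
  have hy' : y * y.den = y.num := Rat.mul_den_eq_num y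
  have hpos : 0 < Int.gcd (x.num * y.den) (y.num * x.den) := by
    apply Nat.pos_of_ne_zero
    intro h0
    rw [Int.gcd_eq_zero_iff] at h0
    have h1 : x = 0 := by
      have h2 := h0.1
      rw [mul_eq_zero] at h2
      rcases h2 with h2 | h2
      · exact Rat.num_eq_zero.1 h2
      · exact absurd h2 (by exact_mod_cast y.den_nz)
    have h3 : y = 0 := by
      have h2 := h0.2
      rw [mul_eq_zero] at h2
      rcases h2 with h2 | h2
      · exact Rat.num_eq_zero.1 h2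
      · exact absurd h2 (by exact_mod_cast x.den_nz)
    exact h.elim (fun h => h h1) (fun h => h h3)
  obtain ⟨X, Y, hXY, h1, h2⟩ := Int.exists_gcd_one hpos
  set G := Int.gcd (x.num * y.den) (y.num * x.den) with hG
  have hG0 : (G : ℚ) ≠ 0 := by exact_mod_cast hpos.ne'
  refine ⟨(G : ℚ) / (x.den * y.den), X, Y, div_ne_zero hG0 (mul_ne_zero hx hy),
    Int.isCoprime_iff_gcd_eq_one.2 hXY, ?_, ?_⟩
  · have h3 : (x.num : ℚ) * y.den = X * G := by exact_mod_cast h1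
    rw [← hx'] at h3
    field_simp
    linear_combination h3
  · have h3 : (y.num : ℚ) * x.den = Y * G := by exact_mod_cast h2
    rw [← hy'] at h3
    field_simp
    linear_combination h3

private theorem to_int {ι : Type} [Fintype ι] [DecidableEq ι] (α β : ι → ℤ)
    (hcard : 6 ≤ Fintype.card ι) (hev : Even (Fintype.card ι)) (D : ℤ) (hD : Squarefree D)
    (x y w : ℚ) (hw : w ≠ 0) (h : (D : ℚ) * w ^ 2 = ∏ i, ((α i : ℚ) * x + (β i : ℚ) * y)) :
    ∃ (l : ℚ) (X Y w' : ℤ), l ≠ 0 ∧ IsCoprime X Y ∧ w' ≠ 0 ∧ (∀ i, lf α β i X Y ≠ 0) ∧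
      D * w' ^ 2 = ∏ i, lf α β i X Y ∧
      ∀ i, (α i : ℚ) * x + (β i : ℚ) * y = l * (lf α β i X Y : ℚ) := by
  have hD0 : (D : ℚ) ≠ 0 := by exact_mod_cast hD.ne_zero
  have hprod : ∏ i, ((α i : ℚ) * x + (β i : ℚ) * y) ≠ 0 := by
    rw [← h]
    exact mul_ne_zero hD0 (pow_ne_zero _ hw)
  have hxy : x ≠ 0 ∨ y ≠ 0 := by
    by_contra hcon
    push Not at hcon
    obtain ⟨h1, h2⟩ := hcon
    obtain ⟨i⟩ : Nonempty ι := Fintype.card_pos_iff.1 (by omega)
    apply Finset.prod_ne_zero_iff.1 hprod i (Finset.mem_univ i)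
    rw [h1, h2]
    ring
  obtain ⟨l, X, Y, hl, hXY, hx, hy⟩ := exists_scale x y hxy
  have hlf : ∀ i, (α i : ℚ) * x + (β i : ℚ) * y = l * (lf α β i X Y : ℚ) := by
    intro i
    rw [hx, hy]
    unfold lf
    push_cast
    ring
  obtain ⟨r, hr⟩ := hev
  have hprod2 : ∏ i, ((α i : ℚ) * x + (β i : ℚ) * y) =
      (l ^ r) ^ 2 * ((∏ i, lf α β i X Y : ℤ) : ℚ) := by
    rw [Finset.prod_congr rfl (fun i _ => hlf i), Finset.prod_mul_distrib, Finset.prod_const,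
      Finset.card_univ, hr]
    push_cast
    ring
  have hlr : l ^ r ≠ 0 := pow_ne_zero _ hl
  have hD1 : (D : ℚ) * (w / l ^ r) ^ 2 = ((∏ i, lf α β i X Y : ℤ) : ℚ) := by
    rw [div_pow, mul_div_assoc', h, hprod2]
    field_simp
  obtain ⟨w', hw'⟩ := int_of_sq D hD _ _ hD1
  have hw0 : w' ≠ 0 := by
    rintro rfl
    rw [Int.cast_zero] at hw'
    exact (div_ne_zero hw hlr) hw'.symm
  refine ⟨l, X, Y, w', hl, hXY, hw0, ?_, ?_, hlf⟩
  · intro i h0
    apply Finset.prod_ne_zero_iff.1 hprod i (Finset.mem_univ i)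
    rw [hlf i, h0]
    simp
  · rw [← hw'] at hD1
    exact_mod_cast hD1

theorem split {ι : Type} [Fintype ι] [DecidableEq ι] (α β : ι → ℤ) (hcard : 6 ≤ Fintype.card ι)
    (hev : Even (Fintype.card ι)) (hδ : ∀ i j, i ≠ j → dl α β i j ≠ 0)
    (hG : ∀ i i', i ≠ i' → ∃ j k, j ≠ i ∧ j ≠ i' ∧ k ≠ i ∧ k ≠ i' ∧
      ¬ IsSquare (dl α β i j * dl α β i k * (dl α β i' j * dl α β i' k))) :
    AlmostNone fun D => ∃ x y w : ℚ, w ≠ 0 ∧ (D : ℚ) * w ^ 2 = ∏ i, ((α i : ℚ) * x + (β i : ℚ) * y) ∧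
      ¬ ∃ i, ∀ j, j ≠ i → ∀ k, k ≠ i →
        IsSquare (((dl α β i j : ℚ) * ((α j : ℚ) * x + (β j : ℚ) * y)) *
          ((dl α β i k : ℚ) * ((α k : ℚ) * x + (β k : ℚ) * y))) := by
  classical
  intro η hη0 hη
  have hne : (univ : Finset ι).Nonempty := by
    rw [Finset.univ_nonempty_iff]
    exact Fintype.card_pos_iff.1 (by omega)
  obtain ⟨C, hC, hbound⟩ := tu η hη0.le hη α β univ hδ hne (Or.inr (by omega)) (by
    intro c hc _ i _ i' _ hii
    obtain ⟨j, k, hj, hj', hk, hk', hns⟩ := hG i i' hii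
    refine ⟨j, k, hj, hj', hk, hk', ?_⟩
    by_contra hcon
    push Not at hcon
    obtain ⟨h1, h2⟩ := hcon
    apply hns
    apply isSquare_of_mul_sq (b := c j * c k) (mul_ne_zero (hc j) (hc k))
    have h3 := h1.mul h2
    have e : dl α β i j * dl α β i k * (dl α β i' j * dl α β i' k) * (c j * c k) ^ 2 =
        dl α β i j * c j * (dl α β i k * c k) * (dl α β i' j * c j * (dl α β i' k * c k)) := by
      ring
    rw [e]
    exact h3)
  refine ⟨C, hC, fun N hN => ?_⟩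
  have h1 := hbound N hN
  have hlog : 0 ≤ Real.log N := Real.log_natCast_nonneg N
  rw [Real.rpow_neg hlog, ← div_eq_mul_inv] at h1
  refine le_trans ?_ h1
  apply Nat.cast_le.2
  rw [← Set.ncard_coe_finset]
  apply cnt_le _ _ _ (Finset.finite_toSet _)
  rintro D hD hDN ⟨x, y, w, hw, hprod, hnot⟩
  rw [Finset.mem_coe, Finset.mem_filter, Finset.mem_Icc]
  refine ⟨abs_le.1 hDN, hD, ?_⟩
  obtain ⟨l, X, Y, w', hl, hXY, hw', hlf0, heq, hlf⟩ := to_int α β hcard hev D hD x y w hw hprod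
  refine ⟨X, Y, w', hXY, hw', fun i hi => absurd (Finset.mem_univ i) hi, heq, ?_⟩
  rintro ⟨i, -, hsq⟩
  apply hnot
  refine ⟨i, fun j hj k hk => ?_⟩
  obtain ⟨t, ht⟩ := hsq j hj k hk
  have ht' : ((dl α β i j : ℚ) * (lf α β j X Y : ℚ)) * ((dl α β i k : ℚ) * (lf α β k X Y : ℚ)) =
      (t : ℚ) * t := by exact_mod_cast ht
  refine ⟨l * t, ?_⟩
  rw [hlf j, hlf k]
  linear_combination (l ^ 2) * ht'

private theorem sqfree_unique (D D' w w' : ℤ) (hD : Squarefree D) (hD' : Squarefree D')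
    (hw : w ≠ 0) (hw' : w' ≠ 0) (h : D * w ^ 2 = D' * w' ^ 2) : D = D' := by
  have hq : (D : ℚ) * (w : ℚ) ^ 2 = D' * (w' : ℚ) ^ 2 := by exact_mod_cast h
  have hwq : (w : ℚ) ≠ 0 := by exact_mod_cast hw
  have hwq' : (w' : ℚ) ≠ 0 := by exact_mod_cast hw'
  obtain ⟨u, hu⟩ := int_of_sq D hD ((w : ℚ) / w') D' (by
    rw [div_pow, mul_div_assoc', hq]
    field_simp)
  obtain ⟨v, hv⟩ := int_of_sq D' hD' ((w' : ℚ) / w) D (by
    rw [div_pow, mul_div_assoc', ← hq]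
    field_simp)
  have huv : u * v = 1 := by
    have : (u : ℚ) * v = 1 := by
      rw [hu, hv]
      field_simp
    exact_mod_cast this
  have hu2 : u ^ 2 = 1 := by
    rcases Int.isUnit_iff.1 (IsUnit.of_mul_eq_one v huv) with h1 | h1 <;> rw [h1] <;> norm_num
  have hw2 : w = u * w' := by
    have : (w : ℚ) = u * w' := by
      rw [hu]
      field_simp
    exact_mod_cast this
  rw [hw2, mul_pow, hu2, one_mul] at h
  exact mul_right_cancel₀ (pow_ne_zero 2 hw') h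

theorem split_fin {ι : Type} [Fintype ι] [DecidableEq ι] (α β : ι → ℤ) (hcard : 6 ≤ Fintype.card ι)
    (hev : Even (Fintype.card ι)) (hδ : ∀ i j, i ≠ j → dl α β i j ≠ 0)
    (hG : ∀ i i', i ≠ i' → ∃ j k, j ≠ i ∧ j ≠ i' ∧ k ≠ i ∧ k ≠ i' ∧
      ¬ IsSquare (dl α β i j * dl α β i k * (dl α β i' j * dl α β i' k)))
    (hfin : Set.Finite {P : ℤ × ℤ | IsCoprime P.1 P.2 ∧ (∀ i, lf α β i P.1 P.2 ≠ 0) ∧
      ∃ i, ∀ j, j ≠ i → ∀ k, k ≠ i →
        IsSquare ((dl α β i j * lf α β j P.1 P.2) * (dl α β i k * lf α β k P.1 P.2))}) :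
    AlmostNone fun D => ∃ x y w : ℚ, w ≠ 0 ∧ (D : ℚ) * w ^ 2 = ∏ i, ((α i : ℚ) * x + (β i : ℚ) * y) := by
  classical
  intro η hη0 hη
  obtain ⟨C, hC, hbound⟩ := split α β hcard hev hδ hG η hη0 hη
  set T : Set (ℤ × ℤ) := {P : ℤ × ℤ | IsCoprime P.1 P.2 ∧ (∀ i, lf α β i P.1 P.2 ≠ 0) ∧
      ∃ i, ∀ j, j ≠ i → ∀ k, k ≠ i →
        IsSquare ((dl α β i j * lf α β j P.1 P.2) * (dl α β i k * lf α β k P.1 P.2))} with hT
  set S2 : Set ℤ := ⋃ P ∈ T, {D : ℤ | Squarefree D ∧ ∃ w : ℤ, w ≠ 0 ∧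
    D * w ^ 2 = ∏ i, lf α β i P.1 P.2} with hS2
  have hS2fin : S2.Finite := by
    apply Set.Finite.biUnion hfin
    intro P _
    apply Set.Subsingleton.finite
    rintro D ⟨hD, w, hw, h1⟩ D' ⟨hD', w', hw', h2⟩
    exact sqfree_unique D D' w w' hD hD' hw hw' (h1.trans h2.symm)
  refine ⟨C + S2.ncard, by positivity, fun N hN => ?_⟩
  set P1 : ℤ → Prop := fun D => ∃ x y w : ℚ, w ≠ 0 ∧
      (D : ℚ) * w ^ 2 = ∏ i, ((α i : ℚ) * x + (β i : ℚ) * y) ∧
      ¬ ∃ i, ∀ j, j ≠ i → ∀ k, k ≠ i →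
        IsSquare (((dl α β i j : ℚ) * ((α j : ℚ) * x + (β j : ℚ) * y)) *
          ((dl α β i k : ℚ) * ((α k : ℚ) * x + (β k : ℚ) * y))) with hP1
  have hS1fin : Set.Finite {D : ℤ | Squarefree D ∧ |D| ≤ (N : ℤ) ∧ P1 D} := by
    apply Set.Finite.subset (Set.finite_Icc (-(N : ℤ)) N)
    rintro D ⟨-, hDN, -⟩
    exact abs_le.1 hDN
  have hcnt : cnt (fun D => ∃ x y w : ℚ, w ≠ 0 ∧
      (D : ℚ) * w ^ 2 = ∏ i, ((α i : ℚ) * x + (β i : ℚ) * y)) N ≤ cnt P1 N + S2.ncard := by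
    refine (cnt_le _ N ({D : ℤ | Squarefree D ∧ |D| ≤ (N : ℤ) ∧ P1 D} ∪ S2)
      (hS1fin.union hS2fin) ?_).trans (Set.ncard_union_le _ _)
    rintro D hD hDN ⟨x, y, w, hw, hprod⟩
    by_cases hsq : ∃ i, ∀ j, j ≠ i → ∀ k, k ≠ i →
        IsSquare (((dl α β i j : ℚ) * ((α j : ℚ) * x + (β j : ℚ) * y)) *
          ((dl α β i k : ℚ) * ((α k : ℚ) * x + (β k : ℚ) * y)))
    · right
      obtain ⟨l, X, Y, w', hl, hXY, hw', hlf0, heq, hlf⟩ :=
        to_int α β hcard hev D hD x y w hw hprod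
      rw [hS2, Set.mem_iUnion₂]
      refine ⟨(X, Y), ⟨hXY, hlf0, ?_⟩, hD, w', hw', heq⟩
      obtain ⟨i, hi⟩ := hsq
      refine ⟨i, fun j hj k hk => ?_⟩
      obtain ⟨t, ht⟩ := hi j hj k hk
      rw [← Rat.isSquare_intCast_iff]
      refine ⟨t / l, ?_⟩
      rw [hlf j, hlf k] at ht
      push_cast
      field_simp
      linear_combination ht
    · left
      exact ⟨hD, hDN, x, y, w, hw, hprod, hsq⟩
  have h1 := hbound N hN
  have hN2 : (2 : ℝ) ≤ N := by exact_mod_cast hN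
  have hlogpos : 0 < Real.log N := Real.log_pos (by linarith)
  have hpow : 0 < Real.log N ^ η := Real.rpow_pos_of_pos hlogpos _
  have hle : Real.log N ^ η ≤ N := by
    calc Real.log N ^ η ≤ (N : ℝ) ^ η := by
          apply Real.rpow_le_rpow hlogpos.le _ hη0.le
          exact (Real.log_le_sub_one_of_pos (by linarith)).trans (by linarith)
      _ ≤ (N : ℝ) ^ (1 : ℝ) := Real.rpow_le_rpow_of_exponent_le (by linarith) (by linarith)
      _ = N := Real.rpow_one _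
  have h2 : (S2.ncard : ℝ) ≤ S2.ncard * N / Real.log N ^ η := by
    rw [le_div_iff₀ hpow]
    exact mul_le_mul_of_nonneg_left hle (by positivity)
  calc (cnt (fun D => ∃ x y w : ℚ, w ≠ 0 ∧
      (D : ℚ) * w ^ 2 = ∏ i, ((α i : ℚ) * x + (β i : ℚ) * y)) N : ℝ) ≤
        ((cnt P1 N + S2.ncard : ℕ) : ℝ) := by exact_mod_cast hcnt
    _ = (cnt P1 N : ℝ) + S2.ncard := by push_cast; ring
    _ ≤ C * N / Real.log N ^ η + S2.ncard * N / Real.log N ^ η :=
        add_le_add h1 h2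
    _ = (C + S2.ncard) * N / Real.log N ^ η := by ring

end QT
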