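import Pool.Agent.Lib.MP_10e784_ag.QSplit
import Pool.Agent.Lib.MP_10e784_ag.QAP4

/-! JOB QSplitAP.  If every branch point `i` sees four of the others as an arithmetic progression, the square condition never holds.

Proof.  By `split` it is enough to show that for `x, y` with all `L_j = α j x + β j y ≠ 0` (this follows from `w ≠ 0`, `D ≠ 0`) the square condition fails for
every `i`.  Let `j₀..j₃` be given by `hAP i`, `r a = α (j a)/dl i (j a)`, `s a = β (j a)/dl i (j a)`, both arithmetic progressions in `a`.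
`v a := L_{j a} / dl i (j a) = r a x + s a y` is an arithmetic progression.  Put `c = dl i (j 0) L_{j 0} ≠ 0`.  By the square condition
`c * (dl i (j a) L_{j a})` is a square, so `c * v a = c * (dl i (j a) L_{j a}) / (dl i (j a))²` is the square of a rational.  So the four squares `c v 0, .., c v 3` are in
arithmetic progression and by `ap4_rat` `c v 0 = c v 1`, i.e. `v 0 = v 1`: `L_{j1} dl i j0 = L_{j0} dl i j1`.  But
`L_{j1} dl i j0 - L_{j0} dl i j1 = ± dl j0 j1 * L_i` (identity, `ring`), and `L_i ≠ 0`, `dl j0 j1 ≠ 0` since `j0 ≠ j1`. -/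

namespace QT

open Finset

private theorem QSplitAP_mono {P Q : ℤ → Prop} (h : ∀ D, Squarefree D → P D → Q D)
    (hQ : AlmostNone Q) : AlmostNone P := by
  intro η hη0 hη
  obtain ⟨C, hC, hb⟩ := hQ η hη0 hη
  refine ⟨C, hC, fun N hN => le_trans ?_ (hb N hN)⟩
  have hfin : Finite {D : ℤ // Squarefree D ∧ |D| ≤ (N : ℤ) ∧ Q D} := by
    have : Set.Finite {D : ℤ | Squarefree D ∧ |D| ≤ (N : ℤ) ∧ Q D} := by
      refine (Set.finite_Icc (-(N : ℤ)) (N : ℤ)).subset ?_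
      rintro D ⟨_, hD, _⟩
      exact abs_le.1 hD
    exact this
  unfold cnt
  have hinj : Function.Injective
      (fun D : {D : ℤ // Squarefree D ∧ |D| ≤ (N : ℤ) ∧ P D} =>
        (⟨D.1, D.2.1, D.2.2.1, h D.1 D.2.1 D.2.2.2⟩ :
          {D : ℤ // Squarefree D ∧ |D| ≤ (N : ℤ) ∧ Q D})) := by
    intro D D' hDD
    simpa [Subtype.ext_iff] using hDD
  exact_mod_cast Nat.card_le_card_of_injective _ hinj

theorem split_ap {ι : Type} [Fintype ι] [DecidableEq ι] (α β : ι → ℤ) (hcard : 6 ≤ Fintype.card ι)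
    (hev : Even (Fintype.card ι)) (hδ : ∀ i j, i ≠ j → dl α β i j ≠ 0)
    (hG : ∀ i i', i ≠ i' → ∃ j k, j ≠ i ∧ j ≠ i' ∧ k ≠ i ∧ k ≠ i' ∧
      ¬ IsSquare (dl α β i j * dl α β i k * (dl α β i' j * dl α β i' k)))
    (hAP : ∀ i, ∃ j0 j1 j2 j3 : ι, j0 ≠ i ∧ j1 ≠ i ∧ j2 ≠ i ∧ j3 ≠ i ∧ j0 ≠ j1 ∧
      ((α j1 : ℚ) / dl α β i j1 - (α j0 : ℚ) / dl α β i j0 = (α j2 : ℚ) / dl α β i j2 - (α j1 : ℚ) / dl α β i j1) ∧
      ((α j2 : ℚ) / dl α β i j2 - (α j1 : ℚ) / dl α β i j1 = (α j3 : ℚ) / dl α β i j3 - (α j2 : ℚ) / dl α β i j2) ∧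
      ((β j1 : ℚ) / dl α β i j1 - (β j0 : ℚ) / dl α β i j0 = (β j2 : ℚ) / dl α β i j2 - (β j1 : ℚ) / dl α β i j1) ∧
      ((β j2 : ℚ) / dl α β i j2 - (β j1 : ℚ) / dl α β i j1 = (β j3 : ℚ) / dl α β i j3 - (β j2 : ℚ) / dl α β i j2)) :
    AlmostNone fun D => ∃ x y w : ℚ, w ≠ 0 ∧ (D : ℚ) * w ^ 2 = ∏ i, ((α i : ℚ) * x + (β i : ℚ) * y) := by
  refine QSplitAP_mono (fun D hD => ?_) (split α β hcard hev hδ hG)
  rintro ⟨x, y, w, hw, hprod⟩
  refine ⟨x, y, w, hw, hprod, ?_⟩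
  have hD0 : (D : ℚ) ≠ 0 := by exact_mod_cast hD.ne_zero
  have hL : ∀ i, ((α i : ℚ) * x + (β i : ℚ) * y) ≠ 0 := by
    intro i hi
    have h0 : ∏ i, ((α i : ℚ) * x + (β i : ℚ) * y) = 0 :=
      Finset.prod_eq_zero (Finset.mem_univ i) hi
    rw [h0] at hprod
    exact (mul_ne_zero hD0 (pow_ne_zero 2 hw)) hprod
  rintro ⟨i, hsq⟩
  obtain ⟨j0, j1, j2, j3, h0, h1, h2, h3, h01, ha1, ha2, hb1, hb2⟩ := hAP i
  have hd : ∀ j, j ≠ i → (dl α β i j : ℚ) ≠ 0 := by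
    intro j hj
    exact_mod_cast hδ i j (Ne.symm hj)
  set L : ι → ℚ := fun j => (α j : ℚ) * x + (β j : ℚ) * y with hLdef
  set d : ι → ℚ := fun j => (dl α β i j : ℚ) with hddef
  have hv : ∀ j, L j / d j = (α j : ℚ) / d j * x + (β j : ℚ) / d j * y := by
    intro j; simp only [hLdef]; ring
  set c : ℚ := d j0 * L j0 with hc
  have hc0 : c ≠ 0 := mul_ne_zero (hd j0 h0) (hL j0)
  have hcv : ∀ j, j ≠ i → ∃ r : ℚ, c * (L j / d j) = r ^ 2 := by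
    intro j hj
    obtain ⟨r, hr⟩ := hsq j0 h0 j hj
    refine ⟨r / d j, ?_⟩
    have hdj : d j ≠ 0 := hd j hj
    have hr' : (d j0 * L j0) * (d j * L j) = r * r := hr
    rw [div_pow, eq_div_iff (pow_ne_zero 2 hdj)]
    calc c * (L j / d j) * d j ^ 2 = (d j0 * L j0) * (d j * L j) := by
          rw [hc]; field_simp
      _ = r ^ 2 := by rw [hr', sq]
  obtain ⟨r0, e0⟩ := hcv j0 h0
  obtain ⟨r1, e1⟩ := hcv j1 h1
  obtain ⟨r2, e2⟩ := hcv j2 h2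
  obtain ⟨r3, e3⟩ := hcv j3 h3
  have hAP1 : L j1 / d j1 - L j0 / d j0 = L j2 / d j2 - L j1 / d j1 := by
    rw [hv, hv, hv]
    have : ((α j1 : ℚ) / d j1 - (α j0 : ℚ) / d j0) * x + ((β j1 : ℚ) / d j1 - (β j0 : ℚ) / d j0) * y =
        ((α j2 : ℚ) / d j2 - (α j1 : ℚ) / d j1) * x + ((β j2 : ℚ) / d j2 - (β j1 : ℚ) / d j1) * y := by
      rw [ha1, hb1]
    linarith
  have hAP2 : L j2 / d j2 - L j1 / d j1 = L j3 / d j3 - L j2 / d j2 := by
    rw [hv, hv, hv]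
    have : ((α j2 : ℚ) / d j2 - (α j1 : ℚ) / d j1) * x + ((β j2 : ℚ) / d j2 - (β j1 : ℚ) / d j1) * y =
        ((α j3 : ℚ) / d j3 - (α j2 : ℚ) / d j2) * x + ((β j3 : ℚ) / d j3 - (β j2 : ℚ) / d j2) * y := by
      rw [ha2, hb2]
    linarith
  have hkey : r1 ^ 2 = r0 ^ 2 := by
    apply ap4_rat r0 r1 r2 r3
    · rw [← e0, ← e1, ← e2, ← mul_sub, ← mul_sub, hAP1]
    · rw [← e1, ← e2, ← e3, ← mul_sub, ← mul_sub, hAP2]
  have hveq : L j1 / d j1 = L j0 / d j0 := by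
    rw [← e0, ← e1] at hkey
    exact mul_left_cancel₀ hc0 hkey
  have hd0 : d j0 ≠ 0 := hd j0 h0
  have hd1 : d j1 ≠ 0 := hd j1 h1
  rw [div_eq_div_iff hd1 hd0] at hveq
  have hid : L j1 * d j0 - L j0 * d j1 = -((dl α β j0 j1 : ℤ) : ℚ) * L i := by
    simp only [hLdef, hddef, dl]
    push_cast
    ring
  have hne : -((dl α β j0 j1 : ℤ) : ℚ) * L i ≠ 0 := by
    refine mul_ne_zero (neg_ne_zero.2 ?_) (hL i)
    exact_mod_cast hδ j0 j1 h01
  apply hne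
  rw [← hid, hveq]; ring


end QT
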