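import Pool.Agent.Lib.MP_10e784_ag.QConsec

/-!
# MP_10e784_ag: explicit totally split curves of every genus whose twists have only the `2g+2` Weierstrass points
-/

namespace QT.SplitExplicitOld

private theorem transfer {n : ℕ} (b : Fin n → ℤ) (F : ℚ → ℚ) (hF : ∀ x, ∏ j, (x - (b j : ℚ)) = F x)
    (h : QT.AlmostNone fun D => ∃ x y : ℚ, y ≠ 0 ∧ (D : ℚ) * y ^ 2 = F x) :
    ∀ η : ℝ, 0 < η → η < 1 / 4 → ∃ C : ℝ, ∀ N : ℕ, 2 ≤ N →
        (Nat.card {D : ℤ // Squarefree D ∧ |D| ≤ (N : ℤ) ∧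
          ∃ x y : ℚ, y ≠ 0 ∧ (D : ℚ) * y ^ 2 = ∏ j, (x - (b j : ℚ))} : ℝ)
          ≤ C * N / Real.log N ^ η := by
  intro η hη0 hη
  obtain ⟨C, -, hC⟩ := h η hη0 hη
  refine ⟨C, fun N hN => ?_⟩
  simp only [hF]
  exact hC N hN

theorem result (g : ℕ) (hg : 2 ≤ g) :
    ∃ b : Fin (2 * g + 1) → ℤ, Function.Injective b ∧ (4 ≤ g → ∀ j, b j = ((j : ℕ) : ℤ)) ∧
      ∀ η : ℝ, 0 < η → η < 1 / 4 → ∃ C : ℝ, ∀ N : ℕ, 2 ≤ N →
        (Nat.card {D : ℤ // Squarefree D ∧ |D| ≤ (N : ℤ) ∧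
          ∃ x y : ℚ, y ≠ 0 ∧ (D : ℚ) * y ^ 2 = ∏ j, (x - (b j : ℚ))} : ℝ)
          ≤ C * N / Real.log N ^ η := by
  rcases Nat.lt_or_ge g 4 with h4 | h4
  · have hg' : g = 2 ∨ g = 3 := by omega
    rcases hg' with rfl | rfl
    · refine ⟨![0, 1, -1, 3, -3], ?_, fun h => absurd h (by norm_num), ?_⟩
      · intro i j hij
        fin_cases i <;> fin_cases j <;> first | rfl | (exfalso; revert hij; decide)
      · refine transfer (n := 5) ![0, 1, -1, 3, -3] (fun x => x * (x ^ 2 - 1) * (x ^ 2 - 9)) (fun x => ?_) QT.genus_two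
        rw [Fin.prod_univ_five]
        simp
        ring
    · refine ⟨![0, 1, -1, 2, -2, 4, -4], ?_, fun h => absurd h (by norm_num), ?_⟩
      · intro i j hij
        fin_cases i <;> fin_cases j <;> first | rfl | (exfalso; revert hij; decide)
      · refine transfer (n := 7) ![0, 1, -1, 2, -2, 4, -4] (fun x => x * (x ^ 2 - 1) * (x ^ 2 - 4) * (x ^ 2 - 16))
          (fun x => ?_) QT.genus_three
        rw [Fin.prod_univ_seven]
        simp
        ring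
  · refine ⟨fun j => ((j : ℕ) : ℤ), ?_, fun _ _ => rfl, ?_⟩
    · intro i j hij
      simp only [Nat.cast_inj] at hij
      exact Fin.ext hij
    · refine transfer (fun j : Fin (2 * g + 1) => ((j : ℕ) : ℤ))
        (fun x => ∏ j ∈ Finset.range (2 * g + 1), (x - (j : ℚ))) (fun x => ?_) (QT.consec g h4)
      rw [← Fin.prod_univ_eq_prod_range (fun j : ℕ => (x - (j : ℚ))) (2 * g + 1)]
      simp

end QT.SplitExplicitOld
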