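import Pool.Agent.Lib.MP_10e784_ag.QDesc
import Pool.Agent.Lib.MP_10e784_ag.QLocal
import Pool.Agent.Lib.MP_10e784_ag.QCountE

/-! JOB QTU.  From the counting theorem for vectors to the twists.

Proof.  `R = 2 * ∏_{i} ∏_{j ≠ i} |dl i j|`.  Let `D` be in the set with `X, Y, w`, and `m i = lf i X Y`; all `m i ≠ 0` (`i ∈ A` because
`D w² ≠ 0`).  For `i ∈ A` take `c i, e i, s i` from `decomp R`; for `i ∉ A` put `c i = 1`, `e i = 1` and `s i` with `m i = s i ²`.
The `e i` are pairwise coprime and coprime to `R` (`not_both`: a common prime of `e i`, `e j` divides `dl i j`, hence `R`), squarefree, so `∏ e`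
is squarefree, odd (`2 ∣ R`).  `twist` gives `D = g ∏_{i∈A} e i = g ∏_i e i`, `g ≠ 0`, so `∏ e ≤ |D| ≤ N`, and `e ∈ Box ι N`.
With `θ i j = dl i j * c j`: `Loc θ e` holds: for `p ∣ e i` (so `i ∈ A`, `p ∤ R`, `p ∣ m i`) `local_one` gives the symbol `1` for
`(dl i j m j)(dl i k m k) = (θ i j e j)(θ i k e k)(s j s k)²`, hence also for `(θ i j e j)(θ i k e k)` (`jacobiSym` is multiplicative, a square of a
symbol is `0` or `1`).  `¬ Good θ A e`: if `(θ i j e j)(θ i k e k)` is a square then so is its product with `(s j s k)²`.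
So the set of `D` is contained in the union over the finitely many `g` (`g.natAbs ∣ R`) and `c : ι → ℤ` (`c i ≠ 0`, `(c i).natAbs ∣ R`, `c i = 1` off `A`;
e.g. `c ∈ Fintype.piFinset fun _ => (Icc (-R) R).filter ..`) of the images of the sets of `countE θ A` under `e ↦ g ∏ e`.
The hypothesis `hG` of `countE` for this `θ` is `hG` here applied to `j ↦ c j * e j`.  Sum the bounds. -/

namespace QT

open Finset

/-- the bad modulus -/
private noncomputable def tuR {ι : Type} [Fintype ι] [DecidableEq ι] (α β : ι → ℤ) : ℕ :=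
  2 * ∏ i, ∏ j, if i = j then 1 else (dl α β i j).natAbs

private theorem tuR_ne {ι : Type} [Fintype ι] [DecidableEq ι] (α β : ι → ℤ)
    (hδ : ∀ i j, i ≠ j → dl α β i j ≠ 0) : tuR α β ≠ 0 := by
  unfold tuR
  apply mul_ne_zero (by norm_num)
  apply Finset.prod_ne_zero_iff.2
  intro i _
  apply Finset.prod_ne_zero_iff.2
  intro j _
  split_ifs with h
  · norm_num
  · exact Int.natAbs_ne_zero.2 (hδ i j h)

private theorem tuR_dvd {ι : Type} [Fintype ι] [DecidableEq ι] (α β : ι → ℤ) (i j : ι) (h : i ≠ j) :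
    (dl α β i j).natAbs ∣ tuR α β := by
  unfold tuR
  apply Dvd.dvd.mul_left
  refine dvd_trans ?_ (Finset.dvd_prod_of_mem _ (Finset.mem_univ i))
  refine dvd_trans ?_ (Finset.dvd_prod_of_mem _ (Finset.mem_univ j))
  rw [if_neg h]

private theorem tu_jac (a b : ℤ) (p : ℕ) (h : jacobiSym (a * b ^ 2) p = 1) : jacobiSym a p = 1 := by
  rw [jacobiSym.mul_left, jacobiSym.pow_left] at h
  rcases jacobiSym.trichotomy b p with hb | hb | hb
  · rw [hb] at h; norm_num at h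
  · rw [hb] at h; simpa using h
  · rw [hb] at h; simpa using h

private theorem tu_sqf {ι : Type} [DecidableEq ι] (S : Finset ι) (e : ι → ℕ)
    (h1 : ∀ i ∈ S, Squarefree (e i)) (h2 : ∀ i ∈ S, ∀ j ∈ S, i ≠ j → Nat.Coprime (e i) (e j)) :
    Squarefree (∏ i ∈ S, e i) := by
  induction S using Finset.induction_on with
  | empty => simp
  | insert a S ha ih =>
    rw [Finset.prod_insert ha]
    apply (Nat.squarefree_mul _).2
    · refine ⟨h1 a (Finset.mem_insert_self _ _), ih ?_ ?_⟩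
      · intro i hi; exact h1 i (Finset.mem_insert_of_mem hi)
      · intro i hi j hj hij
        exact h2 i (Finset.mem_insert_of_mem hi) j (Finset.mem_insert_of_mem hj) hij
    · apply Nat.Coprime.prod_right
      intro i hi
      exact h2 a (Finset.mem_insert_self _ _) i (Finset.mem_insert_of_mem hi)
        (fun h => ha (h ▸ hi))

/-- the data extracted from one twist -/
private theorem tu_data {ι : Type} [Fintype ι] [DecidableEq ι] (α β : ι → ℤ) (A : Finset ι)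
    (hδ : ∀ i j, i ≠ j → dl α β i j ≠ 0) (N : ℕ) (D : ℤ) (hDN : |D| ≤ N)
    (hD : Squarefree D) (X Y w : ℤ) (hXY : IsCoprime X Y) (hw : w ≠ 0)
    (hoff : ∀ i ∉ A, IsSquare (lf α β i X Y) ∧ lf α β i X Y ≠ 0)
    (hprod : D * w ^ 2 = ∏ i ∈ A, lf α β i X Y)
    (hbad : ¬ ∃ i ∈ A, ∀ j, j ≠ i → ∀ k, k ≠ i →
          IsSquare ((dl α β i j * lf α β j X Y) * (dl α β i k * lf α β k X Y))) :
    ∃ (g : ℤ) (c : ι → ℤ) (e : ι → ℕ), g.natAbs ∣ tuR α β ∧ (∀ i, c i ≠ 0) ∧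
      (∀ i, (c i).natAbs ∣ tuR α β) ∧ (∀ i ∉ A, c i = 1) ∧ D = g * ∏ i, (e i : ℤ) ∧
      e ∈ Box ι N ∧ Odd (∏ i, e i) ∧ (∀ i ∉ A, e i = 1) ∧
      Loc (fun i j => dl α β i j * c j) e ∧ ¬ Good (fun i j => dl α β i j * c j) A e := by
  have hR : tuR α β ≠ 0 := tuR_ne α β hδ
  have hD0 : D ≠ 0 := hD.ne_zero
  have hm0 : ∀ i, lf α β i X Y ≠ 0 := by
    intro i
    by_cases hi : i ∈ A
    · have h1 : ∏ i ∈ A, lf α β i X Y ≠ 0 := by
        rw [← hprod]
        exact mul_ne_zero hD0 (pow_ne_zero _ hw)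
      exact Finset.prod_ne_zero_iff.1 h1 i hi
    · exact (hoff i hi).2
  have hex : ∀ i, ∃ (c : ℤ) (e s : ℕ), c ≠ 0 ∧ c.natAbs ∣ tuR α β ∧ Squarefree e ∧
      Nat.Coprime e (tuR α β) ∧ s ≠ 0 ∧ lf α β i X Y = c * e * (s : ℤ) ^ 2 ∧
      (i ∉ A → c = 1 ∧ e = 1) := by
    intro i
    by_cases hi : i ∈ A
    · obtain ⟨c, e, s, h1, h2, h3, h4, h5, h6⟩ := decomp (tuR α β) hR _ (hm0 i)
      exact ⟨c, e, s, h1, h2, h3, h4, h5, h6, fun h => absurd hi h⟩
    · obtain ⟨⟨r, hr⟩, h0⟩ := hoff i hi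
      refine ⟨1, 1, r.natAbs, one_ne_zero, by simp, squarefree_one, Nat.coprime_one_left _, ?_, ?_,
        fun _ => ⟨rfl, rfl⟩⟩
      · intro h
        rw [Int.natAbs_eq_zero] at h
        rw [h] at hr
        exact h0 (by rw [hr]; ring)
      · rw [hr, Int.natCast_natAbs, sq_abs]
        push_cast
        ring
  choose c e s hc0 hcR he heR hs hm hone using hex
  have hcop : ∀ i j, i ≠ j → Nat.Coprime (e i) (e j) := by
    intro i j hij
    by_contra hnc
    obtain ⟨p, hp, hpi, hpj⟩ := Nat.Prime.not_coprime_iff_dvd.1 hnc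
    have h1 : (p : ℤ) ∣ lf α β i X Y := by
      rw [hm i]
      exact Dvd.dvd.mul_right (Dvd.dvd.mul_left (Int.natCast_dvd_natCast.2 hpi) _) _
    have h2 : (p : ℤ) ∣ lf α β j X Y := by
      rw [hm j]
      exact Dvd.dvd.mul_right (Dvd.dvd.mul_left (Int.natCast_dvd_natCast.2 hpj) _) _
    have h3 := not_both α β X Y hXY p hp i j h1 h2
    have h4 : p ∣ (dl α β i j).natAbs := Int.natCast_dvd.1 h3
    have h5 : p ∣ tuR α β := h4.trans (tuR_dvd α β i j hij)
    exact Nat.Prime.not_coprime_iff_dvd.2 ⟨p, hp, hpi, h5⟩ (heR i)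
  have hsqf : Squarefree (∏ i, e i) := tu_sqf _ _ (fun i _ => he i) (fun i _ j _ hij => hcop i j hij)
  have hcopR : Nat.Coprime (∏ i, e i) (tuR α β) := Nat.Coprime.prod_left fun i _ => heR i
  have h2R : 2 ∣ tuR α β := Dvd.intro _ rfl
  have hprodA : ∏ i, e i = ∏ i ∈ A, e i := by
    symm
    apply Finset.prod_subset (Finset.subset_univ A)
    intro i _ hi
    exact (hone i hi).2
  have hodd : Odd (∏ i, e i) := by
    rw [← Nat.not_even_iff_odd, even_iff_two_dvd]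
    intro h
    exact Nat.Prime.not_coprime_iff_dvd.2 ⟨2, Nat.prime_two, h, h2R⟩ hcopR
  obtain ⟨g, hgR, hDg⟩ := twist A (tuR α β) hR D w hD hw c e s (fun i _ => ⟨hc0 i, hcR i⟩)
    (by rw [← hprodA]; exact hsqf) (by rw [← hprodA]; exact hcopR) (fun i _ => hs i)
    (by rw [hprod]; exact Finset.prod_congr rfl fun i _ => hm i)
  have hDg' : D = g * ∏ i, (e i : ℤ) := by
    rw [hDg]
    congr 1
    have := congrArg (fun n : ℕ => (n : ℤ)) hprodA
    push_cast at this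
    exact this.symm
  have hg0 : g ≠ 0 := by
    rintro rfl
    rw [zero_mul] at hDg'
    exact hD0 hDg'
  have hpos : ∀ i, 1 ≤ e i := fun i => Nat.one_le_iff_ne_zero.2 (he i).ne_zero
  have hprodN : ∏ i, e i ≤ N := by
    have h1 : ((∏ i, e i : ℕ) : ℤ) ≤ |D| := by
      rw [hDg', abs_mul]
      have h2 : (1 : ℤ) ≤ |g| := Int.one_le_abs hg0
      have h3 : |∏ i, (e i : ℤ)| = ((∏ i, e i : ℕ) : ℤ) := by
        rw [abs_of_nonneg (Finset.prod_nonneg fun i _ => Int.natCast_nonneg _)]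
        push_cast
        rfl
      rw [h3]
      nlinarith [Int.natCast_nonneg (∏ i, e i)]
    exact_mod_cast h1.trans hDN
  refine ⟨g, c, e, hgR, hc0, hcR, fun i hi => (hone i hi).1, hDg', ?_, hodd,
    fun i hi => (hone i hi).2, ?_, ?_⟩
  · unfold Box
    rw [Finset.mem_filter, Fintype.mem_piFinset]
    refine ⟨fun i => ?_, hprodN, hsqf⟩
    rw [Finset.mem_Icc]
    refine ⟨hpos i, ?_⟩
    have : e i ∣ ∏ i, e i := Finset.dvd_prod_of_mem e (Finset.mem_univ i)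
    exact (Nat.le_of_dvd (Finset.prod_pos fun i _ => hpos i) this).trans hprodN
  · intro i p hp hpi j hj k hk
    have hpR : ¬ p ∣ tuR α β := fun h =>
      Nat.Prime.not_coprime_iff_dvd.2 ⟨p, hp, hpi, h⟩ (heR i)
    have hp2 : p ≠ 2 := by
      rintro rfl
      exact hpR h2R
    have h1 : (p : ℤ) ∣ lf α β i X Y := by
      rw [hm i]
      exact Dvd.dvd.mul_right (Dvd.dvd.mul_left (Int.natCast_dvd_natCast.2 hpi) _) _
    have hd : ∀ j, j ≠ i → ¬ (p : ℤ) ∣ dl α β i j := by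
      intro j hj h
      exact hpR ((Int.natCast_dvd.1 h).trans (tuR_dvd α β i j hj.symm))
    have h2 := local_one α β X Y hXY p hp hp2 i h1 hd j k hj hk
    apply tu_jac _ ((s j : ℤ) * s k) p
    rw [← h2]
    congr 1
    rw [hm j, hm k]
    ring
  · rintro ⟨i, hi, hgood⟩
    apply hbad
    refine ⟨i, hi, fun j hj k hk => ?_⟩
    obtain ⟨r, hr⟩ := hgood j hj k hk
    refine ⟨r * (s j * s k), ?_⟩
    rw [hm j, hm k]
    calc (dl α β i j * (c j * e j * (s j : ℤ) ^ 2)) * (dl α β i k * (c k * e k * (s k : ℤ) ^ 2))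
        = ((dl α β i j * c j * e j) * (dl α β i k * c k * e k)) * (s j * s k) ^ 2 := by ring
      _ = (r * r) * (s j * s k) ^ 2 := by rw [hr]
      _ = r * (s j * s k) * (r * (s j * s k)) := by ring

open Classical in
theorem tu {ι : Type} [Fintype ι] [DecidableEq ι] (η : ℝ) (hη0 : 0 ≤ η) (hη : η < 1 / 4) (α β : ι → ℤ) (A : Finset ι)
    (hδ : ∀ i j, i ≠ j → dl α β i j ≠ 0) (hAn : A.Nonempty) (hA : A ≠ univ ∨ 5 ≤ Fintype.card ι)
    (hG : ∀ c : ι → ℤ, (∀ i, c i ≠ 0) → (∀ i ∉ A, c i = 1) → ∀ i ∈ A, ∀ i' ∈ A, i ≠ i' →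
      ∃ j k, j ≠ i ∧ j ≠ i' ∧ k ≠ i ∧ k ≠ i' ∧
        (¬ IsSquare ((dl α β i j * c j) * (dl α β i k * c k)) ∨
          ¬ IsSquare ((dl α β i' j * c j) * (dl α β i' k * c k)))) :
    ∃ C : ℝ, 0 < C ∧ ∀ N : ℕ, 2 ≤ N →
    (((Finset.Icc (-(N : ℤ)) N).filter fun D => Squarefree D ∧ ∃ X Y w : ℤ, IsCoprime X Y ∧ w ≠ 0 ∧
        (∀ i ∉ A, IsSquare (lf α β i X Y) ∧ lf α β i X Y ≠ 0) ∧ D * w ^ 2 = ∏ i ∈ A, lf α β i X Y ∧
        ¬ ∃ i ∈ A, ∀ j, j ≠ i → ∀ k, k ≠ i →
          IsSquare ((dl α β i j * lf α β j X Y) * (dl α β i k * lf α β k X Y))).card : ℝ) ≤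
      C * N * Real.log N ^ (-η) := by
  have hR : tuR α β ≠ 0 := tuR_ne α β hδ
  set R : ℕ := tuR α β with hRdef
  -- the finite sets of parameters
  set GS : Finset ℤ := Finset.Icc (-(R : ℤ)) R with hGS
  set CS : Finset (ι → ℤ) := (Fintype.piFinset fun _ : ι => Finset.Icc (-(R : ℤ)) R).filter
    fun c => (∀ i, c i ≠ 0) ∧ (∀ i ∉ A, c i = 1) with hCS
  have hcount : ∀ c : ι → ℤ, ∃ C : ℝ, 0 < C ∧ (c ∈ CS → ∀ N : ℕ, 2 ≤ N →
      (((Box ι N).filter fun e => Odd (∏ i, e i) ∧ (∀ i ∉ A, e i = 1) ∧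
        Loc (fun i j => dl α β i j * c j) e ∧
        ¬ Good (fun i j => dl α β i j * c j) A e).card : ℝ) ≤
      C * N * Real.log N ^ (-η)) := by
    intro c
    by_cases hc : c ∈ CS
    · rw [hCS, Finset.mem_filter] at hc
      obtain ⟨_, hc0, hc1⟩ := hc
      obtain ⟨C, hC, hCb⟩ := countE η hη0 hη (fun i j => dl α β i j * c j) A
        (fun i j hij => mul_ne_zero (hδ i j hij) (hc0 j)) hAn hA (by
          intro e he0 he1 i hi i' hi' hii'
          obtain ⟨j, k, h1, h2, h3, h4, h5⟩ := hG (fun j => c j * e j)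
            (fun j => mul_ne_zero (hc0 j) (by exact_mod_cast (he0 j).ne'))
            (fun j hj => by rw [hc1 j hj, he1 j hj]; simp) i hi i' hi' hii'
          refine ⟨j, k, h1, h2, h3, h4, ?_⟩
          rcases h5 with h5 | h5
          · left
            intro hsq
            apply h5
            convert hsq using 1
            ring
          · right
            intro hsq
            apply h5
            convert hsq using 1
            ring)
      exact ⟨C, hC, fun _ => hCb⟩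
    · exact ⟨1, one_pos, fun h => absurd h hc⟩
  choose Cc hCc hCb using hcount
  refine ⟨(2 * R + 1) * ∑ c ∈ CS, Cc c + 1, ?_, ?_⟩
  · have : 0 ≤ ∑ c ∈ CS, Cc c := Finset.sum_nonneg fun c _ => (hCc c).le
    positivity
  intro N hN
  have hN2 : (2 : ℝ) ≤ N := by exact_mod_cast hN
  have hlog : 0 ≤ Real.log N ^ (-η) :=
    Real.rpow_nonneg (Real.log_nonneg (by linarith)) _
  set T : (ι → ℤ) → Finset (ι → ℕ) := fun c => (Box ι N).filter fun e => Odd (∏ i, e i) ∧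
    (∀ i ∉ A, e i = 1) ∧ Loc (fun i j => dl α β i j * c j) e ∧
    ¬ Good (fun i j => dl α β i j * c j) A e with hT
  set SS := (Finset.Icc (-(N : ℤ)) N).filter fun D => Squarefree D ∧ ∃ X Y w : ℤ, IsCoprime X Y ∧
        w ≠ 0 ∧
        (∀ i ∉ A, IsSquare (lf α β i X Y) ∧ lf α β i X Y ≠ 0) ∧ D * w ^ 2 = ∏ i ∈ A, lf α β i X Y ∧
        ¬ ∃ i ∈ A, ∀ j, j ≠ i → ∀ k, k ≠ i →
          IsSquare ((dl α β i j * lf α β j X Y) * (dl α β i k * lf α β k X Y)) with hSS
  have hsub : SS ⊆ GS.biUnion fun g => CS.biUnion fun c => (T c).image fun e => g * ∏ i, (e i : ℤ) := by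
    intro D hD
    rw [hSS, Finset.mem_filter, Finset.mem_Icc] at hD
    obtain ⟨⟨hD1, hD2⟩, hsq, X, Y, w, hXY, hw, hoff, hprod, hbad⟩ := hD
    obtain ⟨g, c, e, hg, hc0, hcR, hc1, hDe, hbox, hodd, he1, hloc, hgood⟩ :=
      tu_data α β A hδ N D (abs_le.2 ⟨hD1, hD2⟩) hsq X Y w hXY hw hoff hprod hbad
    have hle : ∀ z : ℤ, z.natAbs ∣ R → z ∈ Finset.Icc (-(R : ℤ)) R := by
      intro z hz
      have h1 : z.natAbs ≤ R := Nat.le_of_dvd (Nat.pos_of_ne_zero hR) hz
      rw [Finset.mem_Icc, ← abs_le, Int.abs_eq_natAbs]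
      exact_mod_cast h1
    rw [Finset.mem_biUnion]
    refine ⟨g, hle g hg, ?_⟩
    rw [Finset.mem_biUnion]
    refine ⟨c, ?_, ?_⟩
    · rw [hCS, Finset.mem_filter, Fintype.mem_piFinset]
      exact ⟨fun i => hle _ (hcR i), hc0, hc1⟩
    · rw [Finset.mem_image]
      refine ⟨e, ?_, hDe.symm⟩
      rw [hT]
      simp only [Finset.mem_filter]
      exact ⟨hbox, hodd, he1, hloc, hgood⟩
  have hcard : (SS.card : ℝ) ≤ ∑ _g ∈ GS, ∑ c ∈ CS, ((T c).card : ℝ) := by
    have h1 : SS.card ≤ ∑ _g ∈ GS, ∑ c ∈ CS, (T c).card := by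
      refine (Finset.card_le_card hsub).trans (Finset.card_biUnion_le.trans ?_)
      apply Finset.sum_le_sum
      intro g _
      refine Finset.card_biUnion_le.trans ?_
      apply Finset.sum_le_sum
      intro c _
      exact Finset.card_image_le
    exact_mod_cast h1
  refine hcard.trans ?_
  have h2 : ∑ c ∈ CS, ((T c).card : ℝ) ≤ (∑ c ∈ CS, Cc c) * (N * Real.log N ^ (-η)) := by
    rw [Finset.sum_mul]
    apply Finset.sum_le_sum
    intro c hc
    have := hCb c hc N hN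
    rw [hT]
    linarith
  rw [Finset.sum_const, nsmul_eq_mul]
  have h3 : (GS.card : ℝ) = 2 * R + 1 := by
    rw [hGS, Int.card_Icc]
    have : ((R : ℤ) + 1 - -(R : ℤ)).toNat = 2 * R + 1 := by omega
    rw [this]
    push_cast
    ring
  rw [h3]
  have h4 : (0 : ℝ) ≤ N * Real.log N ^ (-η) := by positivity
  calc (2 * (R : ℝ) + 1) * ∑ c ∈ CS, ((T c).card : ℝ)
      ≤ (2 * (R : ℝ) + 1) * ((∑ c ∈ CS, Cc c) * (N * Real.log N ^ (-η))) := by
        apply mul_le_mul_of_nonneg_left h2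
        positivity
    _ ≤ ((2 * (R : ℝ) + 1) * ∑ c ∈ CS, Cc c + 1) * (N * Real.log N ^ (-η)) := by
        nlinarith
    _ = ((2 * (R : ℝ) + 1) * ∑ c ∈ CS, Cc c + 1) * N * Real.log N ^ (-η) := by ring

end QT
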