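import Pool.Agent.Lib.MP_10e784_ag.QHall
import Pool.Agent.Lib.MP_10e784_ag.QEuler

/-! JOB QUB (short).

Proof.  Put `L = log x > 0`, `σ = 1 + 1/L`.  By `hall`, `S * L ≤ 3 x ∑_{n≤x} W n / n`, and `n^(σ-1) ≤ x^(1/L) = e` for
`n ≤ x`, so `∑ W n / n ≤ e ∑ W n n^(-σ) ≤ e ((1 + L)^3 B)^(1/4)` by `euler_ub`.
Since `x ≥ 2`, `1 + L ≤ (1 + 1/log 2) L ≤ 3 L`, so `S ≤ 3 e x (27 L^3 B)^(1/4) / L ≤ C x L^(-1/4) B^(1/4)`, e.g. with
`C = 3 * 2.72 * 27^(1/4) ≤ 20`. -/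

namespace QT

open Finset

theorem ub {χ : ℕ → ℝ} {B : ℝ} (hχ : CharB χ B) (w : ℕ → ℝ)
    (hw : ∀ p, p.Prime → 0 ≤ w p ∧ w p ≤ (3 + χ p) / 4) (x : ℝ) (hx : 2 ≤ x) :
    ∑ n ∈ (Icc 1 ⌊x⌋₊).filter Squarefree, pf w n ≤
      20 * x * Real.log x ^ (-(1 / 4) : ℝ) * B ^ (1 / 4 : ℝ) := by
  have hL : 0 < Real.log x := Real.log_pos (by linarith)
  have hL2 : 1 ≤ 2 * Real.log x := by
    have h1 : Real.log 2 ≤ Real.log x := Real.log_le_log (by norm_num) hx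
    have h2 := Real.log_two_gt_d9
    linarith
  have hB : 0 ≤ B := by linarith [hχ.hB]
  have hw1 : ∀ p, p.Prime → 0 ≤ w p ∧ w p ≤ 1 := by
    intro p hp
    obtain ⟨h1, h2⟩ := hw p hp
    have h3 := (abs_le.1 (hχ.le p)).2
    exact ⟨h1, by linarith⟩
  have h1 := hall w hw1 x (by linarith)
  have h2 := euler_ub hχ w hw (1 + 1 / Real.log x) (by
    have : 0 < 1 / Real.log x := one_div_pos.2 hL
    linarith) ⌊x⌋₊
  have e1 : 1 + 1 / Real.log x - 1 = 1 / Real.log x := by ring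
  rw [e1, one_div_one_div] at h2
  have hpf : ∀ n, 0 ≤ pf w n := by
    intro n
    unfold pf
    exact Finset.prod_nonneg fun p hp => (hw p (Nat.prime_of_mem_primeFactors hp)).1
  have h3 : ∑ n ∈ (Icc 1 ⌊x⌋₊).filter Squarefree, pf w n / n ≤
      Real.exp 1 * ∑ n ∈ (Icc 1 ⌊x⌋₊).filter Squarefree,
        pf w n * (n : ℝ) ^ (-(1 + 1 / Real.log x)) := by
    rw [Finset.mul_sum]
    refine Finset.sum_le_sum fun n hn => ?_
    rw [Finset.mem_filter, Finset.mem_Icc] at hn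
    have hn0 : (0 : ℝ) < n := by
      have : 0 < n := by omega
      exact_mod_cast this
    have hnx : (n : ℝ) ≤ x := (Nat.le_floor_iff (by linarith)).1 hn.1.2
    have h4 : (n : ℝ) ^ (1 / Real.log x) ≤ Real.exp 1 := by
      refine (Real.rpow_le_rpow hn0.le hnx (by positivity)).trans (le_of_eq ?_)
      rw [Real.rpow_def_of_pos (by linarith), mul_one_div_cancel hL.ne']
    have h5 : (n : ℝ)⁻¹ = (n : ℝ) ^ (-(1 + 1 / Real.log x)) * (n : ℝ) ^ (1 / Real.log x) := by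
      rw [← Real.rpow_add hn0, ← Real.rpow_neg_one]
      congr 1
      ring
    have h6 : 0 ≤ pf w n * (n : ℝ) ^ (-(1 + 1 / Real.log x)) :=
      mul_nonneg (hpf n) (Real.rpow_nonneg hn0.le _)
    calc pf w n / n = (pf w n * (n : ℝ) ^ (-(1 + 1 / Real.log x))) *
          (n : ℝ) ^ (1 / Real.log x) := by rw [div_eq_mul_inv, h5]; ring
      _ ≤ (pf w n * (n : ℝ) ^ (-(1 + 1 / Real.log x))) * Real.exp 1 :=
          mul_le_mul_of_nonneg_left h4 h6
      _ = _ := by ring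
  have h7 : ((1 + Real.log x) ^ 3 * B) ^ (1 / 4 : ℝ) ≤
      2.3 * Real.log x ^ (3 / 4 : ℝ) * B ^ (1 / 4 : ℝ) := by
    have h8 : (1 + Real.log x) ^ 3 * B ≤ 2.3 ^ 4 * Real.log x ^ 3 * B := by
      refine mul_le_mul_of_nonneg_right ?_ hB
      have h9 : (1 + Real.log x) ^ 3 ≤ (3 * Real.log x) ^ 3 :=
        pow_le_pow_left₀ (by positivity) (by linarith) 3
      have h10 : (0 : ℝ) ≤ Real.log x ^ 3 := by positivity
      have h11 : (3 * Real.log x) ^ 3 = 27 * Real.log x ^ 3 := by ring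
      rw [h11] at h9
      refine h9.trans ?_
      nlinarith
    refine (Real.rpow_le_rpow (by positivity) h8 (by norm_num)).trans (le_of_eq ?_)
    rw [Real.mul_rpow (by positivity) hB, Real.mul_rpow (by positivity) (by positivity)]
    congr 2
    · rw [← Real.rpow_natCast, ← Real.rpow_mul (by norm_num)]
      norm_num
    · rw [← Real.rpow_natCast, ← Real.rpow_mul hL.le]
      norm_num
  have hsum0 : 0 ≤ ∑ n ∈ (Icc 1 ⌊x⌋₊).filter Squarefree, pf w n := Finset.sum_nonneg fun n _ => hpf n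
  have hx0 : 0 < x := by linarith
  have he : Real.exp 1 < 2.7182818286 := Real.exp_one_lt_d9
  have h12 : (∑ n ∈ (Icc 1 ⌊x⌋₊).filter Squarefree, pf w n) * Real.log x ≤
      20 * x * Real.log x ^ (3 / 4 : ℝ) * B ^ (1 / 4 : ℝ) := by
    refine h1.trans ?_
    have h13 : 0 ≤ Real.log x ^ (3 / 4 : ℝ) * B ^ (1 / 4 : ℝ) := by positivity
    calc 3 * x * ∑ n ∈ (Icc 1 ⌊x⌋₊).filter Squarefree, pf w n / n
        ≤ 3 * x * (Real.exp 1 * (2.3 * Real.log x ^ (3 / 4 : ℝ) * B ^ (1 / 4 : ℝ))) := by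
          refine mul_le_mul_of_nonneg_left (h3.trans ?_) (by positivity)
          exact mul_le_mul_of_nonneg_left (h2.trans h7) (Real.exp_pos 1).le
      _ = (3 * x * 2.3 * (Real.log x ^ (3 / 4 : ℝ) * B ^ (1 / 4 : ℝ))) * Real.exp 1 := by ring
      _ ≤ (3 * x * 2.3 * (Real.log x ^ (3 / 4 : ℝ) * B ^ (1 / 4 : ℝ))) * 2.7182818286 :=
          mul_le_mul_of_nonneg_left he.le (by positivity)
      _ = (3 * 2.3 * 2.7182818286) * (x * (Real.log x ^ (3 / 4 : ℝ) * B ^ (1 / 4 : ℝ))) := by ring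
      _ ≤ 20 * (x * (Real.log x ^ (3 / 4 : ℝ) * B ^ (1 / 4 : ℝ))) :=
          mul_le_mul_of_nonneg_right (by norm_num) (by positivity)
      _ = _ := by ring
  have h14 : Real.log x ^ (3 / 4 : ℝ) = Real.log x ^ (-(1 / 4) : ℝ) * Real.log x := by
    rw [← Real.rpow_add_one hL.ne']
    norm_num
  rw [h14] at h12
  refine le_of_mul_le_mul_right ?_ hL
  refine h12.trans (le_of_eq ?_)
  ring

end QT
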